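import Mathlib

/-! Ring endomorphisms raising the variables to a power. -/

namespace Pool.Agent.W5h66

open Polynomial nonZeroDivisors

lemma lift_pow {E : Type*} [Field E] (ψ : E →+* E) {p : ℕ} (hp : 0 < p) :
    ∃ Ψ : RatFunc E →+* RatFunc E, Ψ RatFunc.X = RatFunc.X ^ p ∧ ∀ e, Ψ (RatFunc.C e) = RatFunc.C (ψ e) := by
  let φ : E[X] →+* RatFunc E := (algebraMap E[X] (RatFunc E)).comp
    ((expand E p).toRingHom.comp (mapRingHom ψ))
  have hφ : ∀ f, φ f = algebraMap E[X] (RatFunc E) (expand E p (f.map ψ)) := fun f => rfl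
  have hinj : Function.Injective φ := by
    intro f g h
    rw [hφ, hφ] at h
    exact Polynomial.map_injective ψ ψ.injective (expand_injective hp (RatFunc.algebraMap_injective E h))
  have hle : E[X]⁰ ≤ (RatFunc E)⁰.comap φ := nonZeroDivisors_le_comap_nonZeroDivisors_of_injective φ hinj
  refine ⟨RatFunc.liftRingHom φ hle, ?_, fun e => ?_⟩
  · rw [← RatFunc.algebraMap_X, RatFunc.liftRingHom_algebraMap, hφ, map_X, expand_X, map_pow]
  · rw [← RatFunc.algebraMap_C, RatFunc.liftRingHom_algebraMap, hφ, map_C, expand_C, RatFunc.algebraMap_C]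

theorem exists_pow {p : ℕ} (hp : 0 < p) :
    ∃ Ψ : RatFunc (RatFunc ℚ) →+* RatFunc (RatFunc ℚ), Ψ RatFunc.X = RatFunc.X ^ p ∧
      Ψ (RatFunc.C (RatFunc.X : RatFunc ℚ)) = (RatFunc.C (RatFunc.X : RatFunc ℚ)) ^ p := by
  obtain ⟨ψ, h1, _⟩ := lift_pow (RingHom.id ℚ) hp
  obtain ⟨Ψ, h2, h3⟩ := lift_pow ψ hp
  exact ⟨Ψ, h2, by rw [h3, h1, map_pow]⟩

end Pool.Agent.W5h66
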