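import Pool.Agent.W5h66.Core

/-! State model of the framed invariant at `a = q^N`. -/

namespace Pool.Agent.W5h66

open Equiv Function

section rm
variable {K : Type*} [Field K]

/-- colourings of the strands -/
abbrev Clr := ℕ → ℕ

/-- swap of adjacent positions -/
def sw (i : ℕ) (c : Clr) : Clr := c ∘ Equiv.swap i (i+1)

lemma sw_left (i : ℕ) (c : Clr) : sw i c i = c (i+1) := by simp [sw]
lemma sw_right (i : ℕ) (c : Clr) : sw i c (i+1) = c i := by simp [sw]
lemma sw_ne {i j : ℕ} (c : Clr) (h : j ≠ i) (h' : j ≠ i+1) : sw i c j = c j := by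
  simp [sw, Equiv.swap_apply_of_ne_of_ne h h']
lemma sw_sw (i : ℕ) (c : Clr) : sw i (sw i c) = c := by
  funext j; simp [sw]
lemma sw_eq_iff (i : ℕ) (c d : Clr) : sw i c = d ↔ c = sw i d := by
  constructor
  · rintro rfl; rw [sw_sw]
  · rintro rfl; rw [sw_sw]

/-- the basic operator -/
def Ra (q z : K) (i : ℕ) (φ : Clr → K) (c : Clr) : K :=
  if c i = c (i+1) then q * φ c else φ (sw i c) + (if c (i+1) < c i then z * φ c else 0)

variable {q z : K}

lemma Ra_quad (hz : q * q = 1 + z * q) (i : ℕ) (φ : Clr → K) (c : Clr) :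
    Ra q z i (Ra q z i φ) c = φ c + z * Ra q z i φ c := by
  unfold Ra
  rw [sw_left, sw_right, sw_sw]
  rcases Nat.lt_trichotomy (c i) (c (i+1)) with h | h | h
  · simp only [h, h.ne, h.ne', not_lt_of_gt h, if_true, if_false]; ring
  · rw [if_pos h, if_pos h]; linear_combination (φ c) * hz
  · simp only [h, h.ne, h.ne', not_lt_of_gt h, if_true, if_false]; ring

lemma Ra_far {i j : ℕ} (hij : i + 2 ≤ j) (φ : Clr → K) (c : Clr) :
    Ra q z i (Ra q z j φ) c = Ra q z j (Ra q z i φ) c := by
  unfold Ra
  have e1 : sw i c j = c j := sw_ne c (by omega) (by omega)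
  have e2 : sw i c (j+1) = c (j+1) := sw_ne c (by omega) (by omega)
  have e3 : sw j c i = c i := sw_ne c (by omega) (by omega)
  have e4 : sw j c (i+1) = c (i+1) := sw_ne c (by omega) (by omega)
  have e5 : sw j (sw i c) = sw i (sw j c) := by
    funext k
    by_cases h1 : k = i
    · subst h1; rw [sw_ne _ (by omega) (by omega), sw_left, sw_left, e4]
    by_cases h2 : k = i + 1
    · subst h2; rw [sw_ne _ (by omega) (by omega), sw_right, sw_right, e3]
    by_cases h3 : k = j
    · subst h3; rw [sw_left, sw_ne _ (by omega) (by omega), sw_ne _ (by omega) (by omega), sw_left]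
    by_cases h4 : k = j + 1
    · subst h4; rw [sw_right, sw_ne _ (by omega) (by omega), sw_ne _ (by omega) (by omega), sw_right]
    rw [sw_ne _ h3 h4, sw_ne _ h1 h2, sw_ne _ h1 h2, sw_ne _ h3 h4]
  rw [e1, e2, e3, e4, e5]
  split_ifs <;> ring

/-- operators on functions of three colours -/
def Aa3 (q z : K) (ψ : ℕ → ℕ → ℕ → K) (x y w : ℕ) : K :=
  if x = y then q * ψ x y w else ψ y x w + (if y < x then z * ψ x y w else 0)
/-- operators on functions of three colours -/
def Bb3 (q z : K) (ψ : ℕ → ℕ → ℕ → K) (x y w : ℕ) : K :=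
  if y = w then q * ψ x y w else ψ x w y + (if w < y then z * ψ x y w else 0)

lemma braid3 (hz : q * q = 1 + z * q) (ψ : ℕ → ℕ → ℕ → K) (x y w : ℕ) :
    Aa3 q z (Bb3 q z (Aa3 q z ψ)) x y w = Bb3 q z (Aa3 q z (Bb3 q z ψ)) x y w := by
  unfold Aa3 Bb3
  rcases Nat.lt_trichotomy x y with h1 | rfl | h1
  · rcases Nat.lt_trichotomy y w with h2 | rfl | h2
    · have h3 : x < w := h1.trans h2
      simp only [h1, h2, h3, h1.ne, h2.ne, h3.ne, h1.ne', h2.ne', h3.ne', not_lt_of_gt h1, not_lt_of_gt h2,
        not_lt_of_gt h3, if_true, if_false]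
    · simp only [h1, h1.ne, h1.ne', not_lt_of_gt h1, lt_irrefl, if_true, if_false]; ring
    · rcases Nat.lt_trichotomy x w with h3 | rfl | h3
      · simp only [h1, h2, h3, h1.ne, h2.ne, h3.ne, h1.ne', h2.ne', h3.ne', not_lt_of_gt h1, not_lt_of_gt h2,
          not_lt_of_gt h3, if_true, if_false]; ring
      · simp only [h1, h1.ne, h1.ne', not_lt_of_gt h1, lt_irrefl, if_true, if_false]; ring
      · simp only [h1, h2, h3, h1.ne, h2.ne, h3.ne, h1.ne', h2.ne', h3.ne', not_lt_of_gt h1, not_lt_of_gt h2,
          not_lt_of_gt h3, if_true, if_false]; ring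
  · rcases Nat.lt_trichotomy x w with h2 | rfl | h2
    · simp only [h2, h2.ne, h2.ne', not_lt_of_gt h2, lt_irrefl, if_true, if_false]; ring
    · simp only [if_true]
    · simp only [h2, h2.ne, h2.ne', not_lt_of_gt h2, lt_irrefl, if_true, if_false]; linear_combination (z * ψ x x w) * hz
  · rcases Nat.lt_trichotomy y w with h2 | rfl | h2
    · rcases Nat.lt_trichotomy x w with h3 | rfl | h3
      · simp only [h1, h2, h3, h1.ne, h2.ne, h3.ne, h1.ne', h2.ne', h3.ne', not_lt_of_gt h1, not_lt_of_gt h2,
          not_lt_of_gt h3, if_true, if_false]; ring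
      · simp only [h1, h1.ne, h1.ne', not_lt_of_gt h1, lt_irrefl, if_true, if_false]; ring
      · simp only [h1, h2, h3, h1.ne, h2.ne, h3.ne, h1.ne', h2.ne', h3.ne', not_lt_of_gt h1, not_lt_of_gt h2,
          not_lt_of_gt h3, if_true, if_false]; ring
    · simp only [h1, h1.ne, h1.ne', not_lt_of_gt h1, lt_irrefl, if_true, if_false]; linear_combination (-(z * ψ x y y)) * hz
    · have h3 : w < x := h2.trans h1
      simp only [h1, h2, h3, h1.ne, h2.ne, h3.ne, h1.ne', h2.ne', h3.ne', not_lt_of_gt h1, not_lt_of_gt h2,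
        not_lt_of_gt h3, if_true, if_false]; ring

/-- three values changed -/
def up3 (i : ℕ) (c : Clr) (x y w : ℕ) : Clr := update (update (update c i x) (i+1) y) (i+2) w

lemma up3_0 (i : ℕ) (c : Clr) (x y w : ℕ) : up3 i c x y w i = x := by
  unfold up3; rw [update_of_ne (by omega), update_of_ne (by omega), update_self]
lemma up3_1 (i : ℕ) (c : Clr) (x y w : ℕ) : up3 i c x y w (i+1) = y := by
  unfold up3; rw [update_of_ne (by omega), update_self]
lemma up3_2 (i : ℕ) (c : Clr) (x y w : ℕ) : up3 i c x y w (i+2) = w := by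
  unfold up3; rw [update_self]
lemma up3_ne (i : ℕ) (c : Clr) (x y w : ℕ) {j : ℕ} (h : j ≠ i) (h1 : j ≠ i+1) (h2 : j ≠ i+2) :
    up3 i c x y w j = c j := by
  unfold up3; rw [update_of_ne h2, update_of_ne h1, update_of_ne h]

lemma sw_up3 (i : ℕ) (c : Clr) (x y w : ℕ) : sw i (up3 i c x y w) = up3 i c y x w := by
  funext j
  by_cases h : j = i
  · subst h; rw [sw_left, up3_1, up3_0]
  by_cases h1 : j = i + 1
  · subst h1; rw [sw_right, up3_0, up3_1]
  rw [sw_ne _ h h1]
  by_cases h2 : j = i + 2
  · subst h2; rw [up3_2, up3_2]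
  · rw [up3_ne _ _ _ _ _ h h1 h2, up3_ne _ _ _ _ _ h h1 h2]

lemma sw_up3' (i : ℕ) (c : Clr) (x y w : ℕ) : sw (i+1) (up3 i c x y w) = up3 i c x w y := by
  funext j
  by_cases h : j = i + 1
  · subst h; rw [sw_left, up3_1]; exact up3_2 i c x y w
  by_cases h1 : j = i + 2
  · subst h1
    have e : sw (i+1) (up3 i c x y w) (i+1+1) = up3 i c x y w (i+1) := sw_right _ _
    rw [up3_1] at e
    rw [up3_2]; exact e
  rw [sw_ne _ h (by omega)]
  by_cases h2 : j = i
  · subst h2; rw [up3_0, up3_0]
  · rw [up3_ne _ _ _ _ _ h2 h h1, up3_ne _ _ _ _ _ h2 h h1]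

lemma up3_self (i : ℕ) (c : Clr) : up3 i c (c i) (c (i+1)) (c (i+2)) = c := by
  funext j
  by_cases h : j = i
  · subst h; rw [up3_0]
  by_cases h1 : j = i + 1
  · subst h1; rw [up3_1]
  by_cases h2 : j = i + 2
  · subst h2; rw [up3_2]
  · rw [up3_ne _ _ _ _ _ h h1 h2]

lemma Ra_up3 (i : ℕ) (φ : Clr → K) (c : Clr) :
    (fun x y w => Ra q z i φ (up3 i c x y w)) = Aa3 q z (fun x y w => φ (up3 i c x y w)) := by
  funext x y w
  unfold Ra Aa3
  rw [up3_0, up3_1, sw_up3]

lemma Ra_up3' (i : ℕ) (φ : Clr → K) (c : Clr) :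
    (fun x y w => Ra q z (i+1) φ (up3 i c x y w)) = Bb3 q z (fun x y w => φ (up3 i c x y w)) := by
  funext x y w
  unfold Ra Bb3
  rw [up3_1, sw_up3']
  have : up3 i c x y w (i+1+1) = w := up3_2 i c x y w
  rw [this]

lemma Ra_braid (hz : q * q = 1 + z * q) (i : ℕ) (φ : Clr → K) (c : Clr) :
    Ra q z i (Ra q z (i+1) (Ra q z i φ)) c = Ra q z (i+1) (Ra q z i (Ra q z (i+1) φ)) c := by
  have h1 := congrFun (congrFun (congrFun (Ra_up3 (q := q) (z := z) i (Ra q z (i+1) (Ra q z i φ)) c) (c i)) (c (i+1))) (c (i+2))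
  have h2 := congrFun (congrFun (congrFun (Ra_up3' (q := q) (z := z) i (Ra q z i (Ra q z (i+1) φ)) c) (c i)) (c (i+1))) (c (i+2))
  simp only [up3_self] at h1 h2
  rw [h1, h2]
  have e1 := Ra_up3' (q := q) (z := z) i (Ra q z i φ) c
  have e2 := Ra_up3 (q := q) (z := z) i φ c
  have e3 := Ra_up3 (q := q) (z := z) i (Ra q z (i+1) φ) c
  have e4 := Ra_up3' (q := q) (z := z) i φ c
  rw [e1, e2, e3, e4]
  exact braid3 hz _ _ _ _

lemma Ra_sub (i : ℕ) (φ ψ : Clr → K) (c : Clr) (r : K) :
    Ra q z i (fun d => φ d - r * ψ d) c = Ra q z i φ c - r * Ra q z i ψ c := by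
  unfold Ra; split_ifs <;> ring

/-- operator of a letter -/
def La (q z : K) (x : ℕ × Bool) (φ : Clr → K) (c : Clr) : K :=
  Ra q z x.1 φ c - (if x.2 then 0 else z * φ c)

open Classical in
/-- matrix elements of a word -/
noncomputable def kr (q z : K) : BW → Clr → Clr → K
  | [] => fun c c' => if c = c' then 1 else 0
  | x :: w => fun c c' => La q z x (fun d => kr q z w d c') c

lemma kr_nil (c c' : Clr) [Decidable (c = c')] : kr q z [] c c' = if c = c' then 1 else 0 := by
  unfold kr; congr
lemma kr_cons (x : ℕ × Bool) (w : BW) (c c' : Clr) :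
    kr q z (x :: w) c c' = La q z x (fun d => kr q z w d c') c := rfl

/-- operators in different variables commute -/
lemma La_comm (x y : ℕ × Bool) (G : Clr → Clr → K) (c c' : Clr) :
    La q z x (fun d => La q z y (fun d' => G d d') c') c = La q z y (fun d' => La q z x (fun d => G d d') c) c' := by
  unfold La Ra
  split_ifs <;> ring

lemma La_symm (x : ℕ × Bool) (c c' : Clr) :
    La q z x (fun d => kr q z [] d c') c = La q z x (fun d' => kr q z [] c d') c' := by
  classical
  unfold La Ra
  simp only [kr_nil]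
  by_cases h : c = c'
  · subst h
    have e : (sw x.1 c = c) ↔ (c = sw x.1 c) := ⟨fun h => h.symm, fun h => h.symm⟩
    simp only [e]
  · have e : (sw x.1 c = c') ↔ (c = sw x.1 c') := sw_eq_iff _ _ _
    by_cases h2 : c = sw x.1 c'
    · have h3 : c' x.1 = c (x.1+1) := by rw [h2, sw_right]
      have h4 : c' (x.1+1) = c x.1 := by rw [h2, sw_left]
      have h5 : (c' x.1 = c' (x.1+1)) ↔ (c x.1 = c (x.1+1)) := by rw [h3, h4]; exact eq_comm
      simp only [e, h5, h, if_false, mul_zero, ite_self]
    · simp [e, h, h2]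

lemma kr_append_one (w : BW) (x : ℕ × Bool) (c c' : Clr) :
    kr q z (w ++ [x]) c c' = La q z x (fun d' => kr q z w c d') c' := by
  induction w generalizing c c' with
  | nil => rw [List.nil_append, kr_cons]; exact La_symm x c c'
  | cons y w ih =>
    rw [List.cons_append, kr_cons]
    have e : (fun d => kr q z (w ++ [x]) d c') = fun d => La q z x (fun d' => kr q z w d d') c' := by
      funext d; exact ih d c'
    rw [e, La_comm]; rfl

/-- weighted sum over colourings of `n` strands with `N` colours -/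
def Sm (m : ℕ → K) (N : ℕ) : ℕ → (Clr → K) → K
  | 0 => fun F => F (fun _ => 0)
  | n+1 => fun F => Sm m N n (fun c => ∑ x ∈ Finset.range N, m x * F (update c n x))

variable {m : ℕ → K} {N : ℕ}

lemma Sm_succ (n : ℕ) (F : Clr → K) :
    Sm m N (n+1) F = Sm m N n (fun c => ∑ x ∈ Finset.range N, m x * F (update c n x)) := rfl

lemma Sm_add (n : ℕ) (F G : Clr → K) : Sm m N n (fun c => F c + G c) = Sm m N n F + Sm m N n G := by
  induction n generalizing F G with
  | zero => rfl
  | succ n ih =>
    rw [Sm_succ, Sm_succ, Sm_succ, ← ih]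
    congr 1
    funext c
    rw [← Finset.sum_add_distrib]
    exact Finset.sum_congr rfl (fun x _ => mul_add _ _ _)

lemma Sm_mul (n : ℕ) (r : K) (F : Clr → K) : Sm m N n (fun c => r * F c) = r * Sm m N n F := by
  induction n generalizing F with
  | zero => rfl
  | succ n ih =>
    rw [Sm_succ, Sm_succ, ← ih]
    congr 1
    funext c
    rw [Finset.mul_sum]
    exact Finset.sum_congr rfl (fun x _ => by ring)

lemma Sm_congr (n : ℕ) {F G : Clr → K} (h : ∀ c : Clr, (∀ j, j < n → c j < N) → (∀ j, n ≤ j → c j = 0) → F c = G c) :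
    Sm m N n F = Sm m N n G := by
  induction n generalizing F G with
  | zero => exact h _ (fun j hj => by omega) (fun j _ => rfl)
  | succ n ih =>
    rw [Sm_succ, Sm_succ]
    apply ih
    intro c h1 h2
    refine Finset.sum_congr rfl (fun x hx => ?_)
    rw [Finset.mem_range] at hx
    congr 1
    apply h
    · intro j hj
      by_cases hjn : j = n
      · subst hjn; rw [update_self]; exact hx
      · rw [update_of_ne hjn]; exact h1 j (by omega)
    · intro j hj
      rw [update_of_ne (by omega)]; exact h2 j (by omega)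

lemma sw_update {n i : ℕ} (h : i + 1 < n) (c : Clr) (x : ℕ) : sw i (update c n x) = update (sw i c) n x := by
  funext j
  by_cases h0 : j = n
  · subst h0; rw [sw_ne _ (by omega) (by omega), update_self, update_self]
  rw [update_of_ne h0]
  by_cases h1 : j = i
  · subst h1; rw [sw_left, sw_left, update_of_ne (by omega)]
  by_cases h2 : j = i + 1
  · subst h2; rw [sw_right, sw_right, update_of_ne (by omega)]
  rw [sw_ne _ h1 h2, sw_ne _ h1 h2, update_of_ne h0]

lemma sw_update2 (i : ℕ) (c : Clr) (x y : ℕ) :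
    sw i (update (update c i y) (i+1) x) = update (update c i x) (i+1) y := by
  funext j
  by_cases h1 : j = i
  · subst h1; rw [sw_left, update_self, update_of_ne (by omega), update_self]
  by_cases h2 : j = i + 1
  · subst h2; rw [sw_right, update_of_ne (by omega), update_self, update_self]
  rw [sw_ne _ h1 h2, update_of_ne h2, update_of_ne h1, update_of_ne h2, update_of_ne h1]

lemma Sm_swap {n i : ℕ} (h : i + 1 < n) (F : Clr → K) : Sm m N n (fun c => F (sw i c)) = Sm m N n F := by
  induction n generalizing F with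
  | zero => omega
  | succ n ih =>
    rw [Sm_succ, Sm_succ]
    by_cases hi : i + 1 = n
    · subst hi
      rw [Sm_succ, Sm_succ]
      congr 1
      funext c
      simp only [Finset.mul_sum, sw_update2]
      rw [Finset.sum_comm]
      refine Finset.sum_congr rfl (fun x _ => Finset.sum_congr rfl (fun y _ => ?_))
      ring
    · have hin : i + 1 < n := by omega
      simp only [sw_update hin]
      exact ih hin (fun c => ∑ x ∈ Finset.range N, m x * F (update c n x))

/-- the state sum -/
noncomputable def Hs (q z : K) (m : ℕ → K) (N n : ℕ) (w : BW) : K := Sm m N n (fun c => kr q z w c c)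

lemma Hs_rot {n : ℕ} {x : ℕ × Bool} (hx : x.1 + 1 < n) (w : BW) :
    Hs q z m N n (x :: w) = Hs q z m N n (w ++ [x]) := by
  unfold Hs
  have e1 : ∀ c : Clr, kr q z (x :: w) c c
      = (if c x.1 = c (x.1+1) then 0 else kr q z w (sw x.1 c) c)
        + ((if c x.1 = c (x.1+1) then q * kr q z w c c else (if c (x.1+1) < c x.1 then z * kr q z w c c else 0))
          - (if x.2 then 0 else z * kr q z w c c)) := by
    intro c; rw [kr_cons]; unfold La Ra; split_ifs <;> ring
  have e2 : ∀ c : Clr, kr q z (w ++ [x]) c c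
      = (if c x.1 = c (x.1+1) then 0 else kr q z w c (sw x.1 c))
        + ((if c x.1 = c (x.1+1) then q * kr q z w c c else (if c (x.1+1) < c x.1 then z * kr q z w c c else 0))
          - (if x.2 then 0 else z * kr q z w c c)) := by
    intro c; rw [kr_append_one]; unfold La Ra; split_ifs <;> ring
  simp only [e1, e2]
  rw [Sm_add, Sm_add]
  congr 1
  rw [← Sm_swap hx (fun c => if c x.1 = c (x.1+1) then 0 else kr q z w c (sw x.1 c))]
  congr 1
  funext c
  rw [sw_left, sw_right, sw_sw]
  by_cases h : c x.1 = c (x.1+1)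
  · rw [if_pos h, if_pos h.symm]
  · rw [if_neg h, if_neg (fun h' => h h'.symm)]

lemma Hs_conj {n : ℕ} (u v : BW) (h : Valid n u) : Hs q z m N n (u ++ v) = Hs q z m N n (v ++ u) := by
  induction u generalizing v with
  | nil => simp
  | cons x u ih =>
    rw [List.cons_append, Hs_rot (h x (by simp)), List.append_assoc, ih _ (fun y hy => h y (by simp [hy]))]
    simp

/-- a word on the first `n` strands does not see strand `n` -/
lemma kr_local {n : ℕ} {w : BW} (hw : Valid n w) (x x' : ℕ) : ∀ c c' : Clr, c n = c' n →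
    kr q z w (update c n x) (update c' n x') = if x = x' then kr q z w c c' else 0 := by
  classical
  induction w with
  | nil =>
    intro c c' h
    simp only [kr_nil]
    by_cases hx : x = x'
    · subst hx
      rw [if_pos rfl]
      have : (update c n x = update c' n x) ↔ c = c' := by
        constructor
        · intro he
          funext j
          by_cases hj : j = n
          · subst hj; exact h
          · have := congrFun he j
            rwa [update_of_ne hj, update_of_ne hj] at this
        · rintro rfl; rfl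
      simp only [this]
    · rw [if_neg hx, if_neg]
      intro he
      apply hx
      have := congrFun he n
      rwa [update_self, update_self] at this
  | cons y w ih =>
    intro c c' h
    have hy := hw y (by simp)
    have ih' := ih (fun a ha => hw a (by simp [ha]))
    rw [kr_cons, kr_cons]
    unfold La Ra
    rw [sw_update hy]
    have e1 : update c n x y.1 = c y.1 := update_of_ne (by omega) _ _
    have e2 : update c n x (y.1+1) = c (y.1+1) := update_of_ne (by omega) _ _
    rw [e1, e2]
    beta_reduce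
    rw [ih' c c' h, ih' (sw y.1 c) c' (by rw [sw_ne _ (by omega) (by omega)]; exact h)]
    split_ifs <;> ring

/-- weights -/
noncomputable def wt (q : K) (N x : ℕ) : K := q^N * (q^(2*x+1))⁻¹

lemma wt_step (hq : q ≠ 0) (N x : ℕ) : q^2 * wt q N (x+1) = wt q N x := by
  unfold wt
  have h1 : q^(2*(x+1)+1) ≠ 0 := pow_ne_zero _ hq
  have h2 : q^(2*x+1) ≠ 0 := pow_ne_zero _ hq
  field_simp
  ring

lemma wt_part (hq : q ≠ 0) (N y : ℕ) :
    q * wt q N y + (q - q⁻¹) * ∑ x ∈ Finset.range y, wt q N x = q^N := by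
  induction y with
  | zero =>
    simp only [Finset.range_zero, Finset.sum_empty, mul_zero, add_zero]
    unfold wt
    rw [mul_zero, zero_add, pow_one]
    rw [mul_comm (q^N), ← mul_assoc, mul_inv_cancel₀ hq, one_mul]
  | succ y ih =>
    rw [Finset.sum_range_succ, ← ih]
    have h := wt_step hq N y
    have : q⁻¹ * (q^2 * wt q N (y+1)) = q⁻¹ * wt q N y := by rw [h]
    have e : q⁻¹ * (q^2 * wt q N (y+1)) = q * wt q N (y+1) := by
      rw [← mul_assoc, sq, ← mul_assoc, inv_mul_cancel₀ hq, one_mul]
    rw [e] at this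
    rw [this]; ring

lemma wt_sum (hq : q ≠ 0) (N : ℕ) :
    (q - q⁻¹) * ∑ x ∈ Finset.range N, wt q N x = q^N - (q^N)⁻¹ := by
  have h := wt_part hq N N
  have e : q * wt q N N = (q^N)⁻¹ := by
    unfold wt
    have h1 : q^N ≠ 0 := pow_ne_zero _ hq
    rw [show 2*N+1 = N + N + 1 by ring, pow_add, pow_add, pow_one]
    field_simp
  rw [e] at h
  linear_combination h

lemma wt_col (hq : q ≠ 0) {N y : ℕ} (hy : y < N) :
    ∑ x ∈ Finset.range N, wt q N x * (if y = x then q else if x < y then q - q⁻¹ else 0) = q^N := by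
  rw [← wt_part hq N y]
  have h1 : ∀ x ∈ Finset.range N, wt q N x * (if y = x then q else if x < y then q - q⁻¹ else 0)
      = (if y = x then q * wt q N x else 0) + (if x < y then (q - q⁻¹) * wt q N x else 0) := by
    intro x _
    by_cases h : y = x
    · subst h; simp [mul_comm]
    · simp only [h, if_false, zero_add]
      split_ifs <;> ring
  rw [Finset.sum_congr rfl h1, Finset.sum_add_distrib, Finset.sum_ite_eq, if_pos (Finset.mem_range.2 hy)]
  congr 1
  rw [← Finset.sum_filter, Finset.mul_sum]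
  apply Finset.sum_congr _ (fun _ _ => rfl)
  ext x
  simp only [Finset.mem_filter, Finset.mem_range]
  omega

section hom
variable (hq : q ≠ 0) (N : ℕ)
include hq

lemma zq : q * q = 1 + (q - q⁻¹) * q := by rw [sub_mul, inv_mul_cancel₀ hq]; ring

lemma Hs_extend {n : ℕ} {w : BW} (hw : Valid n w) :
    (q - q⁻¹) * Hs q (q - q⁻¹) (wt q N) N (n+1) w = (q^N - (q^N)⁻¹) * Hs q (q - q⁻¹) (wt q N) N n w := by
  unfold Hs
  rw [Sm_succ]
  have e : ∀ c : Clr, ∑ x ∈ Finset.range N, wt q N x * kr q (q - q⁻¹) w (update c n x) (update c n x)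
      = (∑ x ∈ Finset.range N, wt q N x) * kr q (q - q⁻¹) w c c := by
    intro c
    rw [Finset.sum_mul]
    refine Finset.sum_congr rfl (fun x _ => ?_)
    rw [kr_local hw x x c c rfl, if_pos rfl]
  simp only [e]
  rw [Sm_mul, ← mul_assoc, wt_sum hq]

lemma Hs_stab {n : ℕ} {w : BW} (hw : Valid (n+1) w) :
    Hs q (q - q⁻¹) (wt q N) N (n+1+1) ((n,true) :: w) = q^N * Hs q (q - q⁻¹) (wt q N) N (n+1) w := by
  unfold Hs
  rw [Sm_succ, ← Sm_mul]
  apply Sm_congr
  intro c hc _
  have e : ∀ x ∈ Finset.range N, wt q N x * kr q (q - q⁻¹) ((n,true) :: w) (update c (n+1) x) (update c (n+1) x)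
      = (wt q N x * (if c n = x then q else if x < c n then q - q⁻¹ else 0)) * kr q (q - q⁻¹) w c c := by
    intro x _
    rw [kr_cons]
    unfold La Ra
    simp only [if_true, sub_zero]
    have e1 : update c (n+1) x n = c n := update_of_ne (by omega) _ _
    have e2 : update c (n+1) x (n+1) = x := update_self _ _ _
    have e3 : kr q (q - q⁻¹) w (update c (n+1) x) (update c (n+1) x) = kr q (q - q⁻¹) w c c := by
      rw [kr_local hw x x c c rfl, if_pos rfl]
    rw [e1, e2, e3]
    by_cases h : c n = x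
    · rw [if_pos h, if_pos h]; ring
    · rw [if_neg h, if_neg h]
      have e4 : sw n (update c (n+1) x) = update (update c n x) (n+1) (c n) := by
        have := sw_update2 n c x (c n)
        rwa [update_eq_self] at this
      have e5 : kr q (q - q⁻¹) w (sw n (update c (n+1) x)) (update c (n+1) x) = 0 := by
        rw [e4, kr_local hw (c n) x (update c n x) c (update_of_ne (by omega) _ _), if_neg h]
      rw [e5]
      split_ifs <;> ring
  rw [Finset.sum_congr rfl e, ← Finset.sum_mul, wt_col hq (hc n (by omega))]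

theorem Hs_HF : HF (q - q⁻¹) (q^N) (Hs q (q - q⁻¹) (wt q N) N) := by
  have hz := zq hq
  refine ⟨?_, ?_, ?_, ?_, ?_, ?_, ?_, ?_⟩
  · have h := Hs_extend hq N (n := 0) (Valid.nil 0)
    have e : Hs q (q - q⁻¹) (wt q N) N 0 [] = 1 := by
      unfold Hs
      show kr q (q - q⁻¹) [] (fun _ => 0) (fun _ => 0) = 1
      unfold kr
      rw [if_pos rfl]
    rw [e, mul_one] at h
    exact h
  · intro n u v _ hw
    exact Hs_conj u v (fun x hx => hw x (by simp [hx]))
  · intro n v i _ _ _
    unfold Hs
    congr 1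
    funext c
    rw [kr_cons]
    unfold La
    simp only [if_true, sub_zero, kr_cons]
    unfold La
    simp only [Bool.false_eq_true, if_false]
    rw [Ra_sub, Ra_quad hz]
    ring
  · intro n v i j _ _ _ _ hij
    unfold Hs
    congr 1
    funext c
    simp only [kr_cons, La, if_true, sub_zero]
    exact Ra_far hij _ c
  · intro n v i _ _ _
    unfold Hs
    congr 1
    funext c
    simp only [kr_cons, La, if_true, sub_zero]
    exact Ra_braid hz i _ c
  · intro n w hn hw
    obtain ⟨k, rfl⟩ : ∃ k, n = k + 1 := ⟨n - 1, by omega⟩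
    rw [Nat.add_sub_cancel, ← Hs_rot (x := (k,true)) (by simp), Hs_stab hq N hw]
  · intro n w hn hw
    obtain ⟨k, rfl⟩ : ∃ k, n = k + 1 := ⟨n - 1, by omega⟩
    rw [Nat.add_sub_cancel, ← Hs_rot (x := (k,false)) (by simp)]
    have h1 := Hs_stab hq N hw
    have h2 := Hs_extend hq N hw
    have h3 : Hs q (q - q⁻¹) (wt q N) N (k+1+1) ((k,true) :: w)
        = Hs q (q - q⁻¹) (wt q N) N (k+1+1) ((k,false) :: w) + (q - q⁻¹) * Hs q (q - q⁻¹) (wt q N) N (k+1+1) w := by
      unfold Hs
      rw [← Sm_mul, ← Sm_add]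
      congr 1
      funext c
      simp only [kr_cons, La, if_true, Bool.false_eq_true, if_false]
      ring
    rw [h1, h2] at h3
    linear_combination -h3
  · intro n v i _ _ _
    unfold Hs
    rw [← Sm_mul]
    have : ∀ a b c : K, a = b + c → a - b = c := by intro a b c h; rw [h]; ring
    apply this
    rw [← Sm_add]
    congr 1
    funext c
    simp only [kr_cons, La, if_true, Bool.false_eq_true, if_false]
    ring

end hom

end rm

end Pool.Agent.W5h66
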