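import Pool.Agent.W5h66.Tc
import Pool.Agent.W5h66.Rm

/-! Existence of the Markov trace by interpolation. -/

namespace Pool.Agent.W5h66

open Polynomial

section ex
variable {K : Type*} [Field K] {q : K}

/-- parameter of the trace at `a = q^N` -/
noncomputable def kap (q : K) (N : ℕ) : K := q^N * ((q - q⁻¹) * (q^N - (q^N)⁻¹)⁻¹)

variable (hr : ∀ k : ℕ, 0 < k → q^k ≠ 1) (hq : q ≠ 0)
include hr hq

lemma qpow_ne {N : ℕ} (hN : 0 < N) : q^N - (q^N)⁻¹ ≠ 0 := by
  intro h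
  have h1 : q^N = (q^N)⁻¹ := sub_eq_zero.1 h
  have h2 : q^(N+N) = 1 := by
    rw [pow_add]
    calc q^N * q^N = q^N * (q^N)⁻¹ := by rw [← h1]
      _ = 1 := mul_inv_cancel₀ (pow_ne_zero _ hq)
  exact hr (N+N) (by omega) h2

lemma z_ne' : q - q⁻¹ ≠ 0 := by
  have := qpow_ne hr hq (N := 1) one_pos
  rwa [pow_one] at this

lemma kap_inj : Function.Injective (fun N : ℕ => kap q (N+1)) := by
  have hz := z_ne' hr hq
  have key : ∀ N, 0 < N → (kap q N)⁻¹ * (q - q⁻¹) = 1 - (q^(2*N))⁻¹ := by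
    intro N hN
    have h1 := qpow_ne hr hq hN
    have h2 : q^N ≠ 0 := pow_ne_zero _ hq
    unfold kap
    rw [two_mul, pow_add, mul_inv, mul_inv, inv_inv, mul_inv]
    calc (q^N)⁻¹ * ((q - q⁻¹)⁻¹ * (q^N - (q^N)⁻¹)) * (q - q⁻¹)
        = (q^N)⁻¹ * (q^N - (q^N)⁻¹) * ((q - q⁻¹)⁻¹ * (q - q⁻¹)) := by ring
      _ = _ := by rw [inv_mul_cancel₀ hz, mul_one, mul_sub, inv_mul_cancel₀ h2]
  intro N M h
  simp only at h
  have h1 := key (N+1) (by omega)
  have h2 := key (M+1) (by omega)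
  rw [h, h2] at h1
  have h3 : q^(2*(M+1)) = q^(2*(N+1)) := inv_injective (sub_right_injective h1)
  by_contra hne
  rcases Nat.lt_or_gt_of_ne hne with hlt | hlt
  · have e : q^(2*(M+1)) = q^(2*(N+1)) * q^(2*(M-N)) := by rw [← pow_add]; congr 1; omega
    rw [e] at h3
    have : q^(2*(M-N)) = 1 := by
      have h5 : q^(2*(N+1)) ≠ 0 := pow_ne_zero _ hq
      exact mul_left_cancel₀ h5 (by rw [h3, mul_one])
    exact hr _ (by omega) this
  · have e : q^(2*(N+1)) = q^(2*(M+1)) * q^(2*(N-M)) := by rw [← pow_add]; congr 1; omega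
    rw [e] at h3
    have : q^(2*(N-M)) = 1 := by
      have h5 : q^(2*(M+1)) ≠ 0 := pow_ne_zero _ hq
      exact mul_left_cancel₀ h5 (by rw [← h3, mul_one])
    exact hr _ (by omega) this

lemma trace_at (N : ℕ) : ∃ t : Hk (q - q⁻¹) →ₗ[K] K, MT (q - q⁻¹) (kap q (N+1)) t ∧ t 1 = 1 := by
  have hz := z_ne' hr hq
  have hN := qpow_ne hr hq (N := N+1) (by omega)
  obtain ⟨t, h1, h2, _⟩ := exists_trace (B := K) (K := K) (z := q - q⁻¹) (a := q^(N+1))
    (H := Hs q (q - q⁻¹) (wt q (N+1)) (N+1)) (κ := kap q (N+1))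
    (δK := (q^(N+1) - (q^(N+1))⁻¹) * (q - q⁻¹)⁻¹) (Hs_HF hq (N+1)) hz
    (by
      show (q - q⁻¹) * ((q^(N+1) - (q^(N+1))⁻¹) * (q - q⁻¹)⁻¹) = q^(N+1) - (q^(N+1))⁻¹
      rw [mul_comm (q^(N+1) - (q^(N+1))⁻¹), mul_inv_cancel_left₀ hz])
    (mul_ne_zero hN (inv_ne_zero hz))
    (by
      show kap q (N+1) * ((q^(N+1) - (q^(N+1))⁻¹) * (q - q⁻¹)⁻¹) = q^(N+1)
      unfold kap
      calc _ = q^(N+1) * ((q - q⁻¹) * (q - q⁻¹)⁻¹) * ((q^(N+1) - (q^(N+1))⁻¹)⁻¹ * (q^(N+1) - (q^(N+1))⁻¹)) := by ring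
        _ = _ := by rw [mul_inv_cancel₀ hz, inv_mul_cancel₀ hN]; ring)
  exact ⟨t, h1, h2⟩

omit hr hq in
/-- values of a family of traces are polynomial in the parameter -/
lemma poly_val {z : K} {T : ℕ → (Hk z →ₗ[K] K)} {κ : ℕ → K} (hT : ∀ N, MT z (κ N) (T N))
    (h1 : ∀ N, T N 1 = 1) (x : Hk z) : ∃ P : K[X], ∀ N, T N x = P.eval (κ N) := by
  let S : Submodule K (Hk z) :=
    { carrier := {x | ∃ P : K[X], ∀ N, T N x = P.eval (κ N)}
      add_mem' := by
        rintro x y ⟨P, hP⟩ ⟨Q, hQ⟩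
        exact ⟨P + Q, fun N => by rw [map_add, hP, hQ, eval_add]⟩
      zero_mem' := ⟨0, fun N => by simp⟩
      smul_mem' := by
        rintro c x ⟨P, hP⟩
        exact ⟨C c * P, fun N => by rw [map_smul, hP, eval_mul, eval_C, smul_eq_mul]⟩ }
  have hS : ∀ x, x ∈ S ↔ ∃ P : K[X], ∀ N, T N x = P.eval (κ N) := fun x => Iff.rfl
  have h1S : (1 : Hk z) ∈ S := ⟨1, fun N => by rw [h1, eval_one]⟩
  have key : ∀ n : ℕ, ∀ x ∈ Hn z (n+1), x ∈ S := by
    intro n
    induction n with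
    | zero =>
      intro x hx
      have h0 : Hn z 1 ≤ ⊥ := by
        rw [Hn]; apply Algebra.adjoin_le; intro y hy; obtain ⟨i, hi, _⟩ := hy; omega
      obtain ⟨c, rfl⟩ := Algebra.mem_bot.1 (h0 hx)
      rw [Algebra.algebraMap_eq_smul_one]
      exact S.smul_mem _ h1S
    | succ n ih =>
      intro x hx
      have h := Hn_span n hx
      refine Submodule.span_le.2 ?_ h
      rintro y (hy | ⟨a, ha, b, hb, rfl⟩)
      · exact ih y hy
      · obtain ⟨P, hP⟩ := ih (a * b) (mul_mem ha hb)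
        exact ⟨X * P, fun N => by rw [(hT N).mid n ha hb, hP, eval_mul, eval_X, smul_eq_mul]⟩
  obtain ⟨n, hn⟩ := mem_Hn_top x
  exact key n x hn

/-- existence of the Markov trace for every parameter -/
theorem exists_MT (κ : K) : ∃ t : Hk (q - q⁻¹) →ₗ[K] K, MT (q - q⁻¹) κ t ∧ t 1 = 1 := by
  choose T hT h1 using trace_at hr hq
  choose P hP using poly_val hT h1
  have huniq : ∀ A B : K[X], (∀ N : ℕ, A.eval (kap q (N+1)) = B.eval (kap q (N+1))) → A = B := by
    intro A B h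
    apply Polynomial.eq_of_infinite_eval_eq
    refine (Set.infinite_range_of_injective (kap_inj hr hq)).mono ?_
    rintro x ⟨N, rfl⟩
    exact h N
  refine ⟨{ toFun := fun x => (P x).eval κ, map_add' := ?_, map_smul' := ?_ }, ⟨?_, ?_⟩, ?_⟩
  · intro x y
    have : P (x + y) = P x + P y := huniq _ _ (fun N => by rw [← hP, map_add, hP, hP, eval_add])
    rw [this, eval_add]
  · intro c x
    have : P (c • x) = C c * P x := huniq _ _ (fun N => by
      rw [← hP, map_smul, hP, eval_mul, eval_C, smul_eq_mul])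
    rw [this, eval_mul, eval_C]; rfl
  · intro x y
    have : P (x * y) = P (y * x) := huniq _ _ (fun N => by rw [← hP, ← hP, (hT N).tr])
    show (P (x * y)).eval κ = (P (y * x)).eval κ
    rw [this]
  · intro n x hx
    have : P (x * gs (q - q⁻¹) n) = X * P x := huniq _ _ (fun N => by
      rw [← hP, (hT N).mv n x hx, hP, eval_mul, eval_X, smul_eq_mul])
    show (P (x * gs (q - q⁻¹) n)).eval κ = κ * (P x).eval κ
    rw [this, eval_mul, eval_X]
  · have : P 1 = 1 := huniq _ _ (fun N => by rw [← hP, h1, eval_one])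
    show (P 1).eval κ = 1
    rw [this, eval_one]

end ex

section sv
variable {B : Type*} [CommRing B] {z : B}

/-- signed generator -/
noncomputable def lt (z : B) (i : ℕ) (e : Bool) : Hk z := if e then gs z i else gi z i

lemma sv_cons' (i : ℕ) (e : Bool) (w : BW) : sv z ((i,e) :: w) = lt z i e * sv z w := sv_cons _ _

lemma lt_cancel (i : ℕ) (e : Bool) : lt z i e * lt z i (!e) = 1 := by
  cases e
  · simpa [lt] using gi_gs (z := z) i
  · simpa [lt] using gs_gi (z := z) i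

lemma lt_far (i j : ℕ) (h : i + 2 ≤ j) (e f : Bool) : lt z i e * lt z j f = lt z j f * lt z i e := by
  cases e <;> cases f
  · simpa [lt] using gi_far i j h
  · simpa [lt] using gi_gs_far i j h
  · simpa [lt] using gs_gi_far i j h
  · simpa [lt] using gs_far i j h

lemma lt_br (i : ℕ) (e : Bool) : lt z i e * lt z (i+1) e * lt z i e = lt z (i+1) e * lt z i e * lt z (i+1) e := by
  cases e
  · simpa [lt] using gi_br (z := z) i
  · simpa [lt] using gs_br (z := z) i

lemma sv_mem {n : ℕ} {w : BW} (h : Valid n w) : sv z w ∈ Hn z n := by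
  induction w with
  | nil => exact one_mem _
  | cons x w ih =>
    rw [sv_cons]
    refine mul_mem ?_ (ih (fun y hy => h y (by simp [hy])))
    have := h x (by simp)
    split_ifs
    · exact gs_mem this
    · exact gi_mem this

end sv

end Pool.Agent.W5h66
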