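import Pool.Agent.W5h66.Op

/-! The norm of the closed `m`-braid sum `xx m` is `[m]^2` times a central element. -/

namespace Pool.Agent.W5h66

universe u v
variable {B : Type u} [CommRing B] {z : B}
variable {M : Type v} [AddCommGroup M] [Module B M]

/-- Jucys-Murphy element of strand `n` -/
noncomputable def JJ (z : B) : ℕ → Hk z
  | 0 => 1
  | n+1 => gs z n * JJ z n * gs z n

/-- additive Jucys-Murphy element -/
noncomputable def Lt (z : B) : ℕ → Hk z
  | 0 => 0
  | n+1 => So z 0 0 n 1 (gs z n)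

lemma JJ_succ (n : ℕ) : JJ z (n+1) = gs z n * JJ z n * gs z n := rfl

lemma Lt_succ_succ (n : ℕ) : Lt z (n+2) = gs z (n+1) + gs z (n+1) * Lt z (n+1) * gs z (n+1) := by
  show So z 0 0 (n+1) 1 (gs z (n+1)) = gs z (n+1) + gs z (n+1) * So z 0 0 n 1 (gs z n) * gs z (n+1)
  rw [So_one_succ]
  congr 1
  simp only [zero_add]
  rw [gs_br]
  rw [So_left (a' := 0) (gs z (n+1)) (gs z n)
    (fun i hi => by simp only [zero_add]; exact (gs_far i (n+1) (by omega)).symm)]
  rw [So_right (b' := 0) (gs z (n+1)) (gs z (n+1) * gs z n)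
    (fun i hi => by simp only [zero_add]; exact gs_far i (n+1) (by omega))]

lemma JJ_eq (n : ℕ) : JJ z n = 1 + z • Lt z n := by
  induction n with
  | zero => simp [JJ, Lt]
  | succ n ih =>
    rcases n with _ | n
    · simp [JJ, Lt, gs_quad]
    · rw [JJ_succ, ih, Lt_succ_succ, mul_add, add_mul, mul_one, gs_quad]
      simp only [smul_add, mul_smul_comm, smul_mul_assoc]
      noncomm_ring

lemma JJ_eq_mul (n : ℕ) : JJ z n = dD z 0 n * dS z 0 n := by
  induction n with
  | zero => simp [JJ]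
  | succ n ih => rw [JJ_succ, ih, dD_succ, dS_succ]; simp only [zero_add]; noncomm_ring

lemma JJ_comm {n : ℕ} {x : Hk z} (hx : x ∈ Hn z n) : JJ z n * x = x * JJ z n := by
  have h1 := dS_mul_sn (k := 0) hx
  have h2 := dD_mul_sn (k := 0) hx
  simp only [sn_zero, zero_add] at h1 h2
  rw [JJ_eq_mul, mul_assoc, h1, ← mul_assoc, h2, mul_assoc]

lemma JJ_mem {n m : ℕ} (h : n < m) : JJ z n ∈ Hn z m := by
  rw [JJ_eq_mul]; exact mul_mem (dD_mem (by omega)) (dS_mem (by omega))

/-- relative trace property -/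
def RT (z : B) (n : ℕ) (f : Hk z →ₗ[B] M) : Prop := ∀ u ∈ Hn z n, ∀ y, f (u * y) = f (y * u)

lemma RT.mono {n m : ℕ} {f : Hk z →ₗ[B] M} (h : RT z m f) (hn : n ≤ m) : RT z n f :=
  fun u hu y => h u (Hn_mono hn hu) y

/-- `y ↦ f (y * g)` -/
noncomputable def fr (f : Hk z →ₗ[B] M) (g : Hk z) : Hk z →ₗ[B] M := f ∘ₗ LinearMap.mulRight B g
@[simp] lemma fr_apply (f : Hk z →ₗ[B] M) (g y : Hk z) : fr f g y = f (y * g) := rfl

lemma gs_comm_Hn {n k : ℕ} (h : n ≤ k) {u : Hk z} (hu : u ∈ Hn z n) : u * gs z k = gs z k * u := by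
  have := comm_far (m := k) h hu (gs z 0)
  simpa using this

lemma RT.fr {n k : ℕ} {f : Hk z →ₗ[B] M} (h : RT z n f) (hk : n ≤ k) : RT z n (fr f (gs z k)) := by
  intro u hu y
  simp only [fr_apply]
  rw [mul_assoc, h u hu, mul_assoc, mul_assoc, gs_comm_Hn hk hu]

/-- adjunction between shuffle sum and mirrored sum -/
lemma So_adj (m : ℕ) : ∀ {f : Hk z →ₗ[B] M}, RT z (m+1) f → ∀ y V,
    f (y * So z 0 0 m 1 V) = f (Ro z 0 0 m y * V) := by
  induction m with
  | zero => intro f _ y V; simp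
  | succ m ih =>
    intro f hf y V
    rw [So_one_succ, mul_add, map_add, ih (hf.mono (by omega)), Ro_succ, add_mul, map_add]
    congr 1
    simp only [zero_add]
    have := hf (gs z m) (gs_mem (by omega)) (Ro z 0 0 m y * gs z m * V)
    rw [show Ro z 0 0 m y * (gs z m * V * gs z m) = Ro z 0 0 m y * gs z m * V * gs z m by
      noncomm_ring, ← this]
    congr 1
    noncomm_ring

lemma Lt_adj (n : ℕ) {f : Hk z →ₗ[B] M} (hf : RT z (n+1) f) (y : Hk z) :
    f (y * Lt z (n+1)) = f (Ro z 0 0 n y * gs z n) := So_adj n hf y (gs z n)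

lemma gs_Ro (m : ℕ) : gs z m * Ro z 0 1 m 1 = Lt z (m+1) := by
  induction m with
  | zero => simp [Lt]
  | succ m ih =>
    rw [Ro_succ, Lt_succ_succ, ← ih, mul_add, mul_one]
    simp only [zero_add, show 1 + m = m + 1 by omega]
    noncomm_ring

lemma Ro_arc (n : ℕ) : Ro z 0 0 (n+1) (dS z 0 (n+1))
    = dS z 0 (n+1) + Lt z (n+1) * dS z 0 (n+1) * gs z n := by
  rw [Ro_succ]
  congr 1
  have h : Ro z 0 1 n 1 * dS z 0 (n+1) = Ro z 0 0 n (1 * dS z 0 (n+1)) :=
    Ro_right _ _ (fun i hi => by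
      have := gs_isBr (z := z) |>.AS_shift 0 (n+1) i (by omega) (by omega)
      rw [zero_add, show 1 + i = i + 1 by omega]
      exact this.symm)
  rw [one_mul] at h
  rw [← h, ← gs_Ro]
  simp only [zero_add]
  noncomm_ring

/-- coefficients `[j]_{q^2}` -/
def chi (z : B) : ℕ → B
  | 0 => 0
  | 1 => 1
  | j+2 => (z^2+2) * chi z (j+1) - chi z j

/-- coefficients `[j]^2` -/
def bt (z : B) : ℕ → B
  | 0 => 0
  | 1 => 1
  | j+2 => 2 * bt z (j+1) - bt z j + chi z (j+2) - chi z j

/-- closed block -/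
noncomputable def gam (z : B) : ℕ → Hk z
  | 0 => 1
  | n+1 => z • dS z 0 n

lemma gam_mem (n : ℕ) : gam z n ∈ Hn z n := by
  cases n with
  | zero => exact one_mem _
  | succ n => exact Subalgebra.smul_mem _ (dS_mem (by omega)) _

/-- normal form values -/
noncomputable def GG (f : Hk z →ₗ[B] M) (n j : ℕ) : M := f (gam z (n-j) * dS z (n-j) j)

lemma GG_fr (f : Hk z →ₗ[B] M) (n j : ℕ) (h : j ≤ n) : GG (fr f (gs z n)) n j = GG f (n+1) (j+1) := by
  simp only [GG, fr_apply]
  rw [show n + 1 - (j+1) = n - j by omega, dS_succ, show n - j + j = n by omega, mul_assoc]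

lemma r1 (n : ℕ) {f : Hk z →ₗ[B] M} (hf : RT z (n+1) f) :
    f (Ro z 0 0 (n+1) (dS z 0 (n+1))) = (fr f (gs z n)) (Ro z 0 0 n (dS z 0 n))
      + f (JJ z (n+1) * dS z 0 (n+1)) := by
  have e : dS z 0 (n+1) * gs z n = dS z 0 n + z • dS z 0 (n+1) := by
    rw [dS_succ, zero_add, mul_assoc, gs_quad, mul_add, mul_one, mul_smul_comm]
  rw [Ro_arc, mul_assoc, e, mul_add, mul_smul_comm, JJ_eq, add_mul, one_mul, smul_mul_assoc]
  rw [fr_apply, ← Lt_adj n hf]
  have c : f (Lt z (n+1) * dS z 0 n) = f (dS z 0 n * Lt z (n+1)) := (hf _ (dS_mem (by omega)) _).symm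
  rw [map_add, map_add, map_add, c]
  abel

lemma r2 (n : ℕ) {f : Hk z →ₗ[B] M} (hf : RT z (n+1) f) :
    f (JJ z (n+1) * dS z 0 (n+1)) = (fr f (gs z n)) (JJ z n * dS z 0 n) + z • f (dS z 0 n)
      + (z^2) • (fr f (gs z n)) (Ro z 0 0 n (dS z 0 n)) := by
  have e1 : JJ z (n+1) * dS z 0 (n+1) = dS z 0 (n+1) * JJ z n + z • (dS z 0 n * JJ z (n+1)) := by
    rw [dS_succ, zero_add, ← mul_assoc, JJ_comm (dS_mem (by omega)), mul_assoc]
    have : JJ z (n+1) * gs z n = gs z n * JJ z n + z • JJ z (n+1) := by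
      rw [JJ_succ, mul_assoc, gs_quad, mul_add, mul_one, mul_smul_comm]
    rw [this, mul_add, mul_smul_comm, mul_assoc]
  rw [e1, map_add, map_smul, JJ_eq (n+1), mul_add, mul_one, mul_smul_comm, map_add, map_smul,
    Lt_adj n hf, smul_add, smul_smul, ← pow_two]
  have c : f (dS z 0 (n+1) * JJ z n) = f (JJ z n * dS z 0 (n+1)) := (hf _ (JJ_mem (by omega)) _).symm
  rw [c, fr_apply, fr_apply, dS_succ, zero_add, mul_assoc]
  abel

lemma c1 (n : ℕ) : ∀ {f : Hk z →ₗ[B] M}, RT z n f →
    (f (Ro z 0 0 n (dS z 0 n)) = ∑ j ∈ Finset.range (n+1), chi z (j+1) • GG f n j) ∧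
    (f (JJ z n * dS z 0 n) = ∑ j ∈ Finset.range (n+1), (chi z (j+1) - chi z j) • GG f n j) := by
  induction n with
  | zero => intro f _; simp [GG, gam, JJ, chi]
  | succ n ih =>
    intro f hf
    obtain ⟨i1, i2⟩ := ih (f := fr f (gs z n)) ((hf.mono (by omega)).fr le_rfl)
    have e : ∀ c : ℕ → B, ∑ j ∈ Finset.range (n+1), c j • GG (fr f (gs z n)) n j
        = ∑ j ∈ Finset.range (n+1), c j • GG f (n+1) (j+1) := by
      intro c
      refine Finset.sum_congr rfl (fun j hj => ?_)
      rw [GG_fr f n j (by simp at hj; omega)]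
    have g0 : z • f (dS z 0 n) = GG f (n+1) 0 := by simp [GG, gam]
    have hJ : f (JJ z (n+1) * dS z 0 (n+1))
        = ∑ j ∈ Finset.range (n+1+1), (chi z (j+1) - chi z j) • GG f (n+1) j := by
      rw [r2 n hf, i2, i1, e, e, g0, Finset.sum_range_succ' _ (n+1), Finset.smul_sum]
      simp only [chi, sub_zero, one_smul]
      rw [add_right_comm, ← Finset.sum_add_distrib]
      congr 1
      refine Finset.sum_congr rfl (fun j _ => ?_)
      rw [smul_smul, ← add_smul]
      congr 1
      ring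
    refine ⟨?_, hJ⟩
    rw [r1 n hf, i1, e, hJ, Finset.sum_range_succ' _ (n+1), Finset.sum_range_succ' _ (n+1)]
    simp only [chi, sub_zero, one_smul]
    rw [← add_assoc, ← Finset.sum_add_distrib]
    congr 1
    refine Finset.sum_congr rfl (fun j _ => ?_)
    rw [← add_smul]
    congr 1
    ring

lemma RR_split {A : Type*} [Ring A] (τ : ℕ → A) (k l : ℕ) :
    RR τ (k+(l+1)) = RR (shf (k+1) τ) l + DD τ k (l+1) * RR τ k := by
  induction l with
  | zero => rw [zero_add, RR]; simp [RR]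
  | succ l ih =>
    rw [show k + (l+1+1) = (k+(l+1))+1 by omega, RR, ih, RR, DD_succ τ k (l+1)]
    simp only [shf]
    rw [show k + 1 + l = k + (l+1) by omega]
    noncomm_ring

lemma Ro_split (k l : ℕ) (V : Hk z) : Ro z 0 0 (k+(l+1)) V
    = Ro z (k+1) (k+1) l V + dD z k (l+1) * Ro z 0 0 k V * dS z k (l+1) := by
  have := congrArg (fun f => f V) (RR_split (tw z 0 0) k l)
  simp only [LinearMap.add_apply, Module.End.mul_apply, shf_tw, DD_tw, zero_add] at this
  exact this

lemma palin (w l : ℕ) : dD z (w+1) l * gs z w * dS z (w+1) l = dS z w l * gs z (w+l) * dD z w l := by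
  induction l with
  | zero => simp
  | succ l ih =>
    rw [dD_succ, dS_succ]
    calc gs z (w+1+l) * dD z (w+1) l * gs z w * (dS z (w+1) l * gs z (w+1+l))
        = gs z (w+1+l) * (dD z (w+1) l * gs z w * dS z (w+1) l) * gs z (w+1+l) := by noncomm_ring
      _ = gs z (w+l+1) * (dS z w l * gs z (w+l) * dD z w l) * gs z (w+l+1) := by
          rw [ih, show w+1+l = w+l+1 by omega]
      _ = (gs z (w+l+1) * dS z w l) * gs z (w+l) * (dD z w l * gs z (w+l+1)) := by noncomm_ring
      _ = dS z w l * (gs z (w+l+1) * gs z (w+l) * gs z (w+l+1)) * dD z w l := by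
          rw [← gs_comm_Hn (n := w+l+1) le_rfl (dS_mem (by omega)),
            gs_comm_Hn (n := w+l+1) le_rfl (dD_mem (by omega))]
          noncomm_ring
      _ = _ := by rw [← gs_br, dS_succ, dD_succ, show w+(l+1) = w+l+1 by omega]; noncomm_ring

lemma lam0 (w : ℕ) : ∀ (l : ℕ) {f : Hk z →ₗ[B] M}, RT z (w+l) f → ∀ y ∈ Hn z l,
    f (dD z w l * dS z 0 w * sn (w+1) y * dS z w l) = f (y * JJ z l * dS z l w) := by
  induction w with
  | zero =>
    intro l f _ y hy
    have h1 := dS_mul_sn (k := 0) hy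
    simp only [sn_zero, zero_add] at h1
    rw [dS_zero, mul_one, dS_zero, mul_one, ← JJ_comm hy, JJ_eq_mul, mul_assoc, mul_assoc, h1]
  | succ w ih =>
    intro l f hf y hy
    have k1 : dD z (w+1) l * dS z 0 (w+1) = dS z 0 w * (dD z (w+1) l * gs z w) := by
      rw [dS_succ, zero_add, ← mul_assoc, ← mul_assoc]
      congr 1
      have := comm_far (m := w+1) (n := w+1) le_rfl (dS_mem (z := z) (k := 0) (l := w) (by omega)) (dD z 0 l)
      rw [sn_dD, add_zero] at this
      exact this.symm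
    have k2 : sn (w+1+1) y * dS z (w+1) l = dS z (w+1) l * sn (w+1) y := (dS_mul_sn hy).symm
    have k3 : dD z w l * sn (w+1) y = sn w y * dD z w l := dD_mul_sn hy
    have k4 : dS z w l * sn w y = sn (w+1) y * dS z w l := dS_mul_sn hy
    have k5 : gs z (w+l) * sn w y = sn w y * gs z (w+l) := by
      have := congrArg (sn w) (gs_comm_Hn (z := z) (n := l) (k := l) le_rfl hy)
      simpa using this.symm
    have e : dD z (w+1) l * dS z 0 (w+1) * sn (w+1+1) y * dS z (w+1) l
        = (dS z 0 w * dS z w l * sn w y * gs z (w+l)) * dD z w l := by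
      calc _ = dD z (w+1) l * dS z 0 (w+1) * (sn (w+1+1) y * dS z (w+1) l) := by noncomm_ring
        _ = dS z 0 w * (dD z (w+1) l * gs z w * dS z (w+1) l) * sn (w+1) y := by
            rw [k1, k2]; noncomm_ring
        _ = dS z 0 w * dS z w l * gs z (w+l) * (dD z w l * sn (w+1) y) := by
            rw [palin]; noncomm_ring
        _ = dS z 0 w * dS z w l * (gs z (w+l) * sn w y) * dD z w l := by rw [k3]; noncomm_ring
        _ = _ := by rw [k5]; noncomm_ring
    rw [e, ← hf _ (dD_mem (by omega))]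
    have e2 : dD z w l * (dS z 0 w * dS z w l * sn w y * gs z (w+l))
        = (dD z w l * dS z 0 w * sn (w+1) y * dS z w l) * gs z (w+l) := by
      calc _ = dD z w l * dS z 0 w * (dS z w l * sn w y) * gs z (w+l) := by noncomm_ring
        _ = _ := by rw [k4]; noncomm_ring
    rw [e2, ← fr_apply f (gs z (w+l)), ih l ((hf.mono (by omega)).fr le_rfl) y hy, fr_apply,
      dS_succ, show l + w = w + l by omega, mul_assoc (y * JJ z l)]

/-- `Y ↦ f (v * sn j Y)` -/
noncomputable def fl (f : Hk z →ₗ[B] M) (v : Hk z) (j : ℕ) : Hk z →ₗ[B] M :=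
  f ∘ₗ LinearMap.mulLeft B v ∘ₗ (sn j).toLinearMap
@[simp] lemma fl_apply (f : Hk z →ₗ[B] M) (v : Hk z) (j : ℕ) (Y : Hk z) :
    fl f v j Y = f (v * sn j Y) := rfl

lemma RT.fl {n j : ℕ} {f : Hk z →ₗ[B] M} (h : RT z (j+n) f) {v : Hk z} (hv : v ∈ Hn z j) :
    RT z n (fl f v j) := by
  intro u hu y
  simp only [fl_apply, map_mul]
  rw [← mul_assoc, comm_far le_rfl hv, mul_assoc, h _ (sn_mem hu), mul_assoc]

lemma lam1 (j w l : ℕ) {f : Hk z →ₗ[B] M} (hf : RT z (j+w+l) f) {v y : Hk z} (hv : v ∈ Hn z j)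
    (hy : y ∈ Hn z l) :
    f (dD z (j+w) l * (v * dS z j w) * sn (j+w+1) y * dS z (j+w) l)
      = f (v * sn j (y * JJ z l * dS z l w)) := by
  have h := lam0 w l (f := fl f v j) ((hf.mono (by omega : j + (w + l) ≤ j+w+l)).fl hv) y hy
  simp only [fl_apply, map_mul, sn_dD, sn_dS, sn_sn, add_zero] at h ⊢
  rw [← h]
  congr 1
  have c : dD z (j+w) l * v = v * dD z (j+w) l := by
    have := comm_far (m := j) le_rfl hv (dD z w l)
    rw [sn_dD] at this
    exact this.symm
  calc dD z (j+w) l * (v * dS z j w) * sn (j+w+1) y * dS z (j+w) l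
      = (dD z (j+w) l * v) * dS z j w * sn (j+w+1) y * dS z (j+w) l := by noncomm_ring
    _ = _ := by rw [c, show j+(w+1) = j+w+1 by omega]; noncomm_ring

/-- negative arcs -/
noncomputable def arn (z : B) (n : ℕ) : Hk z := AS (gi z) 0 n
lemma arn_succ (n : ℕ) : arn z (n+1) = arn z n * gi z n := by rw [arn, AS_succ, zero_add]; rfl
lemma arn_mem {m n : ℕ} (h : n < m) : arn z n ∈ Hn z m := by
  induction n with
  | zero => simp [arn, one_mem]
  | succ n ih => rw [arn_succ]; exact mul_mem (ih (by omega)) (gi_mem (by omega))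

/-- the braid sum representing `[m] P_m` -/
noncomputable def xx (z : B) : ℕ → Hk z
  | 0 => 0
  | m+1 => xx z m * gs z (m-1) + arn z m

lemma xx_mem (m : ℕ) : xx z m ∈ Hn z m := by
  induction m with
  | zero => exact zero_mem _
  | succ m ih =>
    rw [xx]
    refine add_mem ?_ (arn_mem (by omega))
    rcases m with _ | m
    · simp [xx]
    · exact mul_mem (Hn_mono (by omega) ih) (gs_mem (by omega))

lemma gam_gs (n : ℕ) : gam z (n+1) * gs z n = gam z (n+2) := by
  simp only [gam]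
  rw [smul_mul_assoc, dS_succ, zero_add]

lemma uu (n : ℕ) : ∑ m ∈ Finset.range (n+1), gam z (n-m) * sn (n-m) (arn z m) = dS z 0 n := by
  induction n with
  | zero => simp [gam, arn]
  | succ n ih =>
    rw [Finset.sum_range_succ']
    have e : ∀ m ∈ Finset.range (n+1), gam z (n+1-(m+1)) * sn (n+1-(m+1)) (arn z (m+1))
        = gam z (n-m) * sn (n-m) (arn z m) * gi z n := by
      intro m hm
      have hm' : m ≤ n := by simp at hm; omega
      rw [show n+1-(m+1) = n-m by omega, arn_succ, map_mul, sn_gi, show n - m + m = n by omega,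
        mul_assoc]
    rw [Finset.sum_congr rfl e, ← Finset.sum_mul, ih, gi, mul_sub, dS_succ, zero_add]
    simp [gam, arn]

lemma newton (n : ℕ) : ∑ m ∈ Finset.range (n+1), gam z (n-m) * sn (n-m) (xx z (m+1))
    = (n+1) • dS z 0 n := by
  induction n with
  | zero => simp [gam, xx, arn]
  | succ n ih =>
    have e : ∀ m ∈ Finset.range (n+2), gam z (n+1-m) * sn (n+1-m) (xx z (m+1))
        = gam z (n+1-m) * sn (n+1-m) (xx z m * gs z (m-1))
          + gam z (n+1-m) * sn (n+1-m) (arn z m) := by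
      intro m _
      rw [xx, map_add, mul_add]
    rw [Finset.sum_congr rfl e, Finset.sum_add_distrib, uu, Finset.sum_range_succ']
    have e2 : ∀ m ∈ Finset.range (n+1), gam z (n+1-(m+1)) * sn (n+1-(m+1)) (xx z (m+1) * gs z (m+1-1))
        = gam z (n-m) * sn (n-m) (xx z (m+1)) * gs z n := by
      intro m hm
      have hm' : m ≤ n := by simp at hm; omega
      rw [show n+1-(m+1) = n-m by omega, show m+1-1 = m by omega, map_mul, sn_gs,
        show n - m + m = n by omega, mul_assoc]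
    rw [Finset.sum_congr rfl e2, ← Finset.sum_mul, ih, smul_mul_assoc]
    have : dS z 0 n * gs z n = dS z 0 (n+1) := by rw [dS_succ, zero_add]
    rw [this]
    simp only [xx, zero_mul, map_zero, mul_zero, add_zero]
    rw [← succ_nsmul]

lemma tri_sum {M : Type*} [AddCommMonoid M] (F : ℕ → ℕ → M) (n : ℕ) :
    ∑ m ∈ Finset.range n, ∑ j ∈ Finset.range (n-m), F m j
      = ∑ t ∈ Finset.range n, ∑ m ∈ Finset.range (t+1), F m (t-m) := by
  induction n with
  | zero => simp
  | succ n ih =>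
    rw [Finset.sum_range_succ _ n, Finset.sum_range_succ (fun t => ∑ m ∈ Finset.range (t+1), F m (t-m)) n,
      ← ih]
    have e : ∀ m ∈ Finset.range n, ∑ j ∈ Finset.range (n+1-m), F m j
        = ∑ j ∈ Finset.range (n-m), F m j + F m (n-m) := by
      intro m hm
      rw [show n+1-m = (n-m)+1 by simp at hm; omega, Finset.sum_range_succ]
    rw [Finset.sum_congr rfl e, Finset.sum_add_distrib, Finset.sum_range_succ (fun m => F m (n-m)) n,
      show n + 1 - n = 1 by omega, Finset.sum_range_one, Nat.sub_self, add_assoc]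

lemma tri_swap {M : Type*} [AddCommMonoid M] (F : ℕ → ℕ → M) (n : ℕ) :
    ∑ m ∈ Finset.range n, ∑ j ∈ Finset.range (n-m), F m j
      = ∑ j ∈ Finset.range n, ∑ m ∈ Finset.range (n-j), F m j := by
  rw [tri_sum, tri_sum (fun a b => F b a)]
  refine Finset.sum_congr rfl (fun t _ => ?_)
  rw [← Finset.sum_range_reflect]
  refine Finset.sum_congr rfl (fun m hm => ?_)
  have : m ≤ t := by simp at hm; omega
  rw [show t + 1 - 1 - m = t - m by omega, show t - (t - m) = m by omega]

/-- convolution of the coefficient sequences -/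
def cc (z : B) (t : ℕ) : B := ∑ m ∈ Finset.range t, chi z (t-m) * bt z (m+1)

lemma chi_rec (j : ℕ) : chi z (j+2) = (z^2+2) * chi z (j+1) - chi z j := by rw [chi]
lemma bt_rec (j : ℕ) : bt z (j+2) = 2 * bt z (j+1) - bt z j + chi z (j+2) - chi z j := by rw [bt]

lemma cc_rec (t : ℕ) : cc z (t+2) = (z^2+2) * cc z (t+1) - cc z t + bt z (t+2) := by
  simp only [cc]
  rw [Finset.sum_range_succ _ (t+1), Finset.sum_range_succ _ t, Finset.sum_range_succ _ t,
    show t + 2 - (t+1) = 1 by omega, show t + 2 - t = 2 by omega, show t + 1 - t = 1 by omega]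
  have e : ∀ m ∈ Finset.range t, chi z (t+2-m) * bt z (m+1)
      = (z^2+2) * (chi z (t+1-m) * bt z (m+1)) - chi z (t-m) * bt z (m+1) := by
    intro m hm
    have : m < t := by simpa using hm
    rw [show t + 2 - m = (t - m) + 2 by omega, chi_rec, show t - m + 1 = t + 1 - m by omega]
    ring
  rw [Finset.sum_congr rfl e, Finset.sum_sub_distrib, ← Finset.mul_sum]
  simp only [chi]
  ring

lemma i3 (t : ℕ) : z^2 * cc z t = (t+1) * chi z (t+1) - bt z (t+1) := by
  induction t using Nat.strong_induction_on with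
  | _ t ih =>
    rcases t with _ | _ | t
    · simp [cc, chi, bt]
    · simp [cc, chi, bt]; ring
    · have h1 := ih (t+1) (by omega)
      have h0 := ih t (by omega)
      rw [cc_rec, mul_add, mul_sub, mul_left_comm, h1, h0]
      have r1 := chi_rec (z := z) (t+1)
      have r2 := bt_rec (z := z) (t+1)
      rw [show t+1+2 = t+2+1 by omega, show t+1+1 = t+2 by omega] at r1 r2
      push_cast
      rw [r2, show t+1+1 = t+2 by omega]
      linear_combination (-(t:B)-2) * r1

/-- the contribution of one Newton term -/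
lemma a1_term (k m : ℕ)
    (ih : ∀ {f : Hk z →ₗ[B] M}, RT z m f → f (Ro z 0 0 m (xx z (m+1))) = bt z (m+1) • f (dS z 0 m))
    {f : Hk z →ₗ[B] M} (hf : RT z (k+(m+1)) f) :
    f (Ro z 0 0 (k+(m+1)) (gam z (k+1) * sn (k+1) (xx z (m+1))))
      = bt z (m+1) • GG f (k+(m+1)) m
        + ∑ j ∈ Finset.range (k+1), (chi z (j+1) • (z • f (gam z (k-j) * sn (k-j) (xx z (m+1)) * dS z (k+(m+1)-j) j))
          + (z^2 * chi z (j+1) * bt z (m+1)) • GG f (k+(m+1)) (m+1+j)) := by
  have hY : ∀ u ∈ Hn z (k+1), u * sn (k+1) (xx z (m+1)) = sn (k+1) (xx z (m+1)) * u :=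
    fun u hu => comm_far le_rfl hu _
  rw [Ro_split, map_add]
  congr 1
  · -- first part
    rw [Ro_pull_left (gam z (k+1)) _ (fun i hi => gs_comm_Hn (by omega) (gam_mem _))]
    have e := sn_Ro (k+1) 0 0 m (xx z (m+1))
    rw [add_zero] at e
    rw [← e]
    have := ih (f := fl f (gam z (k+1)) (k+1)) ((hf.mono (by omega : k+1+m ≤ k+(m+1))).fl (gam_mem _))
    rw [fl_apply, fl_apply, sn_dS, add_zero] at this
    rw [this, GG, show k + (m+1) - m = k+1 by omega]
  · -- second part
    rw [Ro_pull_right (sn (k+1) (xx z (m+1))) _ (fun i hi => by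
      rw [zero_add]; exact hY _ (gs_mem (by omega)))]
    have hg : gam z (k+1) = z • dS z 0 k := rfl
    rw [hg, map_smul, smul_mul_assoc, mul_smul_comm, smul_mul_assoc, map_smul]
    set Y := sn (k+1) (xx z (m+1)) with hYd
    let h : Hk z →ₗ[B] M := f ∘ₗ LinearMap.mulRight B (Y * dS z k (m+1)) ∘ₗ LinearMap.mulLeft B (dD z k (m+1))
    have hh : ∀ u, h u = f (dD z k (m+1) * u * Y * dS z k (m+1)) := by
      intro u
      simp only [h, LinearMap.comp_apply, LinearMap.mulRight_apply, LinearMap.mulLeft_apply]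
      congr 1
      noncomm_ring
    have hRT : RT z k h := by
      intro u hu y
      rw [hh, hh]
      have a1 : u * dD z k (m+1) = dD z k (m+1) * u := by
        have := comm_far le_rfl hu (dD z 0 (m+1))
        rwa [sn_dD, add_zero] at this
      have a2 : u * dS z k (m+1) = dS z k (m+1) * u := by
        have := comm_far le_rfl hu (dS z 0 (m+1))
        rwa [sn_dS, add_zero] at this
      have a3 : u * Y = Y * u := hY u (Hn_mono (by omega) hu)
      have b1 : dD z k (m+1) * (u * y) * Y * dS z k (m+1) = u * (dD z k (m+1) * y * Y * dS z k (m+1)) := by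
        calc _ = (dD z k (m+1) * u) * y * Y * dS z k (m+1) := by noncomm_ring
          _ = _ := by rw [← a1]; noncomm_ring
      have b2 : dD z k (m+1) * (y * u) * Y * dS z k (m+1) = (dD z k (m+1) * y * Y * dS z k (m+1)) * u := by
        calc _ = dD z k (m+1) * y * (u * Y) * dS z k (m+1) := by noncomm_ring
          _ = dD z k (m+1) * y * Y * (u * dS z k (m+1)) := by rw [a3]; noncomm_ring
          _ = _ := by rw [a2]; noncomm_ring
      rw [b1, b2, hf u (Hn_mono (by omega) hu)]
    rw [← mul_assoc (dD z k (m+1)), ← hh, (c1 k hRT).1, Finset.smul_sum]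
    refine Finset.sum_congr rfl (fun j hj => ?_)
    have hj' : j ≤ k := by simp at hj; omega
    obtain ⟨i, rfl⟩ : ∃ i, k = i + j := ⟨k - j, by omega⟩
    rw [GG, hh, show i + j - j = i by omega, hYd, lam1 i j (m+1) (hf.mono (by omega)) (gam_mem _) (xx_mem _)]
    rw [JJ_eq, mul_add, mul_one, add_mul, map_add, mul_add, map_add]
    have hRT1 : RT z (m+1) (fl f (gam z i) i) := (hf.mono (by omega : i + (m+1) ≤ i+j+(m+1))).fl (gam_mem _)
    have hRT2 : RT z (m+1) (fr (fl f (gam z i) i) (dS z (m+1) j)) := by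
      intro u hu y
      rw [fr_apply, fr_apply]
      have : u * dS z (m+1) j = dS z (m+1) j * u := by
        have := comm_far le_rfl hu (dS z 0 j)
        rwa [sn_dS, add_zero] at this
      rw [mul_assoc, hRT1 u hu, mul_assoc, mul_assoc, this]
    have q := Lt_adj m hRT2 (xx z (m+1))
    have q2 := ih (f := fr (fr (fl f (gam z i) i) (dS z (m+1) j)) (gs z m)) ((hRT2.mono (by omega)).fr le_rfl)
    have q3 : dS z 0 m * gs z m * dS z (m+1) j = dS z 0 (m+1+j) := by
      rw [dS_add, dS_succ, zero_add, zero_add]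
    simp only [fr_apply, fl_apply] at q q2
    rw [q3] at q2
    rw [mul_smul_comm, smul_mul_assoc, map_smul, mul_smul_comm, map_smul, q, q2, smul_smul, smul_add,
      smul_smul, smul_smul, smul_smul]
    have e1 : gam z i * sn i (xx z (m+1) * dS z (m+1) j) = gam z i * sn i (xx z (m+1)) * dS z (i+j+(m+1)-j) j := by
      rw [map_mul, sn_dS, show i+j+(m+1)-j = i+(m+1) by omega, mul_assoc]
    have e2 : GG f (i+j+(m+1)) (m+1+j) = f (gam z i * sn i (dS z 0 (m+1+j))) := by
      rw [GG, sn_dS, show i+j+(m+1)-(m+1+j) = i by omega, add_zero]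
    rw [e1, e2]
    congr 2 <;> ring

theorem a1 (n : ℕ) : ∀ {f : Hk z →ₗ[B] M}, RT z n f →
    f (Ro z 0 0 n (xx z (n+1))) = bt z (n+1) • f (dS z 0 n) := by
  induction n using Nat.strong_induction_on with
  | _ n ih =>
  intro f hf
  have N := congrArg (fun y => f (Ro z 0 0 n y)) (newton (z := z) n)
  simp only [map_sum, map_nsmul] at N
  rw [Finset.sum_range_succ, Nat.sub_self, (c1 n hf).1] at N
  have g0 : gam z 0 = 1 := rfl
  rw [g0, one_mul, sn_zero] at N
  have T : ∀ m ∈ Finset.range n, f (Ro z 0 0 n (gam z (n-m) * sn (n-m) (xx z (m+1))))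
      = bt z (m+1) • GG f n m
        + (∑ j ∈ Finset.range (n-m), chi z (j+1) • (z • f (gam z (n-1-m-j) * sn (n-1-m-j) (xx z (m+1)) * dS z (n-j) j))
          + ∑ j ∈ Finset.range (n-m), (z^2 * chi z (j+1) * bt z (m+1)) • GG f n (m+1+j)) := by
    intro m hm
    have hm' : m < n := by simpa using hm
    obtain ⟨k, rfl⟩ : ∃ k, n = k + (m+1) := ⟨n - (m+1), by omega⟩
    have := a1_term k m (ih m hm') hf
    rw [Finset.sum_add_distrib] at this
    rw [show k + (m+1) - m = k+1 by omega, this, show k + (m+1) - 1 - m = k by omega]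
  have S1 : ∑ m ∈ Finset.range n, ∑ j ∈ Finset.range (n-m),
      chi z (j+1) • (z • f (gam z (n-1-m-j) * sn (n-1-m-j) (xx z (m+1)) * dS z (n-j) j))
      = ∑ j ∈ Finset.range n, (((n - j : ℕ) : B) * chi z (j+1)) • GG f n j := by
    rw [tri_swap (fun m j => chi z (j+1) • (z • f (gam z (n-1-m-j) * sn (n-1-m-j) (xx z (m+1)) * dS z (n-j) j)))]
    refine Finset.sum_congr rfl (fun j hj => ?_)
    have hj' : j < n := by simpa using hj
    obtain ⟨i, rfl⟩ : ∃ i, n = i + 1 + j := ⟨n - 1 - j, by omega⟩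
    have e := newton (z := z) i
    rw [show i + 1 + j - j = i + 1 by omega]
    have e2 : ∀ m ∈ Finset.range (i+1), chi z (j+1) • (z • f (gam z (i+1+j-1-m-j) * sn (i+1+j-1-m-j) (xx z (m+1)) * dS z (i+1) j))
        = chi z (j+1) • (z • f ((gam z (i-m) * sn (i-m) (xx z (m+1))) * dS z (i+1) j)) := by
      intro m _
      rw [show i+1+j-1-m-j = i-m by omega]
    rw [Finset.sum_congr rfl e2, ← Finset.smul_sum, ← Finset.smul_sum, ← map_sum, ← Finset.sum_mul, e]
    rw [smul_mul_assoc, map_nsmul, GG, show i+1+j-j = i+1 by omega]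
    have e3 : gam z (i+1) = z • dS z 0 i := rfl
    rw [e3, smul_mul_assoc, map_smul, ← Nat.cast_smul_eq_nsmul B, smul_smul, smul_smul, smul_smul]
    congr 1
    ring
  have S2 : ∑ m ∈ Finset.range n, ∑ j ∈ Finset.range (n-m),
      (z^2 * chi z (j+1) * bt z (m+1)) • GG f n (m+1+j)
      = ∑ t ∈ Finset.range n, (((t+2 : ℕ) : B) * chi z (t+2) - bt z (t+2)) • GG f n (t+1) := by
    rw [tri_sum (fun m j => (z^2 * chi z (j+1) * bt z (m+1)) • GG f n (m+1+j))]
    refine Finset.sum_congr rfl (fun t _ => ?_)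
    have h3 := i3 (z := z) (t+1)
    have e : ∀ m ∈ Finset.range (t+1), (z^2 * chi z (t-m+1) * bt z (m+1)) • GG f n (m+1+(t-m))
        = (z^2 * (chi z (t+1-m) * bt z (m+1))) • GG f n (t+1) := by
      intro m hm
      have : m ≤ t := by simp at hm; omega
      rw [show m+1+(t-m) = t+1 by omega, show t-m+1 = t+1-m by omega, mul_assoc]
    rw [Finset.sum_congr rfl e, ← Finset.sum_smul, ← Finset.mul_sum]
    congr 1
    have h4 : cc z (t+1) = ∑ m ∈ Finset.range (t+1), chi z (t+1-m) * bt z (m+1) := rfl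
    rw [← h4, h3, show t+1+1 = t+2 by omega]
    push_cast
    ring
  rw [Finset.sum_congr rfl T, Finset.sum_add_distrib, Finset.sum_add_distrib, S1, S2] at N
  -- rewrite the last sum
  have S3 : ∑ t ∈ Finset.range n, (((t+2 : ℕ) : B) * chi z (t+2) - bt z (t+2)) • GG f n (t+1)
      = ∑ t ∈ Finset.range (n+1), (((t+1 : ℕ) : B) * chi z (t+1) - bt z (t+1)) • GG f n t := by
    rw [Finset.sum_range_succ' _ n]
    have e0 : (((0+1 : ℕ) : B) * chi z (0+1) - bt z (0+1)) • GG f n 0 = 0 := by simp [chi, bt]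
    rw [e0, add_zero]
  rw [S3, Finset.sum_range_succ _ n, Finset.sum_range_succ _ n] at N
  have S4 : ∑ m ∈ Finset.range n, bt z (m+1) • GG f n m
      + (∑ j ∈ Finset.range n, (((n - j : ℕ) : B) * chi z (j+1)) • GG f n j
        + ∑ t ∈ Finset.range n, (((t+1 : ℕ) : B) * chi z (t+1) - bt z (t+1)) • GG f n t)
      = ∑ j ∈ Finset.range n, (((n+1 : ℕ) : B) * chi z (j+1)) • GG f n j := by
    rw [← Finset.sum_add_distrib, ← Finset.sum_add_distrib]
    refine Finset.sum_congr rfl (fun j hj => ?_)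
    have hj' : j < n := by simpa using hj
    rw [← add_smul, ← add_smul]
    congr 1
    rw [Nat.cast_sub hj'.le]
    push_cast
    ring
  have S5 : (n+1) • (∑ j ∈ Finset.range n, chi z (j+1) • GG f n j + chi z (n+1) • GG f n n)
      = ∑ j ∈ Finset.range n, (((n+1 : ℕ) : B) * chi z (j+1)) • GG f n j
        + (((n+1 : ℕ) : B) * chi z (n+1)) • GG f n n := by
    rw [smul_add, Finset.smul_sum, ← Nat.cast_smul_eq_nsmul B, smul_smul]
    congr 1
    refine Finset.sum_congr rfl (fun j hj => ?_)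
    rw [← Nat.cast_smul_eq_nsmul B, smul_smul]
  rw [S5, ← S4] at N
  have g : GG f n n = f (dS z 0 n) := by simp [GG, gam]
  rw [← g]
  rw [sub_smul] at N
  have : ∀ a b c d e x y : M, a + (b + (c + (d - e))) + x = a + (b + c) + y → y = d → x = e := by
    intro a b c d e x y h1 h2
    subst h2
    have h3 : a + (b + (c + (y - e))) + x = a + (b + c) + y + (x - e) := by abel
    rw [h3] at h1
    have h4 : x - e = 0 := by simpa using h1
    exact sub_eq_zero.mp h4
  exact this _ _ _ _ _ _ _ N rfl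

/-- norm of `xx (n+1)` -/
theorem norm_xx (n : ℕ) : No z 0 0 (n+1) (xx z (n+1)) = bt z (n+1) • No z 0 0 n (dS z 0 n) := by
  rw [No_succ']
  exact a1 n (f := No z 0 0 n) (fun u hu y => No_comm0 hu y)

end Pool.Agent.W5h66
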