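import Pool.Agent.W5h66.Gl

/-! Decorations of the components: block traces and replacement. -/

namespace Pool.Agent.W5h66

open Equiv

universe u v
variable {B : Type u} [CommRing B] {z : B}
variable {M : Type v} [AddCommGroup M] [Module B M]

/-- product of copies of `x` at the blocks of a list -/
noncomputable def PL (z : B) (p : ℕ) (x : Hk z) (L : List ℕ) : Hk z := (L.map fun i => sn (i * p) x).prod

@[simp] lemma PL_nil (p : ℕ) (x : Hk z) : PL z p x [] = 1 := rfl
lemma PL_cons (p : ℕ) (x : Hk z) (i : ℕ) (L : List ℕ) : PL z p x (i :: L) = sn (i * p) x * PL z p x L := by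
  simp [PL]
lemma PL_append (p : ℕ) (x : Hk z) (L L' : List ℕ) : PL z p x (L ++ L') = PL z p x L * PL z p x L' := by
  simp [PL]

lemma block_comm' {p i j : ℕ} (hij : i ≠ j) {x u : Hk z} (hx : x ∈ Hn z p) (hu : u ∈ Hn z p) :
    sn (i*p) x * sn (j*p) u = sn (j*p) u * sn (i*p) x := by
  rcases Nat.lt_or_gt_of_ne hij with h | h
  · exact block_comm h hx u
  · exact (block_comm h hu x).symm

lemma PL_comm {p : ℕ} {x u : Hk z} (hx : x ∈ Hn z p) (hu : u ∈ Hn z p) {L : List ℕ} {j : ℕ} (hj : j ∉ L) :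
    PL z p x L * sn (j*p) u = sn (j*p) u * PL z p x L := by
  induction L with
  | nil => simp
  | cons i L ih =>
    rw [List.mem_cons, not_or] at hj
    rw [PL_cons, mul_assoc, ih hj.2, ← mul_assoc, block_comm' (Ne.symm hj.1) hx hu, mul_assoc]

lemma PL_XT (p : ℕ) {L : List ℕ} (hL : L.Nodup) : PL z p (xx z p) L = XT z p L.toFinset := by
  induction L with
  | nil => simp
  | cons i L ih =>
    rw [List.nodup_cons] at hL
    rw [PL_cons, ih hL.2, List.toFinset_cons, XT_insert p (by simpa using hL.1)]; rfl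

section
variable {t : Hk z →ₗ[B] M} (tr : ∀ x y, t (x * y) = t (y * x))
include tr

lemma blk {p n : ℕ} {w : BW} (hw : Valid n w) {i : ℕ} (hi : i < n) {Y : Hk z}
    (hY : ∀ j, (prm w).SameCycle i j → ∀ u ∈ Hn z p, Y * sn (j*p) u = sn (j*p) u * Y) :
    ∀ u ∈ Hn z p, ∀ y ∈ Hn z p, t (cb z p w * Y * sn (i*p) (u * y)) = t (cb z p w * Y * sn (i*p) (y * u)) := by
  classical
  intro u hu y hy
  have hS := (Supp.prm hw).inv
  have hex := exists_return hS hi
  obtain ⟨k, hk, hkm⟩ : ∃ k, (0 < k ∧ (((prm w)⁻¹)^k) i = i) ∧ ∀ m, 0 < m → m < k → (((prm w)⁻¹)^m) i ≠ i := by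
    refine ⟨Nat.find hex, Nat.find_spec hex, fun m h0 hm => ?_⟩
    have := Nat.find_min hex hm
    push Not at this
    exact this h0
  set ρ := (prm w)⁻¹ with hρ
  have hsc : ∀ m : ℕ, (prm w).SameCycle i ((ρ^m) i) := by
    intro m
    exact ⟨-(m:ℤ), by rw [zpow_neg, zpow_natCast, ← inv_pow]⟩
  have step : ∀ m : ℕ, t (cb z p w * Y * sn (i*p) y * sn ((ρ^m) i * p) u)
      = t (cb z p w * Y * (sn ((ρ^(m+1)) i * p) u * sn (i*p) y)) := by
    intro m
    rw [tr]
    have e1 : sn ((ρ^m) i * p) u * (cb z p w * Y * sn (i*p) y)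
        = (sn ((ρ^m) i * p) u * cb z p w) * Y * sn (i*p) y := by noncomm_ring
    rw [e1, cb_slide' p w _ hu, pow_succ' ρ m, Perm.mul_apply]
    have e2 := hY (ρ ((ρ^m) i)) (by
      have := hsc (m+1)
      rwa [pow_succ', Perm.mul_apply] at this) u hu
    have e3 : cb z p w * sn (ρ ((ρ^m) i) * p) u * Y * sn (i*p) y
        = cb z p w * (sn (ρ ((ρ^m) i) * p) u * Y) * sn (i*p) y := by noncomm_ring
    have e4 : (prm w)⁻¹ ((ρ^m) i) = ρ ((ρ^m) i) := rfl
    rw [e4, e3, ← e2]
    congr 1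
    noncomm_ring
  have main : ∀ m, m < k → t (cb z p w * Y * sn (i*p) (y * u))
      = t (cb z p w * Y * sn (i*p) y * sn ((ρ^m) i * p) u) := by
    intro m
    induction m with
    | zero => intro _; rw [pow_zero, Perm.one_apply, map_mul (sn (i*p))]; congr 1; noncomm_ring
    | succ m ih =>
      intro hm
      rw [ih (by omega), step m, block_comm' (hkm (m+1) (by omega) hm) hu hy]
      congr 1
      noncomm_ring
  have h1 := main (k-1) (by omega)
  rw [step, show k - 1 + 1 = k by omega, hk.2, ← map_mul] at h1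
  exact h1.symm

theorem replace {p n : ℕ} {w : BW} (hw : Valid n w) {T : Finset ℕ} (hT : IsTr n (prm w) T)
    {x x' : Hk z} (hx : x ∈ Hn z p) (hx' : x' ∈ Hn z p) {c : B}
    (h : ∀ f : Hk z →ₗ[B] M, (∀ u ∈ Hn z p, ∀ y ∈ Hn z p, f (u * y) = f (y * u)) → f x = c • f x') :
    ∀ L : List ℕ, L.Nodup → (∀ i ∈ L, i ∈ T) →
      t (cb z p w * PL z p x L) = c ^ L.length • t (cb z p w * PL z p x' L) := by
  have key : ∀ L₂ L₁ : List ℕ, (L₁ ++ L₂).Nodup → (∀ i ∈ L₁ ++ L₂, i ∈ T) →
      t (cb z p w * (PL z p x' L₁ * PL z p x L₂))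
        = c ^ L₂.length • t (cb z p w * (PL z p x' L₁ * PL z p x' L₂)) := by
    intro L₂
    induction L₂ with
    | nil => intro L₁ _ _; simp
    | cons i L₂ ih =>
      intro L₁ hnd hsub
      have hnd2 : (L₁ ++ [i] ++ L₂).Nodup := by simpa using hnd
      have hi : i ∈ T := hsub i (by simp)
      have hi1 : i ∉ L₁ := by
        intro hm
        rw [List.nodup_append] at hnd
        exact (hnd.2.2 i hm i (by simp)) rfl
      have hi2 : i ∉ L₂ := by
        rw [List.nodup_append] at hnd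
        exact (List.nodup_cons.1 hnd.2.1).1
      have hj : ∀ j, (prm w).SameCycle i j → j ∉ L₁ ∧ j ∉ L₂ := by
        intro j hij
        constructor
        · intro hm
          have := hT.uni i hi j (hsub j (by simp [hm])) hij
          exact hi1 (this ▸ hm)
        · intro hm
          have := hT.uni i hi j (hsub j (by simp [hm])) hij
          exact hi2 (this ▸ hm)
      let f : Hk z →ₗ[B] M := t ∘ₗ LinearMap.mulLeft B (cb z p w * (PL z p x' L₁ * PL z p x L₂)) ∘ₗ (sn (i*p)).toLinearMap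
      have hf : ∀ y, f y = t (cb z p w * (PL z p x' L₁ * PL z p x L₂) * sn (i*p) y) := fun y => rfl
      have hfT : ∀ u ∈ Hn z p, ∀ y ∈ Hn z p, f (u * y) = f (y * u) := by
        intro u hu y hy
        rw [hf, hf]
        refine blk tr hw (hT.lt i hi) (fun j hij u hu => ?_) u hu y hy
        obtain ⟨h1, h2⟩ := hj j hij
        rw [mul_assoc, PL_comm hx hu h2, ← mul_assoc, PL_comm hx' hu h1, mul_assoc]
      have hcomm : ∀ y ∈ Hn z p, cb z p w * (PL z p x' L₁ * (sn (i*p) y * PL z p x L₂))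
          = cb z p w * (PL z p x' L₁ * PL z p x L₂) * sn (i*p) y := by
        intro y hy
        rw [← PL_comm hx hy hi2]; noncomm_ring
      rw [PL_cons, hcomm x hx, ← hf, h f hfT, hf, ← hcomm x' hx']
      have e : PL z p x' L₁ * (sn (i*p) x' * PL z p x L₂) = PL z p x' (L₁ ++ [i]) * PL z p x L₂ := by
        rw [PL_append, PL_cons]; simp [mul_assoc]
      have e' : PL z p x' (L₁ ++ [i]) * PL z p x' L₂ = PL z p x' L₁ * PL z p x' (i :: L₂) := by
        rw [PL_append, PL_cons, PL_cons]; simp [mul_assoc]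
      rw [e, ih (L₁ ++ [i]) hnd2 (by simpa using hsub), e', smul_smul, List.length_cons, pow_succ']
  intro L hL hsub
  have := key L [] (by simpa using hL) (by simpa using hsub)
  simpa using this

end

end Pool.Agent.W5h66
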