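import Mathlib

/-! Shuffle sums and norm sums for a family of ring elements satisfying the braid relations. -/

namespace Pool.Agent.W5h66

/-- the word `k+l-1, ..., k` -/
def dw (k : ℕ) : ℕ → List ℕ
  | 0 => []
  | l+1 => (k+l) :: dw k l

/-- words of the shuffle sum -/
def shw : ℕ → ℕ → List (List ℕ)
  | 0 => fun _ => [[]]
  | k+1 => fun l => Nat.rec [[]] (fun l' acc => acc ++ (shw k (l'+1)).map (· ++ dw k (l'+1))) l

/-- words of the full norm sum -/
def nnw : ℕ → List (List ℕ)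
  | 0 => [[]]
  | n+1 => (shw n 1).flatMap (fun c => (nnw n).map (fun w => c ++ w))

section ring
variable {A : Type*} [Ring A]

/-- evaluate a word -/
def wv (τ : ℕ → A) (w : List ℕ) : A := (w.map τ).prod

/-- evaluate a list of words -/
def ev (τ : ℕ → A) (L : List (List ℕ)) : A := (L.map (wv τ)).sum

@[simp] lemma wv_nil (τ : ℕ → A) : wv τ [] = 1 := by simp [wv]
lemma wv_cons (τ : ℕ → A) (i : ℕ) (w : List ℕ) : wv τ (i :: w) = τ i * wv τ w := by simp [wv]
lemma wv_append (τ : ℕ → A) (v w : List ℕ) : wv τ (v ++ w) = wv τ v * wv τ w := by simp [wv]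

@[simp] lemma ev_nil (τ : ℕ → A) : ev τ [] = 0 := by simp [ev]
lemma ev_cons (τ : ℕ → A) (w : List ℕ) (L) : ev τ (w :: L) = wv τ w + ev τ L := by simp [ev]
lemma ev_append (τ : ℕ → A) (L L' : List (List ℕ)) : ev τ (L ++ L') = ev τ L + ev τ L' := by
  simp [ev]
lemma ev_one (τ : ℕ → A) : ev τ [[]] = 1 := by simp [ev, wv]
lemma ev_map_append (τ : ℕ → A) (L : List (List ℕ)) (d : List ℕ) :
    ev τ (L.map (· ++ d)) = ev τ L * wv τ d := by
  induction L with
  | nil => simp
  | cons a L ih => simp only [List.map_cons, ev_cons, ih, wv_append, add_mul]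
lemma ev_map_append_left (τ : ℕ → A) (L : List (List ℕ)) (d : List ℕ) :
    ev τ (L.map (fun w => d ++ w)) = wv τ d * ev τ L := by
  induction L with
  | nil => simp
  | cons a L ih => simp only [List.map_cons, ev_cons, ih, wv_append, mul_add]
lemma ev_flatMap (τ : ℕ → A) (L L' : List (List ℕ)) :
    ev τ (L.flatMap (fun c => L'.map (fun w => c ++ w))) = ev τ L * ev τ L' := by
  induction L with
  | nil => simp
  | cons a L ih => simp only [List.flatMap_cons, ev_append, ih, ev_cons, ev_map_append_left, add_mul]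

/-- descending product -/
def DD (τ : ℕ → A) (k l : ℕ) : A := wv τ (dw k l)
/-- shuffle sum -/
def SS (τ : ℕ → A) (k l : ℕ) : A := ev τ (shw k l)
/-- norm sum -/
def NN (τ : ℕ → A) (n : ℕ) : A := ev τ (nnw n)

@[simp] lemma DD_zero (τ : ℕ → A) (k : ℕ) : DD τ k 0 = 1 := by simp [DD, dw]
lemma DD_succ (τ : ℕ → A) (k l : ℕ) : DD τ k (l+1) = τ (k+l) * DD τ k l := by
  simp [DD, dw, wv_cons]
@[simp] lemma DD_one (τ : ℕ → A) (k : ℕ) : DD τ k 1 = τ k := by simp [DD_succ]

@[simp] lemma SS_zero_left (τ : ℕ → A) (l : ℕ) : SS τ 0 l = 1 := by simp [SS, shw, ev_one]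
@[simp] lemma SS_zero_right (τ : ℕ → A) (k : ℕ) : SS τ k 0 = 1 := by
  cases k <;> simp [SS, shw, ev_one]
lemma SS_succ (τ : ℕ → A) (k l : ℕ) :
    SS τ (k+1) (l+1) = SS τ (k+1) l + SS τ k (l+1) * DD τ k (l+1) := by
  have : shw (k+1) (l+1) = shw (k+1) l ++ (shw k (l+1)).map (· ++ dw k (l+1)) := rfl
  rw [SS, this, ev_append, ev_map_append]; rfl

@[simp] lemma NN_zero (τ : ℕ → A) : NN τ 0 = 1 := by simp [NN, nnw, ev_one]
lemma NN_succ (τ : ℕ → A) (n : ℕ) : NN τ (n+1) = SS τ n 1 * NN τ n := by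
  rw [NN, nnw, ev_flatMap]; rfl
@[simp] lemma NN_one (τ : ℕ → A) : NN τ 1 = 1 := by simp [NN_succ]

lemma DD_add (τ : ℕ → A) (k l m : ℕ) : DD τ k (l+m) = DD τ (k+l) m * DD τ k l := by
  induction m with
  | zero => simp
  | succ m ih => rw [← add_assoc, DD_succ, ih, DD_succ, mul_assoc, add_assoc]

lemma DD_succ' (τ : ℕ → A) (k l : ℕ) : DD τ k (l+1) = DD τ (k+1) l * τ k := by
  rw [add_comm l 1, DD_add, DD_one]

/-- shifted family -/
def shf (k : ℕ) (τ : ℕ → A) : ℕ → A := fun i => τ (k + i)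

lemma DD_shf (τ : ℕ → A) (k j l : ℕ) : DD (shf k τ) j l = DD τ (k+j) l := by
  induction l with
  | zero => simp
  | succ l ih => rw [DD_succ, DD_succ, ih]; simp [shf, add_assoc]

/-- intertwining -/
lemma it_D {τ τ' : ℕ → A} {X : A} (k l : ℕ) (h : ∀ i, k ≤ i → i < k + l → X * τ' i = τ i * X) :
    X * DD τ' k l = DD τ k l * X := by
  induction l with
  | zero => simp
  | succ l ih =>
    rw [DD_succ, DD_succ, ← mul_assoc, h (k+l) (by omega) (by omega), mul_assoc,
      ih (fun i h1 h2 => h i h1 (by omega)), mul_assoc]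

lemma it_S {τ τ' : ℕ → A} {X : A} : ∀ (k l : ℕ), (∀ i, i + 1 < k + l → X * τ' i = τ i * X) →
    X * SS τ' k l = SS τ k l * X := by
  intro k
  induction k with
  | zero => intro l _; simp
  | succ k ihk =>
    intro l
    induction l with
    | zero => intro _; simp
    | succ l ihl =>
      intro h
      rw [SS_succ, SS_succ, mul_add, add_mul, ihl (fun i hi => h i (by omega)), ← mul_assoc,
        ihk (l+1) (fun i hi => h i (by omega)), mul_assoc, mul_assoc,
        it_D k (l+1) (fun i h1 h2 => h i (by omega))]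

lemma it_N {τ τ' : ℕ → A} {X : A} : ∀ (n : ℕ), (∀ i, i + 1 < n → X * τ' i = τ i * X) →
    X * NN τ' n = NN τ n * X := by
  intro n
  induction n with
  | zero => intro _; simp
  | succ n ih =>
    intro h
    rw [NN_succ, NN_succ, ← mul_assoc, it_S n 1 (fun i hi => h i (by omega)), mul_assoc,
      ih (fun i hi => h i (by omega)), mul_assoc]

/-- braid relations -/
structure IsBr (τ : ℕ → A) : Prop where
  far : ∀ i j, i + 2 ≤ j → τ i * τ j = τ j * τ i
  br : ∀ i, τ i * τ (i+1) * τ i = τ (i+1) * τ i * τ (i+1)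

lemma IsBr.sft {τ : ℕ → A} (h : IsBr τ) (k : ℕ) : IsBr (shf k τ) :=
  ⟨fun i j hij => h.far _ _ (by omega), fun i => h.br _⟩

lemma IsBr.DD_shift {τ : ℕ → A} (h : IsBr τ) (k l i : ℕ) (h1 : k ≤ i) (h2 : i + 1 < k + l) :
    DD τ k l * τ (i+1) = τ i * DD τ k l := by
  induction l with
  | zero => omega
  | succ l ih =>
    by_cases h3 : i + 1 < k + l
    · rw [DD_succ, mul_assoc, ih h3, ← mul_assoc, ← h.far i (k+l) (by omega), mul_assoc]
    · obtain ⟨l', rfl⟩ : ∃ l', l = l' + 1 := ⟨l - 1, by omega⟩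
      have e : i = k + l' := by omega
      subst e
      have hc : τ (k+l'+1) * DD τ k l' = DD τ k l' * τ (k+l'+1) :=
        it_D k l' (fun j h4 h5 => (h.far j _ (by omega)).symm)
      rw [DD_succ, DD_succ, show k + (l'+1) = k + l' + 1 by omega]
      calc τ (k+l'+1) * (τ (k+l') * DD τ k l') * τ (k+l'+1)
          = τ (k+l'+1) * τ (k+l') * (DD τ k l' * τ (k+l'+1)) := by noncomm_ring
        _ = τ (k+l'+1) * τ (k+l') * (τ (k+l'+1) * DD τ k l') := by rw [hc]
        _ = (τ (k+l'+1) * τ (k+l') * τ (k+l'+1)) * DD τ k l' := by noncomm_ring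
        _ = (τ (k+l') * τ (k+l'+1) * τ (k+l')) * DD τ k l' := by rw [h.br]
        _ = _ := by noncomm_ring

lemma IsBr.assoc {τ : ℕ → A} (h : IsBr τ) : ∀ (k l m : ℕ),
    SS τ (k+l) m * SS τ k l = SS τ k (l+m) * SS (shf k τ) l m := by
  have key : ∀ n k l m, k + l + m = n →
      SS τ (k+l) m * SS τ k l = SS τ k (l+m) * SS (shf k τ) l m := by
    intro n
    induction n using Nat.strong_induction_on with
    | _ n ih =>
    intro k l m hn
    rcases k with _ | k
    · simp
      have : shf 0 τ = τ := by funext i; simp [shf]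
      rw [this]
    rcases l with _ | l
    · simp
    rcases m with _ | m
    · simp
    have e1 : SS τ (k+1+(l+1)) (m+1)
        = SS τ (k+1+(l+1)) m + SS τ (k+1+l) (m+1) * DD τ (k+1+l) (m+1) := by
      rw [show k+1+(l+1) = (k+1+l)+1 by omega, SS_succ]
    have e2 : SS τ (k+1) (l+1) = SS τ (k+1) l + SS τ k (l+1) * DD τ k (l+1) := SS_succ _ _ _
    have e3 : SS τ (k+1) (l+1+(m+1))
        = SS τ (k+1) (l+(m+1)) + SS τ k (l+1+(m+1)) * DD τ k (l+1+(m+1)) := by
      rw [show l+1+(m+1) = (l+(m+1))+1 by omega, SS_succ]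
    have e4 : SS (shf (k+1) τ) (l+1) (m+1)
        = SS (shf (k+1) τ) (l+1) m + SS (shf (k+1) τ) l (m+1) * DD τ (k+1+l) (m+1) := by
      rw [SS_succ, DD_shf]
    -- term 1
    have t1 := ih (k+1+(l+1)+m) (by omega) (k+1) (l+1) m rfl
    have t2 := ih (k+1+l+(m+1)) (by omega) (k+1) l (m+1) rfl
    have t3 := ih (k+(l+1)+(m+1)) (by omega) k (l+1) (m+1) rfl
    have c1 : DD τ (k+1+l) (m+1) * SS τ (k+1) l = SS τ (k+1) l * DD τ (k+1+l) (m+1) := by
      apply it_S
      intro i hi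
      symm
      apply it_D
      intro j h1 h2
      exact h.far i j (by omega)
    have c2 : DD τ (k+1+l) (m+1) * SS τ k (l+1) = SS τ k (l+1) * DD τ (k+1+l) (m+1) := by
      apply it_S
      intro i hi
      symm
      apply it_D
      intro j h1 h2
      exact h.far i j (by omega)
    have c3 : DD τ k (l+1+(m+1)) * SS (shf (k+1) τ) (l+1) (m+1)
        = SS (shf k τ) (l+1) (m+1) * DD τ k (l+1+(m+1)) := by
      apply it_S
      intro i hi
      have := h.DD_shift k (l+1+(m+1)) (k+i) (by omega) (by omega)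
      simp only [shf]
      rw [show k+1+i = k+i+1 by omega, this]
    have d1 : DD τ k (l+1+(m+1)) = DD τ (k+1+l) (m+1) * DD τ k (l+1) := by
      rw [DD_add, show k+(l+1) = k+1+l by omega]
    rw [e1, e2, add_mul, mul_add]
    have f1 : SS τ (k+1+(l+1)) m * (SS τ (k+1) l + SS τ k (l+1) * DD τ k (l+1))
        = SS τ (k+1) (l+1+m) * SS (shf (k+1) τ) (l+1) m := by
      rw [← e2, t1]
    rw [← mul_add, f1]
    have f2 : SS τ (k+1+l) (m+1) * DD τ (k+1+l) (m+1) * (SS τ (k+1) l + SS τ k (l+1) * DD τ k (l+1))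
        = SS τ (k+1) (l+(m+1)) * (SS (shf (k+1) τ) l (m+1) * DD τ (k+1+l) (m+1))
          + SS τ k (l+1+(m+1)) * DD τ k (l+1+(m+1)) * SS (shf (k+1) τ) (l+1) (m+1) := by
      rw [mul_add]
      congr 1
      · rw [mul_assoc, c1, ← mul_assoc, t2, mul_assoc]
      · rw [mul_assoc, ← mul_assoc (DD τ (k+1+l) (m+1)), c2, mul_assoc (SS τ k (l+1)), ← d1,
          ← mul_assoc, show k+1+l = k+(l+1) by omega, t3, mul_assoc, mul_assoc, c3]
    rw [f2, e3, e4, show l+1+m = l+(m+1) by omega]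
    noncomm_ring
  exact fun k l m => key _ k l m rfl

lemma IsBr.N_add {τ : ℕ → A} (h : IsBr τ) (k l : ℕ) :
    NN τ (k+l) = SS τ k l * (NN τ k * NN (shf k τ) l) := by
  induction l with
  | zero => simp
  | succ l ih =>
    rw [← add_assoc, NN_succ, ih, ← mul_assoc, h.assoc, NN_succ]
    have c : SS (shf k τ) l 1 * NN τ k = NN τ k * SS (shf k τ) l 1 := by
      apply it_N
      intro i hi
      symm
      apply it_S
      intro j hj
      exact h.far i (k+j) (by omega)
    rw [mul_assoc, ← mul_assoc (SS (shf k τ) l 1), c, mul_assoc]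

/-- mirrored one step sum -/
def RR (τ : ℕ → A) : ℕ → A
  | 0 => 1
  | n+1 => 1 + τ n * RR τ n

lemma SS_one_succ (τ : ℕ → A) (n : ℕ) : SS τ (n+1) 1 = 1 + SS τ n 1 * τ n := by
  rw [show (1:ℕ) = 0+1 from rfl, SS_succ, SS_zero_right]; simp

lemma it_R {τ τ' : ℕ → A} {X : A} : ∀ (n : ℕ), (∀ i, i < n → X * τ' i = τ i * X) →
    X * RR τ' n = RR τ n * X := by
  intro n
  induction n with
  | zero => intro _; simp [RR]
  | succ n ih =>
    intro h
    rw [RR, RR, mul_add, add_mul, ← mul_assoc, h n (by omega), mul_assoc,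
      ih (fun i hi => h i (by omega)), mul_one, one_mul, mul_assoc]

lemma IsBr.N_succ' {τ : ℕ → A} (h : IsBr τ) (n : ℕ) : NN τ (n+1) = NN τ n * RR τ n := by
  induction n with
  | zero => simp [RR]
  | succ n ih =>
    have c : τ n * NN τ n = NN τ n * τ n := by
      apply it_N
      intro i hi
      exact (h.far i n (by omega)).symm
    rw [NN_succ, SS_one_succ, add_mul, one_mul, ih, RR, mul_add, mul_one]
    congr 1
    calc SS τ n 1 * τ n * (NN τ n * RR τ n) = SS τ n 1 * (τ n * NN τ n) * RR τ n := by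
          noncomm_ring
      _ = (SS τ n 1 * NN τ n) * (τ n * RR τ n) := by rw [c]; noncomm_ring
      _ = _ := by rw [← NN_succ, ih]

open MulOpposite in
lemma SS_op (τ : ℕ → A) (n : ℕ) : SS (fun i => op (τ i)) n 1 = op (RR τ n) := by
  induction n with
  | zero => simp [RR]
  | succ n ih => rw [SS_one_succ, ih, RR]; simp

open MulOpposite in
lemma IsBr.opp {τ : ℕ → A} (h : IsBr τ) : IsBr (fun i => op (τ i)) where
  far i j hij := by rw [← op_mul, ← op_mul, h.far i j hij]
  br i := by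
    simp only [← op_mul]
    rw [← mul_assoc, h.br, mul_assoc]

open MulOpposite in
lemma IsBr.NN_op {τ : ℕ → A} (h : IsBr τ) (n : ℕ) : NN (fun i => op (τ i)) n = op (NN τ n) := by
  induction n with
  | zero => simp
  | succ n ih => rw [NN_succ, ih, SS_op, ← op_mul, h.N_succ']

lemma IsBr.N_rdiv {τ : ℕ → A} (h : IsBr τ) (n i : ℕ) (hi : i + 1 < n) :
    ∃ X, NN τ n = X * (1 + τ i) := by
  obtain ⟨m, rfl⟩ : ∃ m, n = i + (2 + m) := ⟨n - i - 2, by omega⟩
  have h2 : NN (shf i τ) 2 = 1 + τ i := by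
    rw [show (2:ℕ) = 1+1 from rfl, NN_succ, show (1:ℕ) = 0+1 from rfl, SS_succ]
    simp [shf]
  have c : (1 + τ i) * NN (shf 2 (shf i τ)) m = NN (shf 2 (shf i τ)) m * (1 + τ i) := by
    apply it_N
    intro j hj
    simp only [shf, add_mul, mul_add, one_mul, mul_one]
    rw [h.far i (i + (2+j)) (by omega)]
  rw [h.N_add, (h.sft i).N_add, h2]
  refine ⟨SS τ i (2+m) * (NN τ i * (SS (shf i τ) 2 m * NN (shf 2 (shf i τ)) m)), ?_⟩
  rw [c]
  noncomm_ring

open MulOpposite in
lemma IsBr.N_ldiv {τ : ℕ → A} (h : IsBr τ) (n i : ℕ) (hi : i + 1 < n) :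
    ∃ X, NN τ n = (1 + τ i) * X := by
  obtain ⟨X, hX⟩ := h.opp.N_rdiv n i hi
  refine ⟨unop X, ?_⟩
  rw [h.NN_op] at hX
  have := congrArg unop hX
  simpa using this

end ring

end Pool.Agent.W5h66
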