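import Pool.Agent.W5h66.Tc

/-! Cables of braid words: permutations, components, Hecke values. -/

namespace Pool.Agent.W5h66

open Equiv

/-- shift of a word -/
def shb (m : ℕ) (w : BW) : BW := w.map fun x => (m + x.1, x.2)

/-- crossing of two bundles of `p` parallel strands -/
def band (p : ℕ) (e : Bool) : BW :=
  (List.range p).reverse.flatMap fun r => (List.range p).map fun i => (r + i, e)

/-- the `p`-strand cable of a braid word -/
def cable (p : ℕ) (w : BW) : BW := w.flatMap fun x => shb (x.1 * p) (band p x.2)

/-- the closed braids summing to the power sum -/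
def hook (p j : ℕ) : BW := (List.range (p-1)).map fun i => (i, decide (j ≤ i))

/-- all insertions of the closed braids at the given blocks -/
def fills (p : ℕ) : List ℕ → List BW
  | [] => [[]]
  | i :: L => (List.range p).flatMap fun j => (fills p L).map fun u => shb (i * p) (hook p j) ++ u

section perm

lemma prm_shb_lt {m : ℕ} (w : BW) {x : ℕ} (h : x < m) : prm (shb m w) x = x := by
  induction w with
  | nil => rfl
  | cons y w ih =>
    have : shb m (y :: w) = (m + y.1, y.2) :: shb m w := rfl
    rw [this, prm_cons, Perm.mul_apply, ih]
    exact Equiv.swap_apply_of_ne_of_ne (by simp only; omega) (by simp only; omega)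

lemma prm_shb (m : ℕ) (w : BW) (x : ℕ) : prm (shb m w) (m + x) = m + prm w x := by
  induction w with
  | nil => rfl
  | cons y w ih =>
    have : shb m (y :: w) = (m + y.1, y.2) :: shb m w := rfl
    rw [this, prm_cons, Perm.mul_apply, ih, prm_cons, Perm.mul_apply]
    simp only
    by_cases h1 : prm w x = y.1
    · rw [h1, Equiv.swap_apply_left, Equiv.swap_apply_left]; omega
    by_cases h2 : prm w x = y.1 + 1
    · rw [h2, Equiv.swap_apply_right, ← add_assoc, Equiv.swap_apply_right]
    · rw [Equiv.swap_apply_of_ne_of_ne h1 h2, Equiv.swap_apply_of_ne_of_ne (by omega) (by omega)]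

/-- a row of crossings is a rotation -/
lemma prm_row (f : ℕ → Bool) (m x : ℕ) : prm ((List.range m).map fun i => (i, f i)) x
    = if x < m then x + 1 else if x = m then 0 else x := by
  induction m generalizing x with
  | zero =>
    by_cases h : x = 0
    · subst h; simp
    · simp [h]
  | succ m ih =>
    rw [List.range_succ, List.map_append, prm_append, Perm.mul_apply]
    have e : prm ([m].map fun i => (i, f i)) = Equiv.swap m (m+1) := by simp [prm]
    rw [e]
    by_cases h1 : x = m
    · subst h1
      rw [Equiv.swap_apply_left, ih, if_neg (by omega), if_neg (by omega), if_pos (by omega)]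
    by_cases h2 : x = m + 1
    · subst h2
      rw [Equiv.swap_apply_right, ih, if_neg (by omega), if_pos rfl, if_neg (by omega), if_pos rfl]
    · rw [Equiv.swap_apply_of_ne_of_ne h1 h2, ih]
      by_cases h3 : x < m
      · rw [if_pos h3, if_pos (by omega)]
      · rw [if_neg h3, if_neg h1, if_neg (by omega), if_neg h2]

lemma prm_rows (p : ℕ) (e : Bool) (r x : ℕ) :
    prm ((List.range r).reverse.flatMap fun r => (List.range p).map fun i => (r + i, e)) x
      = if x < p then x + r else if x < p + r then x - p else x := by
  induction r with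
  | zero =>
    by_cases h : x < p
    · simp [h]
    · simp [h]
  | succ r ih =>
    rw [List.range_succ, List.reverse_append, List.reverse_singleton, List.singleton_append,
      List.flatMap_cons, prm_append, Perm.mul_apply, ih]
    have e1 : (List.range p).map (fun i => (r + i, e)) = shb r ((List.range p).map fun i => (i, e)) := by
      rw [shb, List.map_map]; rfl
    rw [e1]
    have hrow := prm_row (fun _ => e) p
    by_cases h1 : x < p
    · rw [if_pos h1, if_pos h1, add_comm x r, prm_shb, hrow, if_pos h1]; omega
    rw [if_neg h1, if_neg h1]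
    by_cases h2 : x < p + r
    · rw [if_pos h2, if_pos (by omega)]
      exact prm_shb_lt _ (by omega)
    rw [if_neg h2]
    by_cases h3 : x = p + r
    · rw [if_pos (by omega)]
      have : x = r + p := by omega
      rw [this, prm_shb, hrow, if_neg (by omega), if_pos rfl]; omega
    · rw [if_neg (by omega)]
      obtain ⟨y, rfl⟩ : ∃ y, x = r + y := ⟨x - r, by omega⟩
      rw [prm_shb, hrow, if_neg (by omega), if_neg (by omega)]

lemma prm_band (p : ℕ) (e : Bool) (x : ℕ) : prm (band p e) x
    = if x < p then x + p else if x < p + p then x - p else x := prm_rows p e p x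

lemma prm_cable {p : ℕ} (w : BW) (b r : ℕ) (hr : r < p) :
    prm (cable p w) (b * p + r) = prm w b * p + r := by
  induction w with
  | nil => rfl
  | cons y w ih =>
    have : cable p (y :: w) = shb (y.1 * p) (band p y.2) ++ cable p w := rfl
    rw [this, prm_append, Perm.mul_apply, ih, prm_cons, Perm.mul_apply]
    set c := prm w b
    set i := y.1
    rcases Nat.lt_trichotomy c i with h | h | h
    · rw [Equiv.swap_apply_of_ne_of_ne (by omega) (by omega)]
      apply prm_shb_lt
      have := Nat.mul_le_mul_right p h
      rw [Nat.succ_mul] at this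
      omega
    · rw [h, Equiv.swap_apply_left, prm_shb, prm_band, if_pos hr]; ring
    · rcases Nat.lt_or_ge (i+1) c with h2 | h2
      · rw [Equiv.swap_apply_of_ne_of_ne (by omega) (by omega)]
        obtain ⟨d, hd⟩ : ∃ d, c = i + (2 + d) := ⟨c - i - 2, by omega⟩
        rw [hd]
        have e1 : (i + (2 + d)) * p + r = i * p + (p + p + d * p + r) := by ring
        rw [e1, prm_shb, prm_band]
        have : 0 ≤ d * p := Nat.zero_le _
        rw [if_neg (by omega), if_neg (by omega)]
      · have : c = i + 1 := by omega
        rw [this, Equiv.swap_apply_right]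
        have e1 : (i + 1) * p + r = i * p + (p + r) := by ring
        rw [e1, prm_shb, prm_band, if_neg (by omega), if_pos (by omega)]
        omega

/-- rotation inside a block -/
def rot (p r : ℕ) : ℕ := if r + 1 < p then r + 1 else 0

lemma rot_lt {p r : ℕ} (h : r < p) : rot p r < p := by
  unfold rot; split_ifs <;> omega

lemma prm_hook {p j r : ℕ} (hr : r < p) : prm (hook p j) r = rot p r := by
  rw [hook, prm_row, rot]
  split_ifs <;> omega

lemma prm_hook_ge {p j r : ℕ} (hp : 0 < p) (hr : p ≤ r) : prm (hook p j) r = r := by
  rw [hook, prm_row]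
  split_ifs <;> omega

lemma prm_fills {p : ℕ} {L : List ℕ} (hL : L.Nodup) {u : BW} (hu : u ∈ fills p L) (b r : ℕ) (hr : r < p) :
    prm u (b * p + r) = b * p + (if b ∈ L then rot p r else r) := by
  induction L generalizing u with
  | nil =>
    simp only [fills, List.mem_singleton] at hu
    subst hu; simp
  | cons i L ih =>
    simp only [fills, List.mem_flatMap, List.mem_range, List.mem_map] at hu
    obtain ⟨j, hj, u, hu, rfl⟩ := hu
    rw [List.nodup_cons] at hL
    rw [prm_append, Perm.mul_apply, ih hL.2 hu]
    have hr' : (if b ∈ L then rot p r else r) < p := by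
      split_ifs
      · exact rot_lt hr
      · exact hr
    rcases Nat.lt_trichotomy b i with h | h | h
    · rw [prm_shb_lt]
      · simp only [List.mem_cons, h.ne, false_or]
      · have := Nat.mul_le_mul_right p h
        rw [Nat.succ_mul] at this
        omega
    · subst h
      rw [if_neg hL.1, prm_shb, prm_hook hr, if_pos (List.mem_cons_self)]
    · obtain ⟨d, rfl⟩ : ∃ d, b = i + 1 + d := ⟨b - i - 1, by omega⟩
      have hne : i + 1 + d ≠ i := by omega
      set r' := (if i + 1 + d ∈ L then rot p r else r) with hr''
      have e1 : (i + 1 + d) * p + r' = i * p + (p + d * p + r') := by ring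
      have e2 : (if i + 1 + d ∈ i :: L then rot p r else r) = r' := by
        simp only [List.mem_cons, hne, false_or, hr'']
      rw [e2, e1, prm_shb, prm_hook_ge (by omega)]
      have : 0 ≤ d * p := Nat.zero_le _
      omega

lemma cab_tr {n p : ℕ} (hp : 0 < p) {π P : Equiv.Perm ℕ} (hπ : Supp n π) {T : Finset ℕ}
    (hT : IsTr n π T)
    (h : ∀ b r, r < p → P (b * p + r) = π b * p + (if b ∈ T then rot p r else r)) :
    IsTr (n * p) P (T.image (· * p)) := by
  classical
  have hdiv : ∀ b r, r < p → (b * p + r) / p = b := by
    intro b r hr
    rw [Nat.div_eq_of_lt_le]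
    · omega
    · rw [Nat.succ_mul]; omega
  have hproj : ∀ a b, P.SameCycle a b → π.SameCycle (a / p) (b / p) := by
    intro a b hab
    refine sc_min (E := fun a b => π.SameCycle (a / p) (b / p)) (fun a => sc_refl _ _)
      (fun a b h => h.symm) (fun a b c h1 h2 => h1.trans h2) (fun a => ?_) hab
    have e : a = a / p * p + a % p := by rw [mul_comm]; exact (Nat.div_add_mod a p).symm
    have hr : a % p < p := Nat.mod_lt _ hp
    have e2 : P a = π (a / p) * p + (if a / p ∈ T then rot p (a % p) else a % p) := by
      conv_lhs => rw [e]
      exact h _ _ hr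
    have e3 : P a / p = π (a / p) := by
      rw [e2]
      apply hdiv
      split_ifs
      · exact rot_lt hr
      · exact hr
    rw [e3]
    exact sc_step _ _
  refine ⟨?_, ?_, ?_⟩
  · intro i hi
    obtain ⟨j, hj, rfl⟩ := Finset.mem_image.1 hi
    exact Nat.mul_lt_mul_of_pos_right (hT.lt j hj) hp
  · intro j hj
    have hb : j / p < n := by rw [Nat.div_lt_iff_lt_mul hp]; exact hj
    obtain ⟨i, hi, hib⟩ := hT.cov (j / p) hb
    refine ⟨i * p, Finset.mem_image_of_mem _ hi, ?_⟩
    have hex := exists_return hπ (hT.lt i hi)
    obtain ⟨k, hk, hkm⟩ : ∃ k, (0 < k ∧ (π^k) i = i) ∧ ∀ m, 0 < m → m < k → (π^m) i ≠ i := by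
      refine ⟨Nat.find hex, Nat.find_spec hex, fun m h0 hm => ?_⟩
      have := Nat.find_min hex hm
      push Not at this
      exact this h0
    have hnot : ∀ m, 0 < m → m < k → (π^m) i ∉ T := by
      intro m h0 hm hmem
      exact hkm m h0 hm (hT.uni i hi _ hmem ⟨m, by simp⟩).symm
    have hA : ∀ m, m + 1 ≤ k → ∀ r, r < p → (P^(m+1)) (i * p + r) = (π^(m+1)) i * p + rot p r := by
      intro m
      induction m with
      | zero =>
        intro _ r hr
        rw [zero_add, pow_one, pow_one, h _ _ hr, if_pos hi]
      | succ m ih =>
        intro hm r hr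
        rw [pow_succ' P, Perm.mul_apply, ih (by omega) r hr, h _ _ (rot_lt hr),
          if_neg (hnot (m+1) (by omega) (by omega)), pow_succ' π (m+1), Perm.mul_apply]
    have hsc : ∀ m, m + 1 ≤ k → ∀ r, r < p → P.SameCycle (i*p+r) ((π^(m+1)) i * p + rot p r) :=
      fun m hm r hr => ⟨((m+1 : ℕ) : ℤ), by rw [zpow_natCast]; exact hA m hm r hr⟩
    have hB : ∀ r, r < p → P.SameCycle (i * p) (i * p + r) := by
      intro r
      induction r with
      | zero => intro _; exact sc_refl _ _
      | succ r ih =>
        intro hr
        have h1 := hsc (k-1) (by omega) r (by omega)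
        have e : (π^(k-1+1)) i = i := by rw [show k-1+1 = k by omega]; exact hk.2
        rw [e, rot, if_pos hr] at h1
        exact (ih (by omega)).trans h1
    obtain ⟨m, hmk, hme⟩ := orbit_closed hk.1 hk.2 hib
    have hj2 : j = j / p * p + j % p := by rw [mul_comm]; exact (Nat.div_add_mod j p).symm
    have hr : j % p < p := Nat.mod_lt _ hp
    rw [hj2]
    rcases Nat.eq_zero_or_pos m with rfl | hm0
    · rw [pow_zero, Perm.one_apply] at hme
      rw [← hme]
      exact hB _ hr
    · rw [← hme]
      obtain ⟨m', rfl⟩ : ∃ m', m = m' + 1 := ⟨m - 1, by omega⟩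
      rcases Nat.eq_zero_or_pos (j % p) with h0 | h0
      · rw [h0]
        have h1 := hsc m' (by omega) (p-1) (by omega)
        rw [rot, if_neg (by omega)] at h1
        exact (hB _ (by omega)).trans h1
      · have h1 := hsc m' (by omega) (j % p - 1) (by omega)
        rw [rot, if_pos (by omega), show j % p - 1 + 1 = j % p by omega] at h1
        exact (hB _ (by omega)).trans h1
  · intro a ha b hb hab
    obtain ⟨i, hi, rfl⟩ := Finset.mem_image.1 ha
    obtain ⟨j, hj, rfl⟩ := Finset.mem_image.1 hb
    have := hproj _ _ hab
    simp only [Nat.mul_div_cancel _ hp] at this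
    rw [hT.uni i hi j hj this]

end perm

section valid

lemma Valid.shb {m n : ℕ} {w : BW} (h : Valid n w) : Valid (m+n) (shb m w) := by
  intro x hx
  simp only [Pool.Agent.W5h66.shb, List.mem_map] at hx
  obtain ⟨y, hy, rfl⟩ := hx
  have := h y hy
  simp only; omega

lemma valid_band (p : ℕ) (e : Bool) : Valid (p+p) (band p e) := by
  intro x hx
  simp only [band, List.mem_flatMap, List.mem_reverse, List.mem_range, List.mem_map] at hx
  obtain ⟨r, hr, i, hi, rfl⟩ := hx
  simp only; omega

lemma valid_cable {n p : ℕ} {w : BW} (h : Valid n w) : Valid (n*p) (cable p w) := by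
  intro x hx
  simp only [cable, List.mem_flatMap] at hx
  obtain ⟨y, hy, hx⟩ := hx
  have h1 := h y hy
  have h2 := (valid_band p y.2).shb (m := y.1 * p) x hx
  have h3 := Nat.mul_le_mul_right p (show y.1 + 2 ≤ n by omega)
  rw [add_mul, two_mul] at h3
  omega

lemma valid_hook (p j : ℕ) : Valid p (hook p j) := by
  intro x hx
  simp only [hook, List.mem_map, List.mem_range] at hx
  obtain ⟨i, hi, rfl⟩ := hx
  simp only; omega

lemma valid_fills {n p : ℕ} {L : List ℕ} (hL : ∀ i ∈ L, i < n) {u : BW} (hu : u ∈ fills p L) :
    Valid (n*p) u := by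
  induction L generalizing u with
  | nil =>
    simp only [fills, List.mem_singleton] at hu
    subst hu; exact Valid.nil _
  | cons i L ih =>
    simp only [fills, List.mem_flatMap, List.mem_range, List.mem_map] at hu
    obtain ⟨j, hj, u, hu, rfl⟩ := hu
    refine Valid.append ?_ (ih (fun k hk => hL k (by simp [hk])) hu)
    have h1 := (valid_hook p j).shb (m := i * p)
    have h2 := Nat.mul_le_mul_right p (show i + 1 ≤ n from hL i (by simp))
    rw [Nat.succ_mul] at h2
    exact h1.mono h2

end valid

section hecke
universe u
variable {B : Type u} [CommRing B] {z : B}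

lemma sv_shb (m : ℕ) (w : BW) : sv z (shb m w) = sn m (sv z w) := by
  induction w with
  | nil => simp [shb]
  | cons x w ih =>
    have : shb m (x :: w) = (m + x.1, x.2) :: shb m w := rfl
    rw [this, sv_cons, ih, sv_cons, map_mul]
    congr 1
    cases x.2 <;> simp

lemma sv_row_true (p : ℕ) : sv z ((List.range p).map fun i => (i, true)) = dS z 0 p := by
  induction p with
  | zero => simp
  | succ p ih =>
    rw [List.range_succ, List.map_append, sv_append, ih, dS_succ]
    simp [sv]

lemma sv_row_false (p : ℕ) : sv z ((List.range p).map fun i => (i, false)) = arn z p := by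
  induction p with
  | zero => simp [arn]
  | succ p ih =>
    rw [List.range_succ, List.map_append, sv_append, ih, arn_succ]
    simp [sv]

lemma sv_rows (p : ℕ) (e : Bool) (r : ℕ) :
    sv z ((List.range r).reverse.flatMap fun r => (List.range p).map fun i => (r + i, e))
      = if e then Cp z p r else Cm z p r := by
  induction r with
  | zero => cases e <;> simp
  | succ r ih =>
    rw [List.range_succ, List.reverse_append, List.reverse_singleton, List.singleton_append,
      List.flatMap_cons, sv_append, ih]
    have e1 : (List.range p).map (fun i => (r + i, e)) = shb r ((List.range p).map fun i => (i, e)) := by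
      rw [shb, List.map_map]; rfl
    rw [e1, sv_shb]
    cases e with
    | true => simp only [if_true]; rw [sv_row_true, Cp_succ']
    | false => simp only [Bool.false_eq_true, if_false]; rw [sv_row_false, Cm_succ']

lemma sv_cable (p : ℕ) (w : BW) : sv z (cable p w) = cb z p w := by
  induction w with
  | nil => rfl
  | cons x w ih =>
    have : cable p (x :: w) = shb (x.1 * p) (band p x.2) ++ cable p w := rfl
    rw [this, sv_append, ih, sv_shb, cb_cons, bc, band, sv_rows]

lemma sv_hook (p : ℕ) : ((List.range p).map fun j => sv z (hook p j)).sum = xx z p := by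
  induction p with
  | zero => simp [xx]
  | succ p ih =>
    rcases p with _ | p
    · have e : xx z 1 = xx z 0 * gs z (0-1) + arn z 0 := rfl
      rw [e]
      simp [hook, xx, arn]
    · rw [List.range_succ, List.map_append, List.sum_append]
      have e : xx z (p+1+1) = xx z (p+1) * gs z (p+1-1) + arn z (p+1) := rfl
      rw [e, ← ih]
      congr 1
      · rw [← List.sum_map_mul_right]
        congr 1
        apply List.map_congr_left
        intro j hj
        rw [List.mem_range] at hj
        have h1 : hook (p+1+1) j = hook (p+1) j ++ [(p, true)] := by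
          rw [hook, show p+1+1-1 = p+1 by omega, List.range_succ, List.map_append, hook,
            Nat.add_sub_cancel]
          have : decide (j ≤ p) = true := by simp; omega
          simp [this]
        rw [h1, sv_append]
        simp [sv]
      · have h1 : hook (p+1+1) (p+1) = (List.range (p+1)).map fun i => (i, false) := by
          rw [hook, show p+1+1-1 = p+1 by omega]
          apply List.map_congr_left
          intro i hi
          rw [List.mem_range] at hi
          have : decide (p + 1 ≤ i) = false := by simp; omega
          rw [this]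
        simp only [List.map_cons, List.map_nil, List.sum_cons, List.sum_nil, add_zero]
        rw [h1, sv_row_false]

lemma sum_fm {A : Type*} [AddCommMonoid A] (f : ℕ → List A) (L : List ℕ) :
    (L.flatMap f).sum = (L.map fun j => (f j).sum).sum := by
  induction L with
  | nil => rfl
  | cons a L ih => rw [List.flatMap_cons, List.sum_append, ih, List.map_cons, List.sum_cons]

lemma sv_fills (p : ℕ) {L : List ℕ} (hL : L.Nodup) :
    ((fills p L).map (sv z)).sum = XT z p L.toFinset := by
  induction L with
  | nil => simp [fills]
  | cons i L ih =>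
    rw [List.nodup_cons] at hL
    rw [List.toFinset_cons, XT_insert p (by simpa using hL.1), ← ih hL.2, XX, ← sv_hook, map_list_sum,
      List.map_map, ← List.sum_map_mul_right]
    simp only [fills]
    rw [List.map_flatMap, sum_fm]
    congr 1
    apply List.map_congr_left
    intro j _
    simp only [Function.comp_apply, List.map_map]
    rw [← sv_shb, ← List.sum_map_mul_left]
    congr 1
    apply List.map_congr_left
    intro u _
    simp [sv_append]

end hecke

end Pool.Agent.W5h66
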