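import Pool.Agent.W5h66.Gl

/-! The congruence for decorated cables of closed braids. -/

namespace Pool.Agent.W5h66

open Equiv

/-- head form of the axioms of the framed invariant -/
structure HF {K : Type*} [Field K] (z a : K) (H : ℕ → BW → K) : Prop where
  unk : z * H 1 [] = a - a⁻¹
  cj : ∀ n u v, 1 ≤ n → Valid n (u ++ v) → H n (u ++ v) = H n (v ++ u)
  cn : ∀ n v i, 1 ≤ n → Valid n v → i + 1 < n → H n ((i,true) :: (i,false) :: v) = H n v
  cm : ∀ n v i j, 1 ≤ n → Valid n v → i + 1 < n → j + 1 < n → i + 2 ≤ j →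
    H n ((i,true) :: (j,true) :: v) = H n ((j,true) :: (i,true) :: v)
  br : ∀ n v i, 1 ≤ n → Valid n v → i + 2 < n →
    H n ((i,true) :: (i+1,true) :: (i,true) :: v) = H n ((i+1,true) :: (i,true) :: (i+1,true) :: v)
  stp : ∀ n w, 1 ≤ n → Valid n w → H (n+1) (w ++ [(n-1,true)]) = a * H n w
  stn : ∀ n w, 1 ≤ n → Valid n w → H (n+1) (w ++ [(n-1,false)]) = a⁻¹ * H n w
  sk : ∀ n v i, 1 ≤ n → Valid n v → i + 1 < n → H n ((i,true) :: v) - H n ((i,false) :: v) = z * H n v

lemma Valid.mono {n m : ℕ} {w : BW} (h : Valid n w) (hm : n ≤ m) : Valid m w :=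
  fun x hx => lt_of_lt_of_le (h x hx) hm
lemma Valid.cons {n i : ℕ} {e : Bool} {w : BW} (h : Valid n w) (hi : i + 1 < n) : Valid n ((i,e) :: w) := by
  intro x hx
  rcases List.mem_cons.1 hx with rfl | hx
  · exact hi
  · exact h x hx
lemma Valid.append {n : ℕ} {u w : BW} (h : Valid n u) (h' : Valid n w) : Valid n (u ++ w) := by
  intro x hx
  rcases List.mem_append.1 hx with hx | hx
  · exact h x hx
  · exact h' x hx
lemma Valid.nil (n : ℕ) : Valid n [] := fun _ h => by simp at h

lemma HF.split {K : Type*} [Field K] {z a : K} {H : ℕ → BW → K} (h : HF z a H) {n : ℕ} {w : BW}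
    (hn : 1 ≤ n) (hw : Valid n w) : z * H (n+1) w = (a - a⁻¹) * H n w := by
  have h1 := h.stp n w hn hw
  have h2 := h.stn n w hn hw
  have hw' : Valid (n+1) w := hw.mono (by omega)
  have hv1 : Valid (n+1) (w ++ [(n-1,true)]) := hw'.append ((Valid.nil _).cons (by omega))
  have hv2 : Valid (n+1) (w ++ [(n-1,false)]) := hw'.append ((Valid.nil _).cons (by omega))
  have h3 := h.sk (n+1) w (n-1) (by omega) hw' (by omega)
  have h4 := h.cj (n+1) w [(n-1,true)] (by omega) hv1
  have h5 := h.cj (n+1) w [(n-1,false)] (by omega) hv2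
  simp only [List.cons_append, List.nil_append] at h4 h5
  rw [← h4, ← h5, h1, h2] at h3
  rw [← h3]; ring

universe u v
variable {B : Type u} [CommRing B] {M : Type v} [AddCommGroup M] [Module B M]

lemma IsTr.insert_top {n : ℕ} {π : Equiv.Perm ℕ} (hπ : Supp n π) {T : Finset ℕ} (h : IsTr n π T) :
    IsTr (n+1) π (insert n T) ∧ n ∉ T := by
  have hfix : ∀ k : ℤ, (π^k) n = n := fun k => (hπ.zpow k) n le_rfl
  have hn : n ∉ T := fun hm => lt_irrefl _ (h.lt n hm)
  refine ⟨⟨?_, ?_, ?_⟩, hn⟩
  · intro i hi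
    rcases Finset.mem_insert.1 hi with rfl | hi
    · omega
    · have := h.lt i hi; omega
  · intro j hj
    rcases Nat.lt_or_ge j n with h1 | h1
    · obtain ⟨i, hi, hij⟩ := h.cov j h1
      exact ⟨i, Finset.mem_insert_of_mem hi, hij⟩
    · have : j = n := by omega
      subst this
      exact ⟨j, Finset.mem_insert_self _ _, sc_refl _ _⟩
  · intro i hi j hj hij
    rcases Finset.mem_insert.1 hi with h1 | h1 <;> rcases Finset.mem_insert.1 hj with h2 | h2
    · rw [h1, h2]
    · rw [h1] at hij
      obtain ⟨k, hk⟩ := hij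
      rw [hfix] at hk
      rw [h1, hk]
    · rw [h2] at hij
      obtain ⟨k, hk⟩ := hij.symm
      rw [hfix] at hk
      rw [h2, hk]
    · exact h.uni i h1 j h2 hij

section core
variable {K : Type*} [Field K] [Algebra B K] {z δ a a' κ : B} {P : ℕ} {H : ℕ → BW → K}
  {R : Subring K} {Ψ : K →+* K} {t : Hk z →ₗ[B] M}

/-- the data of the comparison -/
structure Data (z δ a a' κ : B) (P : ℕ) (H : ℕ → BW → K) (R : Subring K) (Ψ : K →+* K)
    (t : Hk z →ₗ[B] M) : Prop where
  inj : Function.Injective (algebraMap B K)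
  hH : HF (algebraMap B K z) (algebraMap B K a) H
  ha : a * a' = 1
  hd : z * δ = a - a'
  hk : κ * δ = a
  ar : Arith z (P+1)
  hp : IsUnit ((P+1 : ℕ) : B)
  hz2 : algebraMap B K z ^ 2 ∈ R
  haR : algebraMap B K a ∈ R
  haR' : algebraMap B K a' ∈ R
  pa : Ψ (algebraMap B K a) = algebraMap B K a ^ (P+1)
  pz : Ψ (algebraMap B K z ^ 2) = algebraMap B K (z ^ 2 * bt z (P+1))
  pR : ∀ h ∈ R, ∃ g : B, algebraMap B K g = Ψ h
  hb0 : ∀ m : M, bt z (P+1) • m = 0
  mt : MT z κ t

/-- the comparison for one transversal -/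
def Cond (z δ : B) (P : ℕ) (H : ℕ → BW → K) (R : Subring K) (Ψ : K →+* K)
    (t : Hk z →ₗ[B] M) (n : ℕ) (w : BW) (T : Finset ℕ) : Prop :=
  algebraMap B K z ^ T.card * H n w ∈ R ∧
  ∃ g : B, algebraMap B K g = Ψ (algebraMap B K z ^ T.card * H n w) ∧
    (z ^ T.card * δ ^ (n*(P+1))) • t (cb z (P+1) w * XT z (P+1) T)
      = ((-1 : B) ^ (P * w.length) * g) • t 1

/-- the comparison for all transversals -/
def Good (z δ : B) (P : ℕ) (H : ℕ → BW → K) (R : Subring K) (Ψ : K →+* K)
    (t : Hk z →ₗ[B] M) (n : ℕ) (w : BW) : Prop :=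
  ∀ T, IsTr n (prm w) T → Cond z δ P H R Ψ t n w T

variable (D : Data z δ a a' κ P H R Ψ t)
include D

lemma Data.iaa : (algebraMap B K a)⁻¹ = algebraMap B K a' := by
  have : algebraMap B K a * algebraMap B K a' = 1 := by rw [← map_mul, D.ha, map_one]
  exact (eq_inv_of_mul_eq_one_right this).symm

lemma Data.pa' : Ψ (algebraMap B K a') = algebraMap B K a' ^ (P+1) := by
  rw [← D.iaa, map_inv₀, D.pa, inv_pow]

lemma Data.dk : δ * (κ - z) = a' := by
  have h1 := D.hk
  have h2 := D.hd
  linear_combination h1 - h2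

lemma good_of {n : ℕ} {w : BW} (hw : Valid n w) {T : Finset ℕ} (hT : IsTr n (prm w) T)
    (hc : Cond z δ P H R Ψ t n w T) : Good z δ P H R Ψ t n w := by
  intro T' hT'
  have e1 := IsTr.card_eq (Supp.prm hw) hT' hT
  have e2 := indep_XT (p := P+1) D.mt.tr hw hT' hT
  unfold Cond
  rw [e1, e2]
  exact hc

lemma good_base : Good z δ P H R Ψ t 1 [] := by
  have hT : IsTr 1 (prm []) {0} := by
    refine ⟨?_, ?_, ?_⟩
    · intro i hi; rw [Finset.mem_singleton] at hi; omega
    · intro j hj
      have h0 : j = 0 := by omega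
      subst h0
      exact ⟨0, by simp, sc_refl _ _⟩
    · intro i hi j hj _; rw [Finset.mem_singleton] at hi hj; rw [hi, hj]
  refine good_of D (Valid.nil 1) hT ?_
  have hu : algebraMap B K z ^ ({0} : Finset ℕ).card * H 1 [] = algebraMap B K a - algebraMap B K a' := by
    rw [Finset.card_singleton, pow_one, D.hH.unk, D.iaa]
  unfold Cond
  rw [hu]
  refine ⟨R.sub_mem D.haR D.haR', a^(P+1) - a'^(P+1), ?_, ?_⟩
  · rw [map_sub, map_sub, D.pa, D.pa', map_pow, map_pow]
  · have hX : XT z (P+1) {0} = sn 0 (xx z (P+1)) := by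
      have : ({0} : Finset ℕ) = insert 0 ∅ := rfl
      rw [this, XT_insert _ (by simp), XT_empty, mul_one, XX, zero_mul]
    have hx := xx_tr D.mt 0 (Y := 1) (one_mem _) (P+1)
    rw [one_mul] at hx
    rw [hX, cb_nil, Finset.card_singleton, pow_one, one_mul, List.length_nil, mul_zero, pow_zero, one_mul,
      mul_comm z, mul_smul, hx, smul_smul]
    congr 1
    rw [← D.dk, ← D.hk, mul_pow, mul_pow]
    ring

lemma good_split {n : ℕ} {w : BW} (hn : 1 ≤ n) (hw : Valid n w) (h : Good z δ P H R Ψ t n w) :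
    Good z δ P H R Ψ t (n+1) w := by
  have hT := reps_isTr (Supp.prm hw)
  obtain ⟨hT', hnT⟩ := hT.insert_top (Supp.prm hw)
  obtain ⟨c1, g, c2, c3⟩ := h _ hT
  set T := reps n (prm w) with hTdef
  refine good_of D (hw.mono (by omega)) hT' ?_
  have hs := D.hH.split hn hw
  have hcard : (insert n T).card = T.card + 1 := Finset.card_insert_of_notMem hnT
  have hu : algebraMap B K z ^ (insert n T).card * H (n+1) w
      = (algebraMap B K a - algebraMap B K a') * (algebraMap B K z ^ T.card * H n w) := by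
    rw [hcard, pow_succ, mul_assoc, hs, D.iaa]; ring
  unfold Cond
  rw [hu]
  refine ⟨R.mul_mem (R.sub_mem D.haR D.haR') c1, (a^(P+1) - a'^(P+1)) * g, ?_, ?_⟩
  · rw [map_mul, map_mul, c2, map_sub, map_sub, D.pa, D.pa', map_pow, map_pow]
  · have hY : cb z (P+1) w * XT z (P+1) T ∈ Hn z (n*(P+1)+1) :=
      Hn_mono (by omega) (mul_mem (cb_mem hw) (XT_mem hT.lt))
    have hx := xx_tr D.mt (n*(P+1)) hY (P+1)
    have e : cb z (P+1) w * XT z (P+1) (insert n T)
        = cb z (P+1) w * XT z (P+1) T * sn (n*(P+1)) (xx z (P+1)) := by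
      rw [XT_insert _ hnT, mul_assoc, XT_block hnT (xx_mem (P+1))]; rfl
    have hs1 : (z ^ (insert n T).card * δ ^ ((n+1)*(P+1))) • t (cb z (P+1) w * XT z (P+1) (insert n T))
        = (a^(P+1) - a'^(P+1)) • ((z ^ T.card * δ ^ (n*(P+1))) • t (cb z (P+1) w * XT z (P+1) T)) := by
      have e3 : z ^ (insert n T).card * δ ^ ((n+1)*(P+1)) = (z^T.card * δ^(n*(P+1)) * δ^(P+1)) * z := by
        rw [hcard, show (n+1)*(P+1) = n*(P+1)+(P+1) by ring, pow_add, pow_succ]; ring
      rw [e, e3, mul_smul, hx, smul_smul, smul_smul]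
      congr 1
      rw [← D.dk, ← D.hk, mul_pow, mul_pow]
      ring
    rw [hs1, c3, smul_smul]
    congr 1
    ring

lemma good_conj {n : ℕ} {u v : BW} (hn : 1 ≤ n) (hw : Valid n (u ++ v))
    (h : Good z δ P H R Ψ t n (u ++ v)) : Good z δ P H R Ψ t n (v ++ u) := by
  have hu : Valid n u := fun x hx => hw x (by simp [hx])
  have hv : Valid n v := fun x hx => hw x (by simp [hx])
  have hT := reps_isTr (Supp.prm hw)
  obtain ⟨c1, g, c2, c3⟩ := h _ hT
  set T := reps n (prm (u ++ v)) with hTdef
  have hconj : prm (v ++ u) = prm v * prm (u ++ v) * (prm v)⁻¹ := by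
    rw [prm_append, prm_append]; group
  have hsc : ∀ x y, (prm (v ++ u)).SameCycle (prm v x) (prm v y) ↔ (prm (u ++ v)).SameCycle x y := by
    intro x y
    rw [hconj, Perm.sameCycle_conj]
    simp
  have hT' : IsTr n (prm (v ++ u)) (T.image (prm v)) := by
    refine ⟨?_, ?_, ?_⟩
    · intro i hi
      obtain ⟨j, hj, rfl⟩ := Finset.mem_image.1 hi
      exact (Supp.prm hv).lt (hT.lt j hj)
    · intro j hj
      obtain ⟨i, hi, hij⟩ := hT.cov ((prm v)⁻¹ j) ((Supp.prm hv).inv.lt hj)
      refine ⟨prm v i, Finset.mem_image_of_mem _ hi, ?_⟩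
      have := (hsc i ((prm v)⁻¹ j)).2 hij
      rwa [show prm v ((prm v)⁻¹ j) = j from (prm v).apply_symm_apply j] at this
    · intro i hi j hj hij
      obtain ⟨x, hx, rfl⟩ := Finset.mem_image.1 hi
      obtain ⟨y, hy, rfl⟩ := Finset.mem_image.1 hj
      rw [hT.uni x hx y hy ((hsc x y).1 hij)]
  refine good_of D (hv.append hu) hT' ?_
  have hcard : (T.image (prm v)).card = T.card := Finset.card_image_of_injective _ (prm v).injective
  unfold Cond
  rw [hcard, ← D.hH.cj n u v hn hw, ← conj_XT D.mt.tr u v T,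
    show (v ++ u).length = (u ++ v).length by simp [add_comm]]
  exact ⟨c1, g, c2, c3⟩

lemma good_rel {n : ℕ} {w w' : BW} (hp : prm w = prm w') (hc : cb z (P+1) w = cb z (P+1) w')
    (hH : H n w = H n w') (hl : (-1 : B) ^ (P * w.length) = (-1 : B) ^ (P * w'.length))
    (h : Good z δ P H R Ψ t n w) : Good z δ P H R Ψ t n w' := by
  intro T hT
  rw [← hp] at hT
  have := h T hT
  unfold Cond at this ⊢
  rw [← hH, ← hc, ← hl]
  exact this

lemma good_stab {n : ℕ} {w : BW} (hn : 1 ≤ n) (hw : Valid n w) (h : Good z δ P H R Ψ t n w) :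
    Good z δ P H R Ψ t (n+1) ((n-1,true) :: w) := by
  obtain ⟨i, rfl⟩ : ∃ i, n = i + 1 := ⟨n - 1, by omega⟩
  simp only [Nat.add_sub_cancel]
  have hS : Supp (i+1) (prm w) := Supp.prm hw
  have hS' : Supp (i+1+1) (prm w) := hS.mono (by omega)
  have hfix : ∀ x, (prm w).SameCycle (i+1) x → x = i + 1 := by
    rintro x ⟨k, hk⟩
    rw [← hk]; exact (hS.zpow k) (i+1) le_rfl
  have hne : ¬ (prm w).SameCycle i (i+1) := by
    intro hc
    have := hfix i hc.symm
    omega
  obtain ⟨T₀, m0, mi, mi1, A, A'⟩ := merge hS' (by omega : i + 1 < i+1+1) hne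
  have hT1 : IsTr (i+1) (prm w) (insert i T₀) := by
    refine ⟨?_, ?_, ?_⟩
    · intro a ha
      have h1 := A.lt a (by rw [Finset.mem_insert] at ha ⊢; rw [Finset.mem_insert]; tauto)
      have h2 : a ≠ i + 1 := by
        rintro rfl
        rw [Finset.mem_insert] at ha
        rcases ha with h3 | h3
        · omega
        · exact mi1 h3
      omega
    · intro j hj
      obtain ⟨x, hx, hxj⟩ := A.cov j (by omega)
      rw [Finset.mem_insert, Finset.mem_insert] at hx
      rcases hx with rfl | rfl | hx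
      · exact ⟨x, by simp, hxj⟩
      · have := hfix j hxj; omega
      · exact ⟨x, by simp [hx], hxj⟩
    · intro a ha b hb hab
      refine A.uni a ?_ b ?_ hab
      · rw [Finset.mem_insert] at ha ⊢; rw [Finset.mem_insert]; tauto
      · rw [Finset.mem_insert] at hb ⊢; rw [Finset.mem_insert]; tauto
  obtain ⟨c1, g, c2, c3⟩ := h _ hT1
  have hval : Valid (i+1+1) ((i,true) :: w) := (hw.mono (by omega)).cons (by omega)
  have A'' : IsTr (i+1+1) (prm ((i,true) :: w)) (insert i T₀) := by rw [prm_cons]; exact A'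
  refine good_of D hval A'' ?_
  have hHe : H (i+1+1) ((i,true) :: w) = algebraMap B K a * H (i+1) w := by
    have h1 := D.hH.stp (i+1) w hn hw
    have h2 := D.hH.cj (i+1+1) w [(i,true)] (by omega)
      ((hw.mono (by omega)).append ((Valid.nil _).cons (by omega)))
    simp only [List.cons_append, List.nil_append] at h2
    rw [← h2]
    simpa using h1
  unfold Cond
  rw [hHe, mul_left_comm]
  refine ⟨R.mul_mem D.haR c1, a^(P+1) * g, ?_, ?_⟩
  · rw [map_mul, map_mul, c2, D.pa, map_pow]
  · -- the curl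
    set p := P + 1 with hpdef
    set Z := cb z p w * XT z p T₀ with hZ
    have hXc : XX z p i * XT z p T₀ = XT z p T₀ * XX z p i := (XT_block mi (xx_mem p)).symm
    let f : Hk z →ₗ[B] M := t ∘ₗ LinearMap.mulRight B Z ∘ₗ (sn (i*p)).toLinearMap
    have hf : ∀ y, f y = t (sn (i*p) y * Z) := fun y => rfl
    have hTb : Tb z p f := by
      intro u hu y hy
      rw [hf, hf]
      exact (phi_untw D.mt.tr (n := i+1+1) (hw.mono (by omega)) (by omega) hne m0 hu
        (Hn_mono (by omega) hy)).1.symm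
    have hf1 : f (xx z p) = t (cb z p w * XT z p (insert i T₀)) := by
      rw [hf, D.mt.tr, XT_insert p mi, hXc, hZ, mul_assoc]; rfl
    have hY : cb z p w * XT z p (insert i T₀) ∈ Hn z (i*p+(P+1)) := by
      have := mul_mem (cb_mem (z := z) (p := p) hw) (XT_mem hT1.lt)
      rwa [show (i+1)*p = i*p+(P+1) by rw [hpdef]; ring] at this
    have hcurl := curl D.mt P (i*p) hY
    have e1 : t (cb z p ((i,true) :: w) * XT z p (insert i T₀)) = κ^p • f (xx z p * FT z p) := by
      have hbc : bc z p i true = sn (i*p) (Cp z (P+1) (P+1)) := by simp [bc, hpdef]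
      have e2 : cb z p w * XT z p (insert i T₀) * sn (i*p) (FT z (P+1))
          = Z * sn (i*p) (xx z p * FT z p) := by
        rw [XT_insert p mi, hXc, hZ, map_mul (sn (i*p)), ← hpdef]
        simp only [mul_assoc]
        rfl
      rw [cb_cons, mul_assoc, D.mt.tr, hbc, hcurl, hf, e2, ← hpdef, D.mt.tr]
    have htw := twist D.ar D.hb0 hTb
    rw [← hpdef] at htw
    rw [e1, htw, hf1, smul_smul, smul_smul, List.length_cons]
    have e3 : z ^ (insert i T₀).card * δ ^ ((i+1+1)*p) * (κ^p * (-1)^P)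
        = (a^p * (-1)^P) * (z ^ (insert i T₀).card * δ ^ ((i+1)*p)) := by
      rw [show (i+1+1)*p = (i+1)*p+p by ring, pow_add, ← D.hk, mul_pow]; ring
    rw [mul_assoc, e3, mul_smul, c3, smul_smul]
    congr 1
    rw [show P * (w.length + 1) = P * w.length + P by ring, pow_add]
    ring

/-- two functional forms of a crossing -/
lemma Z_cross {p i : ℕ} {v : BW} {T₀ : Finset ℕ} (mi : i ∉ T₀) (mi1 : i + 1 ∉ T₀) (C : Hk z) :
    t (sn (i*p) C * cb z p v * XT z p (insert i T₀))
      = t (sn (i*p) (xx z p * C) * (cb z p v * XT z p T₀)) ∧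
    t (sn (i*p) C * cb z p v * XT z p (insert i (insert (i+1) T₀)))
      = t (sn (i*p) (xx z p * sn p (xx z p) * C) * (cb z p v * XT z p T₀)) := by
  have h1 : XX z p i * XT z p T₀ = XT z p T₀ * XX z p i := (XT_block mi (xx_mem p)).symm
  have h2 : XX z p (i+1) * XT z p T₀ = XT z p T₀ * XX z p (i+1) := (XT_block mi1 (xx_mem p)).symm
  constructor
  · rw [XT_insert p mi, h1, ← mul_assoc, D.mt.tr, map_mul (sn (i*p))]
    simp only [mul_assoc]
    rfl
  · have mi' : i ∉ insert (i+1) T₀ := by
      rw [Finset.mem_insert]; rintro (h | h)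
      · omega
      · exact mi h
    have e : XX z p (i+1) = sn (i*p) (sn p (xx z p)) := by
      rw [XX, sn_sn, show (i+1)*p = i*p+p by ring]
    rw [XT_insert p mi', XT_insert p mi1, h2, ← mul_assoc (XX z p i), h1, mul_assoc (XT z p T₀),
      ← mul_assoc, D.mt.tr, map_mul (sn (i*p)), map_mul (sn (i*p)), ← e]
    simp only [mul_assoc]
    rfl

lemma good_sign {n i : ℕ} {v : BW} (hn : 1 ≤ n) (hv : Valid n v) (hi : i + 1 < n)
    (h : Good z δ P H R Ψ t n v) :
    Good z δ P H R Ψ t n ((i,true) :: v) ↔ Good z δ P H R Ψ t n ((i,false) :: v) := by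
  set p := P + 1 with hpdef
  have hS := Supp.prm hv
  have hbt : bc z p i true = sn (i*p) (Cp z p p) := by simp [bc]
  have hbf : bc z p i false = sn (i*p) (Cm z p p) := by simp [bc]
  have hsk := D.hH.sk n v i hn hv hi
  have hvt : Valid n ((i,true) :: v) := hv.cons hi
  have hvf : Valid n ((i,false) :: v) := hv.cons hi
  have hpow : (-1 : B) ^ (P * (v.length + 1)) = (-1)^(P * v.length) * (-1)^P := by
    rw [show P * (v.length + 1) = P * v.length + P by ring, pow_add]
  have hsq : (-1 : B)^P * (-1)^P = 1 := by rw [← mul_pow]; simp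
  by_cases hsc : (prm v).SameCycle i (i+1)
  · -- linking crossing
    have hS2 : Supp n (Equiv.swap i (i+1) * prm v) := (Supp.swap hi).mul hS
    obtain ⟨T₀, m0, mi, mi1, A, A'⟩ := merge hS2 hi (split_diff hS hi hsc)
    rw [Equiv.swap_mul_self_mul] at A'
    have hT₀ : ∀ x ∈ T₀, ¬ (prm v).SameCycle i x := by
      intro x hx hc
      have := A'.uni i (by simp) x (by simp [hx]) hc
      rw [← this] at hx
      exact mi hx
    have At : IsTr n (prm ((i,true) :: v)) (insert i (insert (i+1) T₀)) := by rw [prm_cons]; exact A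
    have Af : IsTr n (prm ((i,false) :: v)) (insert i (insert (i+1) T₀)) := by rw [prm_cons]; exact A
    obtain ⟨c1, g, c2, c3⟩ := h _ A'
    have hcard : (insert i (insert (i+1) T₀)).card = (insert i T₀).card + 1 := by
      rw [Finset.card_insert_of_notMem, Finset.card_insert_of_notMem mi1, Finset.card_insert_of_notMem mi]
      rw [Finset.mem_insert]; rintro (h | h)
      · omega
      · exact mi h
    let φ : Hk z →ₗ[B] M := t ∘ₗ LinearMap.mulRight B (cb z p v * XT z p T₀) ∘ₗ (sn (i*p)).toLinearMap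
    have hφ : ∀ y, φ y = t (sn (i*p) y * (cb z p v * XT z p T₀)) := fun y => rfl
    have t2 : ∀ u ∈ Hn z p, ∀ y ∈ Hn z (p+p), φ (sn p u * y) = φ (y * u) := by
      intro u hu y hy
      rw [hφ, hφ]
      exact (phi_tw D.mt.tr hv hi hsc hT₀ hu hy).symm
    have key := twisted D.ar D.hb0 t2
    rw [← hpdef, hφ, hφ, ← (Z_cross D mi mi1 (Cp z p p)).2, ← (Z_cross D mi mi1 (Cm z p p)).2] at key
    have key' : t (cb z p ((i,true) :: v) * XT z p (insert i (insert (i+1) T₀)))
        = t (cb z p ((i,false) :: v) * XT z p (insert i (insert (i+1) T₀))) := by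
      rw [cb_cons, cb_cons, hbt, hbf]; exact key
    have hu : algebraMap B K z ^ (insert i (insert (i+1) T₀)).card * H n ((i,true) :: v)
        - algebraMap B K z ^ (insert i (insert (i+1) T₀)).card * H n ((i,false) :: v)
        = algebraMap B K z ^ 2 * (algebraMap B K z ^ (insert i T₀).card * H n v) := by
      rw [← mul_sub, hsk, hcard, pow_succ]; ring
    have hψ : Ψ (algebraMap B K z ^ (insert i (insert (i+1) T₀)).card * H n ((i,true) :: v))
        - Ψ (algebraMap B K z ^ (insert i (insert (i+1) T₀)).card * H n ((i,false) :: v))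
        = algebraMap B K (z^2 * bt z p * g) := by
      rw [← map_sub, hu, map_mul, D.pz, ← c2, map_mul _ (z^2 * bt z p)]
    have hkill : ∀ (x : B) (m : M), (x * (z^2 * bt z p * g)) • m = 0 := by
      intro x m
      rw [show x * (z^2 * bt z p * g) = (x * z^2 * g) * bt z p by ring, mul_smul, D.hb0, smul_zero]
    constructor
    · intro hg
      obtain ⟨d1, g', d2, d3⟩ := hg _ At
      refine good_of D hvf Af ⟨?_, g' - z^2 * bt z p * g, ?_, ?_⟩
      · have := R.sub_mem d1 (R.mul_mem D.hz2 c1)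
        rw [← hu] at this
        simpa using this
      · rw [map_sub, d2, ← hψ]; ring
      · rw [← key', d3, mul_sub, sub_smul, hkill, sub_zero]
        rfl
    · intro hg
      obtain ⟨d1, g', d2, d3⟩ := hg _ Af
      refine good_of D hvt At ⟨?_, g' + z^2 * bt z p * g, ?_, ?_⟩
      · have := R.add_mem d1 (R.mul_mem D.hz2 c1)
        rw [← hu] at this
        simpa using this
      · rw [map_add, d2, ← hψ]; ring
      · rw [key', d3, mul_add, add_smul, hkill, add_zero]
        rfl
  · -- self crossing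
    obtain ⟨T₀, m0, mi, mi1, A, A'⟩ := merge hS hi hsc
    have At : IsTr n (prm ((i,true) :: v)) (insert i T₀) := by rw [prm_cons]; exact A'
    have Af : IsTr n (prm ((i,false) :: v)) (insert i T₀) := by rw [prm_cons]; exact A'
    obtain ⟨c1, g, c2, c3⟩ := h _ A
    have hcard : (insert i (insert (i+1) T₀)).card = (insert i T₀).card + 1 := by
      rw [Finset.card_insert_of_notMem, Finset.card_insert_of_notMem mi1, Finset.card_insert_of_notMem mi]
      rw [Finset.mem_insert]; rintro (h | h)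
      · omega
      · exact mi h
    let φ : Hk z →ₗ[B] M := t ∘ₗ LinearMap.mulRight B (cb z p v * XT z p T₀) ∘ₗ (sn (i*p)).toLinearMap
    have hφ : ∀ y, φ y = t (sn (i*p) y * (cb z p v * XT z p T₀)) := fun y => rfl
    have u1 : ∀ u ∈ Hn z p, ∀ y ∈ Hn z (p+p), φ (u * y) = φ (y * u) := by
      intro u hu y hy
      rw [hφ, hφ]
      exact (phi_untw D.mt.tr hv hi hsc m0 hu hy).1.symm
    have u2 : ∀ u ∈ Hn z p, ∀ y ∈ Hn z (p+p), φ (sn p u * y) = φ (y * sn p u) := by
      intro u hu y hy
      rw [hφ, hφ]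
      exact (phi_untw D.mt.tr hv hi hsc m0 hu hy).2.symm
    have key := untwisted D.ar D.hb0 D.hp u1 u2
    have hone := (Z_cross (p := p) (v := v) D mi mi1 1).2
    rw [map_one, one_mul, mul_one] at hone
    rw [← hpdef, hφ, hφ, hφ, ← (Z_cross D mi mi1 (Cp z p p)).1, ← (Z_cross D mi mi1 (Cm z p p)).1,
      ← hone] at key
    have key' : t (cb z p ((i,true) :: v) * XT z p (insert i T₀))
        = t (cb z p ((i,false) :: v) * XT z p (insert i T₀))
          + ((-1)^P * z) • t (cb z p v * XT z p (insert i (insert (i+1) T₀))) := by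
      rw [cb_cons, cb_cons, hbt, hbf]; exact key
    have hu : algebraMap B K z ^ (insert i T₀).card * H n ((i,true) :: v)
        - algebraMap B K z ^ (insert i T₀).card * H n ((i,false) :: v)
        = algebraMap B K z ^ (insert i (insert (i+1) T₀)).card * H n v := by
      rw [← mul_sub, hsk, hcard, pow_succ]; ring
    have hψ : Ψ (algebraMap B K z ^ (insert i T₀).card * H n ((i,true) :: v))
        - Ψ (algebraMap B K z ^ (insert i T₀).card * H n ((i,false) :: v)) = algebraMap B K g := by
      rw [← map_sub, hu, c2]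
    have hscale : (z ^ (insert i T₀).card * δ ^ (n*(P+1))) • (((-1 : B)^P * z) •
        t (cb z p v * XT z p (insert i (insert (i+1) T₀))))
        = ((-1 : B) ^ (P * (v.length+1)) * g) • t 1 := by
      have e3 : z ^ (insert i T₀).card * δ ^ (n*(P+1)) * ((-1 : B)^P * z)
          = (-1)^P * (z ^ (insert i (insert (i+1) T₀)).card * δ ^ (n*(P+1))) := by
        rw [hcard, pow_succ]; ring
      rw [smul_smul, e3, mul_smul, c3, smul_smul, hpow]
      congr 1; ring
    constructor
    · intro hg
      obtain ⟨d1, g', d2, d3⟩ := hg _ At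
      refine good_of D hvf Af ⟨?_, g' - g, ?_, ?_⟩
      · have := R.sub_mem d1 c1
        rw [← hu] at this
        simpa using this
      · rw [map_sub, d2, ← hψ]; ring
      · rw [← hpdef] at d3 ⊢
        rw [key', smul_add] at d3
        rw [eq_sub_of_add_eq d3, mul_sub, sub_smul]
        congr 1
    · intro hg
      obtain ⟨d1, g', d2, d3⟩ := hg _ Af
      refine good_of D hvt At ⟨?_, g' + g, ?_, ?_⟩
      · have := R.add_mem d1 c1
        rw [← hu] at this
        simpa using this
      · rw [map_add, d2, ← hψ]; ring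
      · have hs := hscale
        rw [← hpdef] at d3 hs ⊢
        rw [key', smul_add, d3, hs, ← add_smul, List.length_cons, List.length_cons, ← mul_add]

theorem good_all : ∀ n w, 1 ≤ n → Valid n w → Good z δ P H R Ψ t n w := by
  refine braid_induction (Good z δ P H R Ψ t) (good_base D) (fun n w hn hw h => good_split D hn hw h)
    (fun n w hn hw h => ?_) (fun n u v hn hw h => good_conj D hn hw h)
    (fun n v i hn hv hi h => good_sign D hn hv hi h) (fun n v i hn hv hi h => ?_)
    (fun n v i j hn hv hi hj hij => ?_) (fun n v i hn hv hi => ?_)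
  · have h1 := good_stab D hn hw h
    exact good_conj D (u := [(n-1,true)]) (v := w) (by omega) ((hw.mono (by omega)).cons (by omega)) h1
  · have hv2 : Valid n ((i,true) :: (i,false) :: v) := (hv.cons hi).cons hi
    refine good_rel D ?_ ?_ (D.hH.cn n v i hn hv hi).symm ?_ h
    · rw [prm_cons, prm_cons, Equiv.swap_mul_self_mul]
    · rw [cb_cons, cb_cons, ← mul_assoc]
      have : bc z (P+1) i true * bc z (P+1) i false = 1 := by
        simp only [bc, if_true, Bool.false_eq_true, if_false]
        rw [← map_mul, Cp_Cm, map_one]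
      rw [this, one_mul]
    · simp only [List.length_cons]
      rw [show P * (v.length + 1 + 1) = P * v.length + (P + P) by ring, pow_add, pow_add, ← mul_pow]
      simp
  · have hcomm : bc z (P+1) i true * bc z (P+1) j true = bc z (P+1) j true * bc z (P+1) i true :=
      comm_far (Nat.mul_le_mul_right (P+1) hij) (bc_mem (P+1) i true) _
    have hsw : Equiv.swap i (i+1) * Equiv.swap j (j+1) = Equiv.swap j (j+1) * Equiv.swap i (i+1) := by
      apply Equiv.Perm.Disjoint.commute
      apply Equiv.Perm.disjoint_swap_swap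
      simp; omega
    have e1 : prm ((i,true) :: (j,true) :: v) = prm ((j,true) :: (i,true) :: v) := by
      simp only [prm_cons]; rw [← mul_assoc, hsw, mul_assoc]
    have e2 : cb z (P+1) ((i,true) :: (j,true) :: v) = cb z (P+1) ((j,true) :: (i,true) :: v) := by
      simp only [cb_cons]; rw [← mul_assoc, hcomm, mul_assoc]
    have e3 := D.hH.cm n v i j hn hv hi hj hij
    exact ⟨good_rel D e1 e2 e3 (by simp), good_rel D e1.symm e2.symm e3.symm (by simp)⟩
  · have hbr : bc z (P+1) i true * bc z (P+1) (i+1) true * bc z (P+1) i true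
        = bc z (P+1) (i+1) true * bc z (P+1) i true * bc z (P+1) (i+1) true := by
      have := congrArg (sn (i*(P+1))) (Cp_braid (z := z) (P+1))
      simp only [map_mul, sn_sn] at this
      simp only [bc, if_true]
      rw [show (i+1)*(P+1) = i*(P+1)+(P+1) by ring]
      exact this
    have hsw : Equiv.swap i (i+1) * Equiv.swap (i+1) (i+1+1) * Equiv.swap i (i+1)
        = Equiv.swap (i+1) (i+1+1) * Equiv.swap i (i+1) * Equiv.swap (i+1) (i+1+1) := by
      have r1 := Equiv.swap_mul_swap_mul_swap (x := i+1+1) (y := i+1) (z := i) (by omega) (by omega)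
      have r2 := Equiv.swap_mul_swap_mul_swap (x := i) (y := i+1) (z := i+1+1) (by omega) (by omega)
      rw [r2, Equiv.swap_comm i (i+1), Equiv.swap_comm (i+1) (i+1+1), r1, Equiv.swap_comm]
    have e1 : prm ((i,true) :: (i+1,true) :: (i,true) :: v) = prm ((i+1,true) :: (i,true) :: (i+1,true) :: v) := by
      simp only [prm_cons]; rw [← mul_assoc, ← mul_assoc, hsw, mul_assoc, mul_assoc]
    have e2 : cb z (P+1) ((i,true) :: (i+1,true) :: (i,true) :: v)
        = cb z (P+1) ((i+1,true) :: (i,true) :: (i+1,true) :: v) := by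
      simp only [cb_cons]; rw [← mul_assoc, ← mul_assoc, hbr, mul_assoc, mul_assoc]
    have e3 := D.hH.br n v i hn hv hi
    exact ⟨good_rel D e1 e2 e3 (by simp), good_rel D e1.symm e2.symm e3.symm (by simp)⟩

end core

end Pool.Agent.W5h66
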