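import Pool.Agent.W5h66.Sp

/-! Block crossings and the expansion of a positive block crossing. -/

namespace Pool.Agent.W5h66

universe u v
variable {B : Type u} [CommRing B] {z : B}

section gen
variable (f : ℕ → Hk z)

/-- block crossing built from a family of generators -/
noncomputable def CC (m : ℕ) : ℕ → Hk z
  | 0 => 1
  | r+1 => sn 1 (CC m r) * AS f 0 m

lemma CC_succ (m r : ℕ) : CC f m (r+1) = sn 1 (CC f m r) * AS f 0 m := rfl
@[simp] lemma CC_zero_right (m : ℕ) : CC f m 0 = 1 := rfl
@[simp] lemma CC_zero_left (r : ℕ) : CC f 0 r = 1 := by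
  induction r with
  | zero => rfl
  | succ r ih => rw [CC_succ, ih]; simp

variable {f}
lemma sn_AS (hs : ∀ k i, sn k (f i) = f (k+i)) (m k l : ℕ) : sn m (AS f k l) = AS f (m+k) l := by
  induction l with
  | zero => simp
  | succ l ih => rw [AS_succ, map_mul, hs, ih, AS_succ, add_assoc]
lemma AS_mem' (hm : ∀ i, f i ∈ Hn z (i+2)) {k l n : ℕ} (h : k + l < n) : AS f k l ∈ Hn z n := by
  induction l with
  | zero => simp [one_mem]
  | succ l ih => rw [AS_succ]; exact mul_mem (ih (by omega)) (Hn_mono (by omega) (hm _))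

lemma CC_mem (hm : ∀ i, f i ∈ Hn z (i+2)) (m r : ℕ) : CC f m r ∈ Hn z (m+r) := by
  induction r with
  | zero => simp [one_mem]
  | succ r ih =>
    rw [CC_succ]
    refine mul_mem (Hn_mono (by omega) (sn_mem (m := 1) ih)) ?_
    rcases m with _ | m
    · simp [one_mem]
    · exact AS_mem' hm (by omega)

lemma CC_add (hs : ∀ k i, sn k (f i) = f (k+i)) (hm : ∀ i, f i ∈ Hn z (i+2)) (m m' r : ℕ) :
    CC f (m+m') r = CC f m r * sn m (CC f m' r) := by
  induction r with
  | zero => simp
  | succ r ih =>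
    rw [CC_succ, ih, CC_succ, CC_succ, AS_add, map_mul, map_mul, sn_sn, sn_sn, sn_AS hs]
    have c : AS f 0 m * sn (1+m) (CC f m' r) = sn (1+m) (CC f m' r) * AS f 0 m :=
      comm_far (by omega : m + 1 ≤ 1 + m) (AS_mem' hm (by omega)) _
    rw [show m + 1 = 1 + m by omega, zero_add, add_zero]
    calc sn 1 (CC f m r) * sn (1+m) (CC f m' r) * (AS f 0 m * AS f m m')
        = sn 1 (CC f m r) * (sn (1+m) (CC f m' r) * AS f 0 m) * AS f m m' := by noncomm_ring
      _ = _ := by rw [← c]; noncomm_ring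
end gen

/-- positive block crossing -/
noncomputable def Cp (z : B) (m r : ℕ) : Hk z := CC (gs z) m r
/-- negative block crossing -/
noncomputable def Cm (z : B) (m r : ℕ) : Hk z := CC (gi z) m r

lemma gs_mem' (i : ℕ) : gs z i ∈ Hn z (i+2) := gs_mem (by omega)
lemma gi_mem' (i : ℕ) : gi z i ∈ Hn z (i+2) := gi_mem (by omega)

lemma Cp_succ (m r : ℕ) : Cp z m (r+1) = sn 1 (Cp z m r) * dS z 0 m := rfl
lemma Cm_succ (m r : ℕ) : Cm z m (r+1) = sn 1 (Cm z m r) * arn z m := rfl
@[simp] lemma Cp_zero (m : ℕ) : Cp z m 0 = 1 := rfl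
@[simp] lemma Cm_zero (m : ℕ) : Cm z m 0 = 1 := rfl
@[simp] lemma Cp_zero' (r : ℕ) : Cp z 0 r = 1 := CC_zero_left _ _
@[simp] lemma Cm_zero' (r : ℕ) : Cm z 0 r = 1 := CC_zero_left _ _
lemma Cp_add (m m' r : ℕ) : Cp z (m+m') r = Cp z m r * sn m (Cp z m' r) :=
  CC_add (fun k i => sn_gs k i) gs_mem' m m' r
lemma Cm_add (m m' r : ℕ) : Cm z (m+m') r = Cm z m r * sn m (Cm z m' r) :=
  CC_add (fun k i => sn_gi k i) gi_mem' m m' r
lemma Cp_mem (m r : ℕ) : Cp z m r ∈ Hn z (m+r) := CC_mem gs_mem' m r
lemma Cm_mem (m r : ℕ) : Cm z m r ∈ Hn z (m+r) := CC_mem gi_mem' m r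

lemma Cp_one (r : ℕ) : Cp z 1 r = dD z 0 r := by
  induction r with
  | zero => simp
  | succ r ih => rw [Cp_succ, ih, sn_dD, dS_one, dD_succ']
lemma sn_arn (m l : ℕ) : sn m (arn z l) = AS (gi z) m l := by
  rw [arn, sn_AS (fun k i => sn_gi k i), add_zero]
lemma Cm_one (r : ℕ) : Cm z 1 r = DD (gi z) 0 r := by
  induction r with
  | zero => simp
  | succ r ih =>
    rw [Cm_succ, ih, DD_succ']
    have : sn 1 (DD (gi z) 0 r) = DD (gi z) 1 r := by
      clear ih
      induction r with
      | zero => simp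
      | succ r ih => rw [DD_succ, map_mul, ih, DD_succ, sn_gi]; simp [add_comm]
    rw [this]; simp [arn]
lemma Cm_one_right (m : ℕ) : Cm z m 1 = arn z m := by rw [Cm_succ]; simp
lemma Cp_one_right (m : ℕ) : Cp z m 1 = dS z 0 m := by rw [Cp_succ]; simp

lemma dS_Ci (k r : ℕ) : dS z k r * DD (gi z) k r = 1 := by
  induction r with
  | zero => simp
  | succ r ih =>
    rw [dS_succ, DD_succ, mul_assoc, ← mul_assoc (gs z (k+r)), gs_gi, one_mul, ih]
lemma Ci_dS (k r : ℕ) : DD (gi z) k r * dS z k r = 1 := by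
  induction r with
  | zero => simp
  | succ r ih =>
    rw [dS_succ', DD_succ', mul_assoc, ← mul_assoc (gi z k), gi_gs, one_mul]
    have : ∀ (k r : ℕ), DD (gi z) k r * dS z k r = 1 := by
      intro k r
      induction r generalizing k with
      | zero => simp
      | succ r ih => rw [dS_succ', DD_succ', mul_assoc, ← mul_assoc (gi z k), gi_gs, one_mul, ih]
    exact this _ _
lemma dD_arn (m : ℕ) : dD z 0 m * arn z m = 1 := by
  have : ∀ (k m : ℕ), dD z k m * AS (gi z) k m = 1 := by
    intro k m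
    induction m generalizing k with
    | zero => simp
    | succ m ih => rw [dD_succ', AS_succ', mul_assoc, ← mul_assoc (gs z k), gs_gi, one_mul, ih]
  exact this 0 m
lemma arn_dD (m : ℕ) : arn z m * dD z 0 m = 1 := by
  induction m with
  | zero => simp [arn]
  | succ m ih => rw [arn_succ, dD_succ, zero_add, mul_assoc, ← mul_assoc (gi z m), gi_gs, one_mul, ih]

lemma Cp_Cm (r m : ℕ) : Cp z r m * Cm z m r = 1 := by
  induction m with
  | zero => simp
  | succ m ih =>
    rw [show Cm z (m+1) r = Cm z 1 r * sn 1 (Cm z m r) by rw [add_comm, Cm_add], Cp_succ, Cm_one,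
      mul_assoc, ← mul_assoc (dS z 0 r), dS_Ci, one_mul, ← map_mul, ih, map_one]
lemma Cm_Cp (r m : ℕ) : Cm z m r * Cp z r m = 1 := by
  induction m with
  | zero => simp
  | succ m ih =>
    rw [show Cm z (m+1) r = Cm z 1 r * sn 1 (Cm z m r) by rw [add_comm, Cm_add], Cp_succ, Cm_one,
      mul_assoc, ← mul_assoc (sn 1 (Cm z m r)), ← map_mul, ih, map_one, one_mul, Ci_dS]

lemma Cp_left {m : ℕ} (r : ℕ) {x : Hk z} (hx : x ∈ Hn z m) : Cp z m r * x = sn r x * Cp z m r := by
  induction r with
  | zero => simp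
  | succ r ih =>
    have h := dS_mul_sn (k := 0) hx
    simp only [sn_zero, zero_add] at h
    rw [Cp_succ, mul_assoc, h, ← mul_assoc, ← map_mul, ih, map_mul, sn_sn, add_comm 1 r, mul_assoc]

lemma arc_arc (m : ℕ) : dS z 1 m * dS z 0 m * gs z m = gs z 0 * (dS z 1 m * dS z 0 m) := by
  induction m with
  | zero => simp
  | succ m ih =>
    have c : gs z (m+1) * dS z 0 m = dS z 0 m * gs z (m+1) :=
      (gs_comm_Hn (n := m+1) le_rfl (dS_mem (by omega))).symm
    rw [dS_succ, dS_succ, zero_add, add_comm 1 m]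
    calc dS z 1 m * gs z (m+1) * (dS z 0 m * gs z m) * gs z (m+1)
        = dS z 1 m * (gs z (m+1) * dS z 0 m) * gs z m * gs z (m+1) := by noncomm_ring
      _ = dS z 1 m * dS z 0 m * (gs z (m+1) * gs z m * gs z (m+1)) := by rw [c]; noncomm_ring
      _ = (dS z 1 m * dS z 0 m * gs z m) * (gs z (m+1) * gs z m) := by rw [← gs_br]; noncomm_ring
      _ = gs z 0 * dS z 1 m * (dS z 0 m * gs z (m+1)) * gs z m := by rw [ih]; noncomm_ring
      _ = _ := by rw [← c]; noncomm_ring

lemma Cp_right (m : ℕ) {r : ℕ} {y : Hk z} (hy : y ∈ Hn z r) : Cp z m r * sn m y = y * Cp z m r := by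
  have key : ∀ r i, i + 1 < r → Cp z m r * gs z (m+i) = gs z i * Cp z m r := by
    intro r
    induction r with
    | zero => intro i hi; omega
    | succ r ih =>
      intro i hi
      rcases i with _ | i
      · obtain ⟨s, rfl⟩ : ∃ s, r = s + 1 := ⟨r - 1, by omega⟩
        have c : gs z 0 * sn 2 (Cp z m s) = sn 2 (Cp z m s) * gs z 0 :=
          comm_far (n := 2) le_rfl (gs_mem (by omega)) _
        rw [Cp_succ, Cp_succ, map_mul, sn_sn, sn_dS, add_zero, add_zero]
        calc sn 2 (Cp z m s) * dS z 1 m * dS z 0 m * gs z m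
            = sn 2 (Cp z m s) * (dS z 1 m * dS z 0 m * gs z m) := by noncomm_ring
          _ = _ := by rw [arc_arc, ← mul_assoc, ← c]; noncomm_ring
      · have h := ih i (by omega)
        have c : dS z 0 m * gs z (m+(i+1)) = gs z (m+(i+1)) * dS z 0 m :=
          gs_comm_Hn (n := m+1) (by omega) (dS_mem (by omega))
        have h2 := congrArg (sn 1) h
        simp only [map_mul, sn_gs] at h2
        rw [Cp_succ, mul_assoc, c, ← mul_assoc, show m + (i+1) = 1 + (m+i) by omega, h2,
          add_comm 1 i, mul_assoc]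
  have := it_Hn (X := Cp z m r) (f := sn m) (g := sn 0) (x := y) (fun i hi => by
    rw [sn_gs, sn_zero]; exact key r i hi) hy
  rwa [sn_zero] at this

lemma Cm_left {m : ℕ} (r : ℕ) {x : Hk z} (hx : x ∈ Hn z m) : Cm z m r * x = sn r x * Cm z m r := by
  have h := Cp_right r hx
  calc Cm z m r * x = Cm z m r * (x * Cp z r m) * Cm z m r := by
        rw [mul_assoc, mul_assoc, Cp_Cm, mul_one]
    _ = (Cm z m r * Cp z r m) * sn r x * Cm z m r := by rw [← h]; noncomm_ring
    _ = _ := by rw [Cm_Cp, one_mul]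
lemma Cm_right (m : ℕ) {r : ℕ} {y : Hk z} (hy : y ∈ Hn z r) : Cm z m r * sn m y = y * Cm z m r := by
  have h := Cp_left m hy
  calc Cm z m r * sn m y = Cm z m r * (sn m y * Cp z r m) * Cm z m r := by
        rw [mul_assoc, mul_assoc, Cp_Cm, mul_one]
    _ = (Cm z m r * Cp z r m) * y * Cm z m r := by rw [← h]; noncomm_ring
    _ = _ := by rw [Cm_Cp, one_mul]

lemma arn_mul {m : ℕ} {x : Hk z} (hx : x ∈ Hn z m) : arn z m * x = sn 1 x * arn z m := by
  have := Cm_left 1 hx
  rwa [Cm_one_right] at this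

/-- telescoping -/
lemma tel (m : ℕ) : dS z 0 (m+1) = arn z (m+1) + z • So z 1 0 1 m (sn 1 (arn z m)) := by
  induction m with
  | zero => simp [arn, AS_succ, gi]
  | succ m ih =>
    have hS : So z 1 0 1 (m+1) (sn 1 (arn z (m+1)))
        = So z 1 0 1 m (sn 1 (arn z m)) * gi z (m+1) + dS z 0 (m+1) := by
      rw [show (1:ℕ) = 0 + 1 from rfl, So_succ]
      simp only [zero_add, So_zero_left, add_zero]
      have e1 : dD z 1 (m+1) * sn 1 (arn z (m+1)) = 1 := by
        have := congrArg (sn 1) (dD_arn (z := z) (m+1))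
        rwa [map_mul, sn_dD, map_one, add_zero] at this
      rw [e1, one_mul]
      congr 1
      rw [arn_succ, map_mul, sn_gi, add_comm 1 m]
      apply So_pull_right
      intro i hi
      rw [zero_add]
      exact gs_gi_far i (m+1) (by omega)
    rw [hS, dS_succ, zero_add, arn_succ (m+1)]
    generalize hT : So z 1 0 1 m (sn 1 (arn z m)) = T at *
    have e : gs z (m+1) = gi z (m+1) + z • 1 := gs_eq _
    rw [e, mul_add, mul_smul_comm, mul_one]
    conv_lhs => rw [ih]
    conv_rhs => rw [ih]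
    simp only [add_mul, smul_mul_assoc, smul_add]
    abel

/-- connection coefficients of the block crossing -/
noncomputable def KK (z : B) : ℕ → ℕ → Hk z
  | 0, _ => 1
  | _+1, 0 => 0
  | k+1, r+1 => sn 1 (KK z (k+1) r) * arn z (k+1)
      + z • So z (r+1) 0 1 k (dD z 1 r * sn 2 (KK z k r) * sn 1 (arn z k))

@[simp] lemma KK_zero (r : ℕ) : KK z 0 r = 1 := by rw [KK]
@[simp] lemma KK_succ_zero (k : ℕ) : KK z (k+1) 0 = 0 := by rw [KK]
lemma KK_succ (k r : ℕ) : KK z (k+1) (r+1) = sn 1 (KK z (k+1) r) * arn z (k+1)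
      + z • So z (r+1) 0 1 k (dD z 1 r * sn 2 (KK z k r) * sn 1 (arn z k)) := by rw [KK]

lemma KK_mem (k r : ℕ) : KK z k r ∈ Hn z (k+r) := by
  induction r generalizing k with
  | zero =>
    rcases k with _ | k
    · simp [one_mem]
    · simp [zero_mem]
  | succ r ih =>
    rcases k with _ | k
    · simp [one_mem]
    · rw [KK_succ]
      refine add_mem (mul_mem (Hn_mono (by omega) (sn_mem (m := 1) (ih (k+1)))) (arn_mem (by omega)))
        (Subalgebra.smul_mem _ ?_ _)
      have hV : dD z 1 r * sn 2 (KK z k r) * sn 1 (arn z k) ∈ Hn z (k+1+(r+1)) := by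
        refine mul_mem (mul_mem (dD_mem (by omega)) (Hn_mono (by omega) (sn_mem (m := 2) (ih k)))) ?_
        exact Hn_mono (by omega) (sn_mem (m := 1) (arn_mem (z := z) (m := k+1) (n := k) (by omega)))
      have gen : ∀ l, l ≤ k → ∀ V ∈ Hn z (k+1+(r+1)), So z (r+1) 0 1 l V ∈ Hn z (k+1+(r+1)) := by
        intro l
        induction l with
        | zero => intro _ V hV; simpa using hV
        | succ l ihl =>
          intro hl V hV
          rw [show (1:ℕ) = 0 + 1 from rfl, So_succ]
          simp only [So_zero_left]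
          exact add_mem (ihl (by omega) V hV) (mul_mem (mul_mem (dD_mem (by omega)) hV) (dS_mem (by omega)))
      exact gen k le_rfl _ hV

/-- expansion of the positive block crossing -/
theorem expand (r : ℕ) : ∀ m, Cp z m r
    = ∑ k ∈ Finset.range (m+1), So z r 0 k (m-k) (KK z k r * sn k (Cm z (m-k) r)) := by
  induction r with
  | zero =>
    intro m
    rw [Finset.sum_range_succ']
    simp
  | succ r ih =>
    intro m
    rcases m with _ | m
    · simp
    have c2 : ∀ i, i + 1 < m + 1 → sn 1 (Cp z (m+1) r) * gs z (1+i) = gs z (r+1+i) * sn 1 (Cp z (m+1) r) := by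
      intro i hi
      have := congrArg (sn 1) (Cp_left r (gs_mem (z := z) hi))
      simpa only [map_mul, sn_gs, sn_sn, show 1 + (r + i) = r + 1 + i by omega] using this
    -- second part of the left side
    have L2 : sn 1 (Cp z (m+1) r) * So z 1 0 1 m (sn 1 (arn z m))
        = So z (r+1) 0 1 m (dD z 1 r * sn 2 (Cp z m r) * sn 1 (arn z m)) := by
      rw [So_left (a' := r+1) _ _ (fun i hi => c2 i (by omega))]
      congr 1
      rw [show Cp z (m+1) r = Cp z 1 r * sn 1 (Cp z m r) by rw [add_comm, Cp_add], map_mul, sn_sn,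
        Cp_one, sn_dD]
    rw [Cp_succ, tel, mul_add, mul_smul_comm, L2]
    -- first part of the left side
    have L1 : sn 1 (Cp z (m+1) r) * arn z (m+1)
        = ∑ k ∈ Finset.range (m+2), So z (r+1) 0 k (m+1-k)
          (sn 1 (KK z k r) * arn z k * sn k (Cm z (m+1-k) (r+1))) := by
      rw [ih, map_sum, Finset.sum_mul]
      refine Finset.sum_congr rfl (fun k hk => ?_)
      have hk' : k ≤ m + 1 := by simp at hk; omega
      obtain ⟨l, hl⟩ : ∃ l, m + 1 = k + l := ⟨m + 1 - k, by omega⟩
      rw [hl, show k + l - k = l by omega, sn_So, add_zero, add_comm 1 r]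
      rw [So_right (b' := 0) _ _ (fun i hi => by
        rw [zero_add, arn_mul (gs_mem (z := z) (by omega : i + 1 < k + l)), sn_gs])]
      congr 1
      have ea : arn z (k+l) = arn z k * sn k (arn z l) := by
        rw [sn_arn, arn, arn, AS_add, zero_add]
      have c : arn z k * sn (k+1) (Cm z l r) = sn (k+1) (Cm z l r) * arn z k :=
        comm_far le_rfl (arn_mem (by omega)) _
      rw [ea, map_mul, sn_sn, Cm_succ, map_mul, sn_sn, add_comm 1 k]
      calc sn 1 (KK z k r) * sn (k+1) (Cm z l r) * (arn z k * sn k (arn z l))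
          = sn 1 (KK z k r) * (sn (k+1) (Cm z l r) * arn z k) * sn k (arn z l) := by noncomm_ring
        _ = _ := by rw [← c]; noncomm_ring
    rw [L1]
    -- the right side
    have R2 : z • So z (r+1) 0 1 m (dD z 1 r * sn 2 (Cp z m r) * sn 1 (arn z m))
        = ∑ k ∈ Finset.range (m+1), So z (r+1) 0 (k+1) (m+1-(k+1))
          (z • So z (r+1) 0 1 k (dD z 1 r * sn 2 (KK z k r) * sn 1 (arn z k))
            * sn (k+1) (Cm z (m+1-(k+1)) (r+1))) := by
      rw [ih m]
      simp only [map_sum, Finset.mul_sum, Finset.sum_mul, Finset.smul_sum]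
      refine Finset.sum_congr rfl (fun k hk => ?_)
      have hk' : k ≤ m := by simp at hk; omega
      obtain ⟨l, rfl⟩ : ∃ l, m = k + l := ⟨m - k, by omega⟩
      rw [show k + l + 1 - (k+1) = l by omega, show k + l - k = l by omega]
      rw [smul_mul_assoc, map_smul]
      congr 1
      rw [← So_pull_right (b := 0) (sn (k+1) (Cm z l (r+1))) _ (fun i hi => by
        rw [zero_add]
        exact comm_far (n := k+1) le_rfl (gs_mem (by omega)) _)]
      rw [show k + 1 = 1 + k by omega, So_assoc]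
      congr 1
      rw [sn_So, add_zero]
      -- move everything inside
      have c3 : ∀ i, i + 1 < k + l → dD z 1 r * gs z (2+r+i) = gs z (r+1+1+i) * dD z 1 r := by
        intro i _
        rw [show 2 + r + i = r+1+1+i by omega]
        exact gs_comm_Hn (n := r+2) (by omega) (dD_mem (by omega))
      rw [So_left (a' := r+1+1) _ _ c3]
      rw [So_right (b' := 0 + 1) _ _ (fun i hi => by
        have := congrArg (sn 1) (arn_mul (gs_mem (z := z) (by omega : i + 1 < k + l)))
        simpa only [map_mul, sn_gs, sn_sn, zero_add, show 1 + (1 + i) = 2 + i by omega] using this.symm)]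
      congr 1
      have ea : arn z (k+l) = arn z k * sn k (arn z l) := by
        rw [sn_arn, arn, arn, AS_add, zero_add]
      have c : arn z k * sn (1+k) (Cm z l r) = sn (1+k) (Cm z l r) * arn z k :=
        comm_far (n := k+1) (by omega) (arn_mem (by omega)) _
      have c' := congrArg (sn 1) c
      simp only [map_mul, sn_sn] at c'
      rw [ea, map_mul, map_mul, sn_sn, sn_sn, Cm_succ, map_mul, sn_sn]
      rw [show 1 + (1 + k) = 2 + k by omega] at c'
      rw [show 1 + k + 1 = 2 + k by omega]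
      calc dD z 1 r * (sn 2 (KK z k r) * sn (2+k) (Cm z l r)) * (sn 1 (arn z k) * sn (1+k) (arn z l))
          = dD z 1 r * sn 2 (KK z k r) * (sn (2+k) (Cm z l r) * sn 1 (arn z k)) * sn (1+k) (arn z l) := by
            noncomm_ring
        _ = _ := by rw [← c']; noncomm_ring
    rw [R2, Finset.sum_range_succ' _ (m+1), Finset.sum_range_succ' _ (m+1)]
    simp only [KK_zero, map_one, one_mul, So_zero_left, Nat.sub_zero, sn_zero]
    rw [add_right_comm, ← Finset.sum_add_distrib]
    congr 1
    · refine Finset.sum_congr rfl (fun k hk => ?_)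
      rw [KK_succ, add_mul, map_add]
    · simp [arn]

end Pool.Agent.W5h66
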