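import Pool.Agent.W5h66.Loc

/-! Markov traces, curls, block braid relations. -/

namespace Pool.Agent.W5h66

universe u v
variable {B : Type u} [CommRing B] {z : B}
variable {M : Type v} [AddCommGroup M] [Module B M]

/-- Markov trace with parameter `κ` -/
structure MT (z κ : B) (t : Hk z →ₗ[B] M) : Prop where
  tr : ∀ x y, t (x * y) = t (y * x)
  mv : ∀ n, ∀ x ∈ Hn z (n+1), t (x * gs z n) = κ • t x

lemma MT.mki {κ : B} {t : Hk z →ₗ[B] M} (h : MT z κ t) (n : ℕ) {x : Hk z} (hx : x ∈ Hn z (n+1)) :
    t (x * gi z n) = (κ - z) • t x := by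
  rw [gi, mul_sub, map_sub, h.mv n x hx, mul_smul_comm, mul_one, map_smul, sub_smul]

lemma MT.mid {κ : B} {t : Hk z →ₗ[B] M} (h : MT z κ t) (n : ℕ) {A Z : Hk z} (hA : A ∈ Hn z (n+1))
    (hZ : Z ∈ Hn z (n+1)) : t (A * gs z n * Z) = κ • t (A * Z) := by
  rw [h.tr, ← mul_assoc, h.mv n _ (mul_mem hZ hA), h.tr]

lemma MT.midi {κ : B} {t : Hk z →ₗ[B] M} (h : MT z κ t) (n : ℕ) {A Z : Hk z} (hA : A ∈ Hn z (n+1))
    (hZ : Z ∈ Hn z (n+1)) : t (A * gi z n * Z) = (κ - z) • t (A * Z) := by
  rw [h.tr, ← mul_assoc, h.mki n (mul_mem hZ hA), h.tr]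

lemma Cp_succ' (m r : ℕ) : Cp z m (r+1) = sn r (dS z 0 m) * Cp z m r := by
  induction r with
  | zero => rw [Cp_succ]; simp
  | succ r ih =>
    conv_lhs => rw [Cp_succ, ih, map_mul, sn_sn, mul_assoc, ← Cp_succ, add_comm 1 r]
lemma Cm_succ' (m r : ℕ) : Cm z m (r+1) = sn r (arn z m) * Cm z m r := by
  induction r with
  | zero => rw [Cm_succ]; simp
  | succ r ih =>
    conv_lhs => rw [Cm_succ, ih, map_mul, sn_sn, mul_assoc, ← Cm_succ, add_comm 1 r]

lemma Cp_add' (m r r' : ℕ) : Cp z m (r+r') = sn r (Cp z m r') * Cp z m r := by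
  induction r' with
  | zero => simp
  | succ r' ih => rw [← add_assoc, Cp_succ', ih, Cp_succ', map_mul, sn_sn, mul_assoc]
lemma Cm_add' (m r r' : ℕ) : Cm z m (r+r') = sn r (Cm z m r') * Cm z m r := by
  induction r' with
  | zero => simp
  | succ r' ih => rw [← add_assoc, Cm_succ', ih, Cm_succ', map_mul, sn_sn, mul_assoc]

lemma Cp_braid (p : ℕ) : Cp z p p * sn p (Cp z p p) * Cp z p p
    = sn p (Cp z p p) * Cp z p p * sn p (Cp z p p) := by
  have h := Cp_right (z := z) p (Cp_mem p p)
  rw [Cp_add'] at h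
  rw [h, mul_assoc]

lemma arn_mem' (n : ℕ) : arn z n ∈ Hn z (n+1) := arn_mem (by omega)

lemma curl_aux {κ : B} {t : Hk z →ₗ[B] M} (h : MT z κ t) (q o : ℕ) {Y : Hk z}
    (hY : Y ∈ Hn z (o+(q+1))) : ∀ r k, t (Y * sn o (sn r (dS z 0 q ^ k) * Cp z (q+1) r))
      = κ^r • t (Y * sn o (dS z 0 q ^ (k+r))) := by
  intro r
  induction r with
  | zero => intro k; simp
  | succ r ih =>
    intro k
    have ha : dS z 0 q ∈ Hn z (q+1) := dS_mem (by omega)
    have e1 : sn (r+1) (dS z 0 q ^ k) * sn r (dS z 0 (q+1)) = sn r (dS z 0 q) * gs z (r+q) * sn r (dS z 0 q ^ k) := by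
      have h1 := dS_mul_sn (k := 0) (pow_mem ha k)
      simp only [sn_zero, zero_add] at h1
      have h2 := congrArg (sn r) h1
      rw [map_mul, map_mul, sn_sn] at h2
      rw [← h2, dS_succ, zero_add, map_mul, sn_gs]
    rw [Cp_succ', ← mul_assoc, e1, map_mul (sn o), map_mul (sn o), map_mul (sn o), sn_gs, sn_sn]
    have hA : Y * sn (o+r) (dS z 0 q) ∈ Hn z (o+(r+q)+1) :=
      mul_mem (Hn_mono (by omega) hY) (Hn_mono (by omega) (sn_mem ha))
    have hZ : sn o (sn r (dS z 0 q ^ k)) * sn o (Cp z (q+1) r) ∈ Hn z (o+(r+q)+1) := by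
      refine mul_mem ?_ (Hn_mono (by omega) (sn_mem (Cp_mem (q+1) r)))
      rw [sn_sn]; exact Hn_mono (by omega) (sn_mem (pow_mem ha k))
    have := h.mid (o+(r+q)) hA hZ
    have e2 : Y * (sn (o+r) (dS z 0 q) * gs z (o+(r+q)) * sn o (sn r (dS z 0 q ^ k)) * sn o (Cp z (q+1) r))
        = Y * sn (o+r) (dS z 0 q) * gs z (o+(r+q)) * (sn o (sn r (dS z 0 q ^ k)) * sn o (Cp z (q+1) r)) := by
      noncomm_ring
    rw [e2, this]
    have e3 : Y * sn (o+r) (dS z 0 q) * (sn o (sn r (dS z 0 q ^ k)) * sn o (Cp z (q+1) r))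
        = Y * sn o (sn r (dS z 0 q ^ (k+1)) * Cp z (q+1) r) := by
      rw [pow_succ', map_mul, map_mul, map_mul, sn_sn, sn_sn]
      noncomm_ring
    rw [e3, ih, smul_smul, ← pow_succ', show k + 1 + r = k + (r+1) by omega]

lemma curl_auxi {κ : B} {t : Hk z →ₗ[B] M} (h : MT z κ t) (q o : ℕ) {Y : Hk z}
    (hY : Y ∈ Hn z (o+(q+1))) : ∀ r k, t (Y * sn o (sn r (arn z q ^ k) * Cm z (q+1) r))
      = (κ-z)^r • t (Y * sn o (arn z q ^ (k+r))) := by
  intro r
  induction r with
  | zero => intro k; simp
  | succ r ih =>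
    intro k
    have ha : arn z q ∈ Hn z (q+1) := arn_mem' q
    have e1 : sn (r+1) (arn z q ^ k) * sn r (arn z (q+1)) = sn r (arn z q) * gi z (r+q) * sn r (arn z q ^ k) := by
      have h1 := arn_mul (pow_mem ha k)
      have h2 := congrArg (sn r) h1
      rw [map_mul, map_mul, sn_sn] at h2
      rw [← h2, arn_succ, map_mul, sn_gi]
    rw [Cm_succ', ← mul_assoc, e1, map_mul (sn o), map_mul (sn o), map_mul (sn o), sn_gi, sn_sn]
    have hA : Y * sn (o+r) (arn z q) ∈ Hn z (o+(r+q)+1) :=
      mul_mem (Hn_mono (by omega) hY) (Hn_mono (by omega) (sn_mem ha))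
    have hZ : sn o (sn r (arn z q ^ k)) * sn o (Cm z (q+1) r) ∈ Hn z (o+(r+q)+1) := by
      refine mul_mem ?_ (Hn_mono (by omega) (sn_mem (Cm_mem (q+1) r)))
      rw [sn_sn]; exact Hn_mono (by omega) (sn_mem (pow_mem ha k))
    have := h.midi (o+(r+q)) hA hZ
    have e2 : Y * (sn (o+r) (arn z q) * gi z (o+(r+q)) * sn o (sn r (arn z q ^ k)) * sn o (Cm z (q+1) r))
        = Y * sn (o+r) (arn z q) * gi z (o+(r+q)) * (sn o (sn r (arn z q ^ k)) * sn o (Cm z (q+1) r)) := by
      noncomm_ring
    rw [e2, this]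
    have e3 : Y * sn (o+r) (arn z q) * (sn o (sn r (arn z q ^ k)) * sn o (Cm z (q+1) r))
        = Y * sn o (sn r (arn z q ^ (k+1)) * Cm z (q+1) r) := by
      rw [pow_succ', map_mul, map_mul, map_mul, sn_sn, sn_sn]
      noncomm_ring
    rw [e3, ih, smul_smul, ← pow_succ', show k + 1 + r = k + (r+1) by omega]

/-- powers of the arc -/
lemma arc_pow (m : ℕ) : ∀ k, k ≤ m → dS z 0 m ^ k = (if m = 0 then 1 else dS z 0 (m-1) ^ k) * dD z (m-k) k := by
  rcases m with _ | m
  · intro k hk; have : k = 0 := by omega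
    subst this; simp
  intro k
  induction k with
  | zero => intro _; simp
  | succ k ih =>
    intro hk
    have h1 := dS_mul_sn (z := z) (k := 0) (l := m+1) (x := dD z (m-k) k) (by
      rcases k with _ | k
      · simp [one_mem]
      · exact dD_mem (by omega))
    simp only [sn_zero, zero_add] at h1
    rw [sn_dD, show 1 + (m-k) = m+1-k by omega] at h1
    rw [pow_succ, ih (by omega), mul_assoc, ← h1]
    simp only [Nat.succ_ne_zero, if_false, Nat.add_sub_cancel]
    rw [dS_succ, zero_add, ← mul_assoc, ← mul_assoc, ← pow_succ, mul_assoc]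
    congr 1
    rw [show m + 1 - (k+1) = m - k by omega, dD_succ, show m - k + k = m by omega]

lemma FT_eq (m : ℕ) : dS z 0 m ^ (m+1) = FT z (m+1) := by
  induction m with
  | zero => simp [FT, JJ]
  | succ m ih =>
    have h := arc_pow (z := z) (m+1) (m+1) le_rfl
    simp only [Nat.succ_ne_zero, if_false, Nat.add_sub_cancel, Nat.sub_self] at h
    rw [pow_succ, h, ih, mul_assoc, ← JJ_eq_mul]
    rfl

lemma sn_DDgi (m k l : ℕ) : sn m (DD (gi z) k l) = DD (gi z) (m+k) l := by
  induction l with
  | zero => simp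
  | succ l ih => rw [DD_succ, map_mul, ih, DD_succ, sn_gi, add_assoc]
lemma DDgi_mem {k l n : ℕ} (h : k + l < n) : DD (gi z) k l ∈ Hn z n := by
  induction l with
  | zero => simp [one_mem]
  | succ l ih => rw [DD_succ]; exact mul_mem (gi_mem (by omega)) (ih (by omega))

lemma arn_pow (m : ℕ) : ∀ k, k ≤ m+1 → arn z (m+1) ^ k = arn z m ^ k * DD (gi z) (m+1-k) k := by
  intro k
  induction k with
  | zero => intro _; simp
  | succ k ih =>
    intro hk
    have h1 := arn_mul (z := z) (m := m+1) (x := DD (gi z) (m-k) k) (by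
      rcases k with _ | k
      · simp [one_mem]
      · exact DDgi_mem (by omega))
    rw [sn_DDgi, show 1 + (m-k) = m+1-k by omega] at h1
    rw [pow_succ, ih (by omega), mul_assoc, ← h1]
    rw [arn_succ, ← mul_assoc, ← mul_assoc, ← pow_succ, mul_assoc]
    congr 1
    rw [show m + 1 - (k+1) = m - k by omega, DD_succ, show m - k + k = m by omega]

/-- inverse full twist -/
noncomputable def FTi (z : B) (n : ℕ) : Hk z := arn z (n-1) ^ n

lemma FTi_mem (n : ℕ) : FTi z n ∈ Hn z n := by
  rcases n with _ | n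
  · simp [FTi, one_mem]
  · exact pow_mem (arn_mem' n) _

lemma FT_FTi (m : ℕ) : FT z (m+1) * FTi z (m+1) = 1 := by
  induction m with
  | zero => simp [FT, FTi, JJ, arn]
  | succ m ih =>
    have h := arn_pow (z := z) m (m+1) le_rfl
    rw [Nat.sub_self] at h
    have e : FTi z (m+1+1) = FTi z (m+1) * (DD (gi z) 0 (m+1) * arn z (m+1)) := by
      rw [FTi, Nat.add_sub_cancel, pow_succ, h, mul_assoc]; rfl
    rw [e, FT, mul_assoc, ← mul_assoc (JJ z (m+1)), JJ_comm (FTi_mem (m+1)), mul_assoc, ← mul_assoc (FT z (m+1)), ih,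
      one_mul, JJ_eq_mul, mul_assoc, ← mul_assoc (dS z 0 (m+1)), dS_Ci, one_mul, dD_arn]

theorem curl {κ : B} {t : Hk z →ₗ[B] M} (h : MT z κ t) (q o : ℕ) {Y : Hk z}
    (hY : Y ∈ Hn z (o+(q+1))) : t (Y * sn o (Cp z (q+1) (q+1))) = κ^(q+1) • t (Y * sn o (FT z (q+1))) := by
  have := curl_aux h q o hY (q+1) 0
  simpa [FT_eq] using this

theorem curli {κ : B} {t : Hk z →ₗ[B] M} (h : MT z κ t) (q o : ℕ) {Y : Hk z}
    (hY : Y ∈ Hn z (o+(q+1))) : t (Y * sn o (Cm z (q+1) (q+1))) = (κ-z)^(q+1) • t (Y * sn o (FTi z (q+1))) := by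
  have := curl_auxi h q o hY (q+1) 0
  simpa [FTi] using this

lemma arn_tr {κ : B} {t : Hk z →ₗ[B] M} (h : MT z κ t) (N : ℕ) {Y : Hk z} (hY : Y ∈ Hn z (N+1)) (m : ℕ) :
    t (Y * sn N (arn z m)) = (κ-z)^m • t Y := by
  induction m with
  | zero => simp [arn]
  | succ m ih =>
    rw [arn_succ, map_mul (sn N), sn_gi, ← mul_assoc, h.mki (N+m) (mul_mem (Hn_mono (by omega) hY)
      (Hn_mono (by omega) (sn_mem (arn_mem' m)))), ih, smul_smul, pow_succ']

/-- closing a distant power sum -/
theorem xx_tr {κ : B} {t : Hk z →ₗ[B] M} (h : MT z κ t) (N : ℕ) {Y : Hk z} (hY : Y ∈ Hn z (N+1)) (m : ℕ) :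
    z • t (Y * sn N (xx z m)) = (κ^m - (κ-z)^m) • t Y := by
  induction m with
  | zero => simp [xx]
  | succ m ih =>
    rw [xx, map_add (sn N), mul_add, map_add, arn_tr h N hY, smul_add]
    rcases m with _ | m
    · simp [xx]
    · rw [Nat.add_sub_cancel, map_mul (sn N), sn_gs, ← mul_assoc, h.mv (N+m) _ (mul_mem (Hn_mono (by omega) hY)
        (Hn_mono (by omega) (sn_mem (xx_mem (m+1))))), smul_comm, ih, smul_smul, smul_smul, ← add_smul]
      congr 1
      ring

/-- span decomposition -/
def Sg (z : B) (n : ℕ) : Set (Hk z) :=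
  {y | y ∈ Hn z (n+1) ∨ ∃ a ∈ Hn z (n+1), ∃ b ∈ Hn z (n+1), y = a * gs z n * b}

lemma Sg_mul {n : ℕ} {y u : Hk z} (hy : y ∈ Submodule.span B (Sg z n)) (hu : u ∈ Hn z (n+1)) :
    y * u ∈ Submodule.span B (Sg z n) := by
  induction hy using Submodule.span_induction with
  | mem y hy =>
    apply Submodule.subset_span
    rcases hy with hy | ⟨a, ha, b, hb, rfl⟩
    · exact Or.inl (mul_mem hy hu)
    · exact Or.inr ⟨a, ha, b * u, mul_mem hb hu, by noncomm_ring⟩
  | zero => rw [zero_mul]; exact zero_mem _
  | add x y _ _ hx hy => rw [add_mul]; exact add_mem hx hy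
  | smul c x _ hx => rw [smul_mul_assoc]; exact Submodule.smul_mem _ _ hx

lemma Hn_span (n : ℕ) : ∀ {x : Hk z}, x ∈ Hn z (n+2) → x ∈ Submodule.span B (Sg z n) := by
  induction n with
  | zero =>
    have h0 : Hn z 1 ≤ Hn z 0 := Algebra.adjoin_mono (fun _ ⟨i, hi, _⟩ => by omega)
    have hm : ∀ y ∈ Submodule.span B (Sg z 0), y * gs z 0 ∈ Submodule.span B (Sg z 0) := by
      intro y hy
      induction hy using Submodule.span_induction with
      | mem y hy =>
        rcases hy with hy | ⟨a, ha, b, hb, rfl⟩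
        · exact Submodule.subset_span (Or.inr ⟨y, hy, 1, one_mem _, by rw [mul_one]⟩)
        · have c : b * gs z 0 = gs z 0 * b := gs_comm_Hn (n := 0) (by omega) (h0 hb)
          have e : a * gs z 0 * b * gs z 0 = a * b + z • (a * gs z 0 * b) := by
            rw [mul_assoc, c, ← mul_assoc, mul_assoc a, gs_quad]
            simp only [mul_add, add_mul, mul_one, mul_smul_comm, smul_mul_assoc]
          rw [e]
          exact add_mem (Submodule.subset_span (Or.inl (mul_mem ha hb)))
            (Submodule.smul_mem _ _ (Submodule.subset_span (Or.inr ⟨a, ha, b, hb, rfl⟩)))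
      | zero => rw [zero_mul]; exact zero_mem _
      | add x y _ _ hx hy => rw [add_mul]; exact add_mem hx hy
      | smul c x _ hx => rw [smul_mul_assoc]; exact Submodule.smul_mem _ _ hx
    intro x hx
    have key : ∀ y ∈ Submodule.span B (Sg z 0), y * x ∈ Submodule.span B (Sg z 0) := by
      induction hx using Hn_induction with
      | hs i hi =>
        intro y hy
        have : i = 0 := by omega
        subst this
        exact hm y hy
      | hc r =>
        intro y hy
        rw [← Algebra.commutes, ← Algebra.smul_def]; exact Submodule.smul_mem _ _ hy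
      | ha u v _ _ hu hv => intro y hy; rw [mul_add]; exact add_mem (hu y hy) (hv y hy)
      | hm u v _ _ hu hv => intro y hy; rw [← mul_assoc]; exact hv _ (hu y hy)
    have := key 1 (Submodule.subset_span (Or.inl (one_mem _)))
    rwa [one_mul] at this
  | succ n ih =>
    have hm : ∀ y ∈ Submodule.span B (Sg z (n+1)), y * gs z (n+1) ∈ Submodule.span B (Sg z (n+1)) := by
      intro y hy
      induction hy using Submodule.span_induction with
      | mem y hy =>
        rcases hy with hy | ⟨a, ha, b, hb, rfl⟩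
        · exact Submodule.subset_span (Or.inr ⟨y, hy, 1, one_mem _, by rw [mul_one]⟩)
        · have hb' := ih hb
          induction hb' using Submodule.span_induction with
          | mem b hb1 =>
            rcases hb1 with hb1 | ⟨c, hc, d, hd, rfl⟩
            · have c : b * gs z (n+1) = gs z (n+1) * b := gs_comm_Hn (n := n+1) le_rfl hb1
              have e : a * gs z (n+1) * b * gs z (n+1) = a * b + z • (a * gs z (n+1) * b) := by
                rw [mul_assoc, c, ← mul_assoc, mul_assoc a, gs_quad]
                simp only [mul_add, add_mul, mul_one, mul_smul_comm, smul_mul_assoc]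
              rw [e]
              exact add_mem (Submodule.subset_span (Or.inl (mul_mem ha (Hn_mono (by omega) hb1))))
                (Submodule.smul_mem _ _ (Submodule.subset_span
                  (Or.inr ⟨a, ha, b, Hn_mono (by omega) hb1, rfl⟩)))
            · have c1 : c * gs z (n+1) = gs z (n+1) * c := gs_comm_Hn (n := n+1) le_rfl hc
              have d1 : d * gs z (n+1) = gs z (n+1) * d := gs_comm_Hn (n := n+1) le_rfl hd
              have e : a * gs z (n+1) * (c * gs z n * d) * gs z (n+1)
                  = (a * c * gs z n) * gs z (n+1) * (gs z n * d) := by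
                calc _ = a * (gs z (n+1) * c) * gs z n * (d * gs z (n+1)) := by noncomm_ring
                  _ = a * c * (gs z (n+1) * gs z n * gs z (n+1)) * d := by rw [d1, ← c1]; noncomm_ring
                  _ = _ := by rw [← gs_br]; noncomm_ring
              rw [e]
              exact Submodule.subset_span (Or.inr ⟨_, mul_mem (mul_mem ha (Hn_mono (by omega) hc))
                (gs_mem (by omega)), _, mul_mem (gs_mem (by omega)) (Hn_mono (by omega) hd), rfl⟩)
          | zero => simp
          | add u v hu1 hv1 hu hv =>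
            have hsub : ∀ w ∈ Submodule.span B (Sg z n), w ∈ Hn z (n+1+1) := by
              intro w hw
              induction hw using Submodule.span_induction with
              | mem w hw =>
                rcases hw with hw | ⟨c, hc, d, hd, rfl⟩
                · exact Hn_mono (by omega) hw
                · exact mul_mem (mul_mem (Hn_mono (by omega) hc) (gs_mem (by omega))) (Hn_mono (by omega) hd)
              | zero => exact zero_mem _
              | add x y _ _ hx hy => exact add_mem hx hy
              | smul c x _ hx => exact Subalgebra.smul_mem _ hx _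
            rw [mul_add, add_mul]
            exact add_mem (hu (hsub _ hu1)) (hv (hsub _ hv1))
          | smul c u hu1 hu =>
            have hsub : ∀ w ∈ Submodule.span B (Sg z n), w ∈ Hn z (n+1+1) := by
              intro w hw
              induction hw using Submodule.span_induction with
              | mem w hw =>
                rcases hw with hw | ⟨c, hc, d, hd, rfl⟩
                · exact Hn_mono (by omega) hw
                · exact mul_mem (mul_mem (Hn_mono (by omega) hc) (gs_mem (by omega))) (Hn_mono (by omega) hd)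
              | zero => exact zero_mem _
              | add x y _ _ hx hy => exact add_mem hx hy
              | smul c x _ hx => exact Subalgebra.smul_mem _ hx _
            rw [mul_smul_comm, smul_mul_assoc]
            exact Submodule.smul_mem _ _ (hu (hsub _ hu1))
      | zero => rw [zero_mul]; exact zero_mem _
      | add x y _ _ hx hy => rw [add_mul]; exact add_mem hx hy
      | smul c x _ hx => rw [smul_mul_assoc]; exact Submodule.smul_mem _ _ hx
    intro x hx
    have key : ∀ y ∈ Submodule.span B (Sg z (n+1)), y * x ∈ Submodule.span B (Sg z (n+1)) := by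
      induction hx using Hn_induction with
      | hs i hi =>
        intro y hy
        by_cases h : i = n + 1
        · subst h; exact hm y hy
        · exact Sg_mul hy (gs_mem (by omega))
      | hc r =>
        intro y hy
        rw [← Algebra.commutes, ← Algebra.smul_def]; exact Submodule.smul_mem _ _ hy
      | ha u v _ _ hu hv => intro y hy; rw [mul_add]; exact add_mem (hu y hy) (hv y hy)
      | hm u v _ _ hu hv => intro y hy; rw [← mul_assoc]; exact hv _ (hu y hy)
    have := key 1 (Submodule.subset_span (Or.inl (one_mem _)))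
    rwa [one_mul] at this

lemma mem_Hn_top (x : Hk z) : ∃ n, x ∈ Hn z (n+1) := by
  induction x using hk_induction with
  | hs i => exact ⟨i+1, gs_mem (by omega)⟩
  | hc r => exact ⟨0, Subalgebra.algebraMap_mem _ _⟩
  | ha x y hx hy =>
    obtain ⟨a, ha⟩ := hx
    obtain ⟨b, hb⟩ := hy
    exact ⟨a + b, add_mem (Hn_mono (by omega) ha) (Hn_mono (by omega) hb)⟩
  | hm x y hx hy =>
    obtain ⟨a, ha⟩ := hx
    obtain ⟨b, hb⟩ := hy
    exact ⟨a + b, mul_mem (Hn_mono (by omega) ha) (Hn_mono (by omega) hb)⟩

/-- values of a Markov trace lie in any submodule containing the value at one -/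
lemma MT.mem_of {κ : B} {t : Hk z →ₗ[B] M} (h : MT z κ t) (S : Submodule B M) (h1 : t 1 ∈ S) (x : Hk z) :
    t x ∈ S := by
  obtain ⟨n, hn⟩ := mem_Hn_top x
  induction n generalizing x with
  | zero =>
    induction hn using Algebra.adjoin_induction with
    | mem x hx => obtain ⟨i, hi, _⟩ := hx; omega
    | algebraMap r => rw [Algebra.algebraMap_eq_smul_one, map_smul]; exact S.smul_mem _ h1
    | add x y _ _ hx hy => rw [map_add]; exact S.add_mem hx hy
    | mul x y hx' hy' hx hy =>
      have h0 : Hn z 1 ≤ ⊥ := by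
        rw [Hn]; apply Algebra.adjoin_le; intro y hy; obtain ⟨i, hi, _⟩ := hy; omega
      obtain ⟨c, rfl⟩ := Algebra.mem_bot.1 (h0 hx')
      rw [← Algebra.smul_def, map_smul]; exact S.smul_mem _ hy
  | succ n ih =>
    have := Hn_span n hn
    induction this using Submodule.span_induction with
    | mem x hx =>
      rcases hx with hx | ⟨a, ha, b, hb, rfl⟩
      · exact ih x hx
      · rw [h.mid n ha hb]; exact S.smul_mem _ (ih _ (mul_mem ha hb))
    | zero => rw [map_zero]; exact S.zero_mem
    | add x y hx1 hy1 hx hy =>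
      have hsub : ∀ w ∈ Submodule.span B (Sg z n), w ∈ Hn z (n+1+1) := by
        intro w hw
        induction hw using Submodule.span_induction with
        | mem w hw =>
          rcases hw with hw | ⟨c, hc, d, hd, rfl⟩
          · exact Hn_mono (by omega) hw
          · exact mul_mem (mul_mem (Hn_mono (by omega) hc) (gs_mem (by omega))) (Hn_mono (by omega) hd)
        | zero => exact zero_mem _
        | add x y _ _ hx hy => exact add_mem hx hy
        | smul c x _ hx => exact Subalgebra.smul_mem _ hx _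
      rw [map_add]; exact S.add_mem (hx (hsub _ hx1)) (hy (hsub _ hy1))
    | smul c x hx1 hx =>
      have hsub : ∀ w ∈ Submodule.span B (Sg z n), w ∈ Hn z (n+1+1) := by
        intro w hw
        induction hw using Submodule.span_induction with
        | mem w hw =>
          rcases hw with hw | ⟨c, hc, d, hd, rfl⟩
          · exact Hn_mono (by omega) hw
          · exact mul_mem (mul_mem (Hn_mono (by omega) hc) (gs_mem (by omega))) (Hn_mono (by omega) hd)
        | zero => exact zero_mem _
        | add x y _ _ hx hy => exact add_mem hx hy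
        | smul c x _ hx => exact Subalgebra.smul_mem _ hx _
      rw [map_smul]; exact S.smul_mem _ (hx (hsub _ hx1))

end Pool.Agent.W5h66
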