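import Pool.Agent.W5h66.Ws

/-! The Newton identity for Casimir sums. -/

namespace Pool.Agent.W5h66

universe u v
variable {B : Type u} [CommRing B] {z : B}
variable {M : Type v} [AddCommGroup M] [Module B M]

/-- first slot trace property -/
def TR (z : B) (n N : ℕ) (β : Hk z →ₗ[B] Hk z →ₗ[B] M) : Prop :=
  ∀ u ∈ Hn z n, ∀ y ∈ Hn z N, ∀ b ∈ Hn z N, β (u * y) b = β (y * u) b

lemma So_words (a b k l : ℕ) (V : Hk z) :
    So z a b k l V = ((shw k l).map (fun w => sn a (wv (gs z) w) * V * sn b (wv (gs z) w.reverse))).sum := by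
  rw [So, SS, ev_apply]
  simp only [wv_tw]

lemma flat_sum {N : Type*} [AddCommMonoid N] (g : List ℕ → N) (L L' : List (List ℕ)) :
    ((L.flatMap (fun c => L'.map (fun w => c ++ w))).map g).sum
      = (L.map (fun c => (L'.map (fun w => g (c ++ w))).sum)).sum := by
  induction L with
  | nil => simp
  | cons c L ih =>
    rw [List.flatMap_cons, List.map_append, List.sum_append, ih, List.map_cons, List.sum_cons,
      List.map_map]
    rfl

lemma Wf_listsum (n : ℕ) (L : List (List ℕ)) (F : List ℕ → Hk z → Hk z → M) :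
    (L.map (fun c => Wf z n (F c))).sum = Wf z n (fun a b => (L.map (fun c => F c a b)).sum) := by
  induction L with
  | nil => simp [Wf_zero]
  | cons c L ih => simp only [List.map_cons, List.sum_cons]; rw [ih, Wf_add]

lemma Wf_succ (n : ℕ) (F : Hk z → Hk z → M) : Wf z (n+1) F
    = ((shw n 1).map (fun c => Wf z n (fun a b => F (wv (gs z) c * a) (b * wv (gs z) c.reverse)))).sum := by
  unfold Wf
  rw [nnw, flat_sum]
  simp only [wv_append, List.reverse_append]

lemma Wf_succ' (n : ℕ) (β : Hk z →ₗ[B] Hk z →ₗ[B] M) : Wf z (n+1) (fun a b => β a b)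
    = ((shw n 1).map (fun c => Wf z n (fun a b => β (a * wv (gs z) c.reverse) (wv (gs z) c * b)))).sum := by
  rw [Wf_flip, Wf_succ]
  congr 1
  apply List.map_congr_left
  intro c _
  have := Wf_flip n (β.compl₁₂ (LinearMap.mulRight B (wv (gs z) c.reverse))
    (LinearMap.mulLeft B (wv (gs z) c)))
  simpa using this.symm

/-- one step -/
lemma Wf_step {m N : ℕ} (hN : m + 2 ≤ N) {β : Hk z →ₗ[B] Hk z →ₗ[B] M} (hβ : TR z (m+1) N β) :
    Wf z (m+2) (fun a b => β a b) = Wf z (m+1) (fun a b => β a b)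
      + Wf z (m+1) (fun a b => β (a * gs z m) (So z 0 0 m 1 (gs z m * b))) := by
  rw [Wf_succ']
  have e : shw (m+1) 1 = [[]] ++ (shw m 1).map (· ++ [m]) := rfl
  rw [e, List.map_append, List.sum_append, List.map_map]
  congr 1
  · simp
  · have h : ∀ c ∈ shw m 1, ((fun c => Wf z (m+1) (fun a b => β (a * wv (gs z) c.reverse) (wv (gs z) c * b))) ∘ (· ++ [m])) c
        = Wf z (m+1) (fun a b => β (a * gs z m) (wv (gs z) c * (gs z m * b) * wv (gs z) c.reverse)) := by
      intro c hc
      have hc1 : ∀ i ∈ c, i + 1 < m + 1 := shw_lt m 1 c hc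
      have hm1 : wv (gs z) c ∈ Hn z (m+1) := wv_mem hc1
      have hm2 : wv (gs z) c.reverse ∈ Hn z (m+1) := wv_mem (fun i hi => hc1 i (by simpa using hi))
      have w1 := Wf_left hm2 (β.compl₁₂ (LinearMap.mulRight B (gs z m)) (LinearMap.mulLeft B (wv (gs z) c * gs z m)))
      simp only [LinearMap.compl₁₂_apply, LinearMap.mulLeft_apply, LinearMap.mulRight_apply] at w1
      simp only [Function.comp]
      have e1 : wv (gs z) (c ++ [m]).reverse = gs z m * wv (gs z) c.reverse := by
        rw [List.reverse_append]; simp [wv]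
      have e2 : wv (gs z) (c ++ [m]) = wv (gs z) c * gs z m := by rw [wv_append]; simp [wv]
      rw [e1, e2]
      calc _ = Wf z (m+1) (fun a b => β (wv (gs z) c.reverse * a * gs z m) (wv (gs z) c * gs z m * b)) := by
            refine Wf_congr (fun a ha b hb => ?_)
            rw [← mul_assoc, mul_assoc (wv (gs z) c.reverse)]
            exact (hβ _ hm2 _ (mul_mem (Hn_mono (by omega) ha) (gs_mem (by omega))) _
              (mul_mem (mul_mem (Hn_mono (by omega) hm1) (gs_mem (by omega))) (Hn_mono (by omega) hb))).symm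
        _ = _ := by rw [w1]; simp only [mul_assoc]
    rw [List.map_congr_left h, Wf_listsum]
    refine Wf_congr (fun a ha b hb => ?_)
    rw [So_words, map_list_sum, List.map_map]
    simp [Function.comp_def]

lemma dS_comm {i : ℕ} (l : ℕ) {u : Hk z} (hu : u ∈ Hn z i) : u * dS z i l = dS z i l * u := by
  have := comm_far (m := i) le_rfl hu (dS z 0 l)
  rwa [sn_dS, add_zero] at this
lemma dD_comm {i : ℕ} (l : ℕ) {u : Hk z} (hu : u ∈ Hn z i) : u * dD z i l = dD z i l * u := by
  have := comm_far (m := i) le_rfl hu (dD z 0 l)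
  rwa [sn_dD, add_zero] at this

theorem CT (n : ℕ) : ∀ {N : ℕ} {β : Hk z →ₗ[B] Hk z →ₗ[B] M}, n + 1 ≤ N → TR z n N β →
    (∀ j < n, So z 0 0 j 1 (gs z j * Gm z j) = Gm z (j+1)) →
    Wf z (n+1) (fun a b => β a b) = ∑ k ∈ Finset.range (n+1), Wf z k (fun a b =>
      β (a * dS z k (n-k)) (So z 0 0 k (n-k) (b * sn k (Gm z (n-k))))) := by
  induction n with
  | zero => intro N β _ _ _; simp
  | succ m ih =>
    intro N β hN hβ hG
    rw [Wf_step hN hβ, Finset.sum_range_succ _ (m+1), Nat.sub_self, add_comm]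
    congr 1
    · let β' : Hk z →ₗ[B] Hk z →ₗ[B] M := β.compl₁₂ (LinearMap.mulRight B (gs z m))
        (So z 0 0 m 1 ∘ₗ LinearMap.mulLeft B (gs z m))
      have hβ' : ∀ a b, β' a b = β (a * gs z m) (So z 0 0 m 1 (gs z m * b)) := fun a b => rfl
      have hT : TR z m N β' := by
        intro u hu y hy b hb
        rw [hβ', hβ']
        have hb2 : So z 0 0 m 1 (gs z m * b) ∈ Hn z N :=
          So_mem (by omega) (mul_mem (gs_mem (by omega)) hb)
        have := hβ u (Hn_mono (by omega) hu) (y * gs z m) (mul_mem hy (gs_mem (by omega))) _ hb2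
        rw [mul_assoc, this, mul_assoc, mul_assoc, gs_comm_Hn le_rfl hu]
      have h := ih (N := N) (β := β') (by omega) hT (fun j hj => hG j (by omega))
      simp only [hβ'] at h
      rw [h]
      refine Finset.sum_congr rfl (fun k hk => ?_)
      have hk' : k ≤ m := by simp at hk; omega
      obtain ⟨j, rfl⟩ : ∃ j, m = k + j := ⟨m - k, by omega⟩
      rw [show k + j - k = j by omega, show k + j + 1 - k = j + 1 by omega]
      refine Wf_congr (fun a ha b hb => ?_)
      rw [mul_assoc, ← dS_succ]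
      congr 1
      rw [← So_pull_left (gs z (k+j)) _ (fun i hi => by
        rw [zero_add]; exact (gs_comm_Hn (n := k+j) le_rfl (gs_mem hi)).symm)]
      rw [So_assoc]
      congr 1
      have e1 : gs z (k+j) * (b * sn k (Gm z j)) = b * sn k (gs z j * Gm z j) := by
        rw [map_mul, sn_gs, ← mul_assoc, ← mul_assoc, gs_comm_Hn (by omega) hb]
      rw [e1, zero_add, So_pull_left b _ (fun i hi => gs_comm_Hn (by omega) hb)]
      have := sn_So k 0 0 j 1 (gs z j * Gm z j)
      rw [add_zero] at this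
      rw [← this, hG j (by omega)]
    · simp

/-- products of norms -/
lemma No_prod {k : ℕ} (l : ℕ) {v : Hk z} (v' : Hk z) (hv : v ∈ Hn z k) :
    No z 0 0 (k+l) (v * sn k v') = So z 0 0 k l (No z 0 0 k v * sn k (No z 0 0 l v')) := by
  rw [No_add]
  congr 1
  rw [zero_add, No_pull_left v _ (fun i hi => gs_comm_Hn (by omega) hv)]
  have := sn_No k 0 0 l v'
  rw [add_zero] at this
  rw [← this, No_pull_right]
  intro i hi
  rw [zero_add]
  exact comm_far le_rfl (gs_mem hi) _

lemma No_add' (k l : ℕ) (V : Hk z) :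
    No z 0 0 (k+l) V = So z 0 0 k l (No z k k l (No z 0 0 k V)) := by
  rw [No_add, zero_add]
  congr 1
  have := No_it (X := No z k k l) (a := 0) (b := 0) (a' := 0) (b' := 0) (n := k) (fun i hi W => by
    rw [zero_add]
    rw [mul_assoc, No_pull_left (gs z i) _ (fun j hj => gs_far i (k+j) (by omega)),
      No_pull_right (gs z i) _ (fun j hj => (gs_far i (k+j) (by omega)).symm), mul_assoc]) V
  exact this.symm

/-- swapping two blocks under a trace -/
lemma swap_tr {m r : ℕ} {f : Hk z →ₗ[B] M} (hf : RT z (m+r) f) {v v' : Hk z} (hv : v ∈ Hn z m)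
    (hv' : v' ∈ Hn z r) : f (v * sn m v') = f (v' * sn r v) := by
  have e : Cp z m r * (v * sn m v') = (v' * sn r v) * Cp z m r := by
    rw [← mul_assoc, Cp_left r hv, mul_assoc, Cp_right m hv', ← mul_assoc,
      ← comm_far le_rfl hv' v]
  have h := hf (Cm z r m) (by rw [add_comm]; exact Cm_mem r m) (Cp z m r * (v * sn m v'))
  rw [← mul_assoc, Cm_Cp, one_mul] at h
  rw [h, e, mul_assoc, Cp_Cm, mul_one]

/-- packaged facts about `Gm` -/
structure GF (z : B) (j : ℕ) : Prop where
  sep : Sep z (j+1)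
  cen : ∀ x ∈ Hn z (j+1), x * Gm z j = Gm z j * x
  suc : Gm z (j+1) = Gm z j * Lt z (j+1)
  lcen : ∀ x ∈ Hn z (j+1), x * Lt z (j+1) = Lt z (j+1) * x

lemma GF.lift {j : ℕ} (h : GF z j) : ∃ v ∈ Hn z (j+1), No z 0 0 (j+1) v = Gm z j := by
  obtain ⟨g, hg, e⟩ := h.sep
  refine ⟨Gm z j * g, mul_mem (Gm_mem j) hg, ?_⟩
  rw [No_pull_left _ _ (fun i hi => by rw [zero_add]; exact (h.cen _ (gs_mem hi)).symm), e, mul_one]

lemma GF.So_eq {j : ℕ} (h : GF z j) : So z 0 0 j 1 (gs z j * Gm z j) = Gm z (j+1) := by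
  rw [So_pull_right _ _ (fun i hi => by rw [zero_add]; exact h.cen _ (gs_mem (by omega))), h.suc,
    h.lcen _ (Gm_mem j)]
  rfl

/-- the exchange identity -/
theorem EV {j m : ℕ} (hj : GF z j) (hm : GF z m) :
    So z 0 0 j (m+1) (dD z j (m+1) * (Gm z j * (sn (j+1) (Gm z m) * dS z j (m+1))))
      = So z 0 0 (m+1) j (Gm z m * sn (m+1) (Gm z j)) + z • Gm z (j+1+m) := by
  obtain ⟨v, hv, ev⟩ := hj.lift
  obtain ⟨v', hv', ev'⟩ := hm.lift
  have a1 := So_succ (z := z) 0 0 j m (Gm z j * sn (j+1) (Gm z m))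
  have a2 := So_succ (z := z) 0 0 m j (Gm z m * sn (m+1) (Gm z j))
  have c1 := No_prod (m+1) v' hv
  have c2 := No_prod (j+1) v hv'
  rw [ev, ev'] at c1 c2
  have c3 : No z 0 0 (j+1+(m+1)) (v * sn (j+1) v') = No z 0 0 (m+1+(j+1)) (v' * sn (m+1) v) := by
    rw [show m+1+(j+1) = j+1+(m+1) by omega]
    exact swap_tr (f := No z 0 0 (j+1+(m+1))) (fun u hu y => No_comm0 hu y) hv hv'
  rw [c1, c2, a1, a2] at c3
  simp only [zero_add] at c3
  -- the first term
  set f : Hk z →ₗ[B] Hk z := No z 0 0 (m+(j+1)) with hf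
  have hRT : RT z (m+(j+1)) f := fun u hu y => No_comm0 hu y
  have first : So z 0 0 m (j+1) (dD z m (j+1) * (Gm z m * sn (m+1) (Gm z j)) * dS z m (j+1))
      = f (v * JJ z (j+1) * dS z (j+1) m) := by
    rw [← lam0 m (j+1) hRT v hv, hf, No_add, zero_add]
    congr 1
    have e1 := sn_No (m+1) 0 0 (j+1) v
    rw [add_zero, ev] at e1
    have e2 : No z (m+1) (m+1) (j+1) (sn (m+1) v) * dS z m (j+1)
        = No z (m+1) m (j+1) (sn (m+1) v * dS z m (j+1)) :=
      No_right _ _ (fun i hi => by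
        have := dS_mul_sn (k := m) (gs_mem (z := z) hi)
        rw [sn_gs, sn_gs] at this
        exact this.symm)
    have e3 : dD z m (j+1) * dS z 0 m * No z (m+1) m (j+1) (sn (m+1) v * dS z m (j+1))
        = No z m m (j+1) (dD z m (j+1) * dS z 0 m * (sn (m+1) v * dS z m (j+1))) :=
      No_left _ _ (fun i hi => by
        have h1 := dD_mul_sn (k := m) (gs_mem (z := z) hi)
        rw [sn_gs, sn_gs] at h1
        have h2 : dS z 0 m * gs z (m+1+i) = gs z (m+1+i) * dS z 0 m :=
          gs_comm_Hn (n := m+1) (by omega) (dS_mem (by omega))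
        rw [mul_assoc, h2, ← mul_assoc, h1, mul_assoc])
    have e4 : dD z m (j+1) * (Gm z m * sn (m+1) (Gm z j)) * dS z m (j+1)
        = No z 0 0 m (dD z m (j+1) * dS z 0 m * (sn (m+1) (Gm z j) * dS z m (j+1))) := by
      have q1 : dD z m (j+1) * Gm z m = No z 0 0 m (dD z m (j+1) * dS z 0 m) := by
        rw [Gm, No_pull_left]
        intro i hi
        rw [zero_add]
        exact (dD_comm _ (gs_mem hi)).symm
      rw [No_pull_right (sn (m+1) (Gm z j) * dS z m (j+1)), ← q1]
      · noncomm_ring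
      · intro i hi
        rw [zero_add, ← mul_assoc, comm_far (m := m+1) (by omega : m ≤ m + 1) (gs_mem hi), mul_assoc,
          mul_assoc, dS_comm _ (gs_mem hi)]
    rw [e4, e1, e2, e3]
    congr 2
    noncomm_ring
  have second : So z 0 0 (j+1) m (Gm z j * sn (j+1) (Gm z m)) = f (v * dS z (j+1) m) := by
    have := No_prod m (dS z 0 m) hv
    rw [sn_dS, add_zero, ev] at this
    rw [hf, show m + (j+1) = j+1+m by omega, this]
    rfl
  have third : f (v * Lt z (j+1) * dS z (j+1) m) = Gm z (j+1+m) := by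
    have t1 : No z 0 0 (j+1) (v * Lt z (j+1) * dS z (j+1) m) = No z 0 0 (j+1) (dS z 0 (j+1+m)) := by
      have d1 : dS z 0 (j+1+m) = dS z 0 (j+1) * dS z (j+1) m := by rw [dS_add, zero_add]
      have d2 : No z 0 0 (j+1) (dS z 0 (j+1)) = Gm z (j+1) := rfl
      rw [d1, No_pull_right _ (dS z 0 (j+1)) (fun i hi => by
        rw [zero_add]; exact dS_comm _ (gs_mem hi)), d2, hj.suc]
      rw [mul_assoc v, No_pull_right (Lt z (j+1) * dS z (j+1) m) v (fun i hi => by
        rw [zero_add, ← mul_assoc, hj.lcen _ (gs_mem hi), mul_assoc, mul_assoc, dS_comm _ (gs_mem hi)]),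
        ev, mul_assoc]
    rw [hf, show m + (j+1) = j+1+m by omega, No_add', t1, ← No_add']
    rfl
  have JJe : f (v * JJ z (j+1) * dS z (j+1) m) = f (v * dS z (j+1) m) + z • Gm z (j+1+m) := by
    rw [JJ_eq, mul_add, mul_one, add_mul, map_add, mul_smul_comm, smul_mul_assoc, map_smul, third]
  rw [first, second, JJe] at c3
  have e5 : dD z j (m+1) * (Gm z j * (sn (j+1) (Gm z m) * dS z j (m+1)))
      = dD z j (m+1) * (Gm z j * sn (j+1) (Gm z m)) * dS z j (m+1) := by noncomm_ring
  rw [e5]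
  have : ∀ (a b c d : Hk z), a + b = c + (a + d) → b = c + d := by
    intro a b c d h
    have h2 : a + b = a + (c + d) := by rw [h]; abel
    exact add_left_cancel h2
  exact this _ _ _ _ c3

end Pool.Agent.W5h66
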