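import Pool.Agent.W5h66.Eu

/-! The Newton identity for Casimir sums, main induction. -/

namespace Pool.Agent.W5h66

universe u v
variable {B : Type u} [CommRing B] {z : B}
variable {M : Type v} [AddCommGroup M] [Module B M]

/-- arc insertion -/
noncomputable def tA (k j : ℕ) (β : Hk z →ₗ[B] Hk z →ₗ[B] M) : Hk z →ₗ[B] Hk z →ₗ[B] M :=
  β.compl₁₂ (LinearMap.mulRight B (dS z k j)) (So z 0 0 k j ∘ₗ LinearMap.mulRight B (sn k (Gm z j)))
/-- power sum insertion -/
noncomputable def tX (k m : ℕ) (β : Hk z →ₗ[B] Hk z →ₗ[B] M) : Hk z →ₗ[B] Hk z →ₗ[B] M :=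
  β.compl₁₂ (LinearMap.mulRight B (sn k (xx z (m+1))))
    (So z 0 0 k (m+1) ∘ₗ LinearMap.mulRight B (sn k (Gm z m)))
/-- auxiliary form -/
noncomputable def p2 (k m : ℕ) (β : Hk z →ₗ[B] Hk z →ₗ[B] M) : Hk z →ₗ[B] Hk z →ₗ[B] M :=
  β.compl₁₂ (LinearMap.mulRight B (sn (k+1) (xx z (m+1))))
    (So z 0 0 k (m+1) ∘ₗ LinearMap.mulRight B (sn (k+1) (Gm z m) * dS z k (m+1))
      ∘ₗ LinearMap.mulLeft B (dD z k (m+1)))

lemma tA_apply (k j : ℕ) (β : Hk z →ₗ[B] Hk z →ₗ[B] M) (a b : Hk z) :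
    tA k j β a b = β (a * dS z k j) (So z 0 0 k j (b * sn k (Gm z j))) := rfl
lemma tX_apply (k m : ℕ) (β : Hk z →ₗ[B] Hk z →ₗ[B] M) (a b : Hk z) :
    tX k m β a b = β (a * sn k (xx z (m+1))) (So z 0 0 k (m+1) (b * sn k (Gm z m))) := rfl
lemma p2_apply (k m : ℕ) (β : Hk z →ₗ[B] Hk z →ₗ[B] M) (a b : Hk z) :
    p2 k m β a b = β (a * sn (k+1) (xx z (m+1)))
      (So z 0 0 k (m+1) (dD z k (m+1) * b * (sn (k+1) (Gm z m) * dS z k (m+1)))) := rfl

lemma TR_tA {k j n N : ℕ} {β : Hk z →ₗ[B] Hk z →ₗ[B] M} (h : TR z n N β) (hk : k ≤ n)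
    (hN : k + j + 1 ≤ N) : TR z k N (tA k j β) := by
  intro u hu y hy b hb
  rw [tA_apply, tA_apply]
  have hb2 : So z 0 0 k j (b * sn k (Gm z j)) ∈ Hn z N :=
    So_mem (by omega) (mul_mem hb (Hn_mono (by omega) (sn_mem (Gm_mem j))))
  have := h u (Hn_mono hk hu) (y * dS z k j) (mul_mem hy (dS_mem (by omega))) _ hb2
  rw [mul_assoc, this, mul_assoc, mul_assoc, dS_comm j hu]

lemma TR_p2 {k m n N : ℕ} {β : Hk z →ₗ[B] Hk z →ₗ[B] M} (h : TR z n N β) (hk : k ≤ n)
    (hN : k + m + 2 ≤ N) : TR z k N (p2 k m β) := by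
  intro u hu y hy b hb
  rw [p2_apply, p2_apply]
  have hb2 : So z 0 0 k (m+1) (dD z k (m+1) * b * (sn (k+1) (Gm z m) * dS z k (m+1))) ∈ Hn z N :=
    So_mem (by omega) (mul_mem (mul_mem (dD_mem (by omega)) hb)
      (mul_mem (Hn_mono (by omega) (sn_mem (Gm_mem m))) (dS_mem (by omega))))
  have := h u (Hn_mono hk hu) (y * sn (k+1) (xx z (m+1)))
    (mul_mem hy (Hn_mono (by omega) (sn_mem (xx_mem (m+1))))) _ hb2
  have c := comm_far (m := k+1) (by omega : k ≤ k + 1) hu (xx z (m+1))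
  rw [mul_assoc u, this, mul_assoc y, ← c, ← mul_assoc y]

/-- the second slot of the exchange -/
lemma slot2 {i j m : ℕ} (hj : GF z j) (hm : GF z m) {b : Hk z} (hb : b ∈ Hn z i) :
    So z 0 0 (i+j) (m+1) (dD z (i+j) (m+1) * (So z 0 0 i j (b * sn i (Gm z j)))
        * (sn (i+j+1) (Gm z m) * dS z (i+j) (m+1)))
      = So z 0 0 (i+m+1) j (So z 0 0 i (m+1) (b * sn i (Gm z m)) * sn (i+m+1) (Gm z j))
        + z • So z 0 0 i (j+m+1) (b * sn i (Gm z (j+m+1))) := by
  have e1 : dD z (i+j) (m+1) * (So z 0 0 i j (b * sn i (Gm z j)))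
        * (sn (i+j+1) (Gm z m) * dS z (i+j) (m+1))
      = So z 0 0 i j (b * sn i (dD z j (m+1) * (Gm z j * (sn (j+1) (Gm z m) * dS z j (m+1))))) := by
    rw [← So_pull_left (dD z (i+j) (m+1)) _ (fun l hl => by
      rw [zero_add]; exact (dD_comm _ (gs_mem hl)).symm)]
    rw [← So_pull_right (sn (i+j+1) (Gm z m) * dS z (i+j) (m+1)) _ (fun l hl => by
      rw [zero_add, ← mul_assoc, comm_far (m := i+j+1) (by omega : i + j ≤ i + j + 1) (gs_mem hl),
        mul_assoc, mul_assoc, dS_comm _ (gs_mem hl)])]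
    congr 1
    have c := comm_far le_rfl hb (dD z j (m+1))
    rw [sn_dD] at c
    rw [map_mul, map_mul, map_mul, sn_dD, sn_dS, sn_sn, ← mul_assoc, ← mul_assoc (b), c]
    rw [show i + (j+1) = i + j + 1 by omega]
    noncomm_ring
  rw [e1, So_assoc, zero_add]
  have e2 : So z i i j (m+1) (b * sn i (dD z j (m+1) * (Gm z j * (sn (j+1) (Gm z m) * dS z j (m+1)))))
      = b * sn i (So z 0 0 (m+1) j (Gm z m * sn (m+1) (Gm z j)) + z • Gm z (j+1+m)) := by
    rw [So_pull_left b _ (fun l hl => gs_comm_Hn (by omega) hb)]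
    have := sn_So i 0 0 j (m+1) (dD z j (m+1) * (Gm z j * (sn (j+1) (Gm z m) * dS z j (m+1))))
    rw [add_zero] at this
    rw [← this, EV hj hm]
  rw [e2, map_add, mul_add, map_add, map_smul, mul_smul_comm, map_smul]
  congr 1
  · have e3 : b * sn i (So z 0 0 (m+1) j (Gm z m * sn (m+1) (Gm z j)))
        = So z i i (m+1) j (b * sn i (Gm z m * sn (m+1) (Gm z j))) := by
      rw [So_pull_left b _ (fun l hl => gs_comm_Hn (by omega) hb), sn_So, add_zero]
    have e4 := So_assoc (z := z) 0 0 i (m+1) j (b * sn i (Gm z m * sn (m+1) (Gm z j)))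
    rw [zero_add] at e4
    rw [e3, show j + (m+1) = m+1+j by omega, ← e4, show i + (m+1) = i+m+1 by omega]
    congr 1
    rw [map_mul (sn i), sn_sn, ← mul_assoc, show i + (m+1) = i+m+1 by omega]
    rw [So_pull_right]
    intro l hl
    rw [zero_add]
    exact comm_far (n := i+m+1) le_rfl (gs_mem (by omega)) _
  · rw [show j + (m+1) = j+m+1 by omega, show j+1+m = j+m+1 by omega]

lemma slot1 {i j m n N : ℕ} {β : Hk z →ₗ[B] Hk z →ₗ[B] M} (h : TR z n N β) (hn : i + j + m + 2 ≤ n)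
    (hN : n ≤ N) {a Y : Hk z} (ha : a ∈ Hn z i) (hY : Y ∈ Hn z N) :
    β (a * dS z i j * sn (i+j+1) (xx z (m+1))) Y = β (a * sn i (xx z (m+1)) * dS z (i+m+1) j) Y := by
  let f : Hk z →ₗ[B] M := β.flip Y ∘ₗ LinearMap.mulLeft B a ∘ₗ (sn i).toLinearMap
  have hf : ∀ y, f y = β (a * sn i y) Y := fun y => rfl
  have hRT : ∀ u ∈ Hn z (j+1+(m+1)), ∀ y ∈ Hn z (j+1+(m+1)), f (u * y) = f (y * u) := by
    intro u hu y hy
    rw [hf, hf, map_mul (sn i), map_mul (sn i), ← mul_assoc, comm_far le_rfl ha, mul_assoc]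
    rw [h (sn i u) (Hn_mono (by omega) (sn_mem hu)) (a * sn i y)
      (mul_mem (Hn_mono (by omega) ha) (Hn_mono (by omega) (sn_mem hy))) Y hY, mul_assoc]
  have hv : dS z 0 j ∈ Hn z (j+1) := dS_mem (by omega)
  have hv' : xx z (m+1) ∈ Hn z (m+1) := xx_mem _
  have e : Cp z (j+1) (m+1) * (dS z 0 j * sn (j+1) (xx z (m+1)))
      = (xx z (m+1) * sn (m+1) (dS z 0 j)) * Cp z (j+1) (m+1) := by
    rw [← mul_assoc, Cp_left (m+1) hv, mul_assoc, Cp_right (j+1) hv', ← mul_assoc,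
      ← comm_far le_rfl hv' _]
  have hV : dS z 0 j * sn (j+1) (xx z (m+1)) ∈ Hn z (j+1+(m+1)) :=
    mul_mem (Hn_mono (by omega) hv) (sn_mem hv')
  have h1 := hRT (Cm z (m+1) (j+1)) (Hn_mono (by omega) (Cm_mem (m+1) (j+1)))
    (Cp z (j+1) (m+1) * (dS z 0 j * sn (j+1) (xx z (m+1)))) (mul_mem (Cp_mem _ _) hV)
  rw [← mul_assoc, Cm_Cp, one_mul, e, mul_assoc, Cp_Cm, mul_one, hf, hf] at h1
  simp only [map_mul, sn_dS, sn_sn, add_zero] at h1
  rw [show i + (j+1) = i+j+1 by omega, show i + (m+1) = i+m+1 by omega] at h1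
  rw [mul_assoc, mul_assoc]
  exact h1

/-- pointwise form of the exchange -/
lemma exch {i j m N : ℕ} (hj : GF z j) (hm : GF z m) {β : Hk z →ₗ[B] Hk z →ₗ[B] M}
    (h : TR z (i+j+m+2) N β) (hN : i+j+m+2 ≤ N) {a b : Hk z} (ha : a ∈ Hn z i) (hb : b ∈ Hn z i) :
    tA i j (p2 (i+j) m β) a b = tX i m (tA (i+m+1) j β) a b
      + z • β (a * (dS z i j * sn (i+j+1) (xx z (m+1)))) (So z 0 0 i (j+m+1) (b * sn i (Gm z (j+m+1)))) := by
  rw [tA_apply, p2_apply, slot2 hj hm hb, map_add, map_smul, tX_apply, tA_apply]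
  congr 1
  · apply slot1 h le_rfl hN ha
    refine So_mem (by omega) (mul_mem (So_mem (by omega) (mul_mem (Hn_mono (by omega) hb) ?_)) ?_)
    · exact Hn_mono (by omega) (sn_mem (Gm_mem m))
    · exact Hn_mono (by omega) (sn_mem (Gm_mem j))
  · rw [mul_assoc]

lemma split1 (k m : ℕ) (β : Hk z →ₗ[B] Hk z →ₗ[B] M) :
    Wf z (k+1) (fun a b => tX (k+1) m β a b)
      = Wf z (k+1) (fun a b => β (a * sn (k+1) (xx z (m+1))) (So z 0 0 (k+1) m (b * sn (k+1) (Gm z m))))
        + Wf z (k+1) (fun a b => p2 k m β a b) := by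
  rw [← Wf_add]
  refine Wf_congr (fun a _ b _ => ?_)
  rw [tX_apply, So_succ, map_add, p2_apply]
  simp only [zero_add, mul_assoc]

theorem EU (n : ℕ) : ∀ {N : ℕ} {β : Hk z →ₗ[B] Hk z →ₗ[B] M}, n ≤ N → TR z n N β →
    (∀ j, j + 1 < n → GF z j) →
    (n : B) • Wf z n (fun a b => β a b) = ∑ m ∈ Finset.range n,
      Wf z (n-1-m) (fun a b => tX (n-1-m) m β a b) := by
  induction n using Nat.strong_induction_on with
  | _ n IH =>
  rcases n with _ | n
  · intro N β _ _ _; simp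
  intro N β hN hβ hG
  simp only [Nat.add_sub_cancel]
  -- CT
  have hC := CT n (by omega) (fun u hu => hβ u (Hn_mono (by omega) hu)) (fun j hj => (hG j (by omega)).So_eq)
  -- first kind of terms
  set P : ℕ → M := fun m => Wf z (n-m) (fun a b => β (a * sn (n-m) (xx z (m+1))) (So z 0 0 (n-m) m (b * sn (n-m) (Gm z m)))) with hP
  set T : ℕ → ℕ → M := fun m i => Wf z i (fun a b => tA i (n-1-m-i) (p2 (n-1-m) m β) a b) with hT
  have S1 : ∑ m ∈ Finset.range (n+1), Wf z (n-m) (fun a b => tX (n-m) m β a b)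
      = ∑ m ∈ Finset.range (n+1), P m + ∑ m ∈ Finset.range n, ∑ i ∈ Finset.range (n-m), T m i := by
    rw [Finset.sum_range_succ, Finset.sum_range_succ _ n]
    have e0 : Wf z (n-n) (fun a b => tX (n-n) n β a b) = P n := by
      rw [hP]; simp only [Nat.sub_self]
      refine Wf_congr (fun a _ b _ => ?_)
      rw [tX_apply]; simp
    rw [e0, add_right_comm, ← Finset.sum_add_distrib]
    congr 1
    refine Finset.sum_congr rfl (fun m hm => ?_)
    have hm' : m < n := by simpa using hm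
    obtain ⟨k, rfl⟩ : ∃ k, n = k + 1 + m := ⟨n - 1 - m, by omega⟩
    rw [hP, hT]
    simp only [show k + 1 + m - m = k + 1 by omega, show k + 1 + m - 1 - m = k by omega]
    rw [split1]
    congr 1
    rw [CT k (N := N) (by omega) (TR_p2 (n := k+1+m+1) hβ (by omega) (by omega))
      (fun j hj => (hG j (by omega)).So_eq)]
    rfl
  rw [S1]
  -- the exchange
  set Q1 : ℕ → ℕ → M := fun m i => Wf z i (fun a b => tX i m (tA (i+m+1) (n-1-m-i) β) a b) with hQ1
  set Q2 : ℕ → ℕ → M := fun m i => Wf z i (fun a b =>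
    β (a * sn i (gam z (n-i-m) * sn (n-i-m) (xx z (m+1)))) (So z 0 0 i (n-i) (b * sn i (Gm z (n-i))))) with hQ2
  have S2 : ∀ m ∈ Finset.range n, ∀ i ∈ Finset.range (n-m), T m i = Q1 m i + Q2 m i := by
    intro m hm i hi
    have hm' : m < n := by simpa using hm
    have hi' : i < n - m := by simpa using hi
    obtain ⟨j, rfl⟩ : ∃ j, n = i + j + m + 1 := ⟨n - 1 - m - i, by omega⟩
    rw [hT, hQ1, hQ2]
    simp only
    rw [← Wf_add]
    refine Wf_congr (fun a ha b hb => ?_)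
    rw [show i + j + m + 1 - 1 - m - i = j by omega, show i + j + m + 1 - 1 - m = i + j by omega,
      show i + j + m + 1 - i - m = j + 1 by omega, show i + j + m + 1 - i = j + m + 1 by omega]
    rw [exch (hG j (by omega)) (hG m (by omega)) (N := N) (by
      have := hβ
      rwa [show i + j + m + 1 + 1 = i + j + m + 2 by omega] at this) (by omega) ha hb]
    congr 1
    have g : gam z (j+1) = z • dS z 0 j := rfl
    rw [g, smul_mul_assoc, map_smul, mul_smul_comm, map_smul, LinearMap.smul_apply, map_mul (sn i), sn_dS, sn_sn,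
      add_zero, show i + (j+1) = i + j + 1 by omega]
  have S3 : ∑ m ∈ Finset.range n, ∑ i ∈ Finset.range (n-m), T m i
      = ∑ m ∈ Finset.range n, ∑ i ∈ Finset.range (n-m), Q1 m i
        + ∑ m ∈ Finset.range n, ∑ i ∈ Finset.range (n-m), Q2 m i := by
    rw [← Finset.sum_add_distrib]
    refine Finset.sum_congr rfl (fun m hm => ?_)
    rw [← Finset.sum_add_distrib]
    exact Finset.sum_congr rfl (fun i hi => S2 m hm i hi)
  rw [S3]
  -- induction hypothesis for Q1
  have S4 : ∑ m ∈ Finset.range n, ∑ i ∈ Finset.range (n-m), Q1 m i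
      = ∑ t ∈ Finset.range n, ((t+1 : ℕ) : B) • Wf z (t+1) (fun a b => tA (t+1) (n-(t+1)) β a b) := by
    rw [tri_sum]
    refine Finset.sum_congr rfl (fun t ht => ?_)
    have ht' : t < n := by simpa using ht
    rw [IH (t+1) (by omega) (N := N) (by omega) (TR_tA hβ (by omega) (by omega))
      (fun j hj => hG j (by omega))]
    refine Finset.sum_congr rfl (fun m hm => ?_)
    have hm' : m ≤ t := by simp at hm; omega
    rw [hQ1]
    simp only
    rw [show t + 1 - 1 - m = t - m by omega, show t - m + m + 1 = t + 1 by omega,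
      show n - 1 - m - (t - m) = n - (t+1) by omega]
  -- Newton for the rest
  have S5 : ∑ m ∈ Finset.range (n+1), P m + ∑ m ∈ Finset.range n, ∑ i ∈ Finset.range (n-m), Q2 m i
      = ∑ i ∈ Finset.range (n+1), ((n-i+1 : ℕ) : B) • Wf z i (fun a b => tA i (n-i) β a b) := by
    rw [tri_swap]
    have r1 : ∑ m ∈ Finset.range (n+1), P m = ∑ i ∈ Finset.range (n+1), P (n-i) := by
      rw [← Finset.sum_range_reflect]
      refine Finset.sum_congr rfl (fun i hi => ?_)
      rw [show n + 1 - 1 - i = n - i by omega]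
    have r2 : ∑ i ∈ Finset.range n, ∑ m ∈ Finset.range (n-i), Q2 m i
        = ∑ i ∈ Finset.range (n+1), ∑ m ∈ Finset.range (n-i), Q2 m i := by
      rw [Finset.sum_range_succ _ n]; simp
    rw [r1, r2, ← Finset.sum_add_distrib]
    refine Finset.sum_congr rfl (fun i hi => ?_)
    have hi' : i ≤ n := by simp at hi; omega
    obtain ⟨l, rfl⟩ : ∃ l, n = i + l := ⟨n - i, by omega⟩
    rw [show i + l - i = l by omega, hP, hQ2]
    simp only [show i + l - l = i by omega, show i + l - i = l by omega]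
    have nt := newton (z := z) l
    rw [Finset.sum_range_succ, Nat.sub_self] at nt
    have g0 : gam z 0 = 1 := rfl
    rw [g0, one_mul, sn_zero] at nt
    rw [← Wf_sum, ← Wf_add]
    have : ∀ a b : Hk z, β (a * sn i (xx z (l+1))) (So z 0 0 i l (b * sn i (Gm z l)))
        + ∑ m ∈ Finset.range l, β (a * sn i (gam z (l-m) * sn (l-m) (xx z (m+1)))) (So z 0 0 i l (b * sn i (Gm z l)))
        = ((l+1 : ℕ) : B) • tA i l β a b := by
      intro a b
      rw [tA_apply, ← LinearMap.smul_apply, ← map_smul, ← mul_smul_comm, Nat.cast_smul_eq_nsmul]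
      have d1 : (l+1) • dS z i l = sn i ((l+1) • dS z 0 l) := by rw [map_nsmul, sn_dS, add_zero]
      rw [d1, ← nt, map_add, map_sum, mul_add, Finset.mul_sum, map_add, map_sum, LinearMap.add_apply,
        LinearMap.sum_apply, add_comm]
    simp only [this]
    have hs := Wf_map (z := z) (DistribSMul.toAddMonoidHom M (((l+1 : ℕ) : B))) i (fun a b => tA i l β a b)
    simp only [DistribSMul.toAddMonoidHom_apply] at hs
    rw [hs]
  have S6 : ∑ m ∈ Finset.range (n+1), P m + (∑ m ∈ Finset.range n, ∑ i ∈ Finset.range (n-m), Q1 m i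
      + ∑ m ∈ Finset.range n, ∑ i ∈ Finset.range (n-m), Q2 m i)
      = ∑ t ∈ Finset.range n, ((t+1 : ℕ) : B) • Wf z (t+1) (fun a b => tA (t+1) (n-(t+1)) β a b)
      + ∑ i ∈ Finset.range (n+1), ((n-i+1 : ℕ) : B) • Wf z i (fun a b => tA i (n-i) β a b) := by
    rw [← S5, ← S4]; abel
  rw [S6]
  have r3 : ∑ t ∈ Finset.range n, ((t+1 : ℕ) : B) • Wf z (t+1) (fun a b => tA (t+1) (n-(t+1)) β a b)
      = ∑ i ∈ Finset.range (n+1), ((i : ℕ) : B) • Wf z i (fun a b => tA i (n-i) β a b) := by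
    rw [Finset.sum_range_succ']; simp
  rw [r3, ← Finset.sum_add_distrib, hC, Finset.smul_sum]
  refine Finset.sum_congr rfl (fun k hk => ?_)
  have hk' : k ≤ n := by simp at hk; omega
  rw [← add_smul]
  congr 1
  obtain ⟨l, rfl⟩ : ∃ l, n = k + l := ⟨n - k, by omega⟩
  rw [show k + l - k = l by omega]
  push_cast
  ring

end Pool.Agent.W5h66
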