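import Pool.Agent.W5h66.Tr

/-! Parity of the sum of the framings of a closed braid. -/

namespace Pool.Agent.W5h66

open Equiv

/-- inversions of a colouring, mod 2 -/
def invs (n : ℕ) (f : ℕ → ℕ) : ZMod 2 :=
  ∑ x ∈ Finset.range n, ∑ y ∈ Finset.range n, if y < x then (if f x < f y then 1 else 0) else 0

/-- crossings between different colours, mod 2 -/
def mx : (ℕ → ℕ) → BW → ZMod 2
  | _, [] => 0
  | f, x :: w => (if f x.1 = f (x.1+1) then 0 else 1) + mx (f ∘ Equiv.swap x.1 (x.1+1)) w

lemma invs_swap {n i : ℕ} (hi : i + 1 < n) (f : ℕ → ℕ) :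
    invs n (f ∘ Equiv.swap i (i+1)) = invs n f + (if f i = f (i+1) then 0 else 1) := by
  set s := Equiv.swap i (i+1) with hs
  have hmem : ∀ x, x ∈ Finset.range n ↔ s x ∈ Finset.range n := by
    intro x
    rw [Finset.mem_range, Finset.mem_range, hs, Equiv.swap_apply_def]
    split_ifs <;> omega
  have hss : ∀ x, s (s x) = x := fun x => by rw [hs, ← Perm.mul_apply, Equiv.swap_mul_self, Perm.one_apply]
  have h1 : invs n (f ∘ s) = ∑ x ∈ Finset.range n, ∑ y ∈ Finset.range n,
      if s y < s x then (if f x < f y then (1 : ZMod 2) else 0) else 0 := by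
    unfold invs
    refine Finset.sum_equiv s hmem (fun x _ => ?_)
    refine Finset.sum_equiv s hmem (fun y _ => ?_)
    rw [hss, hss]; rfl
  have h2 : ∀ x y, (if s y < s x then (if f x < f y then (1 : ZMod 2) else 0) else 0)
      = (if y < x then (if f x < f y then 1 else 0) else 0)
        + ((if x = i then (if y = i + 1 then (if f i < f (i+1) then 1 else 0) else 0) else 0)
        + (if x = i + 1 then (if y = i then (if f (i+1) < f i then 1 else 0) else 0) else 0)) := by
    intro x y
    have h22 : (1 : ZMod 2) + 1 = 0 := by decide
    rw [hs, Equiv.swap_apply_def, Equiv.swap_apply_def]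
    by_cases hx : x = i
    · subst hx
      by_cases hy : y = x + 1
      · subst hy
        simp
      · by_cases hy2 : y = x
        · subst hy2; simp
        · simp only [hy, hy2, if_true, if_false]
          have : x ≠ x + 1 := by omega
          simp only [this, if_false, add_zero]
          by_cases h : y < x
          · rw [if_pos h, if_pos (by omega)]
          · rw [if_neg h, if_neg (by omega)]
    · by_cases hx1 : x = i + 1
      · subst hx1
        by_cases hy : y = i
        · subst hy
          simp only [if_true]
          have e1 : ¬ (y + 1 = y) := by omega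
          have e2 : ¬ (y + 1 < y) := by omega
          have e3 : y < y + 1 := by omega
          simp only [e1, if_false, if_true, e2, e3]
          split_ifs
          · rw [zero_add, h22]
          · simp
        · by_cases hy2 : y = i + 1
          · subst hy2; simp
          · have e1 : ¬ (i + 1 = i) := by omega
            simp only [hy, hy2, e1, if_false, if_true, add_zero]
            by_cases h : y < i + 1
            · rw [if_pos h, if_pos (by omega)]
            · rw [if_neg h, if_neg (by omega)]
      · simp only [hx, hx1, if_false, add_zero]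
        by_cases hy : y = i
        · subst hy
          simp only [if_true]
          by_cases h : y < x
          · rw [if_pos h, if_pos (by omega)]
          · rw [if_neg h, if_neg (by omega)]
        · by_cases hy2 : y = i + 1
          · subst hy2
            have e1 : ¬ (i + 1 = i) := by omega
            simp only [e1, if_false, if_true]
            by_cases h : i + 1 < x
            · rw [if_pos h, if_pos (by omega)]
            · rw [if_neg h, if_neg (by omega)]
          · simp only [hy, hy2, if_false]
  rw [h1]
  simp only [h2, Finset.sum_add_distrib]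
  have hi1 : i ∈ Finset.range n := Finset.mem_range.2 (by omega)
  have hi2 : i + 1 ∈ Finset.range n := Finset.mem_range.2 hi
  have h3 : (∑ x ∈ Finset.range n, ∑ y ∈ Finset.range n,
      if x = i then (if y = i + 1 then (if f i < f (i+1) then (1 : ZMod 2) else 0) else 0) else 0)
      = if f i < f (i+1) then 1 else 0 := by
    rw [Finset.sum_eq_single i (fun x _ hx => by simp [hx]) (fun h => absurd hi1 h)]
    simp only [if_true]
    rw [Finset.sum_eq_single (i+1) (fun x _ hx => by simp [hx]) (fun h => absurd hi2 h)]
    simp
  have h4 : (∑ x ∈ Finset.range n, ∑ y ∈ Finset.range n,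
      if x = i + 1 then (if y = i then (if f (i+1) < f i then (1 : ZMod 2) else 0) else 0) else 0)
      = if f (i+1) < f i then 1 else 0 := by
    rw [Finset.sum_eq_single (i+1) (fun x _ hx => by simp [hx]) (fun h => absurd hi2 h)]
    simp only [if_true]
    rw [Finset.sum_eq_single i (fun x _ hx => by simp [hx]) (fun h => absurd hi1 h)]
    simp
  rw [h3, h4]
  unfold invs
  congr 1
  rcases Nat.lt_trichotomy (f i) (f (i+1)) with h | h | h
  · rw [if_pos h, if_neg (by omega), if_neg (by omega), add_zero]
  · rw [if_neg (by omega), if_neg (by omega), if_pos h, add_zero]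
  · rw [if_neg (by omega), if_pos h, if_neg (by omega), zero_add]

lemma invs_prm {n : ℕ} {w : BW} (hw : Valid n w) (f : ℕ → ℕ) :
    invs n (f ∘ prm w) = invs n f + mx f w := by
  induction w generalizing f with
  | nil => simp [mx]
  | cons x w ih =>
    have hx := hw x (by simp)
    have e : f ∘ prm (x :: w) = (f ∘ Equiv.swap x.1 (x.1+1)) ∘ prm w := by
      rw [prm_cons]; rfl
    rw [e, ih (fun y hy => hw y (by simp [hy])), invs_swap hx, mx]
    ring

open Classical in
/-- colour of a strand: least position of its component -/
noncomputable def col (π : Equiv.Perm ℕ) (y : ℕ) : ℕ := Nat.find (⟨y, sc_refl π y⟩ : ∃ j, π.SameCycle y j)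

lemma col_sc (π : Equiv.Perm ℕ) (y : ℕ) : π.SameCycle y (col π y) := by
  classical
  exact Nat.find_spec (⟨y, sc_refl π y⟩ : ∃ j, π.SameCycle y j)

lemma col_eq {π : Equiv.Perm ℕ} {x y : ℕ} : col π x = col π y ↔ π.SameCycle x y := by
  classical
  constructor
  · intro h
    have h1 := col_sc π x
    rw [h] at h1
    exact h1.trans (col_sc π y).symm
  · intro h
    apply le_antisymm
    · exact Nat.find_min' _ (h.trans (col_sc π y))
    · exact Nat.find_min' _ (h.symm.trans (col_sc π x))

lemma mx_zero {n : ℕ} {w : BW} (hw : Valid n w) : mx (col (prm w)) w = 0 := by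
  have h := invs_prm hw (col (prm w))
  have e : col (prm w) ∘ prm w = col (prm w) := by
    funext y
    exact col_eq.2 (sc_step (prm w) y).symm
  rw [e] at h
  exact left_eq_add.1 h

lemma mx_sum (w : BW) (f : ℕ → ℕ) : mx f w = ∑ k : Fin w.length,
    if f (prm (w.take k) (w.get k).1) = f (prm (w.take k) ((w.get k).1+1)) then 0 else 1 := by
  induction w generalizing f with
  | nil => simp [mx]
  | cons x w ih =>
    rw [mx, ih]
    rw [show (∑ k : Fin (x :: w).length, if f (prm ((x :: w).take k) ((x :: w).get k).1)
        = f (prm ((x :: w).take k) (((x :: w).get k).1+1)) then (0 : ZMod 2) else 1)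
        = ∑ k : Fin (w.length + 1), if f (prm ((x :: w).take k) ((x :: w).get k).1)
        = f (prm ((x :: w).take k) (((x :: w).get k).1+1)) then (0 : ZMod 2) else 1 from rfl,
      Fin.sum_univ_succ]
    congr 1

open Classical in
/-- framing of the component through position `i` -/
noncomputable def framing (w : BW) (i : ℕ) : ℤ :=
  ∑ k : Fin w.length, if (prm w).SameCycle i (prm (w.take k) (w.get k).1) ∧
    (prm w).SameCycle i (prm (w.take k) ((w.get k).1 + 1)) then (if (w.get k).2 then 1 else -1) else 0

theorem framing_parity {n : ℕ} {w : BW} (hw : Valid n w) {T : Finset ℕ} (hT : IsTr n (prm w) T) :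
    ((∑ i ∈ T, framing w i : ℤ) : ZMod 2) = (w.length : ZMod 2) := by
  classical
  unfold framing
  rw [Finset.sum_comm, Int.cast_sum]
  have hterm : ∀ k : Fin w.length, ((∑ i ∈ T, if (prm w).SameCycle i (prm (w.take k) (w.get k).1) ∧
      (prm w).SameCycle i (prm (w.take k) ((w.get k).1 + 1)) then (if (w.get k).2 then (1 : ℤ) else -1) else 0 : ℤ) : ZMod 2)
      = 1 + (if col (prm w) (prm (w.take k) (w.get k).1) = col (prm w) (prm (w.take k) ((w.get k).1+1)) then 0 else 1) := by
    intro k
    set y₁ := prm (w.take k) (w.get k).1 with hy₁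
    set y₂ := prm (w.take k) ((w.get k).1+1) with hy₂
    have hk : (w.get k).1 + 1 < n := hw _ (List.get_mem w k)
    have hval : Valid n (w.take k) := fun x hx => hw x (List.mem_of_mem_take hx)
    have h1 : y₁ < n := (Supp.prm hval).lt (by omega)
    obtain ⟨i₀, hi₀, hs⟩ := hT.cov y₁ h1
    by_cases hc : (prm w).SameCycle y₁ y₂
    · rw [if_pos (col_eq.2 hc), add_zero]
      rw [Finset.sum_eq_single i₀]
      · rw [if_pos ⟨hs, hs.trans hc⟩]
        split_ifs <;> simp
      · intro i hi hne
        rw [if_neg]
        rintro ⟨h2, _⟩
        exact hne (hT.uni i hi i₀ hi₀ (h2.trans hs.symm))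
      · intro h; exact absurd hi₀ h
    · rw [if_neg (fun h => hc (col_eq.1 h))]
      rw [Finset.sum_eq_zero]
      · simp; decide
      · intro i hi
        rw [if_neg]
        rintro ⟨h2, h3⟩
        exact hc (h2.symm.trans h3)
  rw [Finset.sum_congr rfl (fun k _ => hterm k), Finset.sum_add_distrib, ← mx_sum, mx_zero hw]
  simp

end Pool.Agent.W5h66
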