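import Pool.Agent.W5h66.Rg
import Pool.Agent.W5h66.Cab
import Pool.Agent.W5h66.Par

/-! Assembly over the base ring. -/

namespace Pool.Agent.W5h66

open Polynomial

section lift
universe u v
variable {B : Type u} [CommRing B] {K : Type v} [Field K] [Algebra B K] {z κ : B}

/-- a trace with integral values -/
lemma int_trace (hinj : Function.Injective (algebraMap B K)) {t : Hk z →ₗ[B] K} (ht : MT z κ t)
    (h1 : t 1 = 1) : ∃ t₁ : Hk z →ₗ[B] B, (∀ x, algebraMap B K (t₁ x) = t x) ∧ MT z κ t₁ := by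
  have hmem : ∀ x, t x ∈ LinearMap.range (Algebra.linearMap B K) :=
    fun x => ht.mem_of (LinearMap.range (Algebra.linearMap B K))
      (LinearMap.mem_range.2 ⟨1, by rw [h1]; simp⟩) x
  choose g hg using hmem
  have hg' : ∀ x, algebraMap B K (g x) = t x := hg
  let t₁ : Hk z →ₗ[B] B :=
    { toFun := g
      map_add' := fun x y => hinj (by rw [map_add, hg', hg', hg', map_add])
      map_smul' := fun c x => hinj (by
        rw [hg', map_smul, RingHom.id_apply, smul_eq_mul, map_mul, hg', Algebra.smul_def]) }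
  have ht₁ : ∀ x, algebraMap B K (t₁ x) = t x := hg'
  refine ⟨t₁, ht₁, ?_, ?_⟩
  · intro x y; apply hinj; rw [ht₁, ht₁, ht.tr]
  · intro n x hx
    apply hinj
    rw [ht₁, ht.mv n x hx, smul_eq_mul, map_mul, ht₁, Algebra.smul_def]

end lift

section main
variable {E K : Type*} [Field E] [CharZero E] [Field K] [Algebra E K] {q : K} {a : E}

/-- membership facts -/
lemma z_mem_Bs (hq : Transcendental E q) {p : ℕ} (hp : 0 < p) : q - q⁻¹ ∈ Bs q (Qk E p) ∧ (q - q⁻¹)⁻¹ ∈ Bs q (Qk E p) := by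
  have hq0 := q_ne hq
  have h : (q - q⁻¹) * aeval q (X : E[X]) = aeval q (X^2 - 1 : E[X]) := by
    simp only [aeval_X, map_sub, map_pow, map_one]
    field_simp
  exact ⟨⟨X^2-1, X, X_coprime hp, h⟩, inv_mem_Bs (z_ne hq) (X_sq_coprime hp) h⟩

lemma nat_unit_Bs {p k : ℕ} (hk : 0 < k) : IsUnit ((k : ℕ) : Bs q (Qk E p)) := by
  have h0 : (k : E) ≠ 0 := by exact_mod_cast hk.ne'
  refine IsUnit.of_mul_eq_one ⟨algebraMap E K ((k : E)⁻¹), alg_mem_Bs _⟩ ?_
  apply Subtype.ext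
  have : (((k : ℕ) : Bs q (Qk E p)) : K) = algebraMap E K (k : E) := by simp
  show (((k : ℕ) : Bs q (Qk E p)) : K) * algebraMap E K ((k : E)⁻¹) = 1
  rw [this, ← map_mul, mul_inv_cancel₀ h0, map_one]

omit [CharZero E] in
lemma bt_unit_Bs (hq : Transcendental E q) {p k : ℕ} (hp : p.Prime) (hk : 0 < k) (hkp : k < p)
    (hz : q - q⁻¹ ∈ Bs q (Qk E p)) : IsUnit (bt (⟨q - q⁻¹, hz⟩ : Bs q (Qk E p)) k) := by
  have hval : ((bt (⟨q - q⁻¹, hz⟩ : Bs q (Qk E p)) k : Bs q (Qk E p)) : K) = bt (q - q⁻¹) k :=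
    map_bt (Bs q (Qk E p)).subtype _ k
  have h1 := bt_Qk hq hk
  have hne : bt (q - q⁻¹) k ≠ 0 := by
    intro h
    rw [h, zero_mul] at h1
    have h2 : aeval q (Qk E k) = 0 := by
      have := h1.symm
      exact pow_eq_zero_iff (two_ne_zero) |>.1 this
    have h3 : Qk E k = 0 := ev_inj hq (by rw [h2, map_zero])
    exact (Qk_monic (E := E) hk).1.ne_zero h3
  have hmem : bt (q - q⁻¹) k ∈ Bs q (Qk E p) := by rw [← hval]; exact Subtype.property _
  have hinv : (bt (q - q⁻¹) k)⁻¹ ∈ Bs q (Qk E p) := by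
    refine inv_mem_Bs hne (f := (Qk E k)^2) (g := X^(2*(k-1))) ((Qk_coprime hp hk hkp).pow_left) ?_
    rw [map_pow, map_pow, aeval_X]
    exact h1
  have hu := unit_Bs hmem hne hinv
  have e : (⟨bt (q - q⁻¹) k, hmem⟩ : Bs q (Qk E p)) = bt (⟨q - q⁻¹, hz⟩ : Bs q (Qk E p)) k :=
    Subtype.ext hval.symm
  rwa [e] at hu

omit [CharZero E] in
lemma Rz_map {p : ℕ} (hq : Transcendental E q) {Ψ : K →+* K} (hΨq : Ψ q = q^p)
    (hΨa : Ψ (algebraMap E K a) = algebraMap E K a ^ p) :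
    Ψ ((q - q⁻¹)^2) = (q - q⁻¹)^2 * bt (q - q⁻¹) p ∧ ∀ x ∈ Rz E q a, Ψ x ∈ Rz E q a := by
  have hq0 := q_ne hq
  have hz : Ψ ((q - q⁻¹)^2) = (q - q⁻¹)^2 * bt (q - q⁻¹) p := by
    rw [bt_formula (mul_inv_cancel₀ hq0), map_pow, map_sub, map_inv₀, hΨq, inv_pow]
  refine ⟨hz, fun x hx => ?_⟩
  induction hx using Subring.closure_induction with
  | mem x hx =>
    rcases hx with rfl | rfl | rfl
    · rw [hz]; exact mul_mem (Subring.subset_closure (by simp)) (bt_mem_Rz p)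
    · rw [hΨa]; exact pow_mem (Subring.subset_closure (by simp)) _
    · rw [map_inv₀, hΨa, ← inv_pow]; exact pow_mem (Subring.subset_closure (by simp)) _
  | zero => rw [map_zero]; exact zero_mem _
  | one => rw [map_one]; exact one_mem _
  | add x y _ _ hx hy => rw [map_add]; exact add_mem hx hy
  | neg x _ hx => rw [map_neg]; exact neg_mem hx
  | mul x y _ _ hx hy => rw [map_mul]; exact mul_mem hx hy

lemma Rz_le_Bs (hq : Transcendental E q) {p : ℕ} (hp : 0 < p) {x : K} (hx : x ∈ Rz E q a) :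
    x ∈ Bs q (Qk E p) := by
  induction hx using Subring.closure_induction with
  | mem x hx =>
    rcases hx with rfl | rfl | rfl
    · exact pow_mem (z_mem_Bs hq hp).1 2
    · exact alg_mem_Bs _
    · rw [← map_inv₀]; exact alg_mem_Bs _
  | zero => exact zero_mem _
  | one => exact one_mem _
  | add x y _ _ hx hy => exact add_mem hx hy
  | neg x _ hx => exact neg_mem hx
  | mul x y _ _ hx hy => exact mul_mem hx hy

/-- the congruence for sums of words -/
theorem main_words (hq : Transcendental E q) (ha : a ≠ 0) (ha2 : a^2 ≠ 1) {H : ℕ → BW → K}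
    (hH : HF (q - q⁻¹) (algebraMap E K a) H) {p : ℕ} (hp : p.Prime) {Ψ : K →+* K} (hΨq : Ψ q = q^p)
    (hΨa : Ψ (algebraMap E K a) = algebraMap E K a ^ p) {n : ℕ} {w : BW} (hn : 1 ≤ n) (hw : Valid n w) :
    ∃ s ∈ Rz E q a, (q - q⁻¹)^(reps n (prm w)).card
        * ((fills p ((reps n (prm w)).sort (· ≤ ·))).map (fun u => H (n*p) (cable p w ++ u))).sum
      - (-1)^((p-1) * w.length) * Ψ ((q - q⁻¹)^(reps n (prm w)).card * H n w)
      = bt (q - q⁻¹) p * s := by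
  obtain ⟨P, rfl⟩ : ∃ P, p = P + 1 := ⟨p - 1, by have := hp.pos; omega⟩
  have hp0 : 0 < P + 1 := by omega
  have hP1 : 0 < P := by have := hp.two_le; omega
  obtain ⟨hzm, hzim⟩ := z_mem_Bs hq hp0
  set Bq := Bs q (Qk E (P+1)) with hBq
  set A := algebraMap E K a with hA
  have hA0 : A ≠ 0 := by rw [hA]; exact (_root_.map_ne_zero _).2 ha
  have hAi : A⁻¹ = algebraMap E K a⁻¹ := by rw [hA, map_inv₀]
  have hz0 := z_ne hq
  have hAA : A - A⁻¹ ≠ 0 := by
    intro h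
    apply ha2
    have h2 : A * A = 1 := by
      have : A = A⁻¹ := sub_eq_zero.1 h
      calc A * A = A * A⁻¹ := by rw [← this]
        _ = 1 := mul_inv_cancel₀ hA0
    have h3 : algebraMap E K (a^2) = algebraMap E K 1 := by rw [map_pow, map_one, sq]; exact h2
    exact (algebraMap E K).injective h3
  have hAAm : A - A⁻¹ ∈ Bq := by rw [hAi]; exact sub_mem (alg_mem_Bs _) (alg_mem_Bs _)
  have hAAi : (A - A⁻¹)⁻¹ ∈ Bq := by
    have : (A - A⁻¹)⁻¹ = algebraMap E K ((a - a⁻¹)⁻¹) := by rw [map_inv₀, map_sub, map_inv₀]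
    rw [this]; exact alg_mem_Bs _
  -- elements
  let zB : Bq := ⟨q - q⁻¹, hzm⟩
  let aB : Bq := ⟨A, alg_mem_Bs _⟩
  let aB' : Bq := ⟨A⁻¹, by rw [hAi]; exact alg_mem_Bs _⟩
  let δB : Bq := ⟨(A - A⁻¹) * (q - q⁻¹)⁻¹, mul_mem hAAm hzim⟩
  let κB : Bq := ⟨A * ((q - q⁻¹) * (A - A⁻¹)⁻¹), mul_mem (alg_mem_Bs _) (mul_mem hzm hAAi)⟩
  have ezB : algebraMap Bq K zB = q - q⁻¹ := rfl
  have eaB : algebraMap Bq K aB = A := rfl
  have eaB' : algebraMap Bq K aB' = A⁻¹ := rfl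
  have eδB : algebraMap Bq K δB = (A - A⁻¹) * (q - q⁻¹)⁻¹ := rfl
  have hinj : Function.Injective (algebraMap Bq K) := Subtype.val_injective
  have hδ0 : (A - A⁻¹) * (q - q⁻¹)⁻¹ ≠ 0 := mul_ne_zero hAA (inv_ne_zero hz0)
  have hHB : HF (algebraMap Bq K zB) (algebraMap Bq K aB) H := hH
  have hd : algebraMap Bq K zB * ((A - A⁻¹) * (q - q⁻¹)⁻¹) = algebraMap Bq K aB - (algebraMap Bq K aB)⁻¹ := by
    rw [ezB, eaB, mul_comm (A - A⁻¹), mul_inv_cancel_left₀ hz0]
  have hκ : algebraMap Bq K κB * ((A - A⁻¹) * (q - q⁻¹)⁻¹) = algebraMap Bq K aB := by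
    show A * ((q - q⁻¹) * (A - A⁻¹)⁻¹) * ((A - A⁻¹) * (q - q⁻¹)⁻¹) = A
    calc _ = A * ((q - q⁻¹) * (q - q⁻¹)⁻¹) * ((A - A⁻¹)⁻¹ * (A - A⁻¹)) := by ring
      _ = A := by rw [mul_inv_cancel₀ hz0, inv_mul_cancel₀ hAA]; ring
  obtain ⟨t₀, ht₀, ht1, htv⟩ := exists_trace (κ := κB) hHB hz0 hd hδ0 hκ
  obtain ⟨t₁, hv₁, ht₁⟩ := int_trace hinj ht₀ ht1
  let I : Ideal Bq := Ideal.span {bt zB (P+1)}
  let t₂ : Hk zB →ₗ[Bq] (Bq ⧸ I) := I.mkQ ∘ₗ t₁
  have ht₂ : MT zB κB t₂ := by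
    refine ⟨fun x y => ?_, fun n x hx => ?_⟩
    · show I.mkQ (t₁ (x * y)) = I.mkQ (t₁ (y * x))
      rw [ht₁.tr]
    · show I.mkQ (t₁ (x * gs zB n)) = κB • I.mkQ (t₁ x)
      rw [ht₁.mv n x hx, map_smul]
  obtain ⟨hRz, hRmap⟩ := Rz_map hq hΨq hΨa
  have hz2 : (q - q⁻¹)^2 ∈ Rz E q a := Subring.subset_closure (by simp)
  have haR : A ∈ Rz E q a := Subring.subset_closure (by simp [hA])
  have haR' : A⁻¹ ∈ Rz E q a := Subring.subset_closure (by simp [hA])
  have D : Data zB δB aB aB' κB P H (Rz E q a) Ψ t₂ := by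
    refine ⟨hinj, hHB, ?_, ?_, ?_, ⟨?_, ?_, ?_⟩, nat_unit_Bs hp0, hz2, haR, haR', hΨa, ?_, ?_, ?_, ht₂⟩
    · exact Subtype.ext (mul_inv_cancel₀ hA0)
    · apply Subtype.ext
      show (q - q⁻¹) * ((A - A⁻¹) * (q - q⁻¹)⁻¹) = A - A⁻¹
      rw [mul_comm (A - A⁻¹), mul_inv_cancel_left₀ hz0]
    · exact Subtype.ext hκ
    · exact unit_Bs hzm hz0 hzim
    · intro k h0 hk; exact bt_unit_Bs hq hp h0 hk hzm
    · intro k h0 _; exact nat_unit_Bs h0
    · have e : algebraMap Bq K (zB ^ 2 * bt zB (P+1)) = (q - q⁻¹)^2 * bt (q - q⁻¹) (P+1) := by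
        rw [map_mul, map_pow, map_bt, ezB]
      rw [e]; exact hRz
    · intro h hh
      exact ⟨⟨Ψ h, Rz_le_Bs hq hp0 (hRmap h hh)⟩, rfl⟩
    · intro m
      obtain ⟨b, rfl⟩ := Submodule.mkQ_surjective I m
      rw [← map_smul, Submodule.mkQ_apply, Submodule.Quotient.mk_eq_zero, smul_eq_mul]
      exact Ideal.mul_mem_right _ _ (Ideal.subset_span rfl)
  have hT := reps_isTr (Supp.prm hw)
  set T := reps n (prm w) with hTdef
  obtain ⟨c1, g, c2, c3⟩ := good_all D n w hn hw T hT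
  rw [ezB] at c1 c2
  -- the word sum
  have hnp : 1 ≤ n * (P+1) := Nat.mul_pos hn hp0
  have hVc := valid_cable (p := P+1) hw
  have hnd : (T.sort (· ≤ ·)).Nodup := Finset.sort_nodup _ _
  have hlt : ∀ i ∈ T.sort (· ≤ ·), i < n := fun i hi => hT.lt i ((Finset.mem_sort _).1 hi)
  have hsum : ((fills (P+1) (T.sort (· ≤ ·))).map (fun u => H (n*(P+1)) (cable (P+1) w ++ u))).sum
      = ((A - A⁻¹) * (q - q⁻¹)⁻¹)^(n*(P+1)) * t₀ (cb zB (P+1) w * XT zB (P+1) T) := by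
    have e1 : XT zB (P+1) T = ((fills (P+1) (T.sort (· ≤ ·))).map (sv zB)).sum := by
      rw [sv_fills (P+1) hnd, Finset.sort_toFinset]
    rw [e1, ← List.sum_map_mul_left, map_list_sum, List.map_map, ← List.sum_map_mul_left]
    congr 1
    apply List.map_congr_left
    intro u hu
    rw [Function.comp_apply, ← sv_cable, ← sv_append]
    exact (htv _ _ hnp (hVc.append (valid_fills hlt hu))).symm
  have hF : (q - q⁻¹)^T.card * ((fills (P+1) (T.sort (· ≤ ·))).map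
      (fun u => H (n*(P+1)) (cable (P+1) w ++ u))).sum ∈ Rz E q a := by
    rw [← List.sum_map_mul_left]
    apply list_sum_mem
    intro x hx
    obtain ⟨u, hu, rfl⟩ := List.mem_map.1 hx
    have hVu := hVc.append (valid_fills hlt hu)
    have hT' : IsTr (n*(P+1)) (prm (cable (P+1) w ++ u)) (T.image (· * (P+1))) := by
      refine cab_tr hp0 (Supp.prm hw) hT (fun b r hr => ?_)
      rw [prm_append, Equiv.Perm.mul_apply, prm_fills hnd hu b r hr]
      have : (if b ∈ T.sort (· ≤ ·) then rot (P+1) r else r) = (if b ∈ T then rot (P+1) r else r) := by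
        simp only [Finset.mem_sort]
      rw [this]
      apply prm_cable
      split_ifs
      · exact rot_lt hr
      · exact hr
    have hcard : (T.image (· * (P+1))).card = T.card :=
      Finset.card_image_of_injective _ (fun x y h => Nat.eq_of_mul_eq_mul_right hp0 h)
    obtain ⟨d1, _⟩ := good_all D (n*(P+1)) (cable (P+1) w ++ u) hnp hVu _ hT'
    rw [ezB, hcard] at d1
    exact d1
  have hG : (-1)^((P+1-1) * w.length) * Ψ ((q - q⁻¹)^T.card * H n w) ∈ Rz E q a :=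
    mul_mem (pow_mem (neg_mem (one_mem _)) _) (hRmap _ c1)
  -- the congruence
  have hb : ∃ b : Bq, (q - q⁻¹)^T.card * ((fills (P+1) (T.sort (· ≤ ·))).map
      (fun u => H (n*(P+1)) (cable (P+1) w ++ u))).sum
      - (-1)^((P+1-1) * w.length) * Ψ ((q - q⁻¹)^T.card * H n w) = bt (q - q⁻¹) (P+1) * (b : K) := by
    have h1 : I.mkQ ((zB^T.card * δB^(n*(P+1))) * t₁ (cb zB (P+1) w * XT zB (P+1) T)
        - (-1)^(P * w.length) * g * t₁ 1) = 0 := by
      rw [map_sub, sub_eq_zero, ← smul_eq_mul, ← smul_eq_mul (_ * g), map_smul, map_smul]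
      exact c3
    rw [Submodule.mkQ_apply, Submodule.Quotient.mk_eq_zero] at h1
    obtain ⟨b, hb⟩ := Ideal.mem_span_singleton.1 h1
    refine ⟨b, ?_⟩
    have h2 := congrArg (algebraMap Bq K) hb
    have f := algebraMap Bq K
    rw [map_sub (algebraMap Bq K), map_mul (algebraMap Bq K), map_mul (algebraMap Bq K),
      map_mul (algebraMap Bq K), map_mul (algebraMap Bq K), hv₁, hv₁, ht1, map_pow (algebraMap Bq K),
      map_pow (algebraMap Bq K), ezB, eδB, map_pow (algebraMap Bq K), map_neg (algebraMap Bq K),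
      map_one (algebraMap Bq K), c2, map_mul (algebraMap Bq K), map_bt, ezB] at h2
    rw [hsum, Nat.add_sub_cancel]
    have h3 : algebraMap Bq K b = (b : K) := rfl
    rw [← h3, ← h2]
    ring
  obtain ⟨b, hb⟩ := hb
  exact div_back hq (by omega) (sub_mem hF hG) b.2 hb

end main

end Pool.Agent.W5h66
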