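import Mathlib

/-! Induction principle for closed braid words. -/

namespace Pool.Agent.W5h66

/-- Braid words: `(i, true)` is the generator `i`, `(i, false)` its inverse. -/
abbrev BW := List (ℕ × Bool)

/-- all letters live on `n` strands -/
def Valid (n : ℕ) (w : BW) : Prop := ∀ x ∈ w, x.1 + 1 < n

/-- positive word -/
def posw (w : List ℕ) : BW := w.map (fun i => (i, true))

section red
variable {Q : List ℕ → Prop}
variable (C1 : ∀ u v i j, i + 2 ≤ j → (Q (u ++ [i, j] ++ v) ↔ Q (u ++ [j, i] ++ v)))
variable (C2 : ∀ u v i, Q (u ++ [i, i+1, i] ++ v) ↔ Q (u ++ [i+1, i, i+1] ++ v))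
variable (C3 : ∀ u v i, Q (u ++ [i, i] ++ v))

include C1 in
lemma move_letter (m : ℕ) (b : List ℕ) (hb : ∀ i ∈ b, i + 2 ≤ m) :
    ∀ u v, Q (u ++ (m :: b) ++ v) ↔ Q (u ++ (b ++ [m]) ++ v) := by
  induction b with
  | nil => intro u v; simp
  | cons i b ih =>
    intro u v
    have h1 := (C1 u (b ++ v) i m (hb i (by simp))).symm
    have h2 := ih (fun j hj => hb j (by simp [hj])) (u ++ [i]) v
    simp only [List.append_assoc, List.cons_append, List.nil_append] at h1 h2 ⊢
    rw [h1, h2]

include C1 C2 C3

lemma reduce (m : ℕ) : ∀ w : List ℕ, (∀ i ∈ w, i ≤ m) →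
    (∀ u v, Q (u ++ w ++ v)) ∨ ∃ w' : List ℕ, (∀ i ∈ w', i ≤ m) ∧ w'.count m ≤ 1 ∧
      ∀ u v, Q (u ++ w ++ v) ↔ Q (u ++ w' ++ v) := by
  induction m with
  | zero =>
    intro w hw
    rcases w with _ | ⟨i, _ | ⟨j, w⟩⟩
    · exact Or.inr ⟨[], by simp, by simp, fun _ _ => Iff.rfl⟩
    · refine Or.inr ⟨[i], hw, ?_, fun _ _ => Iff.rfl⟩
      have := List.count_le_length (a := 0) (l := [i])
      simpa using this
    · left
      intro u v
      have hi : i = 0 := by have := hw i (by simp); omega
      have hj : j = 0 := by have := hw j (by simp); omega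
      subst hi hj
      have := C3 u (w ++ v) 0
      simpa using this
  | succ m ih =>
    have key : ∀ c, ∀ w : List ℕ, w.count (m+1) = c → (∀ i ∈ w, i ≤ m+1) →
      (∀ u v, Q (u ++ w ++ v)) ∨ ∃ w' : List ℕ, (∀ i ∈ w', i ≤ m+1) ∧ w'.count (m+1) ≤ 1 ∧
        ∀ u v, Q (u ++ w ++ v) ↔ Q (u ++ w' ++ v) := by
      intro c
      induction c using Nat.strong_induction_on with
      | _ c ihc =>
      intro w hc hw
      by_cases hle : c ≤ 1
      · exact Or.inr ⟨w, hw, by omega, fun _ _ => Iff.rfl⟩
      -- split at the first occurrence
      have hmem : m + 1 ∈ w := by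
        rw [← List.count_pos_iff]; omega
      obtain ⟨a, r, rfl, ha⟩ := List.append_of_mem hmem |>.elim fun s ⟨t, e⟩ => by
        have := List.eq_append_cons_of_mem hmem
        exact this
      have hr : m + 1 ∈ r := by
        rw [← List.count_pos_iff]
        have : (a ++ (m+1) :: r).count (m+1) = a.count (m+1) + (r.count (m+1) + 1) := by
          rw [List.count_append, List.count_cons_self]
        have h0 : a.count (m+1) = 0 := List.count_eq_zero.2 ha
        omega
      obtain ⟨b, d, rfl, hb⟩ := List.eq_append_cons_of_mem hr
      have hb' : ∀ i ∈ b, i ≤ m := by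
        intro i hi
        have h1 := hw i (by simp [hi])
        have h2 : i ≠ m + 1 := fun h => hb (h ▸ hi)
        omega
      rcases ih b hb' with h | ⟨b', hb1, hb2, hb3⟩
      · left
        intro u v
        have := h (u ++ a ++ [m+1]) ((m+1) :: d ++ v)
        simpa using this
      · -- count of m in b'
        have hcount : (a ++ (m+1) :: (b ++ (m+1) :: d)).count (m+1) = d.count (m+1) + 2 := by
          rw [List.count_append, List.count_cons_self, List.count_append, List.count_cons_self,
            List.count_eq_zero.2 ha, List.count_eq_zero.2 hb]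
          omega
        rcases Nat.lt_or_ge 0 (b'.count m) with hpos | hzero
        · have hm : m ∈ b' := List.count_pos_iff.1 hpos
          obtain ⟨e, f, rfl, he⟩ := List.eq_append_cons_of_mem hm
          have hf : m ∉ f := by
            rw [← List.count_eq_zero]
            rw [List.count_append, List.count_cons_self] at hb2
            omega
          have he' : ∀ i ∈ e, i + 2 ≤ m + 1 := by
            intro i hi
            have h1 := hb1 i (by simp [hi])
            have h2 : i ≠ m := fun h => he (h ▸ hi)
            omega
          have hf' : ∀ i ∈ f, i + 2 ≤ m + 1 := by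
            intro i hi
            have h1 := hb1 i (by simp [hi])
            have h2 : i ≠ m := fun h => hf (h ▸ hi)
            omega
          have heq : ∀ u v, Q (u ++ (a ++ (m+1) :: (b ++ (m+1) :: d)) ++ v)
              ↔ Q (u ++ (a ++ e ++ m :: (m+1) :: m :: f ++ d) ++ v) := by
            intro u v
            have s1 := hb3 (u ++ a ++ [m+1]) ((m+1) :: d ++ v)
            have s2 := move_letter C1 (m+1) e he' (u ++ a) (m :: f ++ (m+1) :: d ++ v)
            have s3 := (move_letter C1 (m+1) f hf' (u ++ a ++ e ++ [m+1, m]) (d ++ v)).symm
            have s4 := (C2 (u ++ a ++ e) (f ++ d ++ v) m).symm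
            simp only [List.append_assoc, List.cons_append, List.nil_append] at s1 s2 s3 s4 ⊢
            rw [s1, s2, s3, s4]
          have hcnt2 : (a ++ e ++ m :: (m+1) :: m :: f ++ d).count (m+1) < c := by
            have e0 : e.count (m+1) = 0 := List.count_eq_zero.2 (fun h => by have := he' _ h; omega)
            have f0 : f.count (m+1) = 0 := List.count_eq_zero.2 (fun h => by have := hf' _ h; omega)
            have a0 : a.count (m+1) = 0 := List.count_eq_zero.2 ha
            have hm1 : (m == m+1) = false := by simp
            simp only [List.count_append, List.count_cons, e0, f0, a0, hm1] at hcount ⊢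
            simp at hcount ⊢
            rw [← hc]
            simp [List.count_append, a0, List.count_eq_zero.2 hb]
            omega
          have hval : ∀ i ∈ a ++ e ++ m :: (m+1) :: m :: f ++ d, i ≤ m + 1 := by
            intro i hi
            simp only [List.append_assoc, List.cons_append, List.mem_append, List.mem_cons] at hi
            rcases hi with hi | hi | hi | hi | hi | hi | hi
            · exact hw i (by simp [hi])
            · have := he' i hi; omega
            · omega
            · omega
            · omega
            · have := hf' i hi; omega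
            · exact hw i (by simp [hi])
          rcases ihc _ hcnt2 _ rfl hval with h | ⟨w', k1, k2, k3⟩
          · left; intro u v; rw [heq]; exact h u v
          · right; exact ⟨w', k1, k2, fun u v => (heq u v).trans (k3 u v)⟩
        · left
          have hm0 : m ∉ b' := by rw [← List.count_eq_zero]; omega
          have hb'' : ∀ i ∈ b', i + 2 ≤ m + 1 := by
            intro i hi
            have h1 := hb1 i hi
            have h2 : i ≠ m := fun h => hm0 (h ▸ hi)
            omega
          intro u v
          have s1 := hb3 (u ++ a ++ [m+1]) ((m+1) :: d ++ v)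
          have s2 := move_letter C1 (m+1) b' hb'' (u ++ a) ((m+1) :: d ++ v)
          have s3 := C3 (u ++ a ++ b') (d ++ v) (m+1)
          simp only [List.append_assoc, List.cons_append, List.nil_append] at s1 s2 s3 ⊢
          rw [s1, s2]; exact s3
    exact fun w hw => key _ w rfl hw

end red

/-- induction over closed braid words -/
theorem braid_induction (P : ℕ → BW → Prop)
    (h1 : P 1 [])
    (sp : ∀ n w, 1 ≤ n → Valid n w → P n w → P (n+1) w)
    (st : ∀ n w, 1 ≤ n → Valid n w → P n w → P (n+1) (w ++ [(n-1,true)]))
    (cj : ∀ n u v, 1 ≤ n → Valid n (u ++ v) → P n (u ++ v) → P n (v ++ u))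
    (sg : ∀ n v i, 1 ≤ n → Valid n v → i + 1 < n → P n v → (P n ((i,true) :: v) ↔ P n ((i,false) :: v)))
    (cn : ∀ n v i, 1 ≤ n → Valid n v → i + 1 < n → P n v → P n ((i,true) :: (i,false) :: v))
    (cm : ∀ n v i j, 1 ≤ n → Valid n v → i + 1 < n → j + 1 < n → i + 2 ≤ j →
      (P n ((i,true) :: (j,true) :: v) ↔ P n ((j,true) :: (i,true) :: v)))
    (br : ∀ n v i, 1 ≤ n → Valid n v → i + 2 < n →
      (P n ((i,true) :: (i+1,true) :: (i,true) :: v) ↔ P n ((i+1,true) :: (i,true) :: (i+1,true) :: v))) :
    ∀ n w, 1 ≤ n → Valid n w → P n w := by
  have vapp : ∀ {n : ℕ} {u v : BW}, Valid n (u ++ v) ↔ Valid n u ∧ Valid n v := by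
    intro n u v
    constructor
    · intro h; exact ⟨fun x hx => h x (by simp [hx]), fun x hx => h x (by simp [hx])⟩
    · rintro ⟨ha, hb⟩ x hx
      rcases List.mem_append.1 hx with h | h
      · exact ha x h
      · exact hb x h
  have vcons : ∀ {n : ℕ} {x : ℕ × Bool} {v : BW}, Valid n (x :: v) ↔ x.1 + 1 < n ∧ Valid n v := by
    intro n x v
    constructor
    · intro h; exact ⟨h x (by simp), fun y hy => h y (by simp [hy])⟩
    · rintro ⟨ha, hb⟩ y hy
      rcases List.mem_cons.1 hy with h | h
      · rw [h]; exact ha
      · exact hb y h
  intro n w hn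
  induction n, hn using Nat.le_induction generalizing w with
  | base =>
    intro hw
    rcases w with _ | ⟨x, w⟩
    · exact h1
    · have := hw x (by simp); omega
  | succ n hn ihn =>
    have key : ∀ ℓ, ∀ w : BW, w.length = ℓ → Valid (n+1) w → P (n+1) w := by
      intro ℓ
      induction ℓ using Nat.strong_induction_on with
      | _ ℓ ihl =>
      have cj' : ∀ u v : BW, Valid (n+1) (u ++ v) → (P (n+1) (u ++ v) ↔ P (n+1) (v ++ u)) := by
        intro u v h
        exact ⟨cj _ u v (by omega) h, cj _ v u (by omega) (vapp.2 (vapp.1 h).symm)⟩
      -- positive words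
      let Q : List ℕ → Prop := fun w => w.length = ℓ → Valid (n+1) (posw w) → P (n+1) (posw w)
      have papp : ∀ a b : List ℕ, posw (a ++ b) = posw a ++ posw b := by intro a b; simp [posw]
      have C1 : ∀ u v i j, i + 2 ≤ j → (Q (u ++ [i, j] ++ v) ↔ Q (u ++ [j, i] ++ v)) := by
        intro u v i j hij
        have e1 : posw (u ++ [i, j] ++ v) = posw u ++ ((i,true) :: (j,true) :: posw v) := by simp [posw]
        have e2 : posw (u ++ [j, i] ++ v) = posw u ++ ((j,true) :: (i,true) :: posw v) := by simp [posw]
        have hv : Valid (n+1) (posw (u ++ [i, j] ++ v)) ↔ Valid (n+1) (posw (u ++ [j, i] ++ v)) := by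
          rw [e1, e2, vapp, vapp, vcons, vcons, vcons, vcons]; tauto
        have hl : (u ++ [i, j] ++ v).length = (u ++ [j, i] ++ v).length := by simp
        simp only [Q, hl, hv]
        refine imp_congr_right (fun _ => imp_congr_right (fun hV => ?_))
        have hV' := hV
        rw [e2, vapp, vcons, vcons] at hV'
        obtain ⟨hu, hj, hi, hvv⟩ := hV'
        rw [e1, e2, cj' _ _ (vapp.2 ⟨hu, vcons.2 ⟨hi, vcons.2 ⟨hj, hvv⟩⟩⟩),
          cj' _ _ (vapp.2 ⟨hu, vcons.2 ⟨hj, vcons.2 ⟨hi, hvv⟩⟩⟩)]
        exact cm _ _ i j (by omega) (vapp.2 ⟨hvv, hu⟩) hi hj hij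
      have C2 : ∀ u v i, Q (u ++ [i, i+1, i] ++ v) ↔ Q (u ++ [i+1, i, i+1] ++ v) := by
        intro u v i
        have e1 : posw (u ++ [i, i+1, i] ++ v)
            = posw u ++ ((i,true) :: (i+1,true) :: (i,true) :: posw v) := by simp [posw]
        have e2 : posw (u ++ [i+1, i, i+1] ++ v)
            = posw u ++ ((i+1,true) :: (i,true) :: (i+1,true) :: posw v) := by simp [posw]
        have hv : Valid (n+1) (posw (u ++ [i, i+1, i] ++ v)) ↔ Valid (n+1) (posw (u ++ [i+1, i, i+1] ++ v)) := by
          rw [e1, e2, vapp, vapp, vcons, vcons, vcons, vcons, vcons, vcons]; tauto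
        have hl : (u ++ [i, i+1, i] ++ v).length = (u ++ [i+1, i, i+1] ++ v).length := by simp
        simp only [Q, hl, hv]
        refine imp_congr_right (fun _ => imp_congr_right (fun hV => ?_))
        have hV' := hV
        rw [e2, vapp, vcons, vcons, vcons] at hV'
        obtain ⟨hu, hj, hi, _, hvv⟩ := hV'
        rw [e1, e2, cj' _ _ (vapp.2 ⟨hu, vcons.2 ⟨hi, vcons.2 ⟨hj, vcons.2 ⟨hi, hvv⟩⟩⟩⟩),
          cj' _ _ (vapp.2 ⟨hu, vcons.2 ⟨hj, vcons.2 ⟨hi, vcons.2 ⟨hj, hvv⟩⟩⟩⟩)]
        exact br _ _ i (by omega) (vapp.2 ⟨hvv, hu⟩) (by simp only at hj; omega)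
      have C3 : ∀ u v i, Q (u ++ [i, i] ++ v) := by
        intro u v i hl hV
        have e1 : posw (u ++ [i, i] ++ v) = posw u ++ ((i,true) :: (i,true) :: posw v) := by simp [posw]
        rw [e1] at hV ⊢
        have hV' := hV
        rw [vapp, vcons, vcons] at hV'
        obtain ⟨hu, hi, _, hvv⟩ := hV'
        have hlen : (posw u).length + (posw v).length + 2 = ℓ := by
          rw [← hl]; simp [posw]; omega
        rw [cj' _ _ hV]
        -- `(i,t) :: (i,t) :: X`, rotate, change sign, rotate back
        have hX : Valid (n+1) (posw v ++ posw u) := vapp.2 ⟨hvv, hu⟩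
        have s0 : P (n+1) (((i,true) :: (posw v ++ posw u))) :=
          ihl _ (by simp; omega) _ rfl (vcons.2 ⟨hi, hX⟩)
        have s1 : P (n+1) ((posw v ++ posw u) ++ [(i,true)]) := by
          have := (cj' [(i,true)] (posw v ++ posw u) (vcons.2 ⟨hi, hX⟩)).1 s0
          exact this
        have hX1 : Valid (n+1) ((posw v ++ posw u) ++ [(i,true)]) :=
          vapp.2 ⟨hX, vcons.2 ⟨hi, fun _ h => by simp at h⟩⟩
        have s2 := sg (n+1) ((posw v ++ posw u) ++ [(i,true)]) i (by omega) hX1 hi s1
        have s3 : P (n+1) ((i,true) :: (i,false) :: (posw v ++ posw u)) :=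
          cn _ _ i (by omega) hX hi (ihl _ (by simp; omega) _ rfl hX)
        have s4 : P (n+1) ((i,false) :: ((posw v ++ posw u) ++ [(i,true)])) := by
          have := (cj' [(i,true)] ((i,false) :: (posw v ++ posw u))
            (vcons.2 ⟨hi, vcons.2 ⟨hi, hX⟩⟩)).1 s3
          exact this
        have s5 := s2.2 s4
        have s6 := (cj' ((i,true) :: (posw v ++ posw u)) [(i,true)]
          (vapp.2 ⟨vcons.2 ⟨hi, hX⟩, vcons.2 ⟨hi, fun _ h => by simp at h⟩⟩)).1 s5
        exact s6
      have hpos : ∀ w : List ℕ, Q w := by
        intro w hl hV
        have hle : ∀ i ∈ w, i ≤ n - 1 := by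
          intro i hi
          have := hV (i,true) (by simp [posw, hi])
          simp only at this
          omega
        have fin : ∀ w' : List ℕ, w'.count (n-1) ≤ 1 → Q w' := by
          intro w' hc hl' hV'
          by_cases h0 : n - 1 ∈ w'
          · obtain ⟨e, f, rfl, he⟩ := List.eq_append_cons_of_mem h0
            have hf : n - 1 ∉ f := by
              rw [← List.count_eq_zero]
              rw [List.count_append, List.count_cons_self] at hc
              omega
            have e1 : posw (e ++ (n-1) :: f) = (posw e ++ [(n-1,true)]) ++ posw f := by simp [posw]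
            rw [e1] at hV' ⊢
            rw [cj' _ _ hV', ← List.append_assoc]
            apply st n _ hn
            · intro x hx
              simp only [List.mem_append] at hx
              have hx1 : x.1 + 1 < n + 1 := by
                rcases hx with h | h
                · exact hV' x (by simp [h])
                · exact hV' x (by simp [h])
              have hx2 : x.1 ≠ n - 1 := by
                rcases hx with h | h
                · simp only [posw, List.mem_map] at h
                  obtain ⟨k, hk, rfl⟩ := h
                  exact fun h' => hf (h' ▸ hk)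
                · simp only [posw, List.mem_map] at h
                  obtain ⟨k, hk, rfl⟩ := h
                  exact fun h' => he (h' ▸ hk)
              omega
            · apply ihn
              intro x hx
              simp only [List.mem_append] at hx
              have hx1 : x.1 + 1 < n + 1 := by
                rcases hx with h | h
                · exact hV' x (by simp [h])
                · exact hV' x (by simp [h])
              have hx2 : x.1 ≠ n - 1 := by
                rcases hx with h | h
                · simp only [posw, List.mem_map] at h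
                  obtain ⟨k, hk, rfl⟩ := h
                  exact fun h' => hf (h' ▸ hk)
                · simp only [posw, List.mem_map] at h
                  obtain ⟨k, hk, rfl⟩ := h
                  exact fun h' => he (h' ▸ hk)
              omega
          · have hV2 : Valid n (posw w') := by
              intro x hx
              have hx1 := hV' x hx
              simp only [posw, List.mem_map] at hx
              obtain ⟨k, hk, rfl⟩ := hx
              have : k ≠ n - 1 := fun h => h0 (h ▸ hk)
              simp only at hx1 ⊢
              omega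
            exact sp n _ hn hV2 (ihn _ hV2)
        rcases reduce C1 C2 C3 (n-1) w hle with h | ⟨w', _, k2, k3⟩
        · have := h [] []
          simp only [List.nil_append, List.append_nil] at this
          exact this hl hV
        · have := k3 [] []
          simp only [List.nil_append, List.append_nil] at this
          exact this.2 (fin w' k2) hl hV
      -- all signs
      have hsig : ∀ c, ∀ w : BW, (w.filter (fun x => !x.2)).length = c → w.length = ℓ →
          Valid (n+1) w → P (n+1) w := by
        intro c
        induction c with
        | zero =>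
          intro w hc hl hV
          have hall : ∀ x ∈ w, x.2 = true := by
            intro x hx
            by_contra h
            have : x ∈ w.filter (fun x => !x.2) := by
              rw [List.mem_filter]
              exact ⟨hx, by simpa using h⟩
            have := List.length_pos_of_mem this
            omega
          have : w = posw (w.map Prod.fst) := by
            simp only [posw, List.map_map]
            conv_lhs => rw [← List.map_id w]
            apply List.map_congr_left
            intro x hx
            simp only [id, Function.comp]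
            rw [← hall x hx]
          rw [this]
          apply hpos
          · simpa using hl
          · rw [← this]; exact hV
        | succ c ihc =>
          intro w hc hl hV
          have hex : ∃ x ∈ w, x.2 = false := by
            by_contra h
            have h : ∀ x ∈ w, x.2 ≠ false := fun x hx h' => h ⟨x, hx, h'⟩
            have : w.filter (fun x => !x.2) = [] := by
              rw [List.filter_eq_nil_iff]
              intro x hx
              simpa using h x hx
            rw [this] at hc
            simp at hc
          obtain ⟨x, hx, hx2⟩ := hex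
          obtain ⟨s, t, rfl⟩ := List.append_of_mem hx
          obtain ⟨i, b⟩ := x
          simp only at hx2
          subst hx2
          have hV' := hV
          rw [vapp, vcons] at hV'
          obtain ⟨hs, hi, ht⟩ := hV'
          have hts : Valid (n+1) (t ++ s) := vapp.2 ⟨ht, hs⟩
          rw [cj' _ _ hV]
          have hP : P (n+1) (t ++ s) := ihl (t ++ s).length (by
            rw [← hl]; simp; omega) _ rfl hts
          refine (sg (n+1) (t ++ s) i (by omega) hts hi hP).1 ?_
          have := ihc ((i,true) :: (t ++ s)) (by
            simp only [List.filter_append, List.filter_cons, List.length_append] at hc ⊢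
            simp at hc ⊢
            omega) (by
            rw [← hl]; simp; omega) (vcons.2 ⟨hi, hts⟩)
          exact this
      exact fun w hl hV => hsig _ w rfl hl hV
    exact fun hw => key _ w rfl hw

end Pool.Agent.W5h66
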