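import Pool.Agent.W5h66.Gd

/-! Cycles and transversals of permutations of braid words. -/

namespace Pool.Agent.W5h66

open Equiv

/-- permutation of a braid word -/
def prm (w : BW) : Equiv.Perm ℕ := (w.map (fun x => Equiv.swap x.1 (x.1+1))).prod

@[simp] lemma prm_nil : prm [] = 1 := rfl
lemma prm_cons (x : ℕ × Bool) (w : BW) : prm (x :: w) = Equiv.swap x.1 (x.1+1) * prm w := by
  simp [prm]
lemma prm_append (u v : BW) : prm (u ++ v) = prm u * prm v := by simp [prm]

/-- permutation supported on the first `n` numbers -/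
def Supp (n : ℕ) (π : Equiv.Perm ℕ) : Prop := ∀ j, n ≤ j → π j = j

lemma Supp.mul {n : ℕ} {π ρ : Equiv.Perm ℕ} (h : Supp n π) (h' : Supp n ρ) : Supp n (π * ρ) := by
  intro j hj; rw [Perm.mul_apply, h' j hj, h j hj]
lemma Supp.inv {n : ℕ} {π : Equiv.Perm ℕ} (h : Supp n π) : Supp n π⁻¹ := by
  intro j hj
  rw [Perm.inv_eq_iff_eq, h j hj]
lemma Supp.swap {n i : ℕ} (h : i + 1 < n) : Supp n (Equiv.swap i (i+1)) := by
  intro j hj
  exact Equiv.swap_apply_of_ne_of_ne (by omega) (by omega)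
lemma Supp.mono {n m : ℕ} {π : Equiv.Perm ℕ} (h : Supp n π) (hm : n ≤ m) : Supp m π :=
  fun j hj => h j (by omega)
lemma Supp.lt {n : ℕ} {π : Equiv.Perm ℕ} (h : Supp n π) {j : ℕ} (hj : j < n) : π j < n := by
  by_contra hc
  have h1 := h (π j) (by omega)
  have h2 := π.injective h1
  omega
lemma Supp.pow {n : ℕ} {π : Equiv.Perm ℕ} (h : Supp n π) (k : ℕ) : Supp n (π ^ k) := by
  induction k with
  | zero => intro j _; simp
  | succ k ih => rw [pow_succ]; exact ih.mul h
lemma Supp.zpow {n : ℕ} {π : Equiv.Perm ℕ} (h : Supp n π) (k : ℤ) : Supp n (π ^ k) := by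
  cases k with
  | ofNat k => simpa using h.pow k
  | negSucc k => rw [zpow_negSucc]; exact (h.pow _).inv
lemma Supp.one (n : ℕ) : Supp n 1 := fun _ _ => rfl

lemma Supp.prm {n : ℕ} {w : BW} (h : Valid n w) : Supp n (prm w) := by
  induction w with
  | nil => exact Supp.one n
  | cons x w ih =>
    rw [prm_cons]
    exact (Supp.swap (h x (by simp))).mul (ih (fun y hy => h y (by simp [hy])))

/-- the cycle relation is the smallest equivalence relation containing the graph -/
lemma sc_min {π : Equiv.Perm ℕ} {E : ℕ → ℕ → Prop} (hr : ∀ a, E a a) (hs : ∀ a b, E a b → E b a)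
    (ht : ∀ a b c, E a b → E b c → E a c) (h : ∀ a, E a (π a)) {a b : ℕ} (hab : π.SameCycle a b) :
    E a b := by
  obtain ⟨k, rfl⟩ := hab
  induction k using Int.induction_on with
  | zero => exact hr a
  | succ k ih =>
    have e : (π ^ ((k:ℤ) + 1)) a = π ((π ^ (k:ℤ)) a) := by
      rw [add_comm, zpow_add, zpow_one, Perm.mul_apply]
    rw [e]
    exact ht _ _ _ ih (h _)
  | pred k ih =>
    have e : (π ^ (-(k:ℤ))) a = π ((π ^ (-(k:ℤ) - 1)) a) := by
      conv_lhs => rw [show -(k:ℤ) = 1 + (-(k:ℤ) - 1) by ring, zpow_add, zpow_one, Perm.mul_apply]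
    rw [e] at ih
    exact ht _ _ _ ih (hs _ _ (h _))

lemma sc_step (π : Equiv.Perm ℕ) (a : ℕ) : π.SameCycle a (π a) := ⟨1, by simp⟩
lemma sc_refl (π : Equiv.Perm ℕ) (a : ℕ) : π.SameCycle a a := ⟨0, by simp⟩

/-- a set of representatives of the cycles on the first `n` numbers -/
structure IsTr (n : ℕ) (π : Equiv.Perm ℕ) (T : Finset ℕ) : Prop where
  lt : ∀ i ∈ T, i < n
  cov : ∀ j, j < n → ∃ i ∈ T, π.SameCycle i j
  uni : ∀ i ∈ T, ∀ j ∈ T, π.SameCycle i j → i = j

lemma sc_lt {n : ℕ} {π : Equiv.Perm ℕ} (h : Supp n π) {a b : ℕ} (ha : a < n) (hab : π.SameCycle a b) :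
    b < n := by
  obtain ⟨k, rfl⟩ := hab
  exact (h.zpow k).lt ha

lemma IsTr.move {n : ℕ} {π : Equiv.Perm ℕ} (hπ : Supp n π) {T : Finset ℕ} (h : IsTr n π T) {i j : ℕ}
    (hi : i ∈ T) (hij : π.SameCycle i j) : IsTr n π (insert j (T.erase i)) ∧ j ∉ T.erase i := by
  have hj : j ∉ T.erase i := by
    intro hj
    rw [Finset.mem_erase] at hj
    exact hj.1 (h.uni i hi j hj.2 hij).symm
  refine ⟨⟨?_, ?_, ?_⟩, hj⟩
  · intro a ha
    rcases Finset.mem_insert.1 ha with rfl | ha
    · exact sc_lt hπ (h.lt i hi) hij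
    · exact h.lt a (Finset.mem_of_mem_erase ha)
  · intro b hb
    obtain ⟨a, ha, hab⟩ := h.cov b hb
    by_cases hai : a = i
    · subst hai
      exact ⟨j, Finset.mem_insert_self _ _, hij.symm.trans hab⟩
    · exact ⟨a, Finset.mem_insert_of_mem (Finset.mem_erase.2 ⟨hai, ha⟩), hab⟩
  · intro a ha b hb hab
    rcases Finset.mem_insert.1 ha with h1 | h1 <;> rcases Finset.mem_insert.1 hb with h2 | h2
    · rw [h1, h2]
    · exfalso
      rw [Finset.mem_erase] at h2
      rw [h1] at hab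
      exact h2.1 (h.uni i hi b h2.2 (hij.trans hab)).symm
    · exfalso
      rw [Finset.mem_erase] at h1
      rw [h2] at hab
      exact h1.1 (h.uni i hi a h1.2 (hij.trans hab.symm)).symm
    · exact h.uni a (Finset.mem_of_mem_erase h1) b (Finset.mem_of_mem_erase h2) hab

lemma IsTr.eq_of_subset {n : ℕ} {π : Equiv.Perm ℕ} {T T' : Finset ℕ} (h : IsTr n π T)
    (h' : IsTr n π T') (hs : T ⊆ T') : T = T' := by
  refine Finset.Subset.antisymm hs (fun j hj => ?_)
  obtain ⟨i, hi, hij⟩ := h.cov j (h'.lt j hj)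
  rw [← h'.uni i (hs hi) j hj hij]
  exact hi

/-- any quantity invariant under moves is independent of the transversal -/
lemma IsTr.indep {n : ℕ} {π : Equiv.Perm ℕ} (hπ : Supp n π) {α : Type*} (F : Finset ℕ → α)
    (hF : ∀ T, IsTr n π T → ∀ i ∈ T, F T = F (insert (π i) (T.erase i)))
    {T T' : Finset ℕ} (h : IsTr n π T) (h' : IsTr n π T') : F T = F T' := by
  have hz : ∀ T, IsTr n π T → ∀ i ∈ T, ∀ k : ℤ, F T = F (insert ((π^k) i) (T.erase i)) := by
    intro T hT i hi k
    have hstep : ∀ k : ℤ, F (insert ((π^k) i) (T.erase i)) = F (insert ((π^(k+1)) i) (T.erase i)) := by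
      intro k
      obtain ⟨m1, m2⟩ := hT.move hπ hi ⟨k, rfl⟩
      have e := hF _ m1 ((π^k) i) (Finset.mem_insert_self _ _)
      rw [Finset.erase_insert m2] at e
      rw [e, add_comm, zpow_add, zpow_one, Perm.mul_apply]
    induction k using Int.induction_on with
    | zero => rw [zpow_zero, Perm.one_apply, Finset.insert_erase hi]
    | succ k ih => rw [ih, hstep]
    | pred k ih =>
      rw [ih]
      have := hstep (-(k:ℤ)-1)
      rw [show -(k:ℤ) - 1 + 1 = -(k:ℤ) by ring] at this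
      exact this.symm
  have key : ∀ c, ∀ T, IsTr n π T → (T \ T').card = c → F T = F T' := by
    intro c
    induction c with
    | zero =>
      intro T hT hc
      rw [hT.eq_of_subset h' (Finset.sdiff_eq_empty_iff_subset.1 (Finset.card_eq_zero.1 hc))]
    | succ c ih =>
      intro T hT hc
      obtain ⟨i, hi⟩ : (T \ T').Nonempty := Finset.card_pos.1 (by omega)
      rw [Finset.mem_sdiff] at hi
      obtain ⟨j, hj, hji⟩ := h'.cov i (hT.lt i hi.1)
      have hij := hji.symm
      obtain ⟨m1, m2⟩ := hT.move hπ hi.1 hij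
      obtain ⟨k, hk⟩ := hij
      rw [hz T hT i hi.1 k, hk]
      apply ih _ m1
      have : insert j (T.erase i) \ T' = (T \ T').erase i := by
        ext x
        simp only [Finset.mem_sdiff, Finset.mem_insert, Finset.mem_erase]
        constructor
        · rintro ⟨rfl | ⟨h1, h2⟩, h3⟩
          · exact absurd hj h3
          · exact ⟨h1, h2, h3⟩
        · rintro ⟨h1, h2, h3⟩
          exact ⟨Or.inr ⟨h1, h2⟩, h3⟩
      rw [this, Finset.card_erase_of_mem (Finset.mem_sdiff.2 hi), hc]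
      rfl
  exact key _ T h rfl

lemma IsTr.card_eq {n : ℕ} {π : Equiv.Perm ℕ} (hπ : Supp n π) {T T' : Finset ℕ} (h : IsTr n π T)
    (h' : IsTr n π T') : T.card = T'.card := by
  refine IsTr.indep hπ Finset.card (fun T hT i hi => ?_) h h'
  obtain ⟨_, m2⟩ := hT.move hπ hi (sc_step π i)
  rw [Finset.card_insert_of_notMem m2, Finset.card_erase_of_mem hi]
  have := Finset.card_pos.2 ⟨i, hi⟩
  omega

open Classical in
/-- least representatives -/
noncomputable def reps (n : ℕ) (π : Equiv.Perm ℕ) : Finset ℕ :=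
  (Finset.range n).filter (fun i => ∀ j, π.SameCycle i j → i ≤ j)

lemma reps_isTr {n : ℕ} {π : Equiv.Perm ℕ} (hπ : Supp n π) : IsTr n π (reps n π) := by
  classical
  refine ⟨?_, ?_, ?_⟩
  · intro i hi
    simp only [reps, Finset.mem_filter, Finset.mem_range] at hi
    exact hi.1
  · intro j hj
    have hex : ∃ i, π.SameCycle i j := ⟨j, sc_refl π j⟩
    refine ⟨Nat.find hex, ?_, Nat.find_spec hex⟩
    simp only [reps, Finset.mem_filter, Finset.mem_range]
    refine ⟨lt_of_le_of_lt (Nat.find_min' hex (sc_refl π j)) hj, fun k hk => ?_⟩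
    exact Nat.find_min' hex (hk.symm.trans (Nat.find_spec hex))
  · intro i hi j hj hij
    simp only [reps, Finset.mem_filter, Finset.mem_range] at hi hj
    exact le_antisymm (hi.2 j hij) (hj.2 i hij.symm)

/-- returning to the start -/
lemma exists_return {n : ℕ} {π : Equiv.Perm ℕ} (hπ : Supp n π) {i : ℕ} (hi : i < n) :
    ∃ k, 0 < k ∧ (π^k) i = i := by
  have hmaps : ∀ k ∈ Finset.range (n+1), (π^k) i ∈ Finset.range n := by
    intro k _
    rw [Finset.mem_range]
    exact (hπ.pow k).lt hi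
  obtain ⟨x, hx, y, hy, hne, he⟩ := Finset.exists_ne_map_eq_of_card_lt_of_maps_to (by simp) hmaps
  wlog hlt : x < y generalizing x y
  · exact this y hy x hx hne.symm he.symm (by omega)
  refine ⟨y - x, by omega, ?_⟩
  have : (π^y) i = (π^x) ((π^(y-x)) i) := by
    rw [← Perm.mul_apply, ← pow_add]; congr 2; omega
  rw [this] at he
  exact ((π^x).injective he).symm

/-- first return to the pair `{i, i+1}` -/
lemma first_return {n : ℕ} {ρ : Equiv.Perm ℕ} (hρ : Supp n ρ) {i s : ℕ} (hs : s = i ∨ s = i + 1)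
    (hn : s < n) : ∃ k, 0 < k ∧ ((ρ^k) s = i ∨ (ρ^k) s = i + 1) ∧
      ∀ j, 0 < j → j < k → (ρ^j) s ≠ i ∧ (ρ^j) s ≠ i + 1 := by
  classical
  have hex : ∃ k, 0 < k ∧ ((ρ^k) s = i ∨ (ρ^k) s = i + 1) := by
    obtain ⟨k, hk, he⟩ := exists_return hρ hn
    exact ⟨k, hk, by rw [he]; exact hs⟩
  refine ⟨Nat.find hex, (Nat.find_spec hex).1, (Nat.find_spec hex).2, fun j h0 hj => ?_⟩
  have := Nat.find_min hex hj
  push Not at this
  exact this h0

/-- closed orbit -/
lemma orbit_closed {ρ : Equiv.Perm ℕ} {s t k : ℕ} (hk : 0 < k) (he : (ρ^k) s = s)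
    (hst : ρ.SameCycle s t) : ∃ j, j < k ∧ (ρ^j) s = t := by
  obtain ⟨m, hm⟩ := hst
  refine ⟨(m % k).toNat, ?_, ?_⟩
  · have h1 := Int.emod_nonneg m (by omega : (k:ℤ) ≠ 0)
    have h2 := Int.emod_lt_of_pos m (by omega : (0:ℤ) < k)
    omega
  · have h1 := Int.emod_nonneg m (by omega : (k:ℤ) ≠ 0)
    have e : m = (k:ℤ) * (m / k) + ((m % k).toNat : ℤ) := by
      rw [Int.toNat_of_nonneg h1]; exact (Int.mul_ediv_add_emod m k).symm
    have hfix : ∀ q : ℤ, (ρ ^ ((k:ℤ) * q)) s = s := by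
      intro q
      have hs1 : (ρ^(k:ℤ)) s = s := by simpa using he
      have : Function.IsFixedPt (ρ^(k:ℤ)) s := hs1
      rw [zpow_mul]
      exact this.perm_zpow q
    have : (ρ^m) s = (ρ ^ ((m % k).toNat)) s := by
      conv_lhs => rw [e, add_comm, zpow_add, Perm.mul_apply, hfix, zpow_natCast]
    rw [← this, hm]

section merge
variable {n i : ℕ} {π : Equiv.Perm ℕ} (hπ : Supp n π) (hi : i + 1 < n)
include hπ hi

/-- first return when the two strands are on different cycles -/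
lemma ret_diff (h : ¬ π.SameCycle i (i+1)) {s : ℕ} (hs : s = i ∨ s = i+1) :
    ∃ k, 0 < k ∧ (π⁻¹^k) s = s ∧ ∀ j, 0 < j → j < k → (π⁻¹^j) s ≠ i ∧ (π⁻¹^j) s ≠ i + 1 := by
  obtain ⟨k, hk, hr, hj⟩ := first_return hπ.inv hs (by rcases hs with rfl | rfl <;> omega)
  refine ⟨k, hk, ?_, hj⟩
  have hsc : π.SameCycle s ((π⁻¹^k) s) := ⟨-(k:ℤ), by simp⟩
  rcases hs with rfl | rfl <;> rcases hr with hr | hr
  · exact hr
  · rw [hr] at hsc; exact absurd hsc h
  · rw [hr] at hsc; exact absurd hsc.symm h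
  · exact hr

/-- first return when the two strands are on the same cycle -/
lemma ret_same (h : π.SameCycle i (i+1)) :
    (∃ k, 0 < k ∧ (π⁻¹^k) i = i+1 ∧ ∀ j, 0 < j → j < k → (π⁻¹^j) i ≠ i ∧ (π⁻¹^j) i ≠ i + 1) ∧
    (∃ k, 0 < k ∧ (π⁻¹^k) (i+1) = i ∧ ∀ j, 0 < j → j < k → (π⁻¹^j) (i+1) ≠ i ∧ (π⁻¹^j) (i+1) ≠ i + 1) := by
  have h' : π⁻¹.SameCycle i (i+1) := Perm.sameCycle_inv.2 h
  constructor
  · obtain ⟨k, hk, hr, hj⟩ := first_return (s := i) hπ.inv (Or.inl rfl) (by omega)
    refine ⟨k, hk, ?_, hj⟩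
    rcases hr with hr | hr
    · exfalso
      obtain ⟨j, hjk, he⟩ := orbit_closed hk hr h'
      rcases Nat.eq_zero_or_pos j with rfl | hj0
      · simp at he
      · exact (hj j hj0 hjk).2 he
    · exact hr
  · obtain ⟨k, hk, hr, hj⟩ := first_return (s := i+1) hπ.inv (Or.inr rfl) (by omega)
    refine ⟨k, hk, ?_, hj⟩
    rcases hr with hr | hr
    · exact hr
    · exfalso
      obtain ⟨j, hjk, he⟩ := orbit_closed hk hr h'.symm
      rcases Nat.eq_zero_or_pos j with rfl | hj0
      · simp at he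
      · exact (hj j hj0 hjk).1 he

/-- powers along the modified permutation -/
lemma pow_mod {s s' : ℕ} (hss : (s = i ∧ s' = i+1) ∨ (s = i+1 ∧ s' = i)) {k : ℕ} (hk : 0 < k)
    (hj : ∀ j, 0 < j → j < k → (π⁻¹^j) s' ≠ i ∧ (π⁻¹^j) s' ≠ i + 1) :
    ∀ j, 0 < j → j ≤ k → ((Equiv.swap i (i+1) * π)⁻¹^j) s = (π⁻¹^j) s' := by
  intro j
  induction j with
  | zero => intro h; omega
  | succ j ih =>
    intro _ hjk
    rcases Nat.eq_zero_or_pos j with rfl | hj0
    · rw [zero_add, pow_one, pow_one, mul_inv_rev, Equiv.swap_inv, Perm.mul_apply]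
      rcases hss with ⟨rfl, rfl⟩ | ⟨rfl, rfl⟩ <;> simp
    · rw [pow_succ', Perm.mul_apply, ih hj0 (by omega), pow_succ', Perm.mul_apply, mul_inv_rev,
        Equiv.swap_inv, Perm.mul_apply]
      rw [Equiv.swap_apply_of_ne_of_ne (hj j hj0 (by omega)).1 (hj j hj0 (by omega)).2]

lemma merge_same (h : ¬ π.SameCycle i (i+1)) : (Equiv.swap i (i+1) * π).SameCycle i (i+1) := by
  obtain ⟨k, hk, he, hj⟩ := ret_diff hπ hi h (s := i+1) (Or.inr rfl)
  have := pow_mod hπ hi (Or.inl ⟨rfl, rfl⟩) hk hj k hk le_rfl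
  rw [he] at this
  exact ⟨-(k:ℤ), by rw [zpow_neg, zpow_natCast, ← inv_pow]; exact this⟩

lemma split_diff (h : π.SameCycle i (i+1)) : ¬ (Equiv.swap i (i+1) * π).SameCycle i (i+1) := by
  obtain ⟨_, k, hk, he, hj⟩ := ret_same hπ hi h
  have hp := pow_mod hπ hi (Or.inl ⟨rfl, rfl⟩) hk hj
  have hc := hp k hk le_rfl
  rw [he] at hc
  intro hsc
  have hsc' : (Equiv.swap i (i+1) * π)⁻¹.SameCycle i (i+1) := Perm.sameCycle_inv.2 hsc
  obtain ⟨j, hjk, hej⟩ := orbit_closed hk hc hsc'
  rcases Nat.eq_zero_or_pos j with rfl | hj0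
  · simp at hej
  · rw [hp j hj0 hjk.le] at hej
    exact (hj j hj0 hjk).2 hej

/-- merging two cycles -/
theorem merge (h : ¬ π.SameCycle i (i+1)) : ∃ T₀ : Finset ℕ,
    (∀ t ∈ T₀, ¬ π.SameCycle i t ∧ ¬ π.SameCycle (i+1) t) ∧ i ∉ T₀ ∧ i + 1 ∉ T₀ ∧
    IsTr n π (insert i (insert (i+1) T₀)) ∧ IsTr n (Equiv.swap i (i+1) * π) (insert i T₀) := by
  classical
  set J : ℕ → Prop := fun a => π.SameCycle i a ∨ π.SameCycle (i+1) a with hJ
  have hR := reps_isTr hπ
  set T₀ : Finset ℕ := (reps n π).filter (fun t => ¬ J t) with hT₀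
  have m0 : ∀ t ∈ T₀, ¬ π.SameCycle i t ∧ ¬ π.SameCycle (i+1) t := by
    intro t ht
    rw [hT₀, Finset.mem_filter] at ht
    have := ht.2
    simp only [hJ, not_or] at this
    exact this
  have mi : i ∉ T₀ := fun h => (m0 i h).1 (sc_refl π i)
  have mi1 : i + 1 ∉ T₀ := fun h => (m0 (i+1) h).2 (sc_refl π (i+1))
  have A : IsTr n π (insert i (insert (i+1) T₀)) := by
    refine ⟨?_, ?_, ?_⟩
    · intro a ha
      rcases Finset.mem_insert.1 ha with rfl | ha
      · omega
      rcases Finset.mem_insert.1 ha with rfl | ha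
      · omega
      · rw [hT₀, Finset.mem_filter] at ha; exact hR.lt a ha.1
    · intro j hj
      obtain ⟨t, ht, htj⟩ := hR.cov j hj
      by_cases hJt : J t
      · rcases hJt with h1 | h1
        · exact ⟨i, by simp, h1.trans htj⟩
        · exact ⟨i+1, by simp, h1.trans htj⟩
      · refine ⟨t, ?_, htj⟩
        rw [Finset.mem_insert, Finset.mem_insert, hT₀, Finset.mem_filter]
        exact Or.inr (Or.inr ⟨ht, hJt⟩)
    · intro a ha b hb hab
      rw [Finset.mem_insert, Finset.mem_insert] at ha hb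
      rcases ha with rfl | rfl | ha <;> rcases hb with rfl | rfl | hb
      · rfl
      · exact absurd hab h
      · exact absurd hab (m0 b hb).1
      · exact absurd hab.symm h
      · rfl
      · exact absurd hab (m0 b hb).2
      · exact absurd hab.symm (m0 a ha).1
      · exact absurd hab.symm (m0 a ha).2
      · rw [hT₀, Finset.mem_filter] at ha hb
        exact hR.uni a ha.1 b hb.1 hab
  refine ⟨T₀, m0, mi, mi1, A, ?_, ?_, ?_⟩
  · intro a ha
    exact A.lt a (by rw [Finset.mem_insert] at ha ⊢; rw [Finset.mem_insert]; tauto)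
  · -- coverage
    have hm := merge_same hπ hi h
    have hE : ∀ a b, π.SameCycle a b → (Equiv.swap i (i+1) * π).SameCycle a b := by
      intro a b hab
      refine sc_min (E := fun a b => (Equiv.swap i (i+1) * π).SameCycle a b) (fun a => sc_refl _ a)
        (fun a b h => h.symm) (fun a b c h1 h2 => h1.trans h2) (fun a => ?_) hab
      have h1 := sc_step (Equiv.swap i (i+1) * π) a
      rw [Perm.mul_apply] at h1
      by_cases e1 : π a = i
      · rw [e1, Equiv.swap_apply_left] at h1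
        rw [e1]; exact h1.trans hm.symm
      by_cases e2 : π a = i + 1
      · rw [e2, Equiv.swap_apply_right] at h1
        rw [e2]; exact h1.trans hm
      · rw [Equiv.swap_apply_of_ne_of_ne e1 e2] at h1
        exact h1
    intro j hj
    obtain ⟨t, ht, htj⟩ := A.cov j hj
    rw [Finset.mem_insert, Finset.mem_insert] at ht
    rcases ht with rfl | rfl | ht
    · exact ⟨t, by simp, hE _ _ htj⟩
    · exact ⟨i, by simp, hm.trans (hE _ _ htj)⟩
    · exact ⟨t, by simp [ht], hE _ _ htj⟩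
  · -- uniqueness
    have hE : ∀ a b, (Equiv.swap i (i+1) * π).SameCycle a b → π.SameCycle a b ∨ (J a ∧ J b) := by
      intro a b hab
      have Jsc : ∀ a b, J a → π.SameCycle a b → J b := by
        intro a b ha h
        rcases ha with ha | ha
        · exact Or.inl (ha.trans h)
        · exact Or.inr (ha.trans h)
      refine sc_min (E := fun a b => π.SameCycle a b ∨ (J a ∧ J b)) (fun a => Or.inl (sc_refl _ a))
        ?_ ?_ (fun a => ?_) hab
      · rintro a b (h | ⟨h1, h2⟩)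
        · exact Or.inl h.symm
        · exact Or.inr ⟨h2, h1⟩
      · rintro a b c (h | ⟨h1, h2⟩) (h' | ⟨h1', h2'⟩)
        · exact Or.inl (h.trans h')
        · exact Or.inr ⟨Jsc _ _ h1' h.symm, h2'⟩
        · exact Or.inr ⟨h1, Jsc _ _ h2 h'⟩
        · exact Or.inr ⟨h1, h2'⟩
      · rw [Perm.mul_apply]
        have h1 := sc_step π a
        by_cases e1 : π a = i
        · right
          rw [e1] at h1
          rw [e1, Equiv.swap_apply_left]
          exact ⟨Or.inl h1.symm, Or.inr (sc_refl _ _)⟩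
        by_cases e2 : π a = i + 1
        · right
          rw [e2] at h1
          rw [e2, Equiv.swap_apply_right]
          exact ⟨Or.inr h1.symm, Or.inl (sc_refl _ _)⟩
        · left
          rw [Equiv.swap_apply_of_ne_of_ne e1 e2]
          exact h1
    have hJT : ∀ a ∈ insert i T₀, J a → a = i := by
      intro a ha hJa
      rcases Finset.mem_insert.1 ha with rfl | ha
      · rfl
      · rcases hJa with h1 | h1
        · exact absurd h1 (m0 a ha).1
        · exact absurd h1 (m0 a ha).2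
    intro a ha b hb hab
    rcases hE a b hab with h1 | ⟨h1, h2⟩
    · refine A.uni a ?_ b ?_ h1
      · rw [Finset.mem_insert] at ha ⊢; rw [Finset.mem_insert]; tauto
      · rw [Finset.mem_insert] at hb ⊢; rw [Finset.mem_insert]; tauto
    · rw [hJT a ha h1, hJT b hb h2]

end merge

end Pool.Agent.W5h66
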