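import Pool.Agent.W5h66.Cu
import Pool.Agent.W5h66.Tr

/-! Cabled braids in the Hecke algebra, decorated by power sums. -/

namespace Pool.Agent.W5h66

open Equiv

universe u v
variable {B : Type u} [CommRing B] {z : B}
variable {M : Type v} [AddCommGroup M] [Module B M]

/-- block crossing at block `i` -/
noncomputable def bc (z : B) (p i : ℕ) (e : Bool) : Hk z :=
  sn (i*p) (if e then Cp z p p else Cm z p p)

/-- cable of a braid word -/
noncomputable def cb (z : B) (p : ℕ) (w : BW) : Hk z := (w.map (fun x => bc z p x.1 x.2)).prod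

@[simp] lemma cb_nil (p : ℕ) : cb z p [] = 1 := rfl
lemma cb_cons (p : ℕ) (x : ℕ × Bool) (w : BW) : cb z p (x :: w) = bc z p x.1 x.2 * cb z p w := by
  simp [cb]
lemma cb_append (p : ℕ) (u v : BW) : cb z p (u ++ v) = cb z p u * cb z p v := by simp [cb]

lemma bc_mem (p i : ℕ) (e : Bool) : bc z p i e ∈ Hn z ((i+2)*p) := by
  unfold bc
  have h : (if e then Cp z p p else Cm z p p) ∈ Hn z (p+p) := by
    cases e
    · simpa using Cm_mem p p
    · simpa using Cp_mem p p
  have := sn_mem (m := i*p) h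
  rwa [show i*p + (p+p) = (i+2)*p by ring] at this

lemma cb_mem {p n : ℕ} {w : BW} (h : Valid n w) : cb z p w ∈ Hn z (n*p) := by
  induction w with
  | nil => exact one_mem _
  | cons x w ih =>
    rw [cb_cons]
    have hx := h x (by simp)
    exact mul_mem (Hn_mono (Nat.mul_le_mul_right p hx) (bc_mem p x.1 x.2))
      (ih (fun y hy => h y (by simp [hy])))

lemma block_comm {p i j : ℕ} (hij : i < j) {u : Hk z} (hu : u ∈ Hn z p) (y : Hk z) :
    sn (i*p) u * sn (j*p) y = sn (j*p) y * sn (i*p) u := by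
  have h1 : sn (i*p) u ∈ Hn z (i*p+p) := sn_mem hu
  exact comm_far (by have := Nat.mul_le_mul_right p hij; rw [Nat.succ_mul] at this; exact this) h1 y

lemma bc_slide (p i : ℕ) (e : Bool) (j : ℕ) {u : Hk z} (hu : u ∈ Hn z p) :
    bc z p i e * sn (j*p) u = sn (Equiv.swap i (i+1) j * p) u * bc z p i e := by
  rcases Nat.lt_trichotomy j i with h | h | h
  · rw [Equiv.swap_apply_of_ne_of_ne (by omega) (by omega)]
    unfold bc
    exact (block_comm h hu _).symm
  · subst h
    rw [Equiv.swap_apply_left]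
    have hl : (if e then Cp z p p else Cm z p p) * u = sn p u * (if e then Cp z p p else Cm z p p) := by
      cases e
      · simpa using Cm_left p hu
      · simpa using Cp_left p hu
    unfold bc
    rw [← map_mul, hl, map_mul, sn_sn, show (j+1)*p = j*p+p by ring]
  · rcases Nat.lt_or_ge (i+1) j with h2 | h2
    · rw [Equiv.swap_apply_of_ne_of_ne (by omega) (by omega)]
      exact comm_far (Nat.mul_le_mul_right p h2) (bc_mem p i e) u
    · have : j = i + 1 := by omega
      subst this
      rw [Equiv.swap_apply_right]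
      have hl : (if e then Cp z p p else Cm z p p) * sn p u = u * (if e then Cp z p p else Cm z p p) := by
        cases e
        · simpa using Cm_right p hu
        · simpa using Cp_right p hu
      unfold bc
      rw [show (i+1)*p = i*p+p by ring, ← sn_sn, ← map_mul, hl, map_mul]

lemma cb_slide (p : ℕ) (w : BW) (j : ℕ) {u : Hk z} (hu : u ∈ Hn z p) :
    cb z p w * sn (j*p) u = sn (prm w j * p) u * cb z p w := by
  induction w with
  | nil => simp
  | cons x w ih =>
    rw [cb_cons, mul_assoc, ih, ← mul_assoc, bc_slide p x.1 x.2 _ hu, prm_cons, Perm.mul_apply,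
      mul_assoc]

lemma cb_slide' (p : ℕ) (w : BW) (j : ℕ) {u : Hk z} (hu : u ∈ Hn z p) :
    sn (j*p) u * cb z p w = cb z p w * sn ((prm w)⁻¹ j * p) u := by
  have e : prm w ((prm w)⁻¹ j) = j := (prm w).apply_symm_apply j
  rw [cb_slide p w _ hu, e]

/-- decoration of one block -/
noncomputable def XX (z : B) (p i : ℕ) : Hk z := sn (i*p) (xx z p)

lemma XX_comm (p i j : ℕ) : Commute (XX z p i) (XX z p j) := by
  rcases Nat.lt_trichotomy i j with h | h | h
  · exact block_comm h (xx_mem p) _
  · rw [h]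
  · exact (block_comm h (xx_mem p) _).symm

lemma XX_pw (p : ℕ) (T : Finset ℕ) :
    (T : Set ℕ).Pairwise (Function.onFun Commute (fun i => XX z p i)) :=
  fun i _ j _ _ => XX_comm p i j

/-- decoration of a set of blocks -/
noncomputable def XT (z : B) (p : ℕ) (T : Finset ℕ) : Hk z :=
  T.noncommProd (fun i => XX z p i) (XX_pw p T)

@[simp] lemma XT_empty (p : ℕ) : XT z p ∅ = 1 := by simp [XT]
lemma XT_insert (p : ℕ) {i : ℕ} {T : Finset ℕ} (h : i ∉ T) :
    XT z p (insert i T) = XX z p i * XT z p T := by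
  rw [XT, Finset.noncommProd_insert_of_notMem _ _ _ _ h]; rfl
lemma XT_erase (p : ℕ) {i : ℕ} {T : Finset ℕ} (h : i ∈ T) :
    XT z p T = XX z p i * XT z p (T.erase i) := by
  rw [← XT_insert p (Finset.notMem_erase i T), Finset.insert_erase h]

lemma XT_comm_of {p : ℕ} {y : Hk z} {T : Finset ℕ} (h : ∀ i ∈ T, XX z p i * y = y * XX z p i) :
    XT z p T * y = y * XT z p T := by
  induction T using Finset.induction_on with
  | empty => simp
  | insert i T hi ih =>
    rw [XT_insert p hi, mul_assoc, ih (fun j hj => h j (by simp [hj])), ← mul_assoc, h i (by simp),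
      mul_assoc]

lemma XX_block {p i j : ℕ} (hij : i ≠ j) {u : Hk z} (hu : u ∈ Hn z p) :
    XX z p i * sn (j*p) u = sn (j*p) u * XX z p i := by
  rcases Nat.lt_or_gt_of_ne hij with h | h
  · exact block_comm h (xx_mem p) _
  · exact (block_comm h hu _).symm

lemma XT_block {p j : ℕ} {T : Finset ℕ} (hj : j ∉ T) {u : Hk z} (hu : u ∈ Hn z p) :
    XT z p T * sn (j*p) u = sn (j*p) u * XT z p T :=
  XT_comm_of (fun i hi => XX_block (i := i) (j := j) (fun h => hj (h ▸ hi)) hu)

lemma XT_mem {p n : ℕ} {T : Finset ℕ} (h : ∀ i ∈ T, i < n) : XT z p T ∈ Hn z (n*p) := by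
  induction T using Finset.induction_on with
  | empty => simp [one_mem]
  | insert i T hi ih =>
    rw [XT_insert p hi]
    refine mul_mem ?_ (ih (fun j hj => h j (by simp [hj])))
    have h1 : XX z p i ∈ Hn z (i*p+p) := sn_mem (xx_mem p)
    exact Hn_mono (by have := Nat.mul_le_mul_right p (h i (by simp)); rw [Nat.succ_mul] at this; exact this) h1

section slide
variable {t : Hk z →ₗ[B] M} (tr : ∀ x y, t (x * y) = t (y * x))
include tr

/-- independence of the transversal -/
lemma indep_XT {p n : ℕ} {w : BW} (hw : Valid n w) {T T' : Finset ℕ} (h : IsTr n (prm w) T)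
    (h' : IsTr n (prm w) T') : t (cb z p w * XT z p T) = t (cb z p w * XT z p T') := by
  refine IsTr.indep (Supp.prm hw) (fun T => t (cb z p w * XT z p T)) (fun T hT i hi => ?_) h h'
  obtain ⟨_, m2⟩ := hT.move (Supp.prm hw) hi (sc_step (prm w) i)
  show t (cb z p w * XT z p T) = t (cb z p w * XT z p (insert (prm w i) (T.erase i)))
  rw [XT_erase p hi, XT_insert p m2, ← mul_assoc]
  have e : cb z p w * XX z p i = XX z p (prm w i) * cb z p w := cb_slide p w i (xx_mem p)
  rw [e, mul_assoc, tr, mul_assoc]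
  congr 2
  exact XT_block m2 (xx_mem p)

/-- rotating a decorated cable -/
lemma conj_XT {p : ℕ} (u v : BW) (T : Finset ℕ) :
    t (cb z p (u ++ v) * XT z p T) = t (cb z p (v ++ u) * XT z p (T.image (prm v))) := by
  have e : cb z p v * XT z p T = XT z p (T.image (prm v)) * cb z p v := by
    induction T using Finset.induction_on with
    | empty => simp
    | insert i T hi ih =>
      have hni : prm v i ∉ T.image (prm v) := by
        rw [Finset.mem_image]
        rintro ⟨a, ha, hae⟩
        exact hi ((prm v).injective hae ▸ ha)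
      rw [XT_insert p hi, Finset.image_insert, XT_insert p hni, ← mul_assoc]
      have e : cb z p v * XX z p i = XX z p (prm v i) * cb z p v := cb_slide p v i (xx_mem p)
      rw [e, mul_assoc, ih, mul_assoc]
  rw [cb_append, mul_assoc, e, cb_append, tr, mul_assoc, tr, mul_assoc]

/-- path sliding of a block element -/
lemma path_slide {p i s k : ℕ} {v : BW} {T₀ : Finset ℕ} (hk : 0 < k)
    (hj : ∀ j, 0 < j → j < k → ((prm v)⁻¹^j) s ≠ i ∧ ((prm v)⁻¹^j) s ≠ i + 1)
    (hT : ∀ j, 0 < j → j ≤ k → ((prm v)⁻¹^j) s ∉ T₀) {u y : Hk z} (hu : u ∈ Hn z p)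
    (hy : y ∈ Hn z (p+p)) :
    t (sn (i*p) y * sn (s*p) u * (cb z p v * XT z p T₀))
      = t (sn (((prm v)⁻¹^k) s * p) u * sn (i*p) y * (cb z p v * XT z p T₀)) := by
  set ρ := (prm v)⁻¹ with hρ
  have step : ∀ a : ℕ, ρ a ∉ T₀ → t (sn (i*p) y * sn (a*p) u * (cb z p v * XT z p T₀))
      = t (sn (ρ a * p) u * sn (i*p) y * (cb z p v * XT z p T₀)) := by
    intro a ha
    rw [mul_assoc, ← mul_assoc (sn (a*p) u), cb_slide' p v a hu, mul_assoc (cb z p v),
      ← XT_block ha hu, ← mul_assoc, ← mul_assoc, tr]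
    simp only [mul_assoc]
  have hcomm : ∀ a : ℕ, a ≠ i → a ≠ i + 1 → sn (a*p) u * sn (i*p) y = sn (i*p) y * sn (a*p) u := by
    intro a h1 h2
    rcases Nat.lt_or_gt_of_ne h1 with h | h
    · exact block_comm h hu y
    · have h3 : i + 2 ≤ a := by omega
      have hy2 : sn (i*p) y ∈ Hn z (i*p+(p+p)) := sn_mem hy
      exact (comm_far (by
        have := Nat.mul_le_mul_right p h3
        rwa [show (i+2)*p = i*p+(p+p) by ring] at this) hy2 u).symm
  have main : ∀ j, j + 1 ≤ k → t (sn (i*p) y * sn (s*p) u * (cb z p v * XT z p T₀))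
      = t (sn ((ρ^(j+1)) s * p) u * sn (i*p) y * (cb z p v * XT z p T₀)) := by
    intro j
    induction j with
    | zero =>
      intro h
      have := hT 1 (by omega) h
      rw [pow_one] at this
      rw [step s this, zero_add, pow_one]
    | succ j ih =>
      intro h
      rw [ih (by omega)]
      have h1 := hj (j+1) (by omega) (by omega)
      rw [hcomm _ h1.1 h1.2, pow_succ' ρ (j+1), Perm.mul_apply]
      apply step
      have := hT (j+1+1) (by omega) h
      rwa [pow_succ', Perm.mul_apply] at this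
  have := main (k-1) (by omega)
  rwa [show k - 1 + 1 = k by omega] at this

section cross
variable {p n i : ℕ} {v : BW} (hv : Valid n v) (hi : i + 1 < n) {T₀ : Finset ℕ}
include hv hi

/-- block functional attached to a crossing -/
lemma phi_untw (h : ¬ (prm v).SameCycle i (i+1))
    (hT : ∀ a ∈ T₀, ¬ (prm v).SameCycle i a ∧ ¬ (prm v).SameCycle (i+1) a)
    {u y : Hk z} (hu : u ∈ Hn z p) (hy : y ∈ Hn z (p+p)) :
    t (sn (i*p) (y * u) * (cb z p v * XT z p T₀)) = t (sn (i*p) (u * y) * (cb z p v * XT z p T₀)) ∧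
    t (sn (i*p) (y * sn p u) * (cb z p v * XT z p T₀))
      = t (sn (i*p) (sn p u * y) * (cb z p v * XT z p T₀)) := by
  have hsc : ∀ (s k : ℕ), (prm v).SameCycle s (((prm v)⁻¹^k) s) := by
    intro s k
    exact ⟨-(k:ℤ), by rw [zpow_neg, zpow_natCast, ← inv_pow]⟩
  constructor
  · obtain ⟨k, hk, he, hj⟩ := ret_diff (Supp.prm hv) hi h (s := i) (Or.inl rfl)
    have := path_slide tr (s := i) hk hj (T₀ := T₀) (fun j _ _ hm => (hT _ hm).1 (hsc i j)) hu hy
    rw [he] at this
    rw [map_mul (sn (i*p)), map_mul (sn (i*p))]; exact this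
  · obtain ⟨k, hk, he, hj⟩ := ret_diff (Supp.prm hv) hi h (s := i+1) (Or.inr rfl)
    have := path_slide tr (s := i+1) hk hj (T₀ := T₀) (fun j _ _ hm => (hT _ hm).2 (hsc (i+1) j)) hu hy
    rw [he, show (i+1)*p = i*p+p by ring, ← sn_sn] at this
    rw [map_mul (sn (i*p)), map_mul (sn (i*p))]; exact this

lemma phi_tw (h : (prm v).SameCycle i (i+1)) (hT : ∀ a ∈ T₀, ¬ (prm v).SameCycle i a)
    {u y : Hk z} (hu : u ∈ Hn z p) (hy : y ∈ Hn z (p+p)) :
    t (sn (i*p) (y * u) * (cb z p v * XT z p T₀)) = t (sn (i*p) (sn p u * y) * (cb z p v * XT z p T₀)) := by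
  have hsc : ∀ (s k : ℕ), (prm v).SameCycle s (((prm v)⁻¹^k) s) := by
    intro s k
    exact ⟨-(k:ℤ), by rw [zpow_neg, zpow_natCast, ← inv_pow]⟩
  obtain ⟨⟨k, hk, he, hj⟩, _⟩ := ret_same (Supp.prm hv) hi h
  have := path_slide tr (s := i) hk hj (T₀ := T₀) (fun j _ _ hm => (hT _ hm) (hsc i j)) hu hy
  rw [he, show (i+1)*p = i*p+p by ring, ← sn_sn] at this
  rw [map_mul (sn (i*p)), map_mul (sn (i*p))]; exact this

end cross
end slide

end Pool.Agent.W5h66
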