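import Pool.Agent.W5h66.Br

/-! The Hecke algebra of type A-infinity, by generators and relations. -/

namespace Pool.Agent.W5h66

universe u
variable {B : Type u} [CommRing B]

/-- defining relations -/
inductive HRel (z : B) : FreeAlgebra B ℕ → FreeAlgebra B ℕ → Prop
  | quad (i : ℕ) : HRel z (FreeAlgebra.ι B i * FreeAlgebra.ι B i) (1 + z • FreeAlgebra.ι B i)
  | far (i j : ℕ) (h : i + 2 ≤ j) : HRel z (FreeAlgebra.ι B i * FreeAlgebra.ι B j)
      (FreeAlgebra.ι B j * FreeAlgebra.ι B i)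
  | br (i : ℕ) : HRel z (FreeAlgebra.ι B i * FreeAlgebra.ι B (i+1) * FreeAlgebra.ι B i)
      (FreeAlgebra.ι B (i+1) * FreeAlgebra.ι B i * FreeAlgebra.ι B (i+1))

/-- the Hecke algebra -/
def Hk (z : B) : Type u := RingQuot (HRel z)

noncomputable instance (z : B) : Ring (Hk z) := inferInstanceAs (Ring (RingQuot (HRel z)))
noncomputable instance (z : B) : Algebra B (Hk z) := inferInstanceAs (Algebra B (RingQuot (HRel z)))

variable {z : B}

/-- quotient map -/
noncomputable def hmk (z : B) : FreeAlgebra B ℕ →ₐ[B] Hk z := RingQuot.mkAlgHom B (HRel z)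

lemma hmk_rel {x y : FreeAlgebra B ℕ} (h : HRel z x y) : hmk z x = hmk z y :=
  RingQuot.mkAlgHom_rel B h

/-- generators -/
noncomputable def gs (z : B) (i : ℕ) : Hk z := hmk z (FreeAlgebra.ι B i)

lemma gs_quad (i : ℕ) : gs z i * gs z i = 1 + z • gs z i := by
  have := hmk_rel (HRel.quad (z := z) i)
  rwa [map_mul, map_add, map_one, map_smul] at this

lemma gs_far (i j : ℕ) (h : i + 2 ≤ j) : gs z i * gs z j = gs z j * gs z i := by
  have := hmk_rel (HRel.far (z := z) i j h)
  rwa [map_mul, map_mul] at this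

lemma gs_br (i : ℕ) : gs z i * gs z (i+1) * gs z i = gs z (i+1) * gs z i * gs z (i+1) := by
  have := hmk_rel (HRel.br (z := z) i)
  simpa only [map_mul, gs] using this

lemma gs_isBr : IsBr (gs z) := ⟨gs_far, gs_br⟩

/-- inverse generators -/
noncomputable def gi (z : B) (i : ℕ) : Hk z := gs z i - z • 1

lemma gs_gi (i : ℕ) : gs z i * gi z i = 1 := by
  simp [gi, mul_sub, gs_quad]
lemma gi_gs (i : ℕ) : gi z i * gs z i = 1 := by
  simp [gi, sub_mul, gs_quad]
lemma gs_eq (i : ℕ) : gs z i = gi z i + z • 1 := by simp [gi]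
lemma gi_gs_far (i j : ℕ) (h : i + 2 ≤ j) : gi z i * gs z j = gs z j * gi z i := by
  simp only [gi, sub_mul, mul_sub, gs_far i j h, smul_mul_assoc, mul_smul_comm, one_mul, mul_one]
lemma gs_gi_far (i j : ℕ) (h : i + 2 ≤ j) : gs z i * gi z j = gi z j * gs z i := by
  simp only [gi, sub_mul, mul_sub, gs_far i j h, smul_mul_assoc, mul_smul_comm, one_mul, mul_one]

lemma gi_far (i j : ℕ) (h : i + 2 ≤ j) : gi z i * gi z j = gi z j * gi z i := by
  conv_lhs => rw [gi, sub_mul, gs_gi_far i j h, smul_mul_assoc, one_mul]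
  conv_rhs => rw [gi.eq_1 z i, mul_sub, mul_smul_comm, mul_one]

lemma inv_unique {R : Type*} [Monoid R] {x y y' : R} (h : y * x = 1) (h' : x * y' = 1) : y = y' := by
  calc y = y * (x * y') := by rw [h', mul_one]
    _ = y' := by rw [← mul_assoc, h, one_mul]

lemma gi_br (i : ℕ) : gi z i * gi z (i+1) * gi z i = gi z (i+1) * gi z i * gi z (i+1) := by
  have h1 : (gi z i * gi z (i+1) * gi z i) * (gs z i * gs z (i+1) * gs z i) = 1 := by
    calc _ = gi z i * gi z (i+1) * (gi z i * gs z i) * gs z (i+1) * gs z i := by noncomm_ring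
      _ = gi z i * (gi z (i+1) * gs z (i+1)) * gs z i := by rw [gi_gs]; noncomm_ring
      _ = 1 := by rw [gi_gs, mul_one, gi_gs]
  have h2 : (gs z i * gs z (i+1) * gs z i) * (gi z (i+1) * gi z i * gi z (i+1)) = 1 := by
    rw [gs_br]
    calc _ = gs z (i+1) * gs z i * (gs z (i+1) * gi z (i+1)) * gi z i * gi z (i+1) := by
          noncomm_ring
      _ = gs z (i+1) * (gs z i * gi z i) * gi z (i+1) := by rw [gs_gi]; noncomm_ring
      _ = 1 := by rw [gs_gi, mul_one, gs_gi]
  exact inv_unique h1 h2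

lemma gi_isBr : IsBr (gi z) := ⟨gi_far, gi_br⟩

/-- `gi gi' gs = gs' gi gi'` type relation -/
lemma gi_gi_gs (i : ℕ) : gi z i * gi z (i+1) * gs z i = gs z (i+1) * gi z i * gi z (i+1) := by
  rw [gs_eq, mul_add, gi_br, gs_eq (i+1), add_mul, add_mul]
  simp

lemma gi_gi_gs' (i : ℕ) : gi z (i+1) * gi z i * gs z (i+1) = gs z i * gi z (i+1) * gi z i := by
  rw [gs_eq, mul_add, ← gi_br, gs_eq i, add_mul, add_mul]
  simp

/-- universal property -/
noncomputable def hlift {C : Type*} [Ring C] [Algebra B C] (t : ℕ → C)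
    (hq : ∀ i, t i * t i = 1 + z • t i) (hf : ∀ i j, i + 2 ≤ j → t i * t j = t j * t i)
    (hb : ∀ i, t i * t (i+1) * t i = t (i+1) * t i * t (i+1)) : Hk z →ₐ[B] C :=
  RingQuot.liftAlgHom B ⟨FreeAlgebra.lift B t, by
    intro x y h
    induction h with
    | quad i => simp [hq]
    | far i j h => simp [hf i j h]
    | br i => simp [hb]⟩

lemma hlift_gs {C : Type*} [Ring C] [Algebra B C] (t : ℕ → C)
    (hq : ∀ i, t i * t i = 1 + z • t i) (hf : ∀ i j, i + 2 ≤ j → t i * t j = t j * t i)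
    (hb : ∀ i, t i * t (i+1) * t i = t (i+1) * t i * t (i+1)) (i : ℕ) :
    hlift t hq hf hb (gs z i) = t i := by
  unfold hlift gs hmk
  erw [RingQuot.liftAlgHom_mkAlgHom_apply]
  simp

lemma adjoin_gs : Algebra.adjoin B (Set.range (gs z)) = ⊤ := by
  rw [eq_top_iff]
  intro x _
  obtain ⟨y, rfl⟩ : ∃ y, hmk z y = x := RingQuot.mkAlgHom_surjective B (HRel z) x
  induction y using FreeAlgebra.induction with
  | grade0 r => rw [AlgHom.commutes]; exact Subalgebra.algebraMap_mem _ r
  | grade1 i => exact Algebra.subset_adjoin ⟨i, rfl⟩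
  | mul a b ha hb => rw [map_mul]; exact mul_mem (ha trivial) (hb trivial)
  | add a b ha hb => rw [map_add]; exact add_mem (ha trivial) (hb trivial)

lemma hk_induction {P : Hk z → Prop} (hs : ∀ i, P (gs z i)) (hc : ∀ r : B, P (algebraMap B _ r))
    (ha : ∀ x y, P x → P y → P (x + y)) (hm : ∀ x y, P x → P y → P (x * y)) (x : Hk z) : P x := by
  have hx : x ∈ Algebra.adjoin B (Set.range (gs z)) := by rw [adjoin_gs]; trivial
  induction hx using Algebra.adjoin_induction with
  | mem x hx => obtain ⟨i, rfl⟩ := hx; exact hs i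
  | algebraMap r => exact hc r
  | add x y _ _ hx hy => exact ha x y hx hy
  | mul x y _ _ hx hy => exact hm x y hx hy

/-- shift -/
noncomputable def sn (n : ℕ) : Hk z →ₐ[B] Hk z :=
  hlift (fun i => gs z (n + i)) (fun i => gs_quad _) (fun i j h => gs_far _ _ (by omega))
    (fun i => gs_br _)

@[simp] lemma sn_gs (n i : ℕ) : sn n (gs z i) = gs z (n + i) := hlift_gs _ _ _ _ _
@[simp] lemma sn_gi (n i : ℕ) : sn n (gi z i) = gi z (n + i) := by simp [gi]

lemma sn_sn (m n : ℕ) (x : Hk z) : sn m (sn n x) = sn (m + n) x := by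
  induction x using hk_induction with
  | hs i => simp [add_assoc]
  | hc r => simp
  | ha x y hx hy => simp [hx, hy]
  | hm x y hx hy => simp [hx, hy]

@[simp] lemma sn_zero (x : Hk z) : sn 0 x = x := by
  induction x using hk_induction with
  | hs i => simp
  | hc r => simp
  | ha x y hx hy => simp [hx, hy]
  | hm x y hx hy => simp [hx, hy]

/-- the subalgebra on the first `n` strands -/
noncomputable def Hn (z : B) (n : ℕ) : Subalgebra B (Hk z) :=
  Algebra.adjoin B {x | ∃ i, i + 1 < n ∧ x = gs z i}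

lemma gs_mem {n i : ℕ} (h : i + 1 < n) : gs z i ∈ Hn z n := Algebra.subset_adjoin ⟨i, h, rfl⟩
lemma gi_mem {n i : ℕ} (h : i + 1 < n) : gi z i ∈ Hn z n :=
  sub_mem (gs_mem h) (Subalgebra.smul_mem _ (one_mem _) _)
lemma Hn_mono {m n : ℕ} (h : m ≤ n) : Hn z m ≤ Hn z n :=
  Algebra.adjoin_mono (fun _ ⟨i, hi, e⟩ => ⟨i, by omega, e⟩)

lemma Hn_induction {n : ℕ} {P : (x : Hk z) → x ∈ Hn z n → Prop}
    (hs : ∀ i (hi : i + 1 < n), P (gs z i) (gs_mem hi))
    (hc : ∀ r : B, P (algebraMap B _ r) (Subalgebra.algebraMap_mem _ r))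
    (ha : ∀ x y hx hy, P x hx → P y hy → P (x + y) (add_mem hx hy))
    (hm : ∀ x y hx hy, P x hx → P y hy → P (x * y) (mul_mem hx hy)) {x : Hk z}
    (hx : x ∈ Hn z n) : P x hx := by
  induction hx using Algebra.adjoin_induction with
  | mem x hx => obtain ⟨i, hi, rfl⟩ := hx; exact hs i hi
  | algebraMap r => exact hc r
  | add x y hx' hy' hx hy => exact ha x y hx' hy' hx hy
  | mul x y hx' hy' hx hy => exact hm x y hx' hy' hx hy

lemma sn_mem {m n : ℕ} {x : Hk z} (hx : x ∈ Hn z n) : sn m x ∈ Hn z (m + n) := by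
  induction hx using Hn_induction with
  | hs i hi => rw [sn_gs]; exact gs_mem (by omega)
  | hc r => rw [AlgHom.commutes]; exact Subalgebra.algebraMap_mem _ _
  | ha x y _ _ hx hy => rw [map_add]; exact add_mem hx hy
  | hm x y _ _ hx hy => rw [map_mul]; exact mul_mem hx hy

/-- far commutation of blocks -/
lemma comm_far {m n : ℕ} (h : n ≤ m) {x : Hk z} (hx : x ∈ Hn z n) (y : Hk z) :
    x * sn m y = sn m y * x := by
  induction hx using Hn_induction with
  | hs i hi =>
    induction y using hk_induction with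
    | hs j => rw [sn_gs]; exact gs_far _ _ (by omega)
    | hc r => rw [AlgHom.commutes]; exact (Algebra.commutes r _).symm
    | ha x y hx hy => rw [map_add, mul_add, add_mul, hx, hy]
    | hm x y hx hy => rw [map_mul, ← mul_assoc, hx, mul_assoc, hy, mul_assoc]
  | hc r => exact Algebra.commutes r _
  | ha x y _ _ hx hy => rw [mul_add, add_mul, hx, hy]
  | hm x y _ _ hx hy => rw [mul_assoc, hy, ← mul_assoc, hx, mul_assoc]

/-- intertwining criterion on generators -/
lemma it_Hn {n : ℕ} {X : Hk z} (f g : Hk z →ₐ[B] Hk z)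
    (h : ∀ i, i + 1 < n → X * f (gs z i) = g (gs z i) * X) {x : Hk z} (hx : x ∈ Hn z n) :
    X * f x = g x * X := by
  induction hx using Hn_induction with
  | hs i hi => exact h i hi
  | hc r => rw [AlgHom.commutes, AlgHom.commutes]; exact (Algebra.commutes r _).symm
  | ha x y _ _ hx hy => rw [map_add, map_add, mul_add, add_mul, hx, hy]
  | hm x y _ _ hx hy => rw [map_mul, map_mul, ← mul_assoc, hx, mul_assoc, hy, mul_assoc]

end Pool.Agent.W5h66
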