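import Pool.Agent.W5h66.Cr

/-! Properties of the connection coefficients. -/

namespace Pool.Agent.W5h66

universe u v
variable {B : Type u} [CommRing B] {z : B}

lemma KK_big (r : ℕ) : ∀ k, r < k → KK z k r = 0 := by
  induction r with
  | zero =>
    intro k hk
    obtain ⟨j, rfl⟩ : ∃ j, k = j + 1 := ⟨k - 1, by omega⟩
    rw [KK_succ_zero]
  | succ r ih =>
    intro k hk
    obtain ⟨j, rfl⟩ : ∃ j, k = j + 1 := ⟨k - 1, by omega⟩
    rw [KK_succ, ih (j+1) (by omega), ih j (by omega)]
    simp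

lemma KK_diag (r : ℕ) : KK z r r = z^r • No z r 0 r 1 := by
  induction r with
  | zero => simp
  | succ r ih =>
    rw [KK_succ, KK_big r (r+1) (by omega), ih]
    simp only [map_zero, zero_mul, zero_add, map_smul, mul_smul_comm, smul_mul_assoc, smul_smul]
    rw [sn_No, map_one, add_zero, ← pow_succ']
    congr 1
    rw [No_left (a' := r+1+1) _ _ (fun i hi => by
      rw [show 2 + r + i = r+1+1+i by omega]
      exact gs_comm_Hn (n := r+2) (by omega) (dD_mem (by omega)))]
    rw [No_right (b' := 1) _ _ (fun i hi => by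
      have := congrArg (sn 1) (arn_mul (gs_mem (z := z) (by omega : i + 1 < r)))
      simpa only [map_mul, sn_gs, sn_sn, show 1 + (1 + i) = 2 + i by omega] using this.symm)]
    have e1 : dD z 1 r * 1 * sn 1 (arn z r) = 1 := by
      have := congrArg (sn 1) (dD_arn (z := z) r)
      rwa [map_mul, sn_dD, map_one, add_zero, ← mul_one (dD z 1 r)] at this
    rw [e1, add_comm r 1]
    have := No_add (z := z) (1+r) 0 1 r 1
    rw [this, No_one, show 1 + r + 1 = 1 + (r+1) by omega, zero_add]

/-- the block term -/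
noncomputable def TT (z : B) (r k l : ℕ) : Hk z := So z r 0 k l (KK z k r * sn k (Cm z l r))

lemma expand' (k r : ℕ) : Cp z k r = ∑ i ∈ Finset.range k, TT z r i (k-i) + KK z k r := by
  rw [expand, Finset.sum_range_succ, Nat.sub_self]
  simp [TT]

lemma Cm_TT (k r : ℕ) : TT z r 0 k = Cm z k r := by simp [TT]

lemma expand'' (k r : ℕ) : Cp z (k+1) r
    = Cm z (k+1) r + ∑ i ∈ Finset.range k, TT z r (i+1) (k+1-(i+1)) + KK z (k+1) r := by
  rw [expand', Finset.sum_range_succ', Nat.sub_zero, Cm_TT]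
  abel

lemma pre_right {k l r : ℕ} (h : ∀ y ∈ Hn z r, y * KK z k r = KK z k r * sn k y) {y : Hk z}
    (hy : y ∈ Hn z r) : y * (KK z k r * sn k (Cm z l r)) = (KK z k r * sn k (Cm z l r)) * sn (k+l) y := by
  have h2 := congrArg (sn k) (Cm_right l hy)
  rw [map_mul, map_mul, sn_sn] at h2
  rw [← mul_assoc, h y hy, mul_assoc, mul_assoc, h2]

lemma TT_right {k l r : ℕ} (h : ∀ y ∈ Hn z r, y * KK z k r = KK z k r * sn k y) {y : Hk z}
    (hy : y ∈ Hn z r) : y * TT z r k l = TT z r k l * sn (k+l) y := by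
  rw [TT, ← So_pull_left y _ (fun i hi => gs_comm_Hn (n := r) (by omega) hy), pre_right h hy,
    So_pull_right]
  intro i hi
  rw [zero_add]
  exact comm_far (n := k+l) le_rfl (gs_mem (by omega)) _

lemma KK_right (r : ℕ) : ∀ k, ∀ y ∈ Hn z r, y * KK z k r = KK z k r * sn k y := by
  intro k
  induction k using Nat.strong_induction_on with
  | _ k ih =>
    intro y hy
    have e : KK z k r = Cp z k r - ∑ i ∈ Finset.range k, TT z r i (k-i) := by
      rw [expand' k r]; abel
    rw [e, mul_sub, sub_mul, Finset.mul_sum, Finset.sum_mul, Cp_right k hy]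
    congr 1
    refine Finset.sum_congr rfl (fun i hi => ?_)
    have hi' : i < k := by simpa using hi
    have := TT_right (l := k - i) (ih i hi') hy
    rwa [show i + (k - i) = k by omega] at this

lemma TT_norm {k l r : ℕ} (hk : Sep z k) (hl : Sep z l)
    (hL : ∀ i, i + 1 < k → gs z (r+i) * KK z k r = KK z k r * gs z i) :
    ∃ w ∈ Hn z (k+l+r), (∀ y ∈ Hn z r, y * w = w * sn (k+l) y) ∧ TT z r k l = No z r 0 (k+l) w := by
  obtain ⟨g, hg, e⟩ := hk
  obtain ⟨g', hg', e'⟩ := hl
  refine ⟨KK z k r * sn k (Cm z l r) * sn 0 g * sn (0+k) g', ?_, ?_, ?_⟩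
  · simp only [sn_zero, zero_add]
    refine mul_mem (mul_mem (mul_mem (Hn_mono (by omega) (KK_mem k r)) ?_) (Hn_mono (by omega) hg)) ?_
    · exact Hn_mono (by omega) (sn_mem (m := k) (Cm_mem l r))
    · exact Hn_mono (by omega) (sn_mem (m := k) hg')
  · intro y hy
    simp only [sn_zero, zero_add]
    rw [← mul_assoc, ← mul_assoc, pre_right (KK_right r k) hy]
    have c : g * sn k g' * sn (k+l) y = sn (k+l) y * (g * sn k g') :=
      comm_far (n := k+l) le_rfl (mul_mem (Hn_mono (by omega) hg) (sn_mem hg')) y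
    calc KK z k r * sn k (Cm z l r) * sn (k+l) y * g * sn k g'
        = KK z k r * sn k (Cm z l r) * (sn (k+l) y * (g * sn k g')) := by noncomm_ring
      _ = _ := by rw [← c]; noncomm_ring
  · rw [TT, So_norm _ _ hg e e']
    · intro i hi
      have c : gs z i * sn k (Cm z l r) = sn k (Cm z l r) * gs z i :=
        comm_far (n := k) le_rfl (gs_mem hi) _
      rw [zero_add, ← mul_assoc, hL i hi, mul_assoc, mul_assoc, c]
    · intro i hi
      have c : KK z k r * gs z (r+k+i) = gs z (r+k+i) * KK z k r :=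
        gs_comm_Hn (n := k+r) (by omega) (KK_mem k r)
      have c2 := congrArg (sn k) (Cm_left r (gs_mem (z := z) hi))
      simp only [map_mul, sn_gs] at c2
      rw [show k + (r + i) = r + k + i by omega] at c2
      rw [zero_add, ← mul_assoc, ← c, mul_assoc, ← c2, mul_assoc]

lemma KK_left (r : ℕ) : ∀ k, (∀ j, 0 < j → j < k → Sep z j) →
    ∀ i, i + 1 < k → gs z (r+i) * KK z k r = KK z k r * gs z i := by
  intro k
  induction k using Nat.strong_induction_on with
  | _ k ih =>
    intro hs i hi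
    obtain ⟨k, rfl⟩ : ∃ j, k = j + 1 := ⟨k - 1, by omega⟩
    have e : KK z (k+1) r = Cp z (k+1) r - Cm z (k+1) r - ∑ i ∈ Finset.range k, TT z r (i+1) (k+1-(i+1)) := by
      rw [expand'' k r]; abel
    have h1 := Cp_left r (gs_mem (z := z) hi)
    have h2 := Cm_left r (gs_mem (z := z) hi)
    rw [sn_gs] at h1 h2
    rw [e, mul_sub, sub_mul, mul_sub, sub_mul, Finset.mul_sum, Finset.sum_mul, h1, h2]
    congr 1
    refine Finset.sum_congr rfl (fun j hj => ?_)
    have hj' : j < k := by simpa using hj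
    obtain ⟨w, _, _, hw⟩ := TT_norm (r := r) (hs (j+1) (by omega) (by omega)) (hs (k+1-(j+1)) (by omega) (by omega))
      (ih (j+1) (by omega) (fun a b c => hs a b (by omega)))
    rw [hw, show j + 1 + (k + 1 - (j+1)) = k + 1 by omega]
    have := No_gs (z := z) (a := r) (b := 0) hi w
    rwa [zero_add] at this

/-- the difference of the two crossings of `p`-cables is a norm -/
theorem Cp_sub_Cm {p : ℕ} (hs : ∀ j, 0 < j → j < p + 1 → Sep z j) :
    ∃ w ∈ Hn z (p+1+(p+1)), (∀ y ∈ Hn z (p+1), y * w = w * sn (p+1) y) ∧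
      Cp z (p+1) (p+1) = Cm z (p+1) (p+1) + No z (p+1) 0 (p+1) w
        + z^(p+1) • No z (p+1) 0 (p+1) 1 := by
  rw [expand'', KK_diag]
  have key : ∀ i ∈ Finset.range p, ∃ w ∈ Hn z (p+1+(p+1)), (∀ y ∈ Hn z (p+1), y * w = w * sn (p+1) y) ∧
      TT z (p+1) (i+1) (p+1-(i+1)) = No z (p+1) 0 (p+1) w := by
    intro i hi
    have hi' : i < p := by simpa using hi
    have := TT_norm (r := p+1) (hs (i+1) (by omega) (by omega)) (hs (p+1-(i+1)) (by omega) (by omega))
      (KK_left _ _ (fun a b c => hs a b (by omega)))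
    rwa [show i + 1 + (p + 1 - (i+1)) = p + 1 by omega] at this
  choose! w hw using key
  refine ⟨∑ i ∈ Finset.range p, w i, sum_mem (fun i hi => (hw i hi).1), ?_, ?_⟩
  · intro y hy
    rw [Finset.mul_sum, Finset.sum_mul]
    exact Finset.sum_congr rfl (fun i hi => (hw i hi).2.1 y hy)
  · rw [map_sum]
    congr 2
    exact Finset.sum_congr rfl (fun i hi => (hw i hi).2.2)

end Pool.Agent.W5h66
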