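import Pool.Agent.W5h66.Ev

/-! Local relations for `p`-cables modulo the square of the quantum integer. -/

namespace Pool.Agent.W5h66

universe u v
variable {B : Type u} [CommRing B] {z : B}
variable {M : Type v} [AddCommGroup M] [Module B M]

lemma Gm_cen {p : ℕ} (ar : Arith z p) {j : ℕ} (h : j + 1 ≤ p) :
    (∀ x ∈ Hn z (j+1), x * Gm z j = Gm z j * x) ∧ Da z (j+1) = (-z)^j • Gm z j :=
  Gm_central_aux ar.hz j (fun k h0 h1 => sep_all ar k h0 (by omega))

lemma GF_of {p : ℕ} (ar : Arith z p) {j : ℕ} (h : j + 1 < p) : GF z j where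
  sep := sep_all ar (j+1) (by omega) h
  cen := (Gm_cen ar h.le).1
  suc := Gm_succ (fun _ hi => (Gm_cen ar h.le).1 _ (gs_mem hi))
  lcen x hx := by
    have := JJ_comm hx
    rw [JJ_eq, add_mul, mul_add, one_mul, mul_one, smul_mul_assoc, mul_smul_comm] at this
    exact (ar.hz.smul_left_cancel.1 (add_left_cancel this)).symm

lemma Wf_comm (m n : ℕ) (F : Hk z → Hk z → Hk z → Hk z → M) :
    Wf z m (fun a b => Wf z n (fun x y => F a b x y)) = Wf z n (fun x y => Wf z m (fun a b => F a b x y)) := by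
  have : ∀ L L' : List (List ℕ), (L.map (fun w => (L'.map (fun w' =>
      F (wv (gs z) w) (wv (gs z) w.reverse) (wv (gs z) w') (wv (gs z) w'.reverse))).sum)).sum
      = (L'.map (fun w' => (L.map (fun w =>
      F (wv (gs z) w) (wv (gs z) w.reverse) (wv (gs z) w') (wv (gs z) w'.reverse))).sum)).sum := by
    intro L L'
    induction L with
    | nil => simp
    | cons c L ih => simp only [List.map_cons, List.sum_cons, ih, List.sum_map_add]
  exact this _ _

/-- trace on the first block -/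
def Tb (z : B) (p : ℕ) (f : Hk z →ₗ[B] M) : Prop :=
  ∀ u ∈ Hn z p, ∀ y ∈ Hn z p, f (u * y) = f (y * u)

/-- the adjunction of norms under a trace -/
lemma norm_adj {p : ℕ} {f : Hk z →ₗ[B] M} (hf : Tb z p f) {x c : Hk z} (hx : x ∈ Hn z p)
    (hc : c ∈ Hn z p) : f (x * No z 0 0 p c) = f (No z 0 0 p x * c) := by
  have h1 := Wf_map (z := z) (f ∘ₗ LinearMap.mulLeft B x).toAddMonoidHom p (fun a b => sn 0 a * c * sn 0 b)
  have h2 := Wf_map (z := z) (f ∘ₗ LinearMap.mulRight B c).toAddMonoidHom p (fun a b => sn 0 a * x * sn 0 b)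
  rw [← No_Wf] at h1 h2
  simp only [sn_zero, LinearMap.toAddMonoidHom_coe, LinearMap.comp_apply, LinearMap.mulLeft_apply,
    LinearMap.mulRight_apply] at h1 h2
  rw [h1, h2]
  let β : Hk z →ₗ[B] Hk z →ₗ[B] M := LinearMap.mk₂ B (fun a b => f (b * x * a * c))
    (by intros; simp [mul_add, add_mul]) (by intros; simp) (by intros; simp [add_mul])
    (by intros; simp)
  have hβ := Wf_flip p β
  simp only [β, LinearMap.mk₂_apply] at hβ
  rw [← hβ]
  refine Wf_congr (fun a ha b hb => ?_)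
  rw [← mul_assoc, ← mul_assoc, ← hf b hb (x * a * c) (mul_mem (mul_mem hx ha) hc)]
  simp only [mul_assoc]

section main
variable {p : ℕ} (ar : Arith z (p+1)) (hb0 : ∀ m : M, bt z (p+1) • m = 0)
include hb0

lemma kill {f : Hk z →ₗ[B] M} (hf : Tb z (p+1) f) {c : Hk z} (hc : c ∈ Hn z (p+1)) :
    f (xx z (p+1) * No z 0 0 (p+1) c) = 0 := by
  rw [norm_adj hf (xx_mem _) hc, norm_xx, smul_mul_assoc, map_smul, hb0]

lemma kill' {f : Hk z →ₗ[B] M} (hf : Tb z (p+1) f) {c : Hk z} (hc : c ∈ Nm z (p+1)) :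
    f (xx z (p+1) * c) = 0 := by
  obtain ⟨d, hd, rfl⟩ := mem_Nm.1 hc
  exact kill hb0 hf hd

include ar

/-- full twist relation -/
lemma twist {f : Hk z →ₗ[B] M} (hf : Tb z (p+1) f) :
    f (xx z (p+1) * FT z (p+1)) = (-1 : B)^p • f (xx z (p+1)) := by
  have h := kill' hb0 hf (Aa_Nm p (fun k h0 h1 => sep_all ar k h0 h1))
  rw [mul_add, mul_one, map_add, mul_smul_comm, map_smul] at h
  have h2 := eq_neg_of_add_eq_zero_left h
  rw [h2, smul_neg, smul_smul, ← neg_smul]
  have : -((-1 : B)^p * (-1)^(p+1)) = 1 := by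
    rw [pow_succ, ← mul_assoc, ← pow_add, ← two_mul, pow_mul]; simp
  rw [this, one_smul]

/-- inverse full twist relation -/
lemma twist_inv {f : Hk z →ₗ[B] M} (hf : Tb z (p+1) f) {T : Hk z} (hT : T ∈ Hn z (p+1))
    (h1 : FT z (p+1) * T = 1) : f (xx z (p+1) * T) = (-1 : B)^p • f (xx z (p+1)) := by
  have hcen : ∀ i, i + 1 < p + 1 → gs z i * T = T * gs z i := by
    have h2 : T * FT z (p+1) = 1 := by
      have : T * FT z (p+1) = FT z (p+1) * T := by
        have hh : ∀ x ∈ Hn z (p+1), x * FT z (p+1) = FT z (p+1) * x := by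
          intro x hx
          have := it_Hn (X := FT z (p+1)) (f := sn 0) (g := sn 0) (x := x) (fun i hi => by
            simp only [sn_zero]; exact (FT_gs _ i hi).symm) hx
          simp only [sn_zero] at this
          exact this.symm
        exact hh T hT
      rw [this, h1]
    intro i hi
    calc gs z i * T = T * FT z (p+1) * gs z i * T := by rw [h2, one_mul]
      _ = T * gs z i * (FT z (p+1) * T) := by rw [mul_assoc T, ← FT_gs _ i hi]; noncomm_ring
      _ = T * gs z i := by rw [h1, mul_one]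
  obtain ⟨c, hc, e⟩ := mem_Nm.1 (Aa_Nm p (fun k h0 h1 => sep_all ar k h0 h1))
  have h3 : No z 0 0 (p+1) (c * T) = T + (-1 : B)^(p+1) • 1 := by
    rw [No_pull_right _ _ (fun i hi => by rw [zero_add]; exact hcen i hi), e, add_mul, one_mul,
      smul_mul_assoc, h1]
  have h := kill hb0 hf (mul_mem hc hT)
  rw [h3, mul_add, map_add, mul_smul_comm, mul_one, map_smul] at h
  rw [eq_neg_of_add_eq_zero_left h, ← neg_smul]
  congr 1
  rw [pow_succ]; ring

/-- the twisted relation -/
theorem twisted {φ : Hk z →ₗ[B] M}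
    (t2 : ∀ u ∈ Hn z (p+1), ∀ y ∈ Hn z (p+1+(p+1)), φ (sn (p+1) u * y) = φ (y * u)) :
    φ (xx z (p+1) * sn (p+1) (xx z (p+1)) * Cp z (p+1) (p+1))
      = φ (xx z (p+1) * sn (p+1) (xx z (p+1)) * Cm z (p+1) (p+1)) := by
  obtain ⟨w, hw, _, e⟩ := Cp_sub_Cm (z := z) (p := p) (fun j h0 h1 => sep_all ar j h0 h1)
  have hX : xx z (p+1) ∈ Hn z (p+1) := xx_mem _
  have hX2 : xx z (p+1) ∈ Hn z (p+1+(p+1)) := Hn_mono (by omega) hX
  have key : ∀ V ∈ Hn z (p+1+(p+1)), φ (xx z (p+1) * sn (p+1) (xx z (p+1)) * No z (p+1) 0 (p+1) V) = 0 := by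
    intro V hV
    have h1 := Wf_map (z := z) (φ ∘ₗ LinearMap.mulLeft B (xx z (p+1) * sn (p+1) (xx z (p+1)))).toAddMonoidHom
      (p+1) (fun a b => sn (p+1) a * V * sn 0 b)
    rw [← No_Wf] at h1
    simp only [sn_zero, LinearMap.toAddMonoidHom_coe, LinearMap.comp_apply, LinearMap.mulLeft_apply] at h1
    rw [h1]
    let β : Hk z →ₗ[B] Hk z →ₗ[B] M := LinearMap.mk₂ B
      (fun a b => φ (xx z (p+1) * sn (p+1) (b * xx z (p+1) * a) * V))
      (by intros; simp [mul_add, add_mul]) (by intros; simp) (by intros; simp [mul_add, add_mul])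
      (by intros; simp)
    have hβ := Wf_flip (p+1) β
    simp only [β, LinearMap.mk₂_apply] at hβ
    have h2 : Wf z (p+1) (fun a b => φ (xx z (p+1) * sn (p+1) (xx z (p+1)) * (sn (p+1) a * V * b)))
        = Wf z (p+1) (fun a b => φ (xx z (p+1) * sn (p+1) (b * xx z (p+1) * a) * V)) := by
      refine Wf_congr (fun a ha b hb => ?_)
      have := t2 b hb (xx z (p+1) * sn (p+1) (xx z (p+1)) * (sn (p+1) a * V))
        (mul_mem (mul_mem hX2 (sn_mem hX)) (mul_mem (sn_mem ha) hV))
      rw [← mul_assoc, ← this]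
      congr 1
      have c := comm_far le_rfl hX b
      rw [map_mul, map_mul, ← mul_assoc, ← mul_assoc, ← mul_assoc, ← mul_assoc, ← c]
      noncomm_ring
    rw [h2, hβ]
    have h3 := Wf_map (z := z) (φ ∘ₗ LinearMap.mulRight B V ∘ₗ LinearMap.mulLeft B (xx z (p+1))
      ∘ₗ (sn (p+1)).toLinearMap).toAddMonoidHom (p+1) (fun a b => sn 0 a * xx z (p+1) * sn 0 b)
    rw [← No_Wf, norm_xx] at h3
    simp only [sn_zero, LinearMap.toAddMonoidHom_coe, LinearMap.comp_apply, LinearMap.mulLeft_apply,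
      LinearMap.mulRight_apply, AlgHom.toLinearMap_apply, map_smul, mul_smul_comm, smul_mul_assoc,
      hb0] at h3
    exact h3.symm
  rw [e, mul_add, mul_add, map_add, map_add, mul_smul_comm, map_smul, key w hw, key 1 (one_mem _)]
  simp

/-- the untwisted relation -/
theorem untwisted (hp : IsUnit ((p+1 : ℕ) : B)) {φ : Hk z →ₗ[B] M}
    (u1 : ∀ u ∈ Hn z (p+1), ∀ y ∈ Hn z (p+1+(p+1)), φ (u * y) = φ (y * u))
    (u2 : ∀ u ∈ Hn z (p+1), ∀ y ∈ Hn z (p+1+(p+1)), φ (sn (p+1) u * y) = φ (y * sn (p+1) u)) :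
    φ (xx z (p+1) * Cp z (p+1) (p+1)) = φ (xx z (p+1) * Cm z (p+1) (p+1))
      + ((-1 : B)^p * z) • φ (xx z (p+1) * sn (p+1) (xx z (p+1))) := by
  obtain ⟨w, hw, hwR, e⟩ := Cp_sub_Cm (z := z) (p := p) (fun j h0 h1 => sep_all ar j h0 h1)
  have hX : xx z (p+1) ∈ Hn z (p+1) := xx_mem _
  have hX2 : xx z (p+1) ∈ Hn z (p+1+(p+1)) := Hn_mono (by omega) hX
  -- first part
  have k1 : φ (xx z (p+1) * No z (p+1) 0 (p+1) w) = 0 := by
    have h1 := Wf_map (z := z) (φ ∘ₗ LinearMap.mulLeft B (xx z (p+1))).toAddMonoidHom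
      (p+1) (fun a b => sn (p+1) a * w * sn 0 b)
    rw [← No_Wf] at h1
    simp only [sn_zero, LinearMap.toAddMonoidHom_coe, LinearMap.comp_apply, LinearMap.mulLeft_apply] at h1
    rw [h1]
    let β : Hk z →ₗ[B] Hk z →ₗ[B] M := LinearMap.mk₂ B
      (fun a b => φ (b * xx z (p+1) * a * w))
      (by intros; simp [mul_add, add_mul]) (by intros; simp) (by intros; simp [add_mul])
      (by intros; simp)
    have hβ := Wf_flip (p+1) β
    simp only [β, LinearMap.mk₂_apply] at hβ
    have h2 : Wf z (p+1) (fun a b => φ (xx z (p+1) * (sn (p+1) a * w * b)))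
        = Wf z (p+1) (fun a b => φ (b * xx z (p+1) * a * w)) := by
      refine Wf_congr (fun a ha b hb => ?_)
      have hb2 : b ∈ Hn z (p+1+(p+1)) := Hn_mono (by omega) hb
      rw [← mul_assoc, ← u1 b hb (xx z (p+1) * (sn (p+1) a * w)) (mul_mem hX2 (mul_mem (sn_mem ha) hw))]
      have c := comm_far le_rfl (mul_mem hb hX) a
      have e1 : b * (xx z (p+1) * (sn (p+1) a * w)) = sn (p+1) a * (b * xx z (p+1) * w) := by
        rw [← mul_assoc, ← mul_assoc, c]; noncomm_ring
      rw [e1, u2 a ha _ (mul_mem (mul_mem hb2 hX2) hw), mul_assoc (b * xx z (p+1)), ← hwR a ha]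
      congr 1
      noncomm_ring
    rw [h2, hβ]
    have h3 := Wf_map (z := z) (φ ∘ₗ LinearMap.mulRight B w).toAddMonoidHom (p+1)
      (fun a b => sn 0 a * xx z (p+1) * sn 0 b)
    rw [← No_Wf, norm_xx] at h3
    simp only [sn_zero, LinearMap.toAddMonoidHom_coe, LinearMap.comp_apply,
      LinearMap.mulRight_apply, map_smul, smul_mul_assoc, hb0] at h3
    exact h3.symm
  -- traces on the first block
  have hTb : ∀ y ∈ Hn z (p+1), Tb z (p+1) (φ ∘ₗ LinearMap.mulLeft B (sn (p+1) y)) := by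
    intro y hy u hu v hv
    simp only [LinearMap.comp_apply, LinearMap.mulLeft_apply]
    have hv2 : v ∈ Hn z (p+1+(p+1)) := Hn_mono (by omega) hv
    rw [← mul_assoc, ← comm_far le_rfl hu y, mul_assoc, u1 u hu _ (mul_mem (sn_mem hy) hv2), mul_assoc]
  -- Casimir term
  let β : Hk z →ₗ[B] Hk z →ₗ[B] M := LinearMap.mk₂ B
    (fun a b => φ (sn (p+1) a * (xx z (p+1) * b)))
    (by intros; simp [add_mul]) (by intros; simp) (by intros; simp [mul_add])
    (by intros; simp)
  have hβa : ∀ a b, β a b = φ (sn (p+1) a * (xx z (p+1) * b)) := fun a b => rfl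
  have hTR : TR z (p+1) (p+1) β := by
    intro u hu y hy b hb
    have hb2 : b ∈ Hn z (p+1+(p+1)) := Hn_mono (by omega) hb
    rw [hβa, hβa, map_mul (sn (p+1)), map_mul (sn (p+1)), mul_assoc,
      u2 u hu _ (mul_mem (sn_mem hy) (mul_mem hX2 hb2))]
    congr 1
    rw [mul_assoc, comm_far le_rfl (mul_mem hX hb) u, mul_assoc]
  have hE := EU (p+1) (N := p+1) le_rfl hTR (fun j hj => GF_of ar hj)
  rw [Finset.sum_range_succ] at hE
  have hz0 : ∀ m ∈ Finset.range p, Wf z (p+1-1-m) (fun a b => tX (p+1-1-m) m β a b) = 0 := by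
    intro m hm
    have hm' : m < p := by simpa using hm
    obtain ⟨k, rfl⟩ : ∃ k, p = k + m := ⟨p - m, by omega⟩
    rw [show k + m + 1 - 1 - m = k by omega]
    obtain ⟨g, hg, eg⟩ := sep_all ar k (by omega) (by omega)
    obtain ⟨v, hv, ev⟩ := (GF_of ar (j := m) (by omega)).lift
    -- replace b by a norm
    have r1 : Wf z k (fun a b => tX k m β a b) = Wf z k (fun a b => tX k m β a (No z 0 0 k (b * g))) := by
      have s1 : Wf z k (fun a b => tX k m β a b)
          = Wf z k (fun a b => Wf z k (fun x y => tX k m β a (b * x * (g * y)))) := by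
        refine Wf_congr (fun a ha b hb => ?_)
        have := Wf_map (z := z) ((tX k m β a) ∘ₗ LinearMap.mulLeft B b).toAddMonoidHom k
          (fun x y => sn 0 x * g * sn 0 y)
        rw [← No_Wf, eg] at this
        simp only [sn_zero, LinearMap.toAddMonoidHom_coe, LinearMap.comp_apply,
          LinearMap.mulLeft_apply, mul_one] at this
        rw [this]
        simp only [mul_assoc]
      have s2 : Wf z k (fun a b => tX k m β a (No z 0 0 k (b * g)))
          = Wf z k (fun a b => Wf z k (fun x y => tX k m β a (x * b * (g * y)))) := by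
        refine Wf_congr (fun a ha b hb => ?_)
        have := Wf_map (z := z) (tX k m β a).toAddMonoidHom k (fun x y => sn 0 x * (b * g) * sn 0 y)
        rw [← No_Wf] at this
        simp only [sn_zero, LinearMap.toAddMonoidHom_coe] at this
        rw [this]
        simp only [mul_assoc]
      rw [s1, s2, Wf_comm, Wf_comm k k (fun a b x y => tX k m β a (x * b * (g * y)))]
      refine Wf_congr (fun x hx y hy => ?_)
      have w1 := Wf_left hx ((tX k m β).compl₁₂ LinearMap.id (LinearMap.mulRight B (g * y)))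
      have w2 := Wf_right hx ((tX k m β).compl₁₂ LinearMap.id (LinearMap.mulRight B (g * y)))
      simp only [LinearMap.compl₁₂_apply, LinearMap.mulRight_apply, LinearMap.id_apply] at w1 w2
      rw [← w1, ← w2]
      refine Wf_congr (fun a ha b hb => ?_)
      have hTRX : TR z k (k+m+1) (tX k m β) := by
        intro u hu y hy b hb
        rw [tX_apply, tX_apply]
        have hb2 : So z 0 0 k (m+1) (b * sn k (Gm z m)) ∈ Hn z (k+m+1) :=
          So_mem (by omega) (mul_mem hb (Hn_mono (by omega) (sn_mem (Gm_mem m))))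
        have := hTR u (Hn_mono (by omega) hu) (y * sn k (xx z (m+1)))
          (mul_mem hy (Hn_mono (by omega) (sn_mem (xx_mem (m+1))))) _ hb2
        have c := comm_far (m := k) le_rfl hu (xx z (m+1))
        rw [mul_assoc u, this, mul_assoc y, ← c, ← mul_assoc y]
      exact hTRX x hx a (Hn_mono (by omega) ha) _ (mul_mem (Hn_mono (by omega) hb)
        (mul_mem (Hn_mono (by omega) hg) (Hn_mono (by omega) hy)))
    rw [r1, ← Wf_zero (z := z) (M := M) k]
    refine Wf_congr (fun a ha b hb => ?_)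
    have hbg : b * g ∈ Hn z k := mul_mem hb hg
    rw [tX_apply, ← ev, ← No_prod (m+1) v hbg, hβa]
    have hya : a * sn k (xx z (m+1)) ∈ Hn z (k+m+1) :=
      mul_mem (Hn_mono (by omega) ha) (Hn_mono (by omega) (sn_mem (xx_mem (m+1))))
    exact kill hb0 (hTb _ hya) (mul_mem (Hn_mono (by omega) hbg) (Hn_mono (by omega) (sn_mem hv)))
  rw [Finset.sum_eq_zero hz0, zero_add, show p + 1 - 1 - p = 0 by omega, Wf_nil, tX_apply] at hE
  simp only [sn_zero, one_mul, So_zero_left, hβa] at hE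
  -- Gm in terms of norms
  have hD := (Gm_cen ar (j := p) le_rfl).2
  have hD2 := Da_Nm p (fun k h0 h1 => sep_all ar k h0 h1)
  have hE2 : ((-z)^p) • φ (sn (p+1) (xx z (p+1)) * (xx z (p+1) * Gm z p))
      = ((p+1 : ℕ) : B) • φ (sn (p+1) (xx z (p+1)) * xx z (p+1)) := by
    have := kill' hb0 (hTb _ hX) hD2
    simp only [LinearMap.comp_apply, LinearMap.mulLeft_apply] at this
    rw [hD, mul_sub, mul_sub, map_sub, mul_smul_comm, mul_smul_comm, map_smul, mul_smul_comm,
      mul_smul_comm, map_smul, mul_one] at this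
    exact sub_eq_zero.1 this
  rw [← hE, smul_comm] at hE2
  have hE3 := hp.smul_left_cancel.1 hE2
  -- conclude
  have k2 : φ (xx z (p+1) * No z (p+1) 0 (p+1) 1) = Wf z (p+1) (fun a b => β a b) := by
    have h1 := Wf_map (z := z) (φ ∘ₗ LinearMap.mulLeft B (xx z (p+1))).toAddMonoidHom
      (p+1) (fun a b => sn (p+1) a * 1 * sn 0 b)
    rw [← No_Wf] at h1
    simp only [sn_zero, LinearMap.toAddMonoidHom_coe, LinearMap.comp_apply, LinearMap.mulLeft_apply] at h1
    rw [h1]
    refine Wf_congr (fun a ha b hb => ?_)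
    rw [hβa, mul_one, ← mul_assoc, comm_far le_rfl hX a, mul_assoc]
  rw [e, mul_add, mul_add, map_add, map_add, mul_smul_comm, map_smul, k1, add_zero, k2]
  simp only [hβa]
  congr 1
  rw [comm_far le_rfl hX (xx z (p+1)), ← hE3, smul_smul]
  congr 1
  rw [neg_pow, pow_succ]
  have : (-1 : B)^p * (-1)^p = 1 := by rw [← mul_pow]; simp
  calc z^p * z = 1 * (z^p * z) := by ring
    _ = ((-1 : B)^p * (-1)^p) * (z^p * z) := by rw [this]
    _ = _ := by ring

end main

end Pool.Agent.W5h66
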