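import Pool.Agent.W5h66.Loc

/-! Power sums and complete functions: Newton's identities under block traces. -/

namespace Pool.Agent.W5h66

universe u v
variable {K : Type u} [Field K] {q : K}
variable {M : Type v} [AddCommGroup M] [Module K M]

/-- the trivial character -/
noncomputable def chq (q : K) (hq : q ≠ 0) : Hk (q - q⁻¹) →ₐ[K] K :=
  hlift (fun _ => q) (fun _ => by rw [smul_eq_mul, sub_mul, inv_mul_cancel₀ hq]; ring) (fun _ _ _ => rfl)
    (fun _ => rfl)

variable (hq : q ≠ 0)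

lemma chq_gs (i : ℕ) : chq q hq (gs _ i) = q := hlift_gs _ _ _ _ _

lemma chq_wv (l : List ℕ) : chq q hq (wv (gs _) l) = q ^ l.length := by
  induction l with
  | nil => simp
  | cons i l ih => rw [wv_cons, map_mul, ih, chq_gs, List.length_cons, pow_succ']

lemma chq_sn (m : ℕ) (x : Hk (q - q⁻¹)) : chq q hq (sn m x) = chq q hq x := by
  induction x using hk_induction with
  | hs i => rw [sn_gs, chq_gs, chq_gs]
  | hc r => rw [AlgHom.commutes]
  | ha x y hx hy => rw [map_add, map_add, map_add, hx, hy]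
  | hm x y hx hy => rw [map_mul, map_mul, map_mul, hx, hy]

/-- generating function of shuffles -/
def cS (q : K) (k l : ℕ) : K := ((shw k l).map (fun w => q ^ (2 * w.length))).sum
/-- generating function of permutations -/
def cN (q : K) (n : ℕ) : K := ((nnw n).map (fun w => q ^ (2 * w.length))).sum

lemma So_words' {z : K} (a b k l : ℕ) (V : Hk z) :
    So z a b k l V = ((shw k l).map (fun w => sn a (wv (gs z) w) * V * sn b (wv (gs z) w.reverse))).sum := by
  rw [So, SS, ev_apply]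
  simp only [wv_tw]

lemma chq_list (a b : ℕ) (L : List (List ℕ)) (V : Hk (q - q⁻¹)) :
    chq q hq (L.map (fun w => sn a (wv (gs _) w) * V * sn b (wv (gs _) w.reverse))).sum
      = (L.map (fun w => q ^ (2 * w.length))).sum * chq q hq V := by
  induction L with
  | nil => simp
  | cons w L ih =>
    rw [List.map_cons, List.sum_cons, map_add, ih, List.map_cons, List.sum_cons, map_mul, map_mul,
      chq_sn, chq_sn, chq_wv, chq_wv, List.length_reverse]
    ring

lemma chq_So (a b k l : ℕ) (V : Hk (q - q⁻¹)) :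
    chq q hq (So _ a b k l V) = cS q k l * chq q hq V := by
  rw [So_words', chq_list]; rfl

lemma chq_No (a b n : ℕ) (V : Hk (q - q⁻¹)) :
    chq q hq (No _ a b n V) = cN q n * chq q hq V := by
  rw [No_words, chq_list]; rfl

include hq in
lemma cN_add (k l : ℕ) : cN q (k+l) = cS q k l * cN q k * cN q l := by
  have h := congrArg (chq q hq) (No_add' (z := q - q⁻¹) k l 1)
  rw [chq_No, chq_So, chq_No, chq_No, map_one] at h
  linear_combination h

lemma cN_zero : cN q 0 = 1 := by simp [cN, nnw]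
lemma cN_one : cN q 1 = 1 := by simp [cN, nnw, shw_zero_left]
lemma cS_zero_left (l : ℕ) : cS q 0 l = 1 := by simp [cS, shw_zero_left]

include hq in
lemma cN_succ (n : ℕ) : cN q (n+1) = cS q n 1 * cN q n := by
  rw [cN_add hq, cN_one, mul_one]

lemma cS_one (n : ℕ) : cS q n 1 = ∑ j ∈ Finset.range (n+1), q ^ (2*j) := by
  induction n with
  | zero => simp [cS_zero_left]
  | succ n ih =>
    have e : shw (n+1) 1 = [[]] ++ (shw n 1).map (· ++ [n]) := rfl
    have h : cS q (n+1) 1 = 1 + cS q n 1 * q^2 := by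
      rw [cS, e, List.map_append, List.sum_append, List.map_map]
      congr 1
      · simp
      · rw [cS, ← List.sum_map_mul_right]
        congr 1
        apply List.map_congr_left
        intro w _
        simp only [Function.comp_apply, List.length_append, List.length_singleton]
        ring
    rw [h, ih, Finset.sum_range_succ' _ (n+1), Finset.sum_mul, add_comm]
    simp only [mul_zero, pow_zero]
    congr 1
    refine Finset.sum_congr rfl (fun j _ => ?_)
    ring

lemma cS_one_mul (n : ℕ) : cS q n 1 * (q^2 - 1) = q^(2*(n+1)) - 1 := by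
  rw [cS_one]
  have : ∀ j, q^(2*j) = (q^2)^j := fun j => pow_mul q 2 j
  simp only [this]
  rw [geom_sum_mul]

/-- quantum integers -/
noncomputable def qn (q : K) (k : ℕ) : K := (q^k - (q^k)⁻¹) / (q - q⁻¹)

include hq in
lemma cS_qn (hz : q - q⁻¹ ≠ 0) (n : ℕ) : cS q n 1 = q^n * qn q (n+1) := by
  have h2 : q^2 - 1 ≠ 0 := by
    intro h
    apply hz
    have : q * (q - q⁻¹) = q^2 - 1 := by rw [mul_sub, mul_inv_cancel₀ hq]; ring
    rw [h] at this
    exact (mul_eq_zero.1 this).resolve_left hq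
  apply mul_right_cancel₀ h2
  rw [cS_one_mul, qn]
  have e : q^2 - 1 = q * (q - q⁻¹) := by rw [mul_sub, mul_inv_cancel₀ hq]; ring
  rw [e]
  have e2 : q^n * ((q^(n+1) - (q^(n+1))⁻¹) / (q - q⁻¹)) * (q * (q - q⁻¹))
      = q^(n+1) * (q^(n+1) - (q^(n+1))⁻¹) * ((q - q⁻¹) * (q - q⁻¹)⁻¹) := by ring
  rw [e2, mul_inv_cancel₀ hz, mul_one, mul_sub, mul_inv_cancel₀ (pow_ne_zero _ hq), ← pow_add]
  congr 2
  ring

/-- unnormalised symmetrizer -/
noncomputable def SY (q : K) (n : ℕ) : Hk (q - q⁻¹) :=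
  ((nnw n).map (fun w => q ^ w.length • wv (gs (q - q⁻¹)) w)).sum

lemma SY_mem (n : ℕ) : SY q n ∈ Hn (q - q⁻¹) n := by
  unfold SY
  apply list_sum_mem
  intro x hx
  obtain ⟨w, hw, rfl⟩ := List.mem_map.1 hx
  exact Subalgebra.smul_mem _ (wv_mem (nnw_lt n w hw)) _

lemma SY_zero : SY q 0 = 1 := by simp [SY, nnw]

lemma Wf_chi (n : ℕ) (g : Hk (q - q⁻¹) →ₗ[K] M) :
    Wf (q - q⁻¹) n (fun a b => chq q hq b • g a) = g (SY q n) := by
  unfold Wf SY
  rw [map_list_sum, List.map_map]
  congr 1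
  apply List.map_congr_left
  intro w _
  simp only [Function.comp_apply, map_smul]
  rw [chq_wv, List.length_reverse]

/-- normalised symmetrizer -/
noncomputable def hH (q : K) (n : ℕ) : Hk (q - q⁻¹) := (cN q n)⁻¹ • SY q n

lemma hH_mem (n : ℕ) : hH q n ∈ Hn (q - q⁻¹) n := Subalgebra.smul_mem _ (SY_mem n) _
lemma hH_zero : hH q 0 = 1 := by rw [hH, cN_zero, SY_zero, inv_one, one_smul]

include hq in
theorem newton_sym (hz : q - q⁻¹ ≠ 0) (hS : ∀ m, cS q m 1 ≠ 0) {n : ℕ} {f : Hk (q - q⁻¹) →ₗ[K] M}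
    (hf : Tb (q - q⁻¹) n f) (hG : ∀ j, j + 1 < n → GF (q - q⁻¹) j) :
    (n : K) • f (hH q n) = ∑ m ∈ Finset.range n,
      (qn q (m+1))⁻¹ • f (hH q (n-1-m) * sn (n-1-m) (xx (q - q⁻¹) (m+1))) := by
  have hN : ∀ n, cN q n ≠ 0 := by
    intro n
    induction n with
    | zero => rw [cN_zero]; exact one_ne_zero
    | succ n ih => rw [cN_succ hq]; exact mul_ne_zero (hS n) ih
  let β : Hk (q - q⁻¹) →ₗ[K] Hk (q - q⁻¹) →ₗ[K] M := LinearMap.mk₂ K (fun a b => chq q hq b • f a)
    (by intros; rw [map_add, smul_add]) (by intros; rw [map_smul, smul_comm])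
    (by intros; rw [map_add, add_smul]) (by intros; rw [map_smul, smul_eq_mul, mul_smul])
  have hβ : ∀ a b, β a b = chq q hq b • f a := fun a b => rfl
  have hT : TR (q - q⁻¹) n n β := by
    intro u hu y hy b _
    rw [hβ, hβ, hf u hu y hy]
  have h := EU n le_rfl hT hG
  have e1 : Wf (q - q⁻¹) n (fun a b => β a b) = f (SY q n) := Wf_chi hq n f
  rw [e1] at h
  have e2 : ∀ m ∈ Finset.range n, Wf (q - q⁻¹) (n-1-m) (fun a b => tX (n-1-m) m β a b)
      = (cS q (n-1-m) (m+1) * (cN q m * q^m)) • f (SY q (n-1-m) * sn (n-1-m) (xx (q - q⁻¹) (m+1))) := by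
    intro m _
    set k := n - 1 - m
    have e3 := Wf_chi hq k ((cS q k (m+1) * (cN q m * q^m)) • (f ∘ₗ LinearMap.mulRight K (sn k (xx (q - q⁻¹) (m+1)))))
    rw [LinearMap.smul_apply, LinearMap.comp_apply, LinearMap.mulRight_apply] at e3
    rw [← e3]
    refine Wf_congr (fun a _ b _ => ?_)
    rw [tX_apply, hβ, chq_So, map_mul, chq_sn, Gm, chq_No]
    have e4 : chq q hq (dS (q - q⁻¹) 0 m) = q^m := by
      have : ∀ m, chq q hq (dS (q - q⁻¹) 0 m) = q^m := by
        intro m
        induction m with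
        | zero => simp
        | succ m ih => rw [dS_succ, map_mul, ih, chq_gs, pow_succ]
      exact this m
    rw [e4, LinearMap.smul_apply, LinearMap.comp_apply, LinearMap.mulRight_apply, smul_smul]
    congr 1
    ring
  rw [Finset.sum_congr rfl e2] at h
  have h3 := congrArg (fun x => (cN q n)⁻¹ • x) h
  simp only [Finset.smul_sum] at h3
  rw [hH, map_smul, smul_comm, h3]
  refine Finset.sum_congr rfl (fun m hm => ?_)
  have hm' : m < n := by simpa using hm
  obtain ⟨k, rfl⟩ : ∃ k, n = k + (m+1) := ⟨n - 1 - m, by omega⟩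
  rw [show k + (m+1) - 1 - m = k by omega, hH, smul_mul_assoc, map_smul, smul_smul, smul_smul]
  congr 1
  rw [cN_add hq, cN_succ hq m, cS_qn hq hz]
  have h1 : cS q k (m+1) ≠ 0 := by
    intro h0
    have := cN_add hq k (m+1)
    rw [h0, zero_mul, zero_mul] at this
    exact hN _ this
  have h2 := hN k
  have h3 := hN m
  have h4 : q^m ≠ 0 := pow_ne_zero _ hq
  have h5 : qn q (m+1) ≠ 0 := by
    intro h0
    have := cS_qn hq hz m
    rw [h0, mul_zero] at this
    exact hS m this
  field_simp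

/-- swapping two blocks under a block trace -/
lemma swap_tb {z : K} {m r : ℕ} {f : Hk z →ₗ[K] M} (hf : Tb z (m+r) f) {v v' : Hk z} (hv : v ∈ Hn z m)
    (hv' : v' ∈ Hn z r) : f (v * sn m v') = f (v' * sn r v) := by
  have e : Cp z m r * (v * sn m v') = (v' * sn r v) * Cp z m r := by
    rw [← mul_assoc, Cp_left r hv, mul_assoc, Cp_right m hv', ← mul_assoc,
      ← comm_far le_rfl hv' v]
  have hm : v * sn m v' ∈ Hn z (m+r) := mul_mem (Hn_mono (by omega) hv) (sn_mem hv')
  have h := hf (Cm z r m) (by rw [add_comm]; exact Cm_mem r m) (Cp z m r * (v * sn m v'))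
    (mul_mem (Cp_mem m r) hm)
  rw [← mul_assoc, Cm_Cp, one_mul] at h
  rw [h, e, mul_assoc, Cp_Cm, mul_one]

/-- any solution of Newton's recursion is the power sum under every block trace -/
theorem power_sum (hq : q ≠ 0) (hz : q - q⁻¹ ≠ 0) (hS : ∀ m, cS q m 1 ≠ 0) (hG : ∀ j, GF (q - q⁻¹) j)
    {p : ℕ → Hk (q - q⁻¹)} (hp0 : p 0 = 0)
    (hp : ∀ m, p (m+1) = ((m+1 : ℕ) : K) • hH q (m+1)
      - ∑ r ∈ Finset.range (m+1), p r * sn r (hH q (m+1-r))) :
    ∀ m, 0 < m → ∀ {f : Hk (q - q⁻¹) →ₗ[K] M}, Tb (q - q⁻¹) m f →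
      f (p m) = (qn q m)⁻¹ • f (xx (q - q⁻¹) m) := by
  intro m
  induction m using Nat.strong_induction_on with
  | _ m IH =>
  intro hm f hf
  obtain ⟨n, rfl⟩ : ∃ n, m = n + 1 := ⟨m - 1, by omega⟩
  have h1 := newton_sym hq hz hS hf (fun j _ => hG j)
  rw [hp, map_sub, map_smul, h1, Finset.sum_range_succ, map_sum, Finset.sum_range_succ' _ n]
  rw [hp0, zero_mul, map_zero, add_zero]
  have e1 : ∀ j ∈ Finset.range n, f (p (j+1) * sn (j+1) (hH q (n+1-(j+1))))
      = (qn q (j+1))⁻¹ • f (hH q (n+1-1-j) * sn (n+1-1-j) (xx (q - q⁻¹) (j+1))) := by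
    intro j hj
    have hj' : j < n := by simpa using hj
    obtain ⟨k, rfl⟩ : ∃ k, n = k + 1 + j := ⟨n - 1 - j, by omega⟩
    rw [show k + 1 + j + 1 - (j+1) = k + 1 by omega, show k + 1 + j + 1 - 1 - j = k + 1 by omega]
    have hH' := hH_mem (q := q) (k+1)
    have ht : Tb (q - q⁻¹) (j+1) (f ∘ₗ LinearMap.mulRight K (sn (j+1) (hH q (k+1)))) := by
      intro u hu y hy
      simp only [LinearMap.comp_apply, LinearMap.mulRight_apply]
      have hc := comm_far (m := j+1) le_rfl hu (hH q (k+1))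
      have hm2 : sn (j+1) (hH q (k+1)) ∈ Hn (q - q⁻¹) (k+1+j+1) := by
        have := sn_mem (m := j+1) hH'
        rwa [show j + 1 + (k+1) = k+1+j+1 by omega] at this
      rw [mul_assoc u, hf u (Hn_mono (by omega) hu) (y * sn (j+1) (hH q (k+1)))
        (mul_mem (Hn_mono (by omega) hy) hm2), mul_assoc, ← hc, mul_assoc]
    have h2 := IH (j+1) (by omega) (by omega) ht
    simp only [LinearMap.comp_apply, LinearMap.mulRight_apply] at h2
    rw [h2]
    congr 1
    have hf' : Tb (q - q⁻¹) (j+1+(k+1)) f := by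
      rwa [show j + 1 + (k+1) = k+1+j+1 by omega]
    exact swap_tb hf' (xx_mem (j+1)) hH'
  rw [Finset.sum_congr rfl e1, add_sub_cancel_left]
  rw [show n + 1 - 1 - n = 0 by omega, hH_zero, one_mul, sn_zero]

end Pool.Agent.W5h66
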