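import Pool.Agent.W5h66.Hk

/-! Operators on the Hecke algebra given by shuffle sums and norm sums. -/

namespace Pool.Agent.W5h66

universe u
variable {B : Type u} [CommRing B] {z : B}

section asc
variable {A : Type*} [Ring A]
/-- ascending product -/
def AS (τ : ℕ → A) (k : ℕ) : ℕ → A
  | 0 => 1
  | l+1 => AS τ k l * τ (k+l)

@[simp] lemma AS_zero (τ : ℕ → A) (k : ℕ) : AS τ k 0 = 1 := rfl
lemma AS_succ (τ : ℕ → A) (k l : ℕ) : AS τ k (l+1) = AS τ k l * τ (k+l) := rfl
@[simp] lemma AS_one (τ : ℕ → A) (k : ℕ) : AS τ k 1 = τ k := by simp [AS_succ]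
lemma AS_add (τ : ℕ → A) (k l m : ℕ) : AS τ k (l+m) = AS τ k l * AS τ (k+l) m := by
  induction m with
  | zero => simp
  | succ m ih => rw [← add_assoc, AS_succ, ih, AS_succ, mul_assoc, add_assoc]
lemma AS_succ' (τ : ℕ → A) (k l : ℕ) : AS τ k (l+1) = τ k * AS τ (k+1) l := by
  rw [add_comm l 1, AS_add, AS_one]
lemma wv_dw_rev (τ : ℕ → A) (k l : ℕ) : wv τ (dw k l).reverse = AS τ k l := by
  induction l with
  | zero => simp [dw]
  | succ l ih => simp only [dw, List.reverse_cons, wv_append, ih, AS_succ]; simp [wv]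
lemma it_A {τ τ' : ℕ → A} {X : A} (k l : ℕ) (h : ∀ i, k ≤ i → i < k + l → X * τ' i = τ i * X) :
    X * AS τ' k l = AS τ k l * X := by
  induction l with
  | zero => simp
  | succ l ih =>
    rw [AS_succ, AS_succ, ← mul_assoc, ih (fun i h1 h2 => h i h1 (by omega)), mul_assoc,
      h (k+l) (by omega) (by omega), mul_assoc]
lemma IsBr.AS_shift {τ : ℕ → A} (h : IsBr τ) (k l i : ℕ) (h1 : k ≤ i) (h2 : i + 1 < k + l) :
    AS τ k l * τ i = τ (i+1) * AS τ k l := by
  induction l with
  | zero => omega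
  | succ l ih =>
    by_cases h3 : i + 1 < k + l
    · rw [AS_succ, mul_assoc, ← h.far i (k+l) (by omega), ← mul_assoc, ih h3, mul_assoc]
    · obtain ⟨l', rfl⟩ : ∃ l', l = l' + 1 := ⟨l - 1, by omega⟩
      have e : i = k + l' := by omega
      subst e
      have hc : τ (k+l'+1) * AS τ k l' = AS τ k l' * τ (k+l'+1) :=
        it_A k l' (fun j h4 h5 => (h.far j _ (by omega)).symm)
      rw [AS_succ, AS_succ, show k + (l'+1) = k + l' + 1 by omega]
      calc AS τ k l' * τ (k+l') * τ (k+l'+1) * τ (k+l')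
          = AS τ k l' * (τ (k+l') * τ (k+l'+1) * τ (k+l')) := by noncomm_ring
        _ = AS τ k l' * τ (k+l'+1) * τ (k+l') * τ (k+l'+1) := by rw [h.br]; noncomm_ring
        _ = _ := by rw [← hc]; noncomm_ring
end asc

/-- descending product of generators -/
noncomputable def dD (z : B) (k l : ℕ) : Hk z := DD (gs z) k l
/-- ascending product of generators -/
noncomputable def dS (z : B) (k l : ℕ) : Hk z := AS (gs z) k l

lemma sn_wv (m : ℕ) (w : List ℕ) : sn m (wv (gs z) w) = wv (gs z) (w.map (m + ·)) := by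
  induction w with
  | nil => simp
  | cons a w ih => simp [wv_cons, ih]
lemma sn_dD (m k l : ℕ) : sn m (dD z k l) = dD z (m+k) l := by
  induction l with
  | zero => simp [dD]
  | succ l ih => rw [dD, DD_succ, map_mul, sn_gs]; erw [ih]; rw [dD, dD, DD_succ, add_assoc]
lemma sn_dS (m k l : ℕ) : sn m (dS z k l) = dS z (m+k) l := by
  induction l with
  | zero => simp [dS]
  | succ l ih => rw [dS, AS_succ, map_mul, sn_gs]; erw [ih]; rw [dS, dS, AS_succ, add_assoc]
lemma dD_mem {k l n : ℕ} (h : k + l < n) : dD z k l ∈ Hn z n := by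
  induction l with
  | zero => simp [dD, one_mem]
  | succ l ih => rw [dD, DD_succ]; exact mul_mem (gs_mem (by omega)) (ih (by omega))
lemma dS_mem {k l n : ℕ} (h : k + l < n) : dS z k l ∈ Hn z n := by
  induction l with
  | zero => simp [dS, one_mem]
  | succ l ih => rw [dS, AS_succ]; exact mul_mem (ih (by omega)) (gs_mem (by omega))
lemma dD_succ (k l : ℕ) : dD z k (l+1) = gs z (k+l) * dD z k l := DD_succ _ _ _
lemma dS_succ (k l : ℕ) : dS z k (l+1) = dS z k l * gs z (k+l) := AS_succ _ _ _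
lemma dD_succ' (k l : ℕ) : dD z k (l+1) = dD z (k+1) l * gs z k := DD_succ' _ _ _
lemma dS_succ' (k l : ℕ) : dS z k (l+1) = gs z k * dS z (k+1) l := AS_succ' _ _ _
@[simp] lemma dD_zero (k : ℕ) : dD z k 0 = 1 := by simp [dD]
@[simp] lemma dS_zero (k : ℕ) : dS z k 0 = 1 := by simp [dS]
@[simp] lemma dD_one (k : ℕ) : dD z k 1 = gs z k := by simp [dD]
@[simp] lemma dS_one (k : ℕ) : dS z k 1 = gs z k := by simp [dS]
lemma dD_add (k l m : ℕ) : dD z k (l+m) = dD z (k+l) m * dD z k l := DD_add _ _ _ _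
lemma dS_add (k l m : ℕ) : dS z k (l+m) = dS z k l * dS z (k+l) m := AS_add _ _ _ _

/-- `D(k,l)` moves strand `k` over the next `l` strands -/
lemma dD_mul_sn {k l : ℕ} {x : Hk z} (hx : x ∈ Hn z l) :
    dD z k l * sn (k+1) x = sn k x * dD z k l := by
  refine it_Hn (sn (k+1)) (sn k) (fun i hi => ?_) hx
  rw [sn_gs, sn_gs, show k + 1 + i = k + i + 1 by omega]
  exact gs_isBr.DD_shift k l (k+i) (by omega) (by omega)
lemma dS_mul_sn {k l : ℕ} {x : Hk z} (hx : x ∈ Hn z l) :
    dS z k l * sn k x = sn (k+1) x * dS z k l := by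
  refine it_Hn (sn k) (sn (k+1)) (fun i hi => ?_) hx
  rw [sn_gs, sn_gs, show k + 1 + i = k + i + 1 by omega]
  exact gs_isBr.AS_shift k l (k+i) (by omega) (by omega)

/-- the operator `V ↦ s_{a+i} V s_{b+i}` -/
noncomputable def tw (z : B) (a b i : ℕ) : Module.End B (Hk z) :=
  LinearMap.mulLeft B (gs z (a+i)) ∘ₗ LinearMap.mulRight B (gs z (b+i))

@[simp] lemma tw_apply (a b i : ℕ) (V : Hk z) : tw z a b i V = gs z (a+i) * V * gs z (b+i) := by
  simp [tw, mul_assoc]

lemma tw_isBr (a b : ℕ) : IsBr (tw z a b) where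
  far i j h := by
    ext V
    simp only [Module.End.mul_apply, tw_apply]
    calc gs z (a+i) * (gs z (a+j) * V * gs z (b+j)) * gs z (b+i)
        = (gs z (a+i) * gs z (a+j)) * V * (gs z (b+j) * gs z (b+i)) := by noncomm_ring
      _ = _ := by
          rw [gs_far (a+i) (a+j) (by omega), ← gs_far (b+i) (b+j) (by omega)]; noncomm_ring
  br i := by
    ext V
    simp only [Module.End.mul_apply, tw_apply]
    calc gs z (a+i) * (gs z (a+(i+1)) * (gs z (a+i) * V * gs z (b+i)) * gs z (b+(i+1))) * gs z (b+i)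
        = (gs z (a+i) * gs z (a+i+1) * gs z (a+i)) * V *
          (gs z (b+i) * gs z (b+i+1) * gs z (b+i)) := by
            rw [show a+(i+1) = a+i+1 by omega, show b+(i+1) = b+i+1 by omega]; noncomm_ring
      _ = _ := by
          rw [gs_br, gs_br, show a+(i+1) = a+i+1 by omega, show b+(i+1) = b+i+1 by omega]
          noncomm_ring

lemma shf_tw (a b k : ℕ) : shf k (tw z a b) = tw z (a+k) (b+k) := by
  funext i
  ext V
  simp only [shf, tw_apply, add_assoc]

/-- word expansion -/
lemma wv_tw (a b : ℕ) (w : List ℕ) (V : Hk z) :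
    wv (tw z a b) w V = sn a (wv (gs z) w) * V * sn b (wv (gs z) w.reverse) := by
  induction w with
  | nil => simp
  | cons i w ih =>
    rw [wv_cons, Module.End.mul_apply, ih, tw_apply, wv_cons, List.reverse_cons, wv_append, map_mul,
      map_mul, sn_gs]
    have : sn b (wv (gs z) [i]) = gs z (b+i) := by simp [wv]
    rw [this]
    noncomm_ring

/-- shuffle operator -/
noncomputable def So (z : B) (a b k l : ℕ) : Module.End B (Hk z) := SS (tw z a b) k l
/-- norm operator -/
noncomputable def No (z : B) (a b n : ℕ) : Module.End B (Hk z) := NN (tw z a b) n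
/-- mirrored step operator -/
noncomputable def Ro (z : B) (a b n : ℕ) : Module.End B (Hk z) := RR (tw z a b) n

lemma ev_apply (τ : ℕ → Module.End B (Hk z)) (L : List (List ℕ)) (V : Hk z) :
    ev τ L V = (L.map (fun w => wv τ w V)).sum := by
  induction L with
  | nil => simp
  | cons w L ih => rw [ev_cons, LinearMap.add_apply, ih]; simp

lemma No_words (a b n : ℕ) (V : Hk z) :
    No z a b n V = ((nnw n).map (fun w => sn a (wv (gs z) w) * V * sn b (wv (gs z) w.reverse))).sum := by
  rw [No, NN, ev_apply]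
  simp only [wv_tw]

lemma DD_tw (a b k l : ℕ) (V : Hk z) :
    DD (tw z a b) k l V = dD z (a+k) l * V * dS z (b+k) l := by
  rw [DD, wv_tw, wv_dw_rev]
  have h1 : sn a (wv (gs z) (dw k l)) = dD z (a+k) l := sn_dD a k l
  have h2 : sn b (AS (gs z) k l) = dS z (b+k) l := sn_dS b k l
  rw [h1, h2]

@[simp] lemma So_zero_left (a b l : ℕ) (V : Hk z) : So z a b 0 l V = V := by simp [So]
@[simp] lemma So_zero_right (a b k : ℕ) (V : Hk z) : So z a b k 0 V = V := by simp [So]
lemma So_succ (a b k l : ℕ) (V : Hk z) :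
    So z a b (k+1) (l+1) V = So z a b (k+1) l V
      + So z a b k (l+1) (dD z (a+k) (l+1) * V * dS z (b+k) (l+1)) := by
  rw [So, SS_succ, LinearMap.add_apply, Module.End.mul_apply, DD_tw]; rfl
lemma So_one_succ (a b n : ℕ) (V : Hk z) :
    So z a b (n+1) 1 V = V + So z a b n 1 (gs z (a+n) * V * gs z (b+n)) := by
  rw [So_succ]; simp
@[simp] lemma No_zero (a b : ℕ) (V : Hk z) : No z a b 0 V = V := by simp [No]
@[simp] lemma No_one (a b : ℕ) (V : Hk z) : No z a b 1 V = V := by simp [No]
lemma No_succ (a b n : ℕ) (V : Hk z) : No z a b (n+1) V = So z a b n 1 (No z a b n V) := by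
  rw [No, NN_succ]; rfl
lemma No_succ' (a b n : ℕ) (V : Hk z) : No z a b (n+1) V = No z a b n (Ro z a b n V) := by
  rw [No, (tw_isBr a b).N_succ']; rfl
@[simp] lemma Ro_zero (a b : ℕ) (V : Hk z) : Ro z a b 0 V = V := by simp [Ro, RR]
lemma Ro_succ (a b n : ℕ) (V : Hk z) :
    Ro z a b (n+1) V = V + gs z (a+n) * Ro z a b n V * gs z (b+n) := by
  rw [Ro, RR, LinearMap.add_apply, Module.End.mul_apply, tw_apply]; rfl
lemma So_assoc (a b k l m : ℕ) (V : Hk z) :
    So z a b (k+l) m (So z a b k l V) = So z a b k (l+m) (So z (a+k) (b+k) l m V) := by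
  have := congrArg (fun f => f V) ((tw_isBr (z := z) a b).assoc k l m)
  simp only [Module.End.mul_apply, shf_tw] at this
  exact this
lemma No_add (a b k l : ℕ) (V : Hk z) :
    No z a b (k+l) V = So z a b k l (No z a b k (No z (a+k) (b+k) l V)) := by
  have := congrArg (fun f => f V) ((tw_isBr (z := z) a b).N_add k l)
  simp only [Module.End.mul_apply, shf_tw] at this
  exact this

lemma So_it {a b a' b' k l : ℕ} {X : Module.End B (Hk z)}
    (h : ∀ i, i + 1 < k + l → ∀ V, X (gs z (a+i) * V * gs z (b+i)) = gs z (a'+i) * X V * gs z (b'+i))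
    (V : Hk z) : X (So z a b k l V) = So z a' b' k l (X V) := by
  have := it_S (τ := tw z a' b') (τ' := tw z a b) (X := X) k l (fun i hi => by
    ext V; simp only [Module.End.mul_apply, tw_apply]; exact h i hi V)
  exact congrArg (fun f => f V) this
lemma No_it {a b a' b' n : ℕ} {X : Module.End B (Hk z)}
    (h : ∀ i, i + 1 < n → ∀ V, X (gs z (a+i) * V * gs z (b+i)) = gs z (a'+i) * X V * gs z (b'+i))
    (V : Hk z) : X (No z a b n V) = No z a' b' n (X V) := by
  have := it_N (τ := tw z a' b') (τ' := tw z a b) (X := X) n (fun i hi => by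
    ext V; simp only [Module.End.mul_apply, tw_apply]; exact h i hi V)
  exact congrArg (fun f => f V) this
lemma Ro_it {a b a' b' n : ℕ} {X : Module.End B (Hk z)}
    (h : ∀ i, i < n → ∀ V, X (gs z (a+i) * V * gs z (b+i)) = gs z (a'+i) * X V * gs z (b'+i))
    (V : Hk z) : X (Ro z a b n V) = Ro z a' b' n (X V) := by
  have := it_R (τ := tw z a' b') (τ' := tw z a b) (X := X) n (fun i hi => by
    ext V; simp only [Module.End.mul_apply, tw_apply]; exact h i hi V)
  exact congrArg (fun f => f V) this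

lemma So_left {a a' b k l : ℕ} (g V : Hk z) (h : ∀ i, i + 1 < k + l → g * gs z (a+i) = gs z (a'+i) * g) :
    g * So z a b k l V = So z a' b k l (g * V) :=
  So_it (X := LinearMap.mulLeft B g) (fun i hi V => by
    simp only [LinearMap.mulLeft_apply]; rw [← mul_assoc, ← mul_assoc, h i hi]; noncomm_ring) V
lemma So_right {a b b' k l : ℕ} (g V : Hk z) (h : ∀ i, i + 1 < k + l → gs z (b+i) * g = g * gs z (b'+i)) :
    So z a b k l V * g = So z a b' k l (V * g) :=
  So_it (X := LinearMap.mulRight B g) (fun i hi V => by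
    simp only [LinearMap.mulRight_apply]; rw [mul_assoc, mul_assoc, h i hi]; noncomm_ring) V
lemma No_left {a a' b n : ℕ} (g V : Hk z) (h : ∀ i, i + 1 < n → g * gs z (a+i) = gs z (a'+i) * g) :
    g * No z a b n V = No z a' b n (g * V) :=
  No_it (X := LinearMap.mulLeft B g) (fun i hi V => by
    simp only [LinearMap.mulLeft_apply]; rw [← mul_assoc, ← mul_assoc, h i hi]; noncomm_ring) V
lemma No_right {a b b' n : ℕ} (g V : Hk z) (h : ∀ i, i + 1 < n → gs z (b+i) * g = g * gs z (b'+i)) :
    No z a b n V * g = No z a b' n (V * g) :=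
  No_it (X := LinearMap.mulRight B g) (fun i hi V => by
    simp only [LinearMap.mulRight_apply]; rw [mul_assoc, mul_assoc, h i hi]; noncomm_ring) V
lemma Ro_left {a a' b n : ℕ} (g V : Hk z) (h : ∀ i, i < n → g * gs z (a+i) = gs z (a'+i) * g) :
    g * Ro z a b n V = Ro z a' b n (g * V) :=
  Ro_it (X := LinearMap.mulLeft B g) (fun i hi V => by
    simp only [LinearMap.mulLeft_apply]; rw [← mul_assoc, ← mul_assoc, h i hi]; noncomm_ring) V
lemma Ro_right {a b b' n : ℕ} (g V : Hk z) (h : ∀ i, i < n → gs z (b+i) * g = g * gs z (b'+i)) :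
    Ro z a b n V * g = Ro z a b' n (V * g) :=
  Ro_it (X := LinearMap.mulRight B g) (fun i hi V => by
    simp only [LinearMap.mulRight_apply]; rw [mul_assoc, mul_assoc, h i hi]; noncomm_ring) V
lemma sn_So (m a b k l : ℕ) (V : Hk z) : sn m (So z a b k l V) = So z (m+a) (m+b) k l (sn m V) :=
  So_it (X := (sn m).toLinearMap) (fun i _ V => by simp [add_assoc]) V
lemma sn_No (m a b n : ℕ) (V : Hk z) : sn m (No z a b n V) = No z (m+a) (m+b) n (sn m V) :=
  No_it (X := (sn m).toLinearMap) (fun i _ V => by simp [add_assoc]) V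
lemma sn_Ro (m a b n : ℕ) (V : Hk z) : sn m (Ro z a b n V) = Ro z (m+a) (m+b) n (sn m V) :=
  Ro_it (X := (sn m).toLinearMap) (fun i _ V => by simp [add_assoc]) V

/-- norms are (twisted) central -/
lemma No_gs {a b n i : ℕ} (hi : i + 1 < n) (V : Hk z) :
    gs z (a+i) * No z a b n V = No z a b n V * gs z (b+i) := by
  obtain ⟨X, hX⟩ := (tw_isBr (z := z) a b).N_ldiv n i hi
  have e : No z a b n V = X V + gs z (a+i) * X V * gs z (b+i) := by
    rw [No, hX, Module.End.mul_apply, LinearMap.add_apply, Module.End.one_apply, tw_apply]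
  rw [e]
  calc gs z (a+i) * (X V + gs z (a+i) * X V * gs z (b+i))
      = gs z (a+i) * X V + (gs z (a+i) * gs z (a+i)) * X V * gs z (b+i) := by noncomm_ring
    _ = gs z (a+i) * X V + X V * gs z (b+i) + z • (gs z (a+i) * X V * gs z (b+i)) := by
        rw [gs_quad]; simp only [add_mul, one_mul, smul_mul_assoc]; noncomm_ring
    _ = X V * gs z (b+i) + gs z (a+i) * X V * (gs z (b+i) * gs z (b+i)) := by
        rw [gs_quad]; simp only [mul_add, mul_one, mul_smul_comm]; noncomm_ring
    _ = _ := by noncomm_ring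

/-- norms kill (twisted) commutators -/
lemma No_comm_gs {a b n i : ℕ} (hi : i + 1 < n) (V : Hk z) :
    No z a b n (gs z (a+i) * V) = No z a b n (V * gs z (b+i)) := by
  obtain ⟨X, hX⟩ := (tw_isBr (z := z) a b).N_rdiv n i hi
  have e : ∀ V, No z a b n V = X (V + gs z (a+i) * V * gs z (b+i)) := by
    intro V
    rw [No, hX, Module.End.mul_apply, LinearMap.add_apply, Module.End.one_apply, tw_apply]
  rw [e, e]
  congr 1
  calc gs z (a+i) * V + gs z (a+i) * (gs z (a+i) * V) * gs z (b+i)
      = gs z (a+i) * V + (gs z (a+i) * gs z (a+i)) * V * gs z (b+i) := by noncomm_ring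
    _ = gs z (a+i) * V + V * gs z (b+i) + z • (gs z (a+i) * V * gs z (b+i)) := by
        rw [gs_quad]; simp only [add_mul, one_mul, smul_mul_assoc]; noncomm_ring
    _ = V * gs z (b+i) + gs z (a+i) * V * (gs z (b+i) * gs z (b+i)) := by
        rw [gs_quad]; simp only [mul_add, mul_one, mul_smul_comm]; noncomm_ring
    _ = _ := by noncomm_ring

lemma No_central {a b n : ℕ} {h : Hk z} (hh : h ∈ Hn z n) (V : Hk z) :
    sn a h * No z a b n V = No z a b n V * sn b h :=
  (it_Hn (X := No z a b n V) (sn b) (sn a)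
    (fun i hi => by rw [sn_gs, sn_gs]; exact (No_gs hi V).symm) hh).symm

lemma No_comm {a b n : ℕ} {h : Hk z} (hh : h ∈ Hn z n) : ∀ (V : Hk z),
    No z a b n (sn a h * V) = No z a b n (V * sn b h) := by
  induction hh using Hn_induction with
  | hs i hi => intro V; rw [sn_gs, sn_gs]; exact No_comm_gs hi V
  | hc r => intro V; rw [AlgHom.commutes, AlgHom.commutes, Algebra.commutes]
  | ha x y _ _ hx hy => intro V; rw [map_add, map_add, add_mul, mul_add, map_add, map_add, hx, hy]
  | hm x y _ _ hx hy =>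
    intro V
    rw [map_mul (sn a), mul_assoc, hx, mul_assoc, hy, mul_assoc, ← map_mul (sn b)]

/-- for untwisted operators on the first strands -/
lemma No_central0 {n : ℕ} {h : Hk z} (hh : h ∈ Hn z n) (V : Hk z) :
    h * No z 0 0 n V = No z 0 0 n V * h := by simpa using No_central (a := 0) (b := 0) hh V
lemma No_comm0 {n : ℕ} {h : Hk z} (hh : h ∈ Hn z n) (V : Hk z) :
    No z 0 0 n (h * V) = No z 0 0 n (V * h) := by simpa using No_comm (a := 0) (b := 0) hh V

lemma gs_mul_mem {n i : ℕ} (hi : i + 1 < n) {V : Hk z} (hV : V ∈ Hn z n) :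
    gs z i * V * gs z i ∈ Hn z n := mul_mem (mul_mem (gs_mem hi) hV) (gs_mem hi)

lemma So_mem {o k l n : ℕ} (h : o + k + l ≤ n) : ∀ {V : Hk z}, V ∈ Hn z n →
    So z o o k l V ∈ Hn z n := by
  induction k generalizing l with
  | zero => intro V hV; simpa using hV
  | succ k ihk =>
    induction l with
    | zero => intro V hV; simpa using hV
    | succ l ihl =>
      intro V hV
      rw [So_succ]
      exact add_mem (ihl (by omega) hV) (ihk (by omega)
        (mul_mem (mul_mem (dD_mem (by omega)) hV) (dS_mem (by omega))))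

lemma No_mem {o m n : ℕ} (h : o + m ≤ n) : ∀ {V : Hk z}, V ∈ Hn z n → No z o o m V ∈ Hn z n := by
  induction m with
  | zero => intro V hV; simpa using hV
  | succ m ih => intro V hV; rw [No_succ]; exact So_mem (by omega) (ih (by omega) hV)

lemma Ro_mem {m n : ℕ} (h : m < n) : ∀ {V : Hk z}, V ∈ Hn z n → Ro z 0 0 m V ∈ Hn z n := by
  induction m with
  | zero => intro V hV; simpa using hV
  | succ m ih =>
    intro V hV; rw [Ro_succ]
    simp only [zero_add]
    exact add_mem hV (mul_mem (mul_mem (gs_mem (by omega)) (ih (by omega) hV)) (gs_mem (by omega)))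

/-- an element commuting with the acting generators can be pulled out on the left -/
lemma So_pull_left {a b k l : ℕ} (g V : Hk z) (h : ∀ i, i + 1 < k + l → g * gs z (a+i) = gs z (a+i) * g) :
    So z a b k l (g * V) = g * So z a b k l V := (So_left g V h).symm
lemma So_pull_right {a b k l : ℕ} (g V : Hk z) (h : ∀ i, i + 1 < k + l → gs z (b+i) * g = g * gs z (b+i)) :
    So z a b k l (V * g) = So z a b k l V * g := (So_right g V h).symm
lemma No_pull_left {a b n : ℕ} (g V : Hk z) (h : ∀ i, i + 1 < n → g * gs z (a+i) = gs z (a+i) * g) :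
    No z a b n (g * V) = g * No z a b n V := (No_left g V h).symm
lemma No_pull_right {a b n : ℕ} (g V : Hk z) (h : ∀ i, i + 1 < n → gs z (b+i) * g = g * gs z (b+i)) :
    No z a b n (V * g) = No z a b n V * g := (No_right g V h).symm
lemma Ro_pull_left {a b n : ℕ} (g V : Hk z) (h : ∀ i, i < n → g * gs z (a+i) = gs z (a+i) * g) :
    Ro z a b n (g * V) = g * Ro z a b n V := (Ro_left g V h).symm
lemma Ro_pull_right {a b n : ℕ} (g V : Hk z) (h : ∀ i, i < n → gs z (b+i) * g = g * gs z (b+i)) :
    Ro z a b n (V * g) = Ro z a b n V * g := (Ro_right g V h).symm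

end Pool.Agent.W5h66
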