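import Pool.Agent.W5h66.A1

/-! The base ring: rational functions in `q` regular at the zeros of the quantum integer. -/

namespace Pool.Agent.W5h66

open Polynomial

section gen
variable {R S : Type*} [CommRing R] [CommRing S]

lemma map_chi_bt (φ : R →+* S) (z : R) (k : ℕ) :
    (φ (chi z k) = chi (φ z) k ∧ φ (chi z (k+1)) = chi (φ z) (k+1)) ∧
    (φ (bt z k) = bt (φ z) k ∧ φ (bt z (k+1)) = bt (φ z) (k+1)) := by
  induction k with
  | zero => simp [chi, bt]
  | succ k ih =>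
    obtain ⟨⟨h1, h2⟩, h3, h4⟩ := ih
    have h22 : φ 2 = 2 := map_ofNat φ 2
    refine ⟨⟨h2, ?_⟩, h4, ?_⟩
    · rw [show k+1+1 = k+2 by omega, chi_rec, chi_rec, map_sub, map_mul, h1, h2, map_add, map_pow, h22]
    · rw [show k+1+1 = k+2 by omega, bt_rec, bt_rec, map_sub, map_add, map_sub, map_mul, h3, h4,
        chi_rec, chi_rec, map_sub, map_mul, h1, h2, map_add, map_pow, h22]

lemma map_bt (φ : R →+* S) (z : R) (k : ℕ) : φ (bt z k) = bt (φ z) k := (map_chi_bt φ z k).2.1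

lemma chi_diff {q r : R} (h : q * r = 1) (j : ℕ) :
    (chi (q - r) (j+2) - chi (q - r) j = q^(2*j+2) + r^(2*j+2)) ∧
    (chi (q - r) (j+3) - chi (q - r) (j+1) = q^(2*j+4) + r^(2*j+4)) := by
  have hz : (q - r)^2 + 2 = q^2 + r^2 := by linear_combination (-2) * h
  induction j with
  | zero =>
    refine ⟨?_, ?_⟩
    · simp only [chi]; linear_combination hz
    · simp only [chi]
      have h2 : q^2 * r^2 = 1 := by rw [← mul_pow, h, one_pow]
      rw [hz]; linear_combination 2 * h2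
  | succ j ih =>
    obtain ⟨h1, h2⟩ := ih
    refine ⟨by rw [show j+1+2 = j+3 by omega, h2]; ring, ?_⟩
    have c1 := chi_rec (z := q - r) (j+2)
    have c2 := chi_rec (z := q - r) j
    have h3 : q^2 * r^2 = 1 := by rw [← mul_pow, h, one_pow]
    rw [hz] at c1 c2
    rw [show j+1+3 = j+2+2 by omega, c1, show j+1+1 = j+2 by omega, show j+2+1 = j+3 by omega]
    have e : chi (q-r) (j+3) = chi (q-r) (j+1) + (q^(2*j+4) + r^(2*j+4)) := by rw [← h2]; ring
    rw [e]
    have c2' : chi (q-r) (j+2) = (q^2+r^2) * chi (q-r) (j+1) - chi (q-r) j := c2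
    have h1' : chi (q-r) j = chi (q-r) (j+2) - (q^(2*j+2) + r^(2*j+2)) := by rw [← h1]; ring
    have : (q^2 + r^2) * chi (q-r) (j+1) = chi (q-r) (j+2) + chi (q-r) j := by rw [c2']; ring
    rw [mul_add, this, h1']
    linear_combination (q^(2*j+2) + r^(2*j+2)) * h3

lemma bt_formula {q r : R} (h : q * r = 1) (k : ℕ) :
    (q - r)^2 * bt (q - r) k = (q^k - r^k)^2 := by
  have hz : (q - r)^2 = q^2 + r^2 - 2 := by linear_combination (-2) * h
  have key : (q - r)^2 * bt (q - r) k = q^(2*k) + r^(2*k) - 2 ∧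
      (q - r)^2 * bt (q - r) (k+1) = q^(2*(k+1)) + r^(2*(k+1)) - 2 := by
    induction k with
    | zero => simp only [bt]; refine ⟨by ring, ?_⟩; rw [mul_one, hz]
    | succ k ih =>
      obtain ⟨h1, h2⟩ := ih
      refine ⟨h2, ?_⟩
      obtain ⟨d, _⟩ := chi_diff h k
      have h3 : q^2 * r^2 = 1 := by rw [← mul_pow, h, one_pow]
      have e : bt (q-r) (k+1+1) = 2 * bt (q-r) (k+1) - bt (q-r) k + (q^(2*k+2) + r^(2*k+2)) := by
        rw [show k+1+1 = k+2 by omega, bt_rec, ← d]; ring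
      rw [e]
      have : (q-r)^2 * (2 * bt (q-r) (k+1) - bt (q-r) k + (q^(2*k+2) + r^(2*k+2)))
          = 2 * ((q-r)^2 * bt (q-r) (k+1)) - (q-r)^2 * bt (q-r) k + (q-r)^2 * (q^(2*k+2) + r^(2*k+2)) := by
        ring
      rw [this, h1, h2, hz]
      linear_combination (q^(2*k) + r^(2*k)) * h3
  rw [key.1]
  have h4 : q^k * r^k = 1 := by rw [← mul_pow, h, one_pow]
  have : (q^k - r^k)^2 = q^(2*k) + r^(2*k) - 2 * (q^k * r^k) := by ring
  rw [this, h4]; ring

/-- polynomial versions -/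
noncomputable def chiP : ℕ → ℤ[X]
  | 0 => 0
  | 1 => 1
  | j+2 => (X+2) * chiP (j+1) - chiP j
/-- polynomial versions -/
noncomputable def btP : ℕ → ℤ[X]
  | 0 => 0
  | 1 => 1
  | j+2 => 2 * btP (j+1) - btP j + chiP (j+2) - chiP j

lemma chiP_succ_succ (j : ℕ) : chiP (j+2) = (X+2) * chiP (j+1) - chiP j := by rw [chiP]
lemma btP_succ_succ (j : ℕ) : btP (j+2) = 2 * btP (j+1) - btP j + chiP (j+2) - chiP j := by rw [btP]

lemma eval_P (z : R) (k : ℕ) :
    ((eval₂ (Int.castRingHom R) (z^2) (chiP k) = chi z k) ∧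
      (eval₂ (Int.castRingHom R) (z^2) (chiP (k+1)) = chi z (k+1))) ∧
    ((eval₂ (Int.castRingHom R) (z^2) (btP k) = bt z k) ∧
      (eval₂ (Int.castRingHom R) (z^2) (btP (k+1)) = bt z (k+1))) := by
  induction k with
  | zero => simp [chi, bt, chiP, btP]
  | succ k ih =>
    obtain ⟨⟨h1, h2⟩, h3, h4⟩ := ih
    have h5 : eval₂ (Int.castRingHom R) (z^2) (chiP (k+2)) = chi z (k+2) := by
      rw [chiP_succ_succ, chi_rec, eval₂_sub, eval₂_mul, h1, h2]
      simp
    refine ⟨⟨h2, h5⟩, h4, ?_⟩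
    rw [show k+1+1 = k+2 by omega, btP_succ_succ, bt_rec, eval₂_sub, eval₂_add, eval₂_sub, eval₂_mul,
      h3, h4, h5, h1]
    simp

lemma eval_btP (z : R) (k : ℕ) : eval₂ (Int.castRingHom R) (z^2) (btP k) = bt z k := (eval_P z k).2.1

lemma deg_chiP (j : ℕ) : ((chiP (j+1)).Monic ∧ (chiP (j+1)).natDegree = j) ∧
    (chiP j).natDegree ≤ j - 1 := by
  induction j with
  | zero => simp [chiP]
  | succ j ih =>
    obtain ⟨⟨h1, h2⟩, h3⟩ := ih
    have hm : (X + 2 : ℤ[X]).Monic := by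
      have := monic_X_add_C (2 : ℤ); simpa using this
    have hd : (X + 2 : ℤ[X]).natDegree = 1 := by
      have := natDegree_X_add_C (2 : ℤ); simpa using this
    have hm2 : ((X + 2) * chiP (j+1)).Monic := hm.mul h1
    have hd2 : ((X + 2) * chiP (j+1)).natDegree = j + 1 := by
      rw [hm.natDegree_mul h1, hd, h2]; omega
    have hlt : (chiP j).degree < ((X + 2) * chiP (j+1)).degree := by
      rw [degree_eq_natDegree hm2.ne_zero, hd2]
      refine lt_of_le_of_lt degree_le_natDegree ?_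
      exact_mod_cast (by omega : (chiP j).natDegree < j + 1)
    refine ⟨⟨?_, ?_⟩, ?_⟩
    · rw [show j+1+1 = j+2 by omega, chiP_succ_succ]; exact hm2.sub_of_left hlt
    · rw [show j+1+1 = j+2 by omega, chiP_succ_succ, natDegree_sub_eq_left_of_natDegree_lt, hd2]
      rw [hd2]; omega
    · rw [h2]; omega

lemma deg_btP (j : ℕ) : ((btP (j+1)).Monic ∧ (btP (j+1)).natDegree = j) ∧
    (btP j).natDegree ≤ j - 1 := by
  induction j with
  | zero => simp [btP]
  | succ j ih =>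
    obtain ⟨⟨h1, h2⟩, h3⟩ := ih
    obtain ⟨⟨c1, c2⟩, _⟩ := deg_chiP (j+1)
    obtain ⟨_, c3⟩ := deg_chiP j
    have e : btP (j+1+1) = chiP (j+1+1) + (2 * btP (j+1) - btP j - chiP j) := by
      rw [show j+1+1 = j+2 by omega, btP_succ_succ]; ring
    have hlow : (2 * btP (j+1) - btP j - chiP j).natDegree ≤ j := by
      refine (natDegree_sub_le _ _).trans (max_le ((natDegree_sub_le _ _).trans (max_le ?_ ?_)) ?_)
      · have : (2 * btP (j+1)).natDegree ≤ (2 : ℤ[X]).natDegree + (btP (j+1)).natDegree := natDegree_mul_le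
        rw [h2] at this
        have h0 : (2 : ℤ[X]).natDegree = 0 := natDegree_ofNat 2
        omega
      · omega
      · omega
    have hlt : (2 * btP (j+1) - btP j - chiP j).degree < (chiP (j+1+1)).degree := by
      rw [degree_eq_natDegree c1.ne_zero, c2]
      refine lt_of_le_of_lt degree_le_natDegree ?_
      exact_mod_cast (by omega : (2 * btP (j+1) - btP j - chiP j).natDegree < j + 1)
    refine ⟨⟨?_, ?_⟩, ?_⟩
    · rw [e]; exact c1.add_of_left hlt
    · rw [e, natDegree_add_eq_left_of_natDegree_lt, c2]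
      rw [c2]; omega
    · rw [h2]; omega

end gen

variable {E K : Type*} [Field E] [Field K] [Algebra E K]

/-- unnormalised quantum integer -/
noncomputable def Qk (E : Type*) [Field E] (k : ℕ) : E[X] := ∑ i ∈ Finset.range k, (X ^ 2) ^ i

lemma Qk_mul (k : ℕ) : Qk E k * (X ^ 2 - 1) = X ^ (2*k) - 1 := by
  rw [Qk, geom_sum_mul, pow_mul]

lemma X_sq_ne : (X ^ 2 - 1 : E[X]) ≠ 0 := by
  intro h
  have := congrArg (Polynomial.eval 0) h
  simp at this

lemma Qk_monic {k : ℕ} (hk : 0 < k) : (Qk E k).Monic ∧ (Qk E k).natDegree = 2*(k-1) := by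
  have h1 : (X ^ 2 - 1 : E[X]).Monic := by
    have := monic_X_pow_sub_C (1 : E) (two_ne_zero)
    simpa using this
  have h2 : (X ^ (2*k) - 1 : E[X]).Monic := by
    have := monic_X_pow_sub_C (1 : E) (n := 2*k) (by omega)
    simpa using this
  have hm : (Qk E k).Monic := by
    rw [← Qk_mul] at h2
    exact h1.of_mul_monic_right h2
  refine ⟨hm, ?_⟩
  have h3 := congrArg natDegree (Qk_mul (E := E) k)
  rw [hm.natDegree_mul h1] at h3
  have e1 : (X ^ 2 - 1 : E[X]).natDegree = 2 := by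
    have := natDegree_X_pow_sub_C (n := 2) (r := (1 : E))
    simpa using this
  have e2 : (X ^ (2*k) - 1 : E[X]).natDegree = 2*k := by
    have := natDegree_X_pow_sub_C (n := 2*k) (r := (1 : E))
    simpa using this
  rw [e1, e2] at h3
  omega

lemma Qk_coprime {p k : ℕ} (hp : p.Prime) (h0 : 0 < k) (hk : k < p) : IsCoprime (Qk E k) (Qk E p) := by
  have hc : Nat.Coprime k p := (Nat.coprime_of_lt_prime (by omega) hk hp).symm
  obtain ⟨m, _, hm⟩ := Nat.exists_mul_mod_eq_one_of_coprime hc hp.one_lt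
  obtain ⟨c, hc⟩ : ∃ c, k*m = 1 + p*c := ⟨k*m/p, by have := Nat.div_add_mod (k*m) p; omega⟩
  obtain ⟨Y, hY⟩ : ∃ Y : E[X], Y = X^2 := ⟨_, rfl⟩
  have hA : (∑ j ∈ Finset.range m, (Y^k)^j) * (Y^k - 1) = (Y^k)^m - 1 := geom_sum_mul _ _
  have hC : (∑ j ∈ Finset.range c, (Y^p)^j) * (Y^p - 1) = (Y^p)^c - 1 := geom_sum_mul _ _
  have hk1 : Qk E k * (Y - 1) = Y^k - 1 := by rw [hY]; exact geom_sum_mul _ _
  have hp1 : Qk E p * (Y - 1) = Y^p - 1 := by rw [hY]; exact geom_sum_mul _ _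
  set A := ∑ j ∈ Finset.range m, (Y^k)^j
  set C := ∑ j ∈ Finset.range c, (Y^p)^j
  have e : (A * Qk E k + (-(Y * C)) * Qk E p) * (Y - 1) = 1 * (Y - 1) := by
    have : (A * Qk E k + (-(Y * C)) * Qk E p) * (Y - 1)
        = A * (Qk E k * (Y-1)) - Y * (C * (Qk E p * (Y - 1))) := by ring
    rw [this, hk1, hp1, hA, hC, ← pow_mul, ← pow_mul, hc, pow_add, pow_one]
    ring
  have hne : Y - 1 ≠ 0 := by rw [hY]; exact X_sq_ne
  exact ⟨A, -(Y*C), mul_right_cancel₀ hne e⟩

lemma X_coprime {p : ℕ} (hp : 0 < p) : IsCoprime (X : E[X]) (Qk E p) := by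
  obtain ⟨k, rfl⟩ : ∃ k, p = k + 1 := ⟨p - 1, by omega⟩
  refine ⟨-(X * ∑ i ∈ Finset.range k, (X^2)^i), 1, ?_⟩
  rw [Qk, Finset.sum_range_succ']
  have : ∑ i ∈ Finset.range k, ((X : E[X]) ^ 2) ^ (i+1) = X^2 * ∑ i ∈ Finset.range k, (X ^ 2) ^ i := by
    rw [Finset.mul_sum]
    exact Finset.sum_congr rfl (fun i _ => by rw [pow_succ']) 
  rw [this]; ring

lemma X_sq_coprime [CharZero E] {p : ℕ} (hp : 0 < p) : IsCoprime (X^2 - 1 : E[X]) (Qk E p) := by
  have key : ∀ n : ℕ, ∃ A : E[X], Qk E n = C (n : E) + A * (X^2 - 1) := by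
    intro n
    induction n with
    | zero => exact ⟨0, by simp [Qk]⟩
    | succ n ih =>
      obtain ⟨A, hA⟩ := ih
      refine ⟨A + Qk E n, ?_⟩
      have h1 : Qk E (n+1) = Qk E n + (X^2)^n := by rw [Qk, Finset.sum_range_succ]; rfl
      have h2 : ((X : E[X])^2)^n = Qk E n * (X^2 - 1) + 1 := by
        rw [Qk, geom_sum_mul]; ring
      rw [h1, h2]
      conv_lhs => rw [hA]
      rw [Nat.cast_succ, C_add, C_1]
      conv_rhs => rw [hA]
      conv_lhs => rw [← hA]
      rw [hA]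
      ring
  obtain ⟨A, hA⟩ := key p
  have hne : (p : E) ≠ 0 := by exact_mod_cast hp.ne'
  refine ⟨-(C ((p : E)⁻¹) * A), C ((p : E)⁻¹), ?_⟩
  rw [hA]
  have : C ((p : E)⁻¹) * C (p : E) = 1 := by rw [← C_mul, inv_mul_cancel₀ hne, C_1]
  linear_combination this

/-- the local ring at the zeros of `Q` -/
def Bs (q : K) (Q : E[X]) : Subring K where
  carrier := {x | ∃ f g : E[X], IsCoprime g Q ∧ x * aeval q g = aeval q f}
  mul_mem' := by
    rintro x y ⟨f, g, h1, h2⟩ ⟨f', g', h1', h2'⟩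
    refine ⟨f * f', g * g', h1.mul_left h1', ?_⟩
    rw [map_mul, map_mul, ← h2, ← h2']; ring
  one_mem' := ⟨1, 1, isCoprime_one_left, by simp⟩
  add_mem' := by
    rintro x y ⟨f, g, h1, h2⟩ ⟨f', g', h1', h2'⟩
    refine ⟨f * g' + f' * g, g * g', h1.mul_left h1', ?_⟩
    rw [map_mul, map_add, map_mul, map_mul, ← h2, ← h2']; ring
  zero_mem' := ⟨0, 1, isCoprime_one_left, by simp⟩
  neg_mem' := by
    rintro x ⟨f, g, h1, h2⟩
    exact ⟨-f, g, h1, by rw [map_neg, ← h2]; ring⟩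

lemma mem_Bs {q : K} {Q : E[X]} {x : K} :
    x ∈ Bs q Q ↔ ∃ f g : E[X], IsCoprime g Q ∧ x * aeval q g = aeval q f := Iff.rfl

lemma inv_mem_Bs {q : K} {Q : E[X]} {x : K} (hx : x ≠ 0) {f g : E[X]} (hf : IsCoprime f Q)
    (h : x * aeval q g = aeval q f) : x⁻¹ ∈ Bs q Q :=
  ⟨g, f, hf, by rw [← h, ← mul_assoc, inv_mul_cancel₀ hx, one_mul]⟩

lemma alg_mem_Bs {q : K} {Q : E[X]} (e : E) : algebraMap E K e ∈ Bs q Q :=
  ⟨C e, 1, isCoprime_one_left, by simp⟩

lemma unit_Bs {q : K} {Q : E[X]} {x : K} (hx : x ∈ Bs q Q) (h0 : x ≠ 0) (hi : x⁻¹ ∈ Bs q Q) :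
    IsUnit (⟨x, hx⟩ : Bs q Q) :=
  IsUnit.of_mul_eq_one ⟨x⁻¹, hi⟩ (Subtype.ext (mul_inv_cancel₀ h0))

section div
variable {q : K} (hq : Transcendental E q)
include hq

lemma q_ne : q ≠ 0 := by
  rintro rfl
  exact hq isAlgebraic_zero

lemma ev_inj : Function.Injective (aeval q : E[X] →ₐ[E] K) := transcendental_iff_injective.1 hq

lemma q_sq_ne : q^2 - 1 ≠ 0 := by
  intro h
  have : aeval q (X^2 - 1 : E[X]) = aeval q (0 : E[X]) := by simpa using h
  exact X_sq_ne (ev_inj hq this)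

lemma z_ne : q - q⁻¹ ≠ 0 := by
  intro h
  have h1 := q_ne hq
  apply q_sq_ne hq
  have : q * (q - q⁻¹) = q^2 - 1 := by field_simp
  rw [← this, h, mul_zero]

lemma bt_Qk {k : ℕ} (hk : 0 < k) : bt (q - q⁻¹) k * q^(2*(k-1)) = aeval q (Qk E k) ^ 2 := by
  have h1 := q_ne hq
  have h2 := bt_formula (mul_inv_cancel₀ h1) k
  have h3 : aeval q (Qk E k) * (q^2 - 1) = q^(2*k) - 1 := by
    have := congrArg (aeval q) (Qk_mul (E := E) k)
    simpa using this
  have hz : (q - q⁻¹) * q = q^2 - 1 := by field_simp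
  have hzk : (q^k - q⁻¹^k) * q^k = q^(2*k) - 1 := by
    have : q⁻¹^k * q^k = 1 := by rw [← mul_pow, inv_mul_cancel₀ h1, one_pow]
    rw [sub_mul, this, ← pow_add, two_mul]
  have hne : (q^2 - 1)^2 ≠ 0 := pow_ne_zero _ (q_sq_ne hq)
  apply mul_right_cancel₀ hne
  calc bt (q - q⁻¹) k * q^(2*(k-1)) * (q^2-1)^2
      = ((q - q⁻¹)^2 * bt (q-q⁻¹) k) * (q^(2*(k-1)) * q^2) := by rw [← hz]; ring
    _ = ((q^k - q⁻¹^k) * q^k)^2 := by
        rw [h2, ← pow_add, show 2*(k-1)+2 = k*2 by omega, pow_mul]; ring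
    _ = _ := by rw [hzk, ← h3]; ring

/-- the ring of integral values -/
def Rz (E : Type*) [Field E] [Algebra E K] (q : K) (a : E) : Subring K :=
  Subring.closure {(q - q⁻¹)^2, algebraMap E K a, (algebraMap E K a)⁻¹}

omit hq in
lemma rep_Rz {a : E} {x : K} (hx : x ∈ Rz E q a) :
    ∃ P : (Subring.closure {a, a⁻¹} : Subring E)[X],
      x = eval₂ ((algebraMap E K).comp (Subring.subtype _)) ((q - q⁻¹)^2) P := by
  induction hx using Subring.closure_induction with
  | mem x hx =>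
    rcases hx with rfl | rfl | rfl
    · exact ⟨X, by simp⟩
    · exact ⟨C ⟨a, Subring.subset_closure (by simp)⟩, by simp⟩
    · exact ⟨C ⟨a⁻¹, Subring.subset_closure (by simp)⟩, by simp⟩
  | zero => exact ⟨0, by simp⟩
  | one => exact ⟨1, by simp⟩
  | add x y _ _ hx hy =>
    obtain ⟨P, hP⟩ := hx
    obtain ⟨Q, hQ⟩ := hy
    exact ⟨P + Q, by rw [eval₂_add, ← hP, ← hQ]⟩
  | neg x _ hx =>
    obtain ⟨P, hP⟩ := hx
    exact ⟨-P, by rw [eval₂_neg, ← hP]⟩
  | mul x y _ _ hx hy =>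
    obtain ⟨P, hP⟩ := hx
    obtain ⟨Q, hQ⟩ := hy
    exact ⟨P * Q, by rw [eval₂_mul, ← hP, ← hQ]⟩

omit hq in
lemma eval_Rz {a : E} (P : (Subring.closure {a, a⁻¹} : Subring E)[X]) :
    eval₂ ((algebraMap E K).comp (Subring.subtype _)) ((q - q⁻¹)^2) P ∈ Rz E q a := by
  have hc : ∀ c ∈ (Subring.closure {a, a⁻¹} : Subring E), algebraMap E K c ∈ Rz E q a := by
    intro c hc
    induction hc using Subring.closure_induction with
    | mem x hx =>
      rcases hx with rfl | rfl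
      · exact Subring.subset_closure (by simp)
      · rw [map_inv₀]; exact Subring.subset_closure (by simp)
    | zero => rw [map_zero]; exact zero_mem _
    | one => rw [map_one]; exact one_mem _
    | add x y _ _ hx hy => rw [map_add]; exact add_mem hx hy
    | neg x _ hx => rw [map_neg]; exact neg_mem hx
    | mul x y _ _ hx hy => rw [map_mul]; exact mul_mem hx hy
  induction P using Polynomial.induction_on with
  | C c => rw [eval₂_C]; exact hc _ c.2
  | add P Q hP hQ => rw [eval₂_add]; exact add_mem hP hQ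
  | monomial n c _ =>
    rw [eval₂_mul, eval₂_C, eval₂_pow, eval₂_X]
    exact mul_mem (hc _ c.2) (pow_mem (Subring.subset_closure (by simp)) _)

omit hq in
lemma bt_mem_Rz {a : E} (k : ℕ) : bt (q - q⁻¹) k ∈ Rz E q a := by
  rw [← eval_btP]
  have : ∀ P : ℤ[X], eval₂ (Int.castRingHom K) ((q - q⁻¹)^2) P ∈ Rz E q a := by
    intro P
    induction P using Polynomial.induction_on with
    | C c => rw [eval₂_C]; exact intCast_mem _ c
    | add P Q hP hQ => rw [eval₂_add]; exact add_mem hP hQ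
    | monomial n c _ =>
      rw [eval₂_mul, eval₂_C, eval₂_pow, eval₂_X]
      exact mul_mem (intCast_mem _ c) (pow_mem (Subring.subset_closure (by simp)) _)
  exact this _

/-- divisibility descends -/
theorem div_back {p : ℕ} (hp : 2 ≤ p) {a : E} {x b : K} (hx : x ∈ Rz E q a) (hb : b ∈ Bs q (Qk E p))
    (hxb : x = bt (q - q⁻¹) p * b) : ∃ s ∈ Rz E q a, x = bt (q - q⁻¹) p * s := by
  obtain ⟨k, rfl⟩ : ∃ k, p = k + 2 := ⟨p - 2, by omega⟩
  obtain ⟨A, hA⟩ : ∃ A : Subring E, A = Subring.closure {a, a⁻¹} := ⟨_, rfl⟩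
  obtain ⟨φ, hφ⟩ : ∃ φ : A →+* K, φ = (algebraMap E K).comp (Subring.subtype _) := ⟨_, rfl⟩
  obtain ⟨P, hP⟩ : ∃ P : A[X], x = eval₂ φ ((q - q⁻¹)^2) P := by
    subst hA; subst hφ; exact rep_Rz hx
  have hmem : ∀ P : A[X], eval₂ φ ((q - q⁻¹)^2) P ∈ Rz E q a := by
    subst hA; subst hφ; exact eval_Rz
  set β : A[X] := (btP (k+2)).map (Int.castRingHom A) with hβ
  have hβm : β.Monic := (deg_btP (k+1)).1.1.map _
  have hβd : β.natDegree = k + 1 := by
    rw [hβ, (deg_btP (k+1)).1.1.natDegree_map, (deg_btP (k+1)).1.2]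
  have hβe : eval₂ φ ((q - q⁻¹)^2) β = bt (q - q⁻¹) (k+2) := by
    rw [hβ, eval₂_map, ← eval_btP (q - q⁻¹) (k+2)]
    congr 1
    exact RingHom.ext_int _ _
  obtain ⟨Rm, hRm⟩ : ∃ Rm, Rm = P %ₘ β := ⟨_, rfl⟩
  obtain ⟨S, hS⟩ : ∃ S, S = P /ₘ β := ⟨_, rfl⟩
  have hdecomp : x = eval₂ φ ((q - q⁻¹)^2) Rm + bt (q - q⁻¹) (k+2) * eval₂ φ ((q - q⁻¹)^2) S := by
    have h0 := congrArg (eval₂ φ ((q - q⁻¹)^2)) (modByMonic_add_div P β)
    rw [eval₂_add, eval₂_mul, hβe, ← hP, ← hRm, ← hS] at h0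
    exact h0.symm
  have hRdeg : Rm.natDegree < k + 1 := by
    rw [← hβd, hRm]
    refine natDegree_modByMonic_lt P hβm ?_
    intro h1
    rw [h1, natDegree_one] at hβd
    omega
  have hSB : eval₂ φ ((q - q⁻¹)^2) S ∈ Bs q (Qk E (k+2)) := by
    have hzB : (q - q⁻¹)^2 ∈ Bs q (Qk E (k+2)) := by
      refine pow_mem ?_ 2
      have hq0 := q_ne hq
      refine ⟨X^2-1, X, X_coprime (by omega), ?_⟩
      simp only [aeval_X, map_sub, map_pow, map_one]
      field_simp
    have hall : ∀ S : A[X], eval₂ φ ((q - q⁻¹)^2) S ∈ Bs q (Qk E (k+2)) := by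
      intro S
      induction S using Polynomial.induction_on with
      | C c => rw [eval₂_C, hφ]; exact alg_mem_Bs _
      | add P Q hP hQ => rw [eval₂_add]; exact add_mem hP hQ
      | monomial n c _ =>
        rw [eval₂_mul, eval₂_C, eval₂_pow, eval₂_X]
        exact mul_mem (by rw [hφ]; exact alg_mem_Bs _) (pow_mem hzB _)
    exact hall S
  -- the remainder vanishes
  have hzero : eval₂ φ ((q - q⁻¹)^2) Rm = 0 := by
    obtain ⟨f, g, hg, hfg⟩ := (Bs q (Qk E (k+2))).sub_mem hb hSB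
    · set b' := b - eval₂ φ ((q - q⁻¹)^2) S with hb'
      have hR : eval₂ φ ((q - q⁻¹)^2) Rm = bt (q - q⁻¹) (k+2) * b' := by
        rw [hb', mul_sub, ← hxb, hdecomp]; ring
      -- homogenised remainder
      set Rh : E[X] := ∑ i ∈ Finset.range (k+1), C ((Rm.coeff i : A) : E) * ((X^2-1)^(2*i) * X^(2*(k-i))) with hRh
      have hq0 := q_ne hq
      have hev : aeval q Rh = q^(2*k) * eval₂ φ ((q - q⁻¹)^2) Rm := by
        rw [hRh, map_sum, eval₂_eq_sum_range' φ hRdeg, Finset.mul_sum]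
        refine Finset.sum_congr rfl (fun i hi => ?_)
        have hi' : i ≤ k := by simp at hi; omega
        have hz : (q - q⁻¹) * q = q^2 - 1 := by field_simp
        have e1 : q^(2*k) = q^(2*i) * q^(2*(k-i)) := by rw [← pow_add]; congr 1; omega
        have e2 : (q^2 - 1)^(2*i) = ((q - q⁻¹)^2)^i * q^(2*i) := by rw [← hz, mul_pow, ← pow_mul]
        simp only [map_mul, aeval_C, map_pow, map_sub, aeval_X, map_one]
        rw [e1, e2, hφ]
        simp only [RingHom.comp_apply, Subring.coe_subtype]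
        ring
      have hbt := bt_Qk hq (k := k+2) (by omega)
      have hkey : X^(2*(k+1)) * g * Rh = X^(2*k) * (Qk E (k+2))^2 * f := by
        apply ev_inj hq
        simp only [map_mul, map_pow, aeval_X]
        rw [hev, hR, ← hbt, ← hfg, show k + 2 - 1 = k + 1 by omega]
        ring
      have hdvd : (Qk E (k+2))^2 ∣ Rh := by
        have h1 : (Qk E (k+2))^2 ∣ (X^(2*(k+1)) * g) * Rh := by rw [hkey]; exact ⟨X^(2*k) * f, by ring⟩
        have hcop : IsCoprime ((Qk E (k+2))^2) (X^(2*(k+1)) * g) := by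
          apply IsCoprime.pow_left
          apply IsCoprime.mul_right
          · exact ((X_coprime (by omega)).pow_left).symm
          · exact hg.symm
        exact hcop.dvd_of_dvd_mul_left h1
      have hdegR : Rh.natDegree ≤ 4*k := by
        rw [hRh]
        apply natDegree_sum_le_of_forall_le
        intro i hi
        have hi' : i ≤ k := by simp at hi; omega
        refine (natDegree_C_mul_le _ _).trans ((natDegree_mul_le).trans ?_)
        have e1 : ((X^2-1 : E[X])^(2*i)).natDegree ≤ 2*i*2 := by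
          refine (natDegree_pow_le).trans (Nat.mul_le_mul_left _ ?_)
          have := natDegree_X_pow_sub_C (n := 2) (r := (1 : E))
          simp only [map_one] at this
          rw [this]
        rw [natDegree_X_pow]
        omega
      have hR0 : Rh = 0 := by
        by_contra hne
        have hm := (Qk_monic (E := E) (k := k+2) (by omega))
        have h1 := natDegree_le_of_dvd hdvd hne
        rw [hm.1.natDegree_pow, hm.2] at h1
        omega
      rw [hR0, map_zero] at hev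
      have := hev.symm
      exact (mul_eq_zero.1 this).resolve_left (pow_ne_zero _ hq0)
  rw [hzero, zero_add] at hdecomp
  exact ⟨_, hmem S, hdecomp⟩

end div

end Pool.Agent.W5h66
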