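import Pool.Agent.W5h66.A1

/-! Separability: the unit is a norm below the critical rank; the full twist and the
central element `Gm` modulo norms. -/

namespace Pool.Agent.W5h66

universe u v
variable {B : Type u} [CommRing B] {z : B}

/-- a twisted central element becomes a norm after shuffling -/
lemma So_norm {a b k l : ℕ} {V g g' : Hk z}
    (h1 : ∀ i, i + 1 < k → gs z (a+i) * V = V * gs z (b+i))
    (h2 : ∀ i, i + 1 < l → gs z (a+k+i) * V = V * gs z (b+k+i))
    (hgm : g ∈ Hn z k) (hg : No z 0 0 k g = 1) (hg' : No z 0 0 l g' = 1) :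
    So z a b k l V = No z a b (k+l) (V * sn b g * sn (b+k) g') := by
  rw [No_add]
  have e1 : No z (a+k) (b+k) l (V * sn b g * sn (b+k) g') = V * sn b g := by
    rw [← No_left (a := b+k) (V * sn b g) (sn (b+k) g') (fun i hi => ?_)]
    · have := sn_No (b+k) 0 0 l g'
      rw [add_zero, hg', map_one] at this
      rw [← this, mul_one]
    · have c : sn b g * gs z (b+k+i) = gs z (b+k+i) * sn b g := by
        have := congrArg (sn b) (gs_comm_Hn (z := z) (n := k) (k := k+i) (by omega) hgm)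
        simpa [add_assoc] using this
      rw [mul_assoc, c, ← mul_assoc, ← h2 i hi, mul_assoc]
  have e2 : No z a b k (V * sn b g) = V := by
    rw [← No_left (a := b) V (sn b g) (fun i hi => (h1 i hi).symm)]
    have := sn_No b 0 0 k g
    rw [add_zero, hg, map_one] at this
    rw [← this, mul_one]
  rw [e1, e2]

/-- full twist -/
noncomputable def FT (z : B) : ℕ → Hk z
  | 0 => 1
  | n+1 => FT z n * JJ z n

lemma FT_mem (n : ℕ) : FT z n ∈ Hn z n := by
  induction n with
  | zero => exact one_mem _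
  | succ n ih => exact mul_mem (Hn_mono (by omega) ih) (JJ_mem (by omega))

lemma FT_gs (n : ℕ) : ∀ i, i + 1 < n → gs z i * FT z n = FT z n * gs z i := by
  induction n with
  | zero => intro i hi; omega
  | succ n ih =>
    intro i hi
    by_cases h : i + 1 < n
    · rw [FT, ← mul_assoc, ih i h, mul_assoc, mul_assoc, JJ_comm (gs_mem h)]
    · obtain ⟨m, rfl⟩ : ∃ m, n = m + 1 := ⟨n - 1, by omega⟩
      have e : i = m := by omega
      subst e
      have c := JJ_comm (z := z) (n := i+1) (JJ_mem (n := i) (by omega))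
      rw [FT, FT, JJ_succ] at *
      have c2 : FT z i * gs z i = gs z i * FT z i := gs_comm_Hn le_rfl (FT_mem i)
      calc gs z i * (FT z i * JJ z i * (gs z i * JJ z i * gs z i))
          = (gs z i * FT z i) * (JJ z i * (gs z i * JJ z i * gs z i)) := by noncomm_ring
        _ = FT z i * (gs z i * (JJ z i * gs z i * JJ z i * gs z i)) := by rw [← c2]; noncomm_ring
        _ = FT z i * ((gs z i * JJ z i * gs z i) * JJ z i) * gs z i := by noncomm_ring
        _ = _ := by rw [c]; noncomm_ring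

/-- elementary symmetric functions of the multiplicative Jucys-Murphy elements -/
noncomputable def ee (z : B) (i l : ℕ) : Hk z := So z 0 0 i l (FT z i)

lemma dD_JJ_dS (i l : ℕ) : dD z i l * JJ z i * dS z i l = JJ z (i+l) := by
  induction l with
  | zero => simp
  | succ l ih =>
    rw [dD_succ, dS_succ, ← add_assoc, JJ_succ, ← ih]
    noncomm_ring

lemma ee_zero (l : ℕ) : ee z 0 l = 1 := by simp [ee, FT]
lemma ee_top (i : ℕ) : ee z i 0 = FT z i := by simp [ee]

lemma ee_succ (i l : ℕ) : ee z (i+1) (l+1) = ee z (i+1) l + ee z i (l+1) * JJ z (i+l+1) := by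
  rw [ee, So_succ, ee, ee]
  congr 1
  simp only [zero_add]
  have c : dD z i (l+1) * FT z i = FT z i * dD z i (l+1) := by
    have := comm_far le_rfl (FT_mem (z := z) i) (dD z 0 (l+1))
    rw [sn_dD, add_zero] at this
    exact this.symm
  have e : dD z i (l+1) * FT z (i+1) * dS z i (l+1) = FT z i * JJ z (i+l+1) := by
    rw [FT, ← mul_assoc, c, mul_assoc, mul_assoc, ← mul_assoc (dD z i (l+1)), dD_JJ_dS, ← add_assoc]
  rw [e, So_pull_right]
  intro j hj
  rw [zero_add]
  exact (JJ_comm (gs_mem (by omega))).symm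

/-- alternating sum -/
noncomputable def Aa (z : B) (m : ℕ) : Hk z := ∑ i ∈ Finset.range (m+1), (-1 : B)^i • ee z i (m-i)
/-- weighted alternating sum -/
noncomputable def Da (z : B) (m : ℕ) : Hk z :=
  ∑ i ∈ Finset.range (m+1), ((-1 : B)^i * ((m - i : ℕ) : B)) • ee z i (m-i)

/-- common summation step -/
lemma alt_step (c d : ℕ → B) (m : ℕ) (hcd : ∀ i, i ≤ m → d (i+1) = - c i) :
    ∑ i ∈ Finset.range (m+2), d i • ee z i (m+1-i)
      = ∑ i ∈ Finset.range (m+1), d i • ee z i (m-i)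
        - (∑ i ∈ Finset.range (m+1), c i • ee z i (m-i)) * JJ z m := by
  rw [Finset.sum_range_succ', Finset.sum_range_succ _ m, Finset.sum_range_succ _ m]
  rw [show m + 1 - (m+1) = 0 by omega, Nat.sub_self, ee_top, ee_top, FT, Nat.sub_zero, ee_zero]
  have e : ∀ i ∈ Finset.range m, d (i+1) • ee z (i+1) (m+1-(i+1))
      = d (i+1) • ee z (i+1) (m-(i+1)) - (c i • ee z i (m-i)) * JJ z m := by
    intro i hi
    have hi' : i < m := by simpa using hi
    obtain ⟨l, rfl⟩ : ∃ l, m = i + l + 1 := ⟨m - i - 1, by omega⟩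
    rw [show i + l + 1 + 1 - (i+1) = l + 1 by omega, show i + l + 1 - (i+1) = l by omega,
      show i + l + 1 - i = l + 1 by omega, ee_succ, hcd i (by omega)]
    simp only [smul_add, neg_smul, smul_mul_assoc]
    abel
  rw [Finset.sum_congr rfl e, Finset.sum_sub_distrib, hcd m le_rfl, ← Finset.sum_mul]
  have e2 : ∑ i ∈ Finset.range (m+1), d i • ee z i (m-i)
      = ∑ i ∈ Finset.range m, d (i+1) • ee z (i+1) (m-(i+1)) + d 0 • 1 := by
    rw [Finset.sum_range_succ', Nat.sub_zero, ee_zero]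
  have e3 : ∑ i ∈ Finset.range (m+1), c i • ee z i (m-i)
      = ∑ i ∈ Finset.range m, c i • ee z i (m-i) + c m • FT z m := by
    rw [Finset.sum_range_succ, Nat.sub_self, ee_top]
  rw [Finset.sum_range_succ, Nat.sub_self, ee_top] at e2
  rw [e2, e3, add_mul, smul_mul_assoc, neg_smul]
  abel

lemma Aa_succ (m : ℕ) : Aa z (m+1) = Aa z m - Aa z m * JJ z m := by
  rw [Aa, alt_step (fun i => (-1)^i) (fun i => (-1)^i) m (fun i _ => by ring)]
  rfl

lemma Da_succ (m : ℕ) : Da z (m+1) = Aa z m + Da z m - Da z m * JJ z m := by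
  rw [Da, alt_step (fun i => (-1)^i * ((m - i : ℕ) : B)) (fun i => (-1)^i * ((m + 1 - i : ℕ) : B)) m
    (fun i _ => by rw [show m + 1 - (i+1) = m - i by omega]; ring)]
  have : ∑ i ∈ Finset.range (m+1), ((-1 : B)^i * ((m + 1 - i : ℕ) : B)) • ee z i (m-i)
      = Aa z m + Da z m := by
    rw [Aa, Da, ← Finset.sum_add_distrib]
    refine Finset.sum_congr rfl (fun i hi => ?_)
    have hi' : i ≤ m := by simp at hi; omega
    rw [← add_smul, show m + 1 - i = (m - i) + 1 by omega]
    congr 1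
    push_cast
    ring
  rw [this]
  rfl

lemma Aa_one_add (m : ℕ) : Aa z (m+1) = 0 := by
  induction m with
  | zero => rw [Aa_succ]; simp [JJ]
  | succ m ih => rw [Aa_succ, ih]; simp

lemma Da_one : Da z 1 = 1 := by
  rw [Da_succ]; simp [Aa, Da, JJ, ee_zero]

/-- the dual central element of rank `m+1` -/
noncomputable def Gm (z : B) (m : ℕ) : Hk z := No z 0 0 m (dS z 0 m)

@[simp] lemma Gm_zero : Gm z 0 = 1 := by simp [Gm]
lemma Gm_mem (m : ℕ) : Gm z m ∈ Hn z (m+1) := No_mem (by omega) (dS_mem (by omega))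

lemma Gm_succ_So (m : ℕ) : Gm z (m+1) = So z 0 0 m 1 (Gm z m * gs z m) := by
  rw [Gm, No_succ, Gm, dS_succ, zero_add]
  congr 1
  rw [No_pull_right]
  intro i hi
  rw [zero_add]
  exact gs_comm_Hn (n := m) le_rfl (gs_mem (by omega))

lemma Gm_succ {m : ℕ} (h : ∀ i, i + 1 < m + 1 → gs z i * Gm z m = Gm z m * gs z i) :
    Gm z (m+1) = Gm z m * Lt z (m+1) := by
  rw [Gm_succ_So, So_pull_left, Lt]
  intro i hi
  rw [zero_add]
  exact (h i (by omega)).symm

lemma Da_Gm (m : ℕ) (h : ∀ k < m, ∀ i, i + 1 < k + 1 → gs z i * Gm z k = Gm z k * gs z i) :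
    Da z (m+1) = (-z)^m • Gm z m := by
  induction m with
  | zero => simp [Da_one]
  | succ m ih =>
    rw [Da_succ, ih (fun k hk => h k (by omega)), Aa_one_add, Gm_succ (h m (by omega)), JJ_eq]
    simp only [mul_add, mul_one, mul_smul_comm, smul_mul_assoc, zero_add, sub_add_cancel_left]
    rw [smul_smul, ← neg_smul, pow_succ]
    congr 1
    ring

/-- norms from `Hn n` -/
noncomputable def Nm (z : B) (n : ℕ) : Submodule B (Hk z) :=
  (Subalgebra.toSubmodule (Hn z n)).map (No z 0 0 n)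

lemma mem_Nm {n : ℕ} {x : Hk z} : x ∈ Nm z n ↔ ∃ c ∈ Hn z n, No z 0 0 n c = x := by
  simp [Nm]

lemma Nm_comm {n : ℕ} {x h : Hk z} (hx : x ∈ Nm z n) (hh : h ∈ Hn z n) : h * x = x * h := by
  obtain ⟨c, _, rfl⟩ := mem_Nm.1 hx
  exact No_central0 hh c

/-- the unit is a norm -/
def Sep (z : B) (n : ℕ) : Prop := ∃ g ∈ Hn z n, No z 0 0 n g = 1

lemma ee_Nm {i l : ℕ} (h1 : Sep z i) (h2 : Sep z l) : ee z i l ∈ Nm z (i+l) := by
  obtain ⟨g, hg, e⟩ := h1
  obtain ⟨g', hg', e'⟩ := h2
  rw [ee, So_norm (g := g) (g' := g') _ _ hg e e']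
  · simp only [sn_zero, zero_add]
    refine mem_Nm.2 ⟨_, mul_mem (mul_mem (Hn_mono (by omega) (FT_mem i)) (Hn_mono (by omega) hg))
      (sn_mem hg'), rfl⟩
  · intro j hj
    simp only [zero_add]
    exact FT_gs i j hj
  · intro j hj
    simp only [zero_add]
    exact (gs_comm_Hn (n := i) (by omega) (FT_mem i)).symm

lemma Da_Nm (m : ℕ) (h : ∀ k, 0 < k → k < m+1 → Sep z k) :
    Da z (m+1) - ((m+1 : ℕ) : B) • 1 ∈ Nm z (m+1) := by
  rw [Da, Finset.sum_range_succ, Finset.sum_range_succ', Nat.sub_self, Nat.sub_zero, ee_zero]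
  simp only [pow_zero, one_mul, Nat.cast_zero, mul_zero, zero_smul, add_zero, add_sub_cancel_right]
  refine Submodule.sum_mem _ (fun i hi => Submodule.smul_mem _ _ ?_)
  have hi' : i < m := by simpa using hi
  have := ee_Nm (h (i+1) (by omega) (by omega)) (h (m+1-(i+1)) (by omega) (by omega))
  rwa [show i+1+(m+1-(i+1)) = m+1 by omega] at this

lemma Aa_Nm (m : ℕ) (h : ∀ k, 0 < k → k < m+1 → Sep z k) :
    1 + (-1 : B)^(m+1) • FT z (m+1) ∈ Nm z (m+1) := by
  have h0 := Aa_one_add (z := z) m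
  rw [Aa, Finset.sum_range_succ, Finset.sum_range_succ', Nat.sub_self, Nat.sub_zero, ee_zero, ee_top]
    at h0
  have e : 1 + (-1 : B)^(m+1) • FT z (m+1) = - ∑ i ∈ Finset.range m, (-1 : B)^(i+1) • ee z (i+1) (m+1-(i+1)) := by
    rw [eq_neg_iff_add_eq_zero, ← h0]
    simp only [pow_zero, one_smul]
    abel
  rw [e]
  refine Submodule.neg_mem _ (Submodule.sum_mem _ (fun i hi => Submodule.smul_mem _ _ ?_))
  have hi' : i < m := by simpa using hi
  have := ee_Nm (h (i+1) (by omega) (by omega)) (h (m+1-(i+1)) (by omega) (by omega))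
  rwa [show i+1+(m+1-(i+1)) = m+1 by omega] at this

lemma Da_central (m : ℕ) (h : ∀ k, 0 < k → k < m+1 → Sep z k) {x : Hk z} (hx : x ∈ Hn z (m+1)) :
    x * Da z (m+1) = Da z (m+1) * x := by
  have h1 := Nm_comm (Da_Nm m h) hx
  rw [mul_sub, sub_mul] at h1
  simpa using h1

lemma Gm_central_aux (hz : IsUnit z) (m : ℕ) (h : ∀ k, 0 < k → k < m+1 → Sep z k) :
    (∀ x ∈ Hn z (m+1), x * Gm z m = Gm z m * x) ∧ Da z (m+1) = (-z)^m • Gm z m := by
  induction m using Nat.strong_induction_on with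
  | _ m ih =>
    have e : Da z (m+1) = (-z)^m • Gm z m := by
      apply Da_Gm
      intro k hk i hi
      exact (ih k hk (fun j h0 h1 => h j h0 (by omega))).1 _ (gs_mem hi)
    refine ⟨fun x hx => ?_, e⟩
    have c := Da_central m h hx
    rw [e, mul_smul_comm, smul_mul_assoc] at c
    have hu : IsUnit ((-z)^m) := (hz.neg).pow m
    exact hu.smul_left_cancel.1 c

/-- the arithmetic conditions on the base ring -/
structure Arith (z : B) (p : ℕ) : Prop where
  hz : IsUnit z
  hb : ∀ k, 0 < k → k < p → IsUnit (bt z k)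
  hk : ∀ k, 0 < k → k < p → IsUnit ((k : ℕ) : B)

lemma sep_all {p : ℕ} (ar : Arith z p) : ∀ m, 0 < m → m < p → Sep z m := by
  intro m
  induction m using Nat.strong_induction_on with
  | _ m ih =>
    intro h0 h1
    obtain ⟨n, rfl⟩ : ∃ n, m = n + 1 := ⟨m - 1, by omega⟩
    have hs : ∀ k, 0 < k → k < n+1 → Sep z k := fun k a b => ih k b a (by omega)
    obtain ⟨_, e⟩ := Gm_central_aux ar.hz n hs
    obtain ⟨c, hc, ec⟩ := mem_Nm.1 (Da_Nm n hs)
    have nx := norm_xx (z := z) n
    have e3 : (-z)^n • No z 0 0 (n+1) (xx z (n+1)) = bt z (n+1) • (((n+1 : ℕ) : B) • 1 + No z 0 0 (n+1) c) := by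
      rw [nx, ec, smul_comm]
      have : No z 0 0 n (dS z 0 n) = Gm z n := rfl
      rw [this, ← e]
      congr 1
      abel
    have hu : IsUnit (bt z (n+1) * ((n+1 : ℕ) : B)) := (ar.hb _ h0 h1).mul (ar.hk _ h0 h1)
    obtain ⟨v, hv⟩ := hu.exists_left_inv
    refine ⟨v • ((-z)^n • xx z (n+1) - bt z (n+1) • c), Subalgebra.smul_mem _ (sub_mem
      (Subalgebra.smul_mem _ (xx_mem _) _) (Subalgebra.smul_mem _ hc _)) _, ?_⟩
    rw [map_smul, map_sub, map_smul, map_smul, e3, smul_add, add_sub_cancel_right, smul_smul, smul_smul,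
      mul_assoc, hv, one_smul]

end Pool.Agent.W5h66
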