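import Pool.Agent.W5h66.Fin
import Pool.Agent.W5h66.Mo
import Pool.Agent.W5h66.Blk

/-! Formal combinations of braid words and power sums. -/

namespace Pool.Agent.W5h66

section trs
variable {E K : Type*} [Field E] [CharZero E] [Field K] [Algebra E K] {q : K}

omit [CharZero E] in
lemma bt_ne (hq : Transcendental E q) {k : ℕ} (hk : 0 < k) : bt (q - q⁻¹) k ≠ 0 := by
  have h1 := bt_Qk hq hk
  intro h
  rw [h, zero_mul] at h1
  have h2 : Polynomial.aeval q (Qk E k) = 0 := pow_eq_zero_iff (two_ne_zero) |>.1 h1.symm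
  have h3 : Qk E k = 0 := ev_inj hq (by rw [h2, map_zero])
  exact (Qk_monic (E := E) hk).1.ne_zero h3

lemma GF_field (hq : Transcendental E q) (j : ℕ) : GF (q - q⁻¹) j := by
  refine GF_of (p := j + 2) ⟨(z_ne hq).isUnit, fun k hk _ => (bt_ne hq hk).isUnit, fun k hk _ => ?_⟩ (by omega)
  have h0 : (k : E) ≠ 0 := by exact_mod_cast hk.ne'
  have : (k : K) = algebraMap E K (k : E) := by simp
  rw [this]
  exact ((map_ne_zero _).2 h0).isUnit

omit [CharZero E] in
lemma pow_ne_one (hq : Transcendental E q) {k : ℕ} (hk : 0 < k) : q^k - 1 ≠ 0 := by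
  intro h
  have h3 : Polynomial.aeval q (Polynomial.X ^ k - 1 : Polynomial E)
      = Polynomial.aeval q (0 : Polynomial E) := by simpa using h
  have h4 := ev_inj hq h3
  have h5 := congrArg (Polynomial.eval 0) h4
  simp [show k ≠ 0 by omega] at h5

omit [CharZero E] in
lemma cS_ne (hq : Transcendental E q) (m : ℕ) : cS q m 1 ≠ 0 := by
  intro h
  have := cS_one_mul (q := q) m
  rw [h, zero_mul] at this
  exact pow_ne_one hq (by omega) this.symm

end trs

/-- formal combinations -/
abbrev CB (K : Type*) [Field K] := MonoidAlgebra K (FreeMonoid (ℕ × Bool))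

section comb
variable {K : Type*} [Field K]

/-- word as a combination -/
noncomputable def wdc (K : Type*) [Field K] (w : BW) : CB K := MonoidAlgebra.single (FreeMonoid.ofList w) 1
/-- shift -/
noncomputable def shc (K : Type*) [Field K] (m : ℕ) : CB K →ₐ[K] CB K :=
  MonoidAlgebra.mapDomainAlgHom K K (FreeMonoid.map fun x : ℕ × Bool => (m + x.1, x.2))
/-- linear extension -/
noncomputable def exc (H : ℕ → BW → K) (n : ℕ) (x : CB K) : K :=
  x.coeff.sum fun w c => c * H n (FreeMonoid.toList w)

lemma exc_add (H : ℕ → BW → K) (n : ℕ) (x y : CB K) : exc H n (x + y) = exc H n x + exc H n y := by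
  unfold exc
  rw [MonoidAlgebra.coeff_add, Finsupp.sum_add_index']
  · intro w; rw [zero_mul]
  · intro w b c; rw [add_mul]

lemma exc_smul (H : ℕ → BW → K) (n : ℕ) (c : K) (x : CB K) : exc H n (c • x) = c * exc H n x := by
  unfold exc
  rw [MonoidAlgebra.coeff_smul, Finsupp.sum_smul_index', Finsupp.mul_sum]
  · refine Finsupp.sum_congr (fun w _ => ?_)
    rw [smul_eq_mul, mul_assoc]
  · intro w; rw [zero_mul]

lemma exc_wdc (H : ℕ → BW → K) (n : ℕ) (w : BW) : exc H n (wdc K w) = H n w := by
  unfold exc wdc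
  rw [MonoidAlgebra.coeff_single, Finsupp.sum_single_index]
  · rw [one_mul]; rfl
  · rw [zero_mul]

lemma exc_zero (H : ℕ → BW → K) (n : ℕ) : exc H n 0 = 0 := by
  unfold exc; simp

lemma wdc_mul (u v : BW) : wdc K u * wdc K v = wdc K (u ++ v) := by
  unfold wdc
  rw [MonoidAlgebra.single_mul_single, one_mul]; rfl

lemma shc_wdc (m : ℕ) (w : BW) : shc K m (wdc K w) = wdc K (shb m w) := by
  unfold shc wdc
  rw [MonoidAlgebra.mapDomainAlgHom_apply, MonoidAlgebra.mapDomain_single]
  rfl

/-- combinations of words on `n` strands -/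
noncomputable def VS (K : Type*) [Field K] (n : ℕ) : Submodule K (CB K) :=
  Submodule.span K {x | ∃ w : BW, Valid n w ∧ x = wdc K w}

lemma wdc_mem {n : ℕ} {w : BW} (h : Valid n w) : wdc K w ∈ VS K n := Submodule.subset_span ⟨w, h, rfl⟩

lemma VS_mono {n m : ℕ} (h : n ≤ m) : VS K n ≤ VS K m :=
  Submodule.span_mono (fun _ ⟨w, hw, e⟩ => ⟨w, hw.mono h, e⟩)

lemma VS_mul {n : ℕ} {x y : CB K} (hx : x ∈ VS K n) (hy : y ∈ VS K n) : x * y ∈ VS K n := by
  induction hx using Submodule.span_induction with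
  | mem x hx =>
    obtain ⟨u, hu, rfl⟩ := hx
    induction hy using Submodule.span_induction with
    | mem y hy => obtain ⟨v, hv, rfl⟩ := hy; rw [wdc_mul]; exact wdc_mem (hu.append hv)
    | zero => rw [mul_zero]; exact zero_mem _
    | add a b _ _ ha hb => rw [mul_add]; exact add_mem ha hb
    | smul c a _ ha => rw [mul_smul_comm]; exact Submodule.smul_mem _ _ ha
  | zero => rw [zero_mul]; exact zero_mem _
  | add a b _ _ ha hb => rw [add_mul]; exact add_mem ha hb
  | smul c a _ ha => rw [smul_mul_assoc]; exact Submodule.smul_mem _ _ ha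

lemma VS_shc {n : ℕ} (m : ℕ) {x : CB K} (hx : x ∈ VS K n) : shc K m x ∈ VS K (m+n) := by
  induction hx using Submodule.span_induction with
  | mem x hx => obtain ⟨u, hu, rfl⟩ := hx; rw [shc_wdc]; exact wdc_mem hu.shb
  | zero => rw [map_zero]; exact zero_mem _
  | add a b _ _ ha hb => rw [map_add]; exact add_mem ha hb
  | smul c a _ ha => rw [map_smul]; exact Submodule.smul_mem _ _ ha

lemma VS_one (n : ℕ) : (1 : CB K) ∈ VS K n := by
  have : (1 : CB K) = wdc K [] := rfl
  rw [this]; exact wdc_mem (Valid.nil n)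

variable {z : K}

/-- evaluation in the Hecke algebra -/
noncomputable def sva (z : K) : CB K →ₐ[K] Hk z :=
  MonoidAlgebra.lift K (Hk z) (FreeMonoid (ℕ × Bool)) (FreeMonoid.lift fun x => if x.2 then gs z x.1 else gi z x.1)

lemma sva_wdc (w : BW) : sva z (wdc K w) = sv z w := by
  unfold sva wdc
  rw [MonoidAlgebra.lift_single, one_smul, FreeMonoid.lift_apply]
  rfl

lemma sva_shc (m : ℕ) (x : CB K) : sva z (shc K m x) = sn m (sva z x) := by
  have : (sva z).comp (shc K m) = (sn m : Hk z →ₐ[K] Hk z).comp (sva z) := by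
    refine MonoidAlgebra.algHom_ext (fun w => ?_) ?_
    · have e : (MonoidAlgebra.single w (1 : K)) = wdc K (FreeMonoid.toList w) := rfl
      rw [e, AlgHom.comp_apply, AlgHom.comp_apply, shc_wdc, sva_wdc, sva_wdc, sv_shb]
    · refine AlgHom.ext fun c => ?_
      exact (AlgHom.commutes (((sva z).comp (shc K m)).comp (MonoidAlgebra.singleOneAlgHom)) c).trans
        (AlgHom.commutes (((sn m : Hk z →ₐ[K] Hk z).comp (sva z)).comp (MonoidAlgebra.singleOneAlgHom)) c).symm
  exact congrArg (fun f => f x) this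

lemma sva_mem {n : ℕ} {x : CB K} (hx : x ∈ VS K n) : sva z x ∈ Hn z n := by
  induction hx using Submodule.span_induction with
  | mem x hx =>
    obtain ⟨u, hu, rfl⟩ := hx
    rw [sva_wdc]
    clear x
    induction u with
    | nil => exact one_mem _
    | cons y u ih =>
      rw [sv_cons]
      refine mul_mem ?_ (ih (fun a ha => hu a (by simp [ha])))
      have := hu y (by simp)
      split_ifs
      · exact gs_mem this
      · exact gi_mem this
  | zero => rw [map_zero]; exact zero_mem _
  | add a b _ _ ha hb => rw [map_add]; exact add_mem ha hb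
  | smul c a _ ha => rw [map_smul]; exact Subalgebra.smul_mem _ ha _

lemma exc_eq {H : ℕ → BW → K} {t : Hk z →ₗ[K] K} {δ : K}
    (ht : ∀ n w, 1 ≤ n → Valid n w → δ^n * t (sv z w) = H n w) {n : ℕ} (hn : 1 ≤ n) {x : CB K}
    (hx : x ∈ VS K n) : exc H n x = δ^n * t (sva z x) := by
  induction hx using Submodule.span_induction with
  | mem x hx => obtain ⟨u, hu, rfl⟩ := hx; rw [exc_wdc, sva_wdc, ht n u hn hu]
  | zero => rw [exc_zero, map_zero, map_zero, mul_zero]
  | add a b _ _ ha hb => rw [exc_add, ha, hb, map_add, map_add]; ring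
  | smul c a _ ha => rw [exc_smul, ha, map_smul, map_smul, smul_eq_mul]; ring

/-- quantum symmetrizer as a combination of words -/
noncomputable def symc (q : K) : ℕ → CB K
  | 0 => 1
  | n+1 => (∑ j ∈ Finset.range (n+1), q^j • wdc K ((List.range j).map fun i => (n - j + i, true))) * symc q n

/-- normalised symmetrizer -/
noncomputable def hhc (q : K) (n : ℕ) : CB K :=
  (∏ k ∈ Finset.range n, ∑ j ∈ Finset.range (k+1), q^(2*j))⁻¹ • symc q n

/-- iterated Newton recursion -/
noncomputable def nwc (q : K) : ℕ → ℕ → CB K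
  | 0 => fun _ => 0
  | k+1 => fun m => (m : K) • hhc q m - ∑ r ∈ Finset.range m, nwc q k r * shc K r (hhc q (m - r))

/-- power sum -/
noncomputable def pwc (q : K) (d : ℕ) : CB K := nwc q d d

lemma shw_one (n : ℕ) : shw n 1 = (List.range (n+1)).map fun j => (List.range j).map fun i => n - j + i := by
  induction n with
  | zero => rfl
  | succ n ih =>
    have e : shw (n+1) 1 = [[]] ++ (shw n 1).map (· ++ [n]) := rfl
    rw [e, ih, List.range_succ_eq_map (n := n+1), List.map_cons, List.map_map, List.map_map]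
    simp only [List.range_zero, List.map_nil, List.singleton_append, List.cons.injEq, true_and]
    apply List.map_congr_left
    intro j hj
    rw [List.mem_range] at hj
    simp only [Function.comp_apply, Nat.succ_eq_add_one]
    rw [List.range_succ, List.map_append, show n + 1 - (j + 1) = n - j by omega]
    simp; omega

lemma sva_symc (q : K) (n : ℕ) : sva (q - q⁻¹) (symc q n) = SY q n := by
  induction n with
  | zero => rw [symc, map_one, SY_zero]
  | succ n ih =>
    rw [symc, map_mul, ih, map_sum]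
    unfold SY
    rw [nnw, List.map_flatMap]
    have e1 : ∀ (L : List (List ℕ)) (G : List ℕ → List (Hk (q - q⁻¹))), (L.flatMap G).sum = (L.map fun c => (G c).sum).sum := by
      intro L G
      induction L with
      | nil => rfl
      | cons c L ih => rw [List.flatMap_cons, List.sum_append, ih, List.map_cons, List.sum_cons]
    rw [e1, shw_one, List.map_map]
    have e2 : ∀ (f : ℕ → Hk (q - q⁻¹)) (m : ℕ), ∑ j ∈ Finset.range m, f j = ((List.range m).map f).sum := by
      intro f m
      induction m with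
      | zero => simp
      | succ m ih => rw [Finset.sum_range_succ, ih, List.range_succ]; simp
    rw [e2, ← List.sum_map_mul_right]
    congr 1
    apply List.map_congr_left
    intro j _
    simp only [Function.comp_apply, List.map_map]
    rw [map_smul, sva_wdc]
    have e3 : sv (q - q⁻¹) ((List.range j).map fun i => (n - j + i, true))
        = wv (gs (q - q⁻¹)) ((List.range j).map fun i => n - j + i) := by
      unfold sv wv
      rw [List.map_map, List.map_map]
      congr 1
    rw [e3, ← List.sum_map_mul_left]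
    congr 1
    apply List.map_congr_left
    intro w _
    simp only [Function.comp_apply, List.length_append, List.length_map, List.length_range]
    rw [wv_append, pow_add, smul_mul_smul_comm]

lemma cN_prod (q : K) (hq : q ≠ 0) (n : ℕ) :
    cN q n = ∏ k ∈ Finset.range n, ∑ j ∈ Finset.range (k+1), q^(2*j) := by
  induction n with
  | zero => simp [cN_zero]
  | succ n ih => rw [cN_succ hq, ih, Finset.prod_range_succ, cS_one, mul_comm]

lemma sva_hhc (q : K) (hq : q ≠ 0) (n : ℕ) : sva (q - q⁻¹) (hhc q n) = hH q n := by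
  rw [hhc, map_smul, sva_symc, ← cN_prod q hq]; rfl

lemma symc_mem (q : K) (n : ℕ) : symc q n ∈ VS K n := by
  induction n with
  | zero => exact VS_one 0
  | succ n ih =>
    rw [symc]
    refine VS_mul (Submodule.sum_mem _ (fun j hj => Submodule.smul_mem _ _ (wdc_mem ?_))) (VS_mono (by omega) ih)
    intro x hx
    obtain ⟨i, hi, rfl⟩ := List.mem_map.1 hx
    rw [List.mem_range] at hi
    rw [Finset.mem_range] at hj
    simp only; omega

lemma hhc_mem (q : K) (n : ℕ) : hhc q n ∈ VS K n := Submodule.smul_mem _ _ (symc_mem q n)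

lemma nwc_zero (q : K) (m : ℕ) : nwc q 0 m = 0 := rfl
lemma nwc_succ (q : K) (k m : ℕ) : nwc q (k+1) m = (m : K) • hhc q m
    - ∑ r ∈ Finset.range m, nwc q k r * shc K r (hhc q (m - r)) := rfl

lemma nwc_mem (q : K) (k m : ℕ) : nwc q k m ∈ VS K m := by
  induction k generalizing m with
  | zero => rw [nwc_zero]; exact zero_mem _
  | succ k ih =>
    rw [nwc_succ]
    refine sub_mem (Submodule.smul_mem _ _ (hhc_mem q m)) (Submodule.sum_mem _ (fun r hr => ?_))
    rw [Finset.mem_range] at hr
    refine VS_mul (VS_mono hr.le (ih r)) ?_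
    have := VS_shc r (hhc_mem q (m - r))
    rwa [show r + (m - r) = m by omega] at this

lemma nwc_at_zero (q : K) (k : ℕ) : nwc q k 0 = 0 := by
  rcases k with _ | k
  · exact nwc_zero q 0
  · rw [nwc_succ, Finset.range_zero, Finset.sum_empty, Nat.cast_zero, zero_smul, sub_zero]

lemma nwc_stab (q : K) (m : ℕ) : ∀ k, m ≤ k → nwc q k m = nwc q m m := by
  induction m using Nat.strong_induction_on with
  | _ m IH =>
  intro k hk
  rcases m with _ | m
  · rw [nwc_at_zero, nwc_at_zero]
  · obtain ⟨k, rfl⟩ : ∃ j, k = j + 1 := ⟨k - 1, by omega⟩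
    rw [nwc_succ q k (m+1), nwc_succ q m (m+1)]
    congr 1
    refine Finset.sum_congr rfl (fun r hr => ?_)
    rw [Finset.mem_range] at hr
    rw [IH r hr k (by omega), IH r hr m (by omega)]

lemma pwc_succ (q : K) (m : ℕ) : pwc q (m+1) = ((m+1 : ℕ) : K) • hhc q (m+1)
    - ∑ r ∈ Finset.range (m+1), pwc q r * shc K r (hhc q (m+1-r)) := by
  rw [pwc, nwc_succ]
  congr 1
  refine Finset.sum_congr rfl (fun r hr => ?_)
  rw [Finset.mem_range] at hr
  rw [nwc_stab q r m (by omega)]; rfl

end comb

section fin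
variable {E K : Type*} [Field E] [CharZero E] [Field K] [Algebra E K] {q : K} {a : E}

/-- decorated cables as sums of words -/
theorem dec_eq (hq : Transcendental E q) (ha : a ≠ 0) (ha2 : a^2 ≠ 1) {H : ℕ → BW → K}
    (hH : HF (q - q⁻¹) (algebraMap E K a) H) {d : ℕ} (hd : 0 < d) {n : ℕ} {w : BW} (hn : 1 ≤ n)
    (hw : Valid n w) {T : Finset ℕ} (hT : IsTr n (prm w) T) {L : List ℕ} (hL : L.Nodup)
    (hLT : L.toFinset = T) :
    exc H (n*d) (wdc K (cable d w) * (L.map fun i => shc K (i*d) (pwc q d)).prod)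
      = (qn q d)⁻¹ ^ L.length * ((fills d L).map fun u => H (n*d) (cable d w ++ u)).sum := by
  have hq0 := q_ne hq
  have hz0 := z_ne hq
  set A := algebraMap E K a with hA
  have hA0 : A ≠ 0 := by rw [hA]; exact (map_ne_zero _).2 ha
  have hAA : A - A⁻¹ ≠ 0 := by
    intro h
    apply ha2
    have h2 : A * A = 1 := by
      have : A = A⁻¹ := sub_eq_zero.1 h
      calc A * A = A * A⁻¹ := by rw [← this]
        _ = 1 := mul_inv_cancel₀ hA0
    have h3 : algebraMap E K (a^2) = algebraMap E K 1 := by rw [map_pow, map_one, sq]; exact h2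
    exact (algebraMap E K).injective h3
  have hδ0 : (A - A⁻¹) * (q - q⁻¹)⁻¹ ≠ 0 := mul_ne_zero hAA (inv_ne_zero hz0)
  obtain ⟨t, ht, _, htv⟩ := exists_trace (B := K) (K := K) (z := q - q⁻¹) (a := A) (H := H)
    (κ := A * ((q - q⁻¹) * (A - A⁻¹)⁻¹)) (δK := (A - A⁻¹) * (q - q⁻¹)⁻¹) hH hz0
    (by
      show (q - q⁻¹) * ((A - A⁻¹) * (q - q⁻¹)⁻¹) = A - A⁻¹
      rw [mul_comm (A - A⁻¹), mul_inv_cancel_left₀ hz0]) hδ0
    (by
      show A * ((q - q⁻¹) * (A - A⁻¹)⁻¹) * ((A - A⁻¹) * (q - q⁻¹)⁻¹) = A
      calc _ = A * ((q - q⁻¹) * (q - q⁻¹)⁻¹) * ((A - A⁻¹)⁻¹ * (A - A⁻¹)) := by ring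
        _ = A := by rw [mul_inv_cancel₀ hz0, inv_mul_cancel₀ hAA]; ring)
  have hnd : 1 ≤ n * d := Nat.mul_pos hn hd
  have hlt : ∀ i ∈ L, i < n := fun i hi => hT.lt i (by rw [← hLT]; simpa using hi)
  have hV : (L.map fun i => shc K (i*d) (pwc q d)).prod ∈ VS K (n*d) := by
    have : ∀ L : List ℕ, (∀ i ∈ L, i < n) → (L.map fun i => shc K (i*d) (pwc q d)).prod ∈ VS K (n*d) := by
      intro L
      induction L with
      | nil => intro _; exact VS_one _
      | cons i L ih =>
        intro h
        rw [List.map_cons, List.prod_cons]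
        refine VS_mul ?_ (ih (fun j hj => h j (by simp [hj])))
        have h1 := VS_shc (i*d) (nwc_mem q d d)
        have h2 := Nat.mul_le_mul_right d (show i + 1 ≤ n from h i (by simp))
        rw [Nat.succ_mul] at h2
        exact VS_mono h2 h1
    exact this L hlt
  rw [exc_eq htv hnd (VS_mul (wdc_mem (valid_cable hw)) hV), map_mul, sva_wdc, sv_cable]
  have e1 : sva (q - q⁻¹) (L.map fun i => shc K (i*d) (pwc q d)).prod = PL (q - q⁻¹) d (sva (q - q⁻¹) (pwc q d)) L := by
    rw [map_list_prod, List.map_map]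
    unfold PL
    congr 1
    apply List.map_congr_left
    intro i _
    exact sva_shc _ _
  rw [e1]
  have hrep : ∀ f : Hk (q - q⁻¹) →ₗ[K] K, (∀ u ∈ Hn (q - q⁻¹) d, ∀ y ∈ Hn (q - q⁻¹) d, f (u * y) = f (y * u)) →
      f (sva (q - q⁻¹) (pwc q d)) = (qn q d)⁻¹ • f (xx (q - q⁻¹) d) := by
    intro f hf
    refine power_sum (p := fun m => sva (q - q⁻¹) (pwc q m)) hq0 hz0 (cS_ne hq) (GF_field hq) ?_ ?_ d hd hf
    · show sva (q - q⁻¹) (nwc q 0 0) = 0
      rw [nwc_zero, map_zero]
    · intro m
      rw [pwc_succ, map_sub, map_smul, map_sum, sva_hhc q hq0]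
      congr 1
      refine Finset.sum_congr rfl (fun r _ => ?_)
      rw [map_mul, sva_shc, sva_hhc q hq0]
  rw [replace ht.tr hw hT (sva_mem (x := pwc q d) (nwc_mem q d d)) (xx_mem d) hrep L hL
    (fun i hi => by rw [← hLT]; simpa using hi), PL_XT d hL, smul_eq_mul, ← sv_fills d hL, mul_left_comm]
  congr 1
  rw [← List.sum_map_mul_left, map_list_sum, List.map_map, ← List.sum_map_mul_left]
  congr 1
  apply List.map_congr_left
  intro u hu
  rw [Function.comp_apply, ← sv_cable, ← sv_append]
  exact htv _ _ hnd ((valid_cable hw).append (valid_fills hlt hu))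

end fin

end Pool.Agent.W5h66
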