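import Pool.Agent.W5h66.Core

/-! From a framed invariant to a trace on the Hecke algebra. -/

namespace Pool.Agent.W5h66

universe u v

section desc
variable {B : Type u} [CommRing B] {M : Type v} [AddCommGroup M] [Module B M]

/-- relations for values on words -/
structure WR (z : B) (τ : List ℕ → M) : Prop where
  quad : ∀ u v i, τ (u ++ ([i,i] ++ v)) = τ (u ++ v) + z • τ (u ++ ([i] ++ v))
  far : ∀ u v i j, i + 2 ≤ j → τ (u ++ ([i,j] ++ v)) = τ (u ++ ([j,i] ++ v))
  br : ∀ u v i, τ (u ++ ([i,i+1,i] ++ v)) = τ (u ++ ([i+1,i,i+1] ++ v))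

/-- functions on words satisfying the relations -/
def WN (z : B) (M : Type v) [AddCommGroup M] [Module B M] : Submodule B (List ℕ → M) where
  carrier := {τ | WR z τ}
  add_mem' := by
    rintro x y hx hy
    refine ⟨fun u v i => ?_, fun u v i j h => ?_, fun u v i => ?_⟩
    · simp only [Pi.add_apply, hx.quad u v i, hy.quad u v i, smul_add]; abel
    · simp only [Pi.add_apply, hx.far u v i j h, hy.far u v i j h]
    · simp only [Pi.add_apply, hx.br u v i, hy.br u v i]
  zero_mem' := by
    refine ⟨fun u v i => ?_, fun u v i j h => ?_, fun u v i => ?_⟩ <;> simp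
  smul_mem' := by
    rintro c x hx
    refine ⟨fun u v i => ?_, fun u v i j h => ?_, fun u v i => ?_⟩
    · simp only [Pi.smul_apply, hx.quad u v i, smul_add]; rw [smul_comm]
    · simp only [Pi.smul_apply, hx.far u v i j h]
    · simp only [Pi.smul_apply, hx.br u v i]

lemma WN_rel {z : B} (σ : WN z M) : WR z σ.1 := σ.2

/-- right extension operator -/
def Sop (z : B) (M : Type v) [AddCommGroup M] [Module B M] (i : ℕ) : Module.End B (WN z M) where
  toFun σ := ⟨fun l => σ.1 (l ++ [i]), by
    refine ⟨fun u v j => ?_, fun u v j k h => ?_, fun u v j => ?_⟩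
    · simpa only [List.append_assoc] using (WN_rel σ).quad u (v ++ [i]) j
    · simpa only [List.append_assoc] using (WN_rel σ).far u (v ++ [i]) j k h
    · simpa only [List.append_assoc] using (WN_rel σ).br u (v ++ [i]) j⟩
  map_add' _ _ := rfl
  map_smul' _ _ := rfl

lemma Sop_apply (z : B) (i : ℕ) (σ : WN z M) (l : List ℕ) : (Sop z M i σ).1 l = σ.1 (l ++ [i]) := rfl

/-- representation on functions of words -/
noncomputable def Slift (z : B) (M : Type v) [AddCommGroup M] [Module B M] :
    Hk z →ₐ[B] Module.End B (WN z M) :=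
  hlift (Sop z M)
    (by
      intro i
      ext σ l
      have := (WN_rel σ).quad l [] i
      simp only [List.append_nil] at this
      show σ.1 (l ++ [i] ++ [i]) = σ.1 l + z • σ.1 (l ++ [i])
      rw [List.append_assoc]; exact this)
    (by
      intro i j h
      ext σ l
      have := (WN_rel σ).far l [] i j h
      simp only [List.append_nil] at this
      show σ.1 (l ++ [i] ++ [j]) = σ.1 (l ++ [j] ++ [i])
      rw [List.append_assoc, List.append_assoc]; exact this)
    (by
      intro i
      ext σ l
      have := (WN_rel σ).br l [] i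
      simp only [List.append_nil] at this
      show σ.1 (l ++ [i] ++ [i+1] ++ [i]) = σ.1 (l ++ [i+1] ++ [i] ++ [i+1])
      simp only [List.append_assoc]; exact this)

lemma Slift_wv (z : B) (l : List ℕ) (σ : WN z M) (m : List ℕ) :
    (Slift z M (wv (gs z) l) σ).1 m = σ.1 (m ++ l) := by
  induction l generalizing m with
  | nil => simp
  | cons i l ih =>
    rw [wv_cons, map_mul, Module.End.mul_apply]
    have : Slift z M (gs z i) = Sop z M i := hlift_gs _ _ _ _ _
    rw [this, Sop_apply, ih]
    simp

theorem desc {z : B} {τ : List ℕ → M} (h : WR z τ) :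
    ∃ t : Hk z →ₗ[B] M, ∀ l, t (wv (gs z) l) = τ l := by
  let σ : WN z M := ⟨τ, h⟩
  refine ⟨{ toFun := fun x => (Slift z M x σ).1 [], map_add' := ?_, map_smul' := ?_ }, ?_⟩
  · intro x y; rw [map_add]; rfl
  · intro c x; rw [map_smul]; rfl
  · intro l
    show (Slift z M (wv (gs z) l) σ).1 [] = τ l
    rw [Slift_wv]; rfl

end desc

section span
variable {B : Type u} [CommRing B] {z : B}

lemma wv_span {n : ℕ} {x : Hk z} (hx : x ∈ Hn z n) :
    x ∈ Submodule.span B {y | ∃ l : List ℕ, (∀ i ∈ l, i + 1 < n) ∧ y = wv (gs z) l} := by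
  have key : ∀ y ∈ Submodule.span B {y | ∃ l : List ℕ, (∀ i ∈ l, i + 1 < n) ∧ y = wv (gs z) l},
      x * y ∈ Submodule.span B {y | ∃ l : List ℕ, (∀ i ∈ l, i + 1 < n) ∧ y = wv (gs z) l} := by
    induction hx using Hn_induction with
    | hs i hi =>
      intro y hy
      induction hy using Submodule.span_induction with
      | mem y hy =>
        obtain ⟨l, hl, rfl⟩ := hy
        refine Submodule.subset_span ⟨i :: l, ?_, (wv_cons _ _ _).symm⟩
        intro j hj
        rcases List.mem_cons.1 hj with rfl | hj
        · exact hi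
        · exact hl j hj
      | zero => rw [mul_zero]; exact zero_mem _
      | add a b _ _ ha hb => rw [mul_add]; exact add_mem ha hb
      | smul c a _ ha => rw [mul_smul_comm]; exact Submodule.smul_mem _ _ ha
    | hc r => intro y hy; rw [← Algebra.smul_def]; exact Submodule.smul_mem _ _ hy
    | ha a b _ _ ha hb => intro y hy; rw [add_mul]; exact add_mem (ha y hy) (hb y hy)
    | hm a b _ _ ha hb => intro y hy; rw [mul_assoc]; exact ha _ (hb y hy)
  have := key 1 (Submodule.subset_span ⟨[], by simp, by simp⟩)
  rwa [mul_one] at this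

lemma wv_span_all (x : Hk z) : x ∈ Submodule.span B (Set.range (wv (gs z))) := by
  obtain ⟨n, hn⟩ := mem_Hn_top x
  refine Submodule.span_mono ?_ (wv_span hn)
  rintro y ⟨l, _, rfl⟩
  exact ⟨l, rfl⟩

end span

/-! ### the trace attached to an invariant -/

section tc
variable {B : Type u} [CommRing B] {K : Type v} [Field K] [Algebra B K] {z δ a κ : B} {H : ℕ → BW → K}

lemma posw_append (u v : List ℕ) : posw (u ++ v) = posw u ++ posw v := by simp [posw]
lemma posw_cons (i : ℕ) (v : List ℕ) : posw (i :: v) = (i,true) :: posw v := by simp [posw]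

lemma valid_posw {n : ℕ} {l : List ℕ} : Valid n (posw l) ↔ ∀ i ∈ l, i + 1 < n := by
  constructor
  · intro h i hi
    exact h (i,true) (by simp [posw, hi])
  · rintro h ⟨i, e⟩ hx
    simp only [posw, List.mem_map, Prod.mk.injEq] at hx
    obtain ⟨j, hj, rfl, _⟩ := hx
    exact h j hj

section inv
variable {zK aK δK : K}

lemma HF.st1 (h : HF zK aK H) (hz : zK ≠ 0) (hd : zK * δK = aK - aK⁻¹) {n : ℕ} {w : BW} (hn : 1 ≤ n)
    (hw : Valid n w) : H (n+1) w = δK * H n w := by
  have := h.split hn hw
  rw [← hd, mul_assoc] at this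
  exact mul_left_cancel₀ hz this

lemma HF.stk (h : HF zK aK H) (hz : zK ≠ 0) (hd : zK * δK = aK - aK⁻¹) {n : ℕ} {w : BW} (hn : 1 ≤ n)
    (hw : Valid n w) (k : ℕ) : H (n+k) w = δK^k * H n w := by
  induction k with
  | zero => simp
  | succ k ih =>
    rw [← add_assoc, h.st1 hz hd (by omega) (hw.mono (by omega)), ih, pow_succ]; ring

lemma HF.skc (h : HF zK aK H) {n i : ℕ} {u v : BW} (hn : 1 ≤ n) (hu : Valid n u) (hv : Valid n v)
    (hi : i + 1 < n) : H n (u ++ (i,true) :: v) - H n (u ++ (i,false) :: v) = zK * H n (u ++ v) := by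
  rw [h.cj n u _ hn (hu.append (hv.cons hi)), h.cj n u _ hn (hu.append (hv.cons hi)),
    h.cj n u v hn (hu.append hv)]
  exact h.sk n (v ++ u) i hn (hv.append hu) hi

lemma HF.qd (h : HF zK aK H) {n i : ℕ} {v : BW} (hn : 1 ≤ n) (hv : Valid n v)
    (hi : i + 1 < n) : H n ((i,true) :: (i,true) :: v) = H n v + zK * H n ((i,true) :: v) := by
  have hnil : Valid n [(i,true)] := (Valid.nil n).cons hi
  have h1 := h.sk n (v ++ [(i,true)]) i hn (hv.append hnil) hi
  have h2 := h.cj n [(i,true)] ((i,true) :: v) hn ((hv.cons hi).cons hi)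
  have h3 := h.cj n [(i,true)] ((i,false) :: v) hn ((hv.cons hi).cons hi)
  have h4 := h.cj n [(i,true)] v hn (hv.cons hi)
  have h5 := h.cn n v i hn hv hi
  simp only [List.cons_append, List.nil_append] at h2 h3 h4
  rw [← h4, ← h2, ← h3, h5] at h1
  linear_combination h1

end inv

variable (B) in
/-- bound for a word -/
def bd (l : List ℕ) : ℕ := l.sum + 2

lemma bd_valid (l : List ℕ) : Valid (bd l) (posw l) := by
  rw [valid_posw]
  intro i hi
  have := List.single_le_sum (l := l) (by simp) i hi
  unfold bd; omega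

/-- value on positive words -/
noncomputable def tv (H : ℕ → BW → K) (δK : K) (l : List ℕ) : K := H (bd l) (posw l) / δK ^ (bd l)

lemma tv_eq {zK aK δK : K} (h : HF zK aK H) (hz : zK ≠ 0) (hd : zK * δK = aK - aK⁻¹) (hδ : δK ≠ 0)
    {n : ℕ} {l : List ℕ} (hn : 1 ≤ n) (hl : Valid n (posw l)) : tv H δK l = H n (posw l) / δK ^ n := by
  have hb : 1 ≤ bd l := by unfold bd; omega
  have h1 := h.stk hz hd hn hl (bd l)
  have h2 := h.stk hz hd hb (bd_valid l) n
  rw [add_comm, h1] at h2
  unfold tv
  rw [div_eq_div_iff (pow_ne_zero _ hδ) (pow_ne_zero _ hδ)]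
  linear_combination -h2

theorem tv_WR (hH : HF (algebraMap B K z) (algebraMap B K a) H) (hz : algebraMap B K z ≠ 0)
    {δK : K} (hd : algebraMap B K z * δK = algebraMap B K a - (algebraMap B K a)⁻¹) (hδ : δK ≠ 0) :
    WR z (tv H δK) := by
  have hv : ∀ (n : ℕ) (u v : List ℕ), (∀ i ∈ u, i + 1 < n) → (∀ i ∈ v, i + 1 < n) →
      ∀ i ∈ u ++ v, i + 1 < n := by
    intro n u v hu hv i hi
    rcases List.mem_append.1 hi with h | h
    · exact hu i h
    · exact hv i h
  refine ⟨fun u v i => ?_, fun u v i j h => ?_, fun u v i => ?_⟩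
  · obtain ⟨n, hn⟩ : ∃ n, n = bd u + bd v + i + 2 := ⟨_, rfl⟩
    have hu : Valid n (posw u) := (bd_valid u).mono (by omega)
    have hv : Valid n (posw v) := (bd_valid v).mono (by omega)
    have hn1 : 1 ≤ n := by omega
    have hi : i + 1 < n := by omega
    have e1 : posw (u ++ ([i,i] ++ v)) = posw u ++ ((i,true) :: (i,true) :: posw v) := by simp [posw]
    have e2 : posw (u ++ v) = posw u ++ posw v := by simp [posw]
    have e3 : posw (u ++ ([i] ++ v)) = posw u ++ ((i,true) :: posw v) := by simp [posw]
    have v1 : Valid n (posw u ++ ((i,true) :: (i,true) :: posw v)) := hu.append ((hv.cons hi).cons hi)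
    have v2 : Valid n (posw u ++ posw v) := hu.append hv
    have v3 : Valid n (posw u ++ ((i,true) :: posw v)) := hu.append (hv.cons hi)
    rw [tv_eq hH hz hd hδ hn1 (by rw [e1]; exact v1), tv_eq hH hz hd hδ hn1 (by rw [e2]; exact v2),
      tv_eq hH hz hd hδ hn1 (by rw [e3]; exact v3), e1, e2, e3, hH.cj n _ _ hn1 v1, hH.cj n _ _ hn1 v2,
      hH.cj n _ _ hn1 v3]
    simp only [List.cons_append]
    rw [hH.qd hn1 (hv.append hu) hi, Algebra.smul_def]
    ring
  · obtain ⟨n, hn⟩ : ∃ n, n = bd u + bd v + i + j + 2 := ⟨_, rfl⟩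
    have hu : Valid n (posw u) := (bd_valid u).mono (by omega)
    have hv : Valid n (posw v) := (bd_valid v).mono (by omega)
    have hn1 : 1 ≤ n := by omega
    have hi : i + 1 < n := by omega
    have hj : j + 1 < n := by omega
    have e1 : posw (u ++ ([i,j] ++ v)) = posw u ++ ((i,true) :: (j,true) :: posw v) := by simp [posw]
    have e2 : posw (u ++ ([j,i] ++ v)) = posw u ++ ((j,true) :: (i,true) :: posw v) := by simp [posw]
    have v1 : Valid n (posw u ++ ((i,true) :: (j,true) :: posw v)) := hu.append ((hv.cons hj).cons hi)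
    have v2 : Valid n (posw u ++ ((j,true) :: (i,true) :: posw v)) := hu.append ((hv.cons hi).cons hj)
    rw [tv_eq hH hz hd hδ hn1 (by rw [e1]; exact v1), tv_eq hH hz hd hδ hn1 (by rw [e2]; exact v2),
      e1, e2, hH.cj n _ _ hn1 v1, hH.cj n _ _ hn1 v2]
    simp only [List.cons_append]
    rw [hH.cm n _ i j hn1 (hv.append hu) hi hj h]
  · obtain ⟨n, hn⟩ : ∃ n, n = bd u + bd v + i + 3 := ⟨_, rfl⟩
    have hu : Valid n (posw u) := (bd_valid u).mono (by omega)
    have hv : Valid n (posw v) := (bd_valid v).mono (by omega)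
    have hn1 : 1 ≤ n := by omega
    have hi : i + 1 < n := by omega
    have hj : i + 1 + 1 < n := by omega
    have e1 : posw (u ++ ([i,i+1,i] ++ v)) = posw u ++ ((i,true) :: (i+1,true) :: (i,true) :: posw v) := by
      simp [posw]
    have e2 : posw (u ++ ([i+1,i,i+1] ++ v)) = posw u ++ ((i+1,true) :: (i,true) :: (i+1,true) :: posw v) := by
      simp [posw]
    have v1 : Valid n (posw u ++ ((i,true) :: (i+1,true) :: (i,true) :: posw v)) :=
      hu.append (((hv.cons hi).cons hj).cons hi)
    have v2 : Valid n (posw u ++ ((i+1,true) :: (i,true) :: (i+1,true) :: posw v)) :=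
      hu.append (((hv.cons hj).cons hi).cons hj)
    rw [tv_eq hH hz hd hδ hn1 (by rw [e1]; exact v1), tv_eq hH hz hd hδ hn1 (by rw [e2]; exact v2),
      e1, e2, hH.cj n _ _ hn1 v1, hH.cj n _ _ hn1 v2]
    simp only [List.cons_append]
    rw [hH.br n _ i hn1 (hv.append hu) (by omega)]

/-- signed word in the Hecke algebra -/
noncomputable def sv (z : B) (w : BW) : Hk z := (w.map (fun x => if x.2 then gs z x.1 else gi z x.1)).prod

@[simp] lemma sv_nil : sv z [] = 1 := rfl
lemma sv_cons (x : ℕ × Bool) (w : BW) : sv z (x :: w) = (if x.2 then gs z x.1 else gi z x.1) * sv z w := by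
  simp [sv]
lemma sv_append (u v : BW) : sv z (u ++ v) = sv z u * sv z v := by simp [sv]

/-- the trace -/
theorem exists_trace (hH : HF (algebraMap B K z) (algebraMap B K a) H) (hz : algebraMap B K z ≠ 0)
    {δK : K} (hd : algebraMap B K z * δK = algebraMap B K a - (algebraMap B K a)⁻¹) (hδ : δK ≠ 0)
    (hκ : algebraMap B K κ * δK = algebraMap B K a) :
    ∃ t : Hk z →ₗ[B] K, MT z κ t ∧ t 1 = 1 ∧ ∀ n w, 1 ≤ n → Valid n w → δK^n * t (sv z w) = H n w := by
  obtain ⟨t, ht⟩ := desc (tv_WR hH hz hd hδ)
  have hval : ∀ n l, 1 ≤ n → Valid n (posw l) → δK^n * t (wv (gs z) l) = H n (posw l) := by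
    intro n l hn hl
    rw [ht, tv_eq hH hz hd hδ hn hl, mul_div_cancel₀ _ (pow_ne_zero _ hδ)]
  refine ⟨t, ⟨?_, ?_⟩, ?_, ?_⟩
  · -- trace property
    have hw : ∀ l l' : List ℕ, t (wv (gs z) l * wv (gs z) l') = t (wv (gs z) l' * wv (gs z) l) := by
      intro l l'
      rw [← wv_append, ← wv_append]
      have hn : 1 ≤ bd l + bd l' := by unfold bd; omega
      have v1 : Valid (bd l + bd l') (posw l ++ posw l') :=
        ((bd_valid l).mono (by omega)).append ((bd_valid l').mono (by omega))
      have h1 := hval (bd l + bd l') (l ++ l') hn (by rw [posw_append]; exact v1)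
      have h2 := hval (bd l + bd l') (l' ++ l) hn (by
        rw [posw_append]
        exact ((bd_valid l').mono (by omega)).append ((bd_valid l).mono (by omega)))
      rw [posw_append, hH.cj _ _ _ hn v1, ← posw_append, ← h2] at h1
      exact mul_left_cancel₀ (pow_ne_zero _ hδ) h1
    intro x y
    have hx := wv_span_all x
    have hy := wv_span_all y
    induction hx using Submodule.span_induction with
    | mem x hx =>
      obtain ⟨l, rfl⟩ := hx
      induction hy using Submodule.span_induction with
      | mem y hy => obtain ⟨l', rfl⟩ := hy; exact hw l l'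
      | zero => simp
      | add a b _ _ ha hb => rw [mul_add, add_mul, map_add, map_add, ha, hb]
      | smul c a _ ha => rw [mul_smul_comm, smul_mul_assoc, map_smul, map_smul, ha]
    | zero => simp
    | add a b _ _ ha hb => rw [mul_add, add_mul, map_add, map_add, ha, hb]
    | smul c a _ ha => rw [mul_smul_comm, smul_mul_assoc, map_smul, map_smul, ha]
  · -- stabilisation
    intro n x hx
    have hx' := wv_span hx
    induction hx' using Submodule.span_induction with
    | mem x hx1 =>
      obtain ⟨l, hl, rfl⟩ := hx1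
      have hv1 : Valid (n+1) (posw l) := valid_posw.2 hl
      have hv2 : Valid (n+1+1) (posw (l ++ [n])) := by
        rw [posw_append]
        exact (hv1.mono (by omega)).append ((Valid.nil _).cons (by omega))
      have h1 := hval (n+1) l (by omega) hv1
      have h2 := hval (n+1+1) (l ++ [n]) (by omega) hv2
      have h3 := hH.stp (n+1) (posw l) (by omega) hv1
      rw [Nat.add_sub_cancel] at h3
      have e : posw (l ++ [n]) = posw l ++ [(n,true)] := by simp [posw]
      rw [wv_append] at h2
      have e2 : wv (gs z) [n] = gs z n := by simp [wv]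
      rw [e, h3, ← h1, e2] at h2
      rw [Algebra.smul_def]
      apply mul_left_cancel₀ (pow_ne_zero (n+1+1) hδ)
      rw [h2, ← hκ]
      ring
    | zero => simp
    | add a b ha1 hb1 ha hb =>
      have hsub : ∀ w ∈ Submodule.span B {y | ∃ l : List ℕ, (∀ i ∈ l, i + 1 < n + 1) ∧ y = wv (gs z) l},
          w ∈ Hn z (n+1) := by
        intro w hw
        induction hw using Submodule.span_induction with
        | mem w hw =>
          obtain ⟨l, hl, rfl⟩ := hw
          exact wv_mem hl
        | zero => exact zero_mem _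
        | add x y _ _ hx hy => exact add_mem hx hy
        | smul c x _ hx => exact Subalgebra.smul_mem _ hx _
      rw [add_mul, map_add, map_add, ha (hsub _ ha1), hb (hsub _ hb1), smul_add]
    | smul c a ha1 ha =>
      have hsub : ∀ w ∈ Submodule.span B {y | ∃ l : List ℕ, (∀ i ∈ l, i + 1 < n + 1) ∧ y = wv (gs z) l},
          w ∈ Hn z (n+1) := by
        intro w hw
        induction hw using Submodule.span_induction with
        | mem w hw =>
          obtain ⟨l, hl, rfl⟩ := hw
          exact wv_mem hl
        | zero => exact zero_mem _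
        | add x y _ _ hx hy => exact add_mem hx hy
        | smul c x _ hx => exact Subalgebra.smul_mem _ hx _
      rw [smul_mul_assoc, map_smul, map_smul, ha (hsub _ ha1), smul_comm]
  · have h1 := hval 1 [] le_rfl (Valid.nil 1)
    have h2 := hH.unk
    rw [← hd] at h2
    have h3 : H 1 [] = δK := mul_left_cancel₀ hz h2
    rw [show posw [] = [] from rfl, h3, wv_nil, pow_one] at h1
    exact mul_left_cancel₀ hδ (by rw [h1, mul_one])
  · intro n w hn hw
    have key : ∀ w : BW, Valid n w → ∀ l : List ℕ, Valid n (posw l) →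
        δK^n * t (wv (gs z) l * sv z w) = H n (posw l ++ w) := by
      intro w
      induction w with
      | nil => intro _ l hl; rw [sv_nil, mul_one, List.append_nil]; exact hval n l hn hl
      | cons x w ih =>
        intro hw l hl
        obtain ⟨i, e⟩ := x
        have hi : i + 1 < n := hw (i,e) (by simp)
        have hw' : Valid n w := fun y hy => hw y (by simp [hy])
        have hl' : Valid n (posw (l ++ [i])) := by
          rw [posw_append]; exact hl.append ((Valid.nil _).cons hi)
        have h1 := ih hw' (l ++ [i]) hl'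
        have e1 : posw (l ++ [i]) ++ w = posw l ++ (i,true) :: w := by simp [posw]
        have e2 : wv (gs z) (l ++ [i]) = wv (gs z) l * gs z i := by rw [wv_append]; simp [wv]
        rw [e1, e2, mul_assoc] at h1
        rw [sv_cons]
        cases e with
        | true => simpa using h1
        | false =>
          have h2 := ih hw' l hl
          have h3 := hH.skc hn hl hw' hi
          simp only [Bool.false_eq_true, if_false]
          have e3 : wv (gs z) l * (gi z i * sv z w)
              = wv (gs z) l * (gs z i * sv z w) - z • (wv (gs z) l * sv z w) := by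
            rw [gi, sub_mul, mul_sub, smul_mul_assoc, one_mul, mul_smul_comm]
          rw [e3, map_sub, map_smul, Algebra.smul_def, mul_sub, h1]
          rw [← h2] at h3
          linear_combination h3
    have := key w hw [] (Valid.nil n)
    simpa [posw] using this

end tc

end Pool.Agent.W5h66
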