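import Pool.Agent.W5h66.Kp

/-! Casimir sums. -/

namespace Pool.Agent.W5h66

universe u v
variable {B : Type u} [CommRing B] {z : B}
variable {M : Type v} [AddCommGroup M]

/-- Casimir sum -/
noncomputable def Wf (z : B) (n : ℕ) (F : Hk z → Hk z → M) : M :=
  ((nnw n).map (fun w => F (wv (gs z) w) (wv (gs z) w.reverse))).sum

lemma dw_lt (k l : ℕ) : ∀ i ∈ dw k l, i < k + l := by
  induction l with
  | zero => intro i hi; simp [dw] at hi
  | succ l ih =>
    intro i hi
    simp only [dw, List.mem_cons] at hi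
    rcases hi with rfl | hi
    · omega
    · have := ih i hi; omega

lemma shw_lt : ∀ k l, ∀ w ∈ shw k l, ∀ i ∈ w, i + 1 < k + l := by
  intro k
  induction k with
  | zero => intro l w hw i hi; simp [shw] at hw; subst hw; simp at hi
  | succ k ihk =>
    intro l
    induction l with
    | zero => intro w hw i hi; simp [shw] at hw; subst hw; simp at hi
    | succ l ihl =>
      intro w hw i hi
      have e : shw (k+1) (l+1) = shw (k+1) l ++ (shw k (l+1)).map (· ++ dw k (l+1)) := rfl
      rw [e, List.mem_append] at hw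
      rcases hw with hw | hw
      · have := ihl w hw i hi; omega
      · obtain ⟨w', hw', rfl⟩ := List.mem_map.1 hw
        rcases List.mem_append.1 hi with hi | hi
        · have := ihk (l+1) w' hw' i hi; omega
        · have := dw_lt k (l+1) i hi; omega

lemma nnw_lt : ∀ n, ∀ w ∈ nnw n, ∀ i ∈ w, i + 1 < n := by
  intro n
  induction n with
  | zero => intro w hw i hi; simp [nnw] at hw; subst hw; simp at hi
  | succ n ih =>
    intro w hw i hi
    simp only [nnw, List.mem_flatMap, List.mem_map] at hw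
    obtain ⟨c, hc, w', hw', rfl⟩ := hw
    rcases List.mem_append.1 hi with hi | hi
    · have := shw_lt n 1 c hc i hi; omega
    · have := ih w' hw' i hi; omega

lemma wv_mem {n : ℕ} {w : List ℕ} (h : ∀ i ∈ w, i + 1 < n) : wv (gs z) w ∈ Hn z n := by
  induction w with
  | nil => simp [one_mem]
  | cons a w ih =>
    rw [wv_cons]
    exact mul_mem (gs_mem (h a (by simp))) (ih (fun i hi => h i (by simp [hi])))

lemma Wf_congr {n : ℕ} {F G : Hk z → Hk z → M} (h : ∀ a ∈ Hn z n, ∀ b ∈ Hn z n, F a b = G a b) :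
    Wf z n F = Wf z n G := by
  unfold Wf
  congr 1
  apply List.map_congr_left
  intro w hw
  exact h _ (wv_mem (nnw_lt n w hw)) _ (wv_mem (fun i hi => nnw_lt n w hw i (by simpa using hi)))

lemma Wf_add (n : ℕ) (F G : Hk z → Hk z → M) :
    Wf z n (fun a b => F a b + G a b) = Wf z n F + Wf z n G := by
  unfold Wf; rw [List.sum_map_add]
lemma Wf_zero (n : ℕ) : Wf z n (fun _ _ => (0 : M)) = 0 := by simp [Wf]
lemma Wf_sum {ι : Type*} (n : ℕ) (s : Finset ι) (F : ι → Hk z → Hk z → M) :
    Wf z n (fun a b => ∑ i ∈ s, F i a b) = ∑ i ∈ s, Wf z n (F i) := by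
  classical
  induction s using Finset.induction_on with
  | empty => simp [Wf_zero]
  | insert i s hi ih =>
    simp only [Finset.sum_insert hi]
    rw [Wf_add, ih]
lemma Wf_map {M' : Type*} [AddCommGroup M'] (f : M →+ M') (n : ℕ) (F : Hk z → Hk z → M) :
    f (Wf z n F) = Wf z n (fun a b => f (F a b)) := by
  unfold Wf; rw [map_list_sum, List.map_map]; rfl
@[simp] lemma Wf_nil (F : Hk z → Hk z → M) : Wf z 0 F = F 1 1 := by simp [Wf, nnw]
lemma shw_zero_left (l : ℕ) : shw 0 l = [[]] := rfl
@[simp] lemma Wf_one (F : Hk z → Hk z → M) : Wf z 1 F = F 1 1 := by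
  have : nnw 1 = [[]] := by simp [nnw, shw]
  simp [Wf, this]

lemma No_Wf (a b n : ℕ) (V : Hk z) :
    No z a b n V = Wf z n (fun x y => sn a x * V * sn b y) := No_words a b n V

variable [Module B M]

/-- dual operators on bilinear forms -/
noncomputable def tb (z : B) (M : Type v) [AddCommGroup M] [Module B M] (i : ℕ) :
    Module.End B (Hk z →ₗ[B] Hk z →ₗ[B] M) where
  toFun β := β.compl₁₂ (LinearMap.mulLeft B (gs z i)) (LinearMap.mulRight B (gs z i))
  map_add' x y := by ext a b; simp
  map_smul' c x := by ext a b; simp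

@[simp] lemma tb_apply (i : ℕ) (β : Hk z →ₗ[B] Hk z →ₗ[B] M) (a b : Hk z) :
    tb z M i β a b = β (gs z i * a) (b * gs z i) := rfl

lemma tb_isBr : IsBr (tb z M) where
  far i j h := by
    ext β a b
    simp only [Module.End.mul_apply, tb_apply]
    have h1 : gs z j * (gs z i * a) = gs z i * (gs z j * a) := by
      rw [← mul_assoc, ← gs_far i j h, mul_assoc]
    have h2 : b * gs z i * gs z j = b * gs z j * gs z i := by
      rw [mul_assoc, gs_far i j h, mul_assoc]
    rw [h1, h2]
  br i := by
    ext β a b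
    simp only [Module.End.mul_apply, tb_apply]
    have h1 : gs z i * (gs z (i+1) * (gs z i * a)) = gs z (i+1) * (gs z i * (gs z (i+1) * a)) := by
      simp only [← mul_assoc]; rw [gs_br]
    have h2 : b * gs z i * gs z (i+1) * gs z i = b * gs z (i+1) * gs z i * gs z (i+1) := by
      simp only [mul_assoc]; rw [← mul_assoc (gs z i), gs_br]; simp only [mul_assoc]
    rw [h1, h2]

lemma wv_tb (w : List ℕ) (β : Hk z →ₗ[B] Hk z →ₗ[B] M) (a b : Hk z) :
    wv (tb z M) w β a b = β (wv (gs z) w.reverse * a) (b * wv (gs z) w) := by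
  induction w generalizing a b with
  | nil => simp
  | cons i w ih =>
    rw [wv_cons, Module.End.mul_apply, tb_apply, ih, wv_cons, List.reverse_cons, wv_append]
    simp [wv, mul_assoc]

lemma NN_tb (n : ℕ) (β : Hk z →ₗ[B] Hk z →ₗ[B] M) (a b : Hk z) :
    NN (tb z M) n β a b = ((nnw n).map (fun w => β (wv (gs z) w.reverse * a) (b * wv (gs z) w))).sum := by
  have : ∀ L : List (List ℕ), ev (tb z M) L β a b
      = (L.map (fun w => β (wv (gs z) w.reverse * a) (b * wv (gs z) w))).sum := by
    intro L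
    induction L with
    | nil => simp
    | cons w L ih => rw [ev_cons, LinearMap.add_apply, LinearMap.add_apply, LinearMap.add_apply, ih, wv_tb]; simp
  exact this _

open MulOpposite in
lemma NN_tb' (n : ℕ) (β : Hk z →ₗ[B] Hk z →ₗ[B] M) (a b : Hk z) :
    NN (tb z M) n β a b = ((nnw n).map (fun w => β (wv (gs z) w * a) (b * wv (gs z) w.reverse))).sum := by
  have h := (tb_isBr (z := z) (M := M)).NN_op n
  have e : ∀ w : List ℕ, wv (fun i => op (tb z M i)) w = op (wv (tb z M) w.reverse) := by
    intro w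
    induction w with
    | nil => simp
    | cons i w ih =>
      rw [wv_cons, ih, List.reverse_cons, wv_append, ← op_mul]
      simp [wv]
  have e2 : ∀ L : List (List ℕ), unop (ev (fun i => op (tb z M i)) L) β a b
      = (L.map (fun w => β (wv (gs z) w * a) (b * wv (gs z) w.reverse))).sum := by
    intro L
    induction L with
    | nil => simp
    | cons w L ih =>
      rw [ev_cons, unop_add, LinearMap.add_apply, LinearMap.add_apply, LinearMap.add_apply, ih, e,
        unop_op, wv_tb, List.reverse_reverse]; simp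
  have h2 := congrArg unop h
  rw [unop_op] at h2
  rw [← h2]
  exact e2 _

lemma Wf_eq (n : ℕ) (β : Hk z →ₗ[B] Hk z →ₗ[B] M) :
    Wf z n (fun a b => β a b) = NN (tb z M) n β 1 1 := by
  rw [NN_tb']; simp [Wf]

/-- the Casimir element is symmetric -/
lemma Wf_flip (n : ℕ) (β : Hk z →ₗ[B] Hk z →ₗ[B] M) :
    Wf z n (fun a b => β a b) = Wf z n (fun a b => β b a) := by
  rw [Wf_eq, NN_tb]; simp [Wf]

lemma Wf_left_gs {n i : ℕ} (hi : i + 1 < n) (β : Hk z →ₗ[B] Hk z →ₗ[B] M) :
    Wf z n (fun a b => β (gs z i * a) b) = Wf z n (fun a b => β a (b * gs z i)) := by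
  obtain ⟨X, hX⟩ := (tb_isBr (z := z) (M := M)).N_rdiv n i hi
  have h1 := Wf_eq n (β.compl₁₂ (LinearMap.mulLeft B (gs z i)) LinearMap.id)
  have h2 := Wf_eq n (β.compl₁₂ LinearMap.id (LinearMap.mulRight B (gs z i)))
  have h3 : NN (tb z M) n (β.compl₁₂ (LinearMap.mulLeft B (gs z i)) LinearMap.id)
      = NN (tb z M) n (β.compl₁₂ LinearMap.id (LinearMap.mulRight B (gs z i))) := by
    rw [hX, Module.End.mul_apply, Module.End.mul_apply]
    congr 1
    ext a b
    simp only [LinearMap.add_apply, Module.End.one_apply, tb_apply, LinearMap.compl₁₂_apply,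
      LinearMap.mulLeft_apply, LinearMap.mulRight_apply, LinearMap.id_apply]
    rw [← mul_assoc, gs_quad, mul_assoc, gs_quad]
    simp only [add_mul, one_mul, mul_add, mul_one, smul_mul_assoc, mul_smul_comm, map_add, map_smul,
      LinearMap.add_apply, LinearMap.smul_apply]
    abel
  rw [h3] at h1
  simp only [LinearMap.compl₁₂_apply, LinearMap.mulLeft_apply, LinearMap.mulRight_apply,
    LinearMap.id_apply] at h1 h2
  rw [h1, h2]

lemma Wf_right_gs {n i : ℕ} (hi : i + 1 < n) (β : Hk z →ₗ[B] Hk z →ₗ[B] M) :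
    Wf z n (fun a b => β (a * gs z i) b) = Wf z n (fun a b => β a (gs z i * b)) := by
  obtain ⟨X, hX⟩ := (tb_isBr (z := z) (M := M)).N_ldiv n i hi
  have h1 : Wf z n (fun a b => β (a * gs z i) b) = NN (tb z M) n β (gs z i) 1 := by
    rw [NN_tb']; simp [Wf]
  have h2 : Wf z n (fun a b => β a (gs z i * b)) = NN (tb z M) n β 1 (gs z i) := by
    rw [NN_tb']; simp [Wf]
  rw [h1, h2, hX, Module.End.mul_apply]
  simp only [LinearMap.add_apply, Module.End.one_apply, tb_apply, one_mul, mul_one]
  rw [gs_quad]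
  simp only [map_add, map_smul, LinearMap.add_apply, LinearMap.smul_apply]
  abel

lemma Wf_left {n : ℕ} {u : Hk z} (hu : u ∈ Hn z n) : ∀ (β : Hk z →ₗ[B] Hk z →ₗ[B] M),
    Wf z n (fun a b => β (u * a) b) = Wf z n (fun a b => β a (b * u)) := by
  induction hu using Hn_induction with
  | hs i hi => exact fun β => Wf_left_gs hi β
  | hc r =>
    intro β
    refine Wf_congr (fun a _ b _ => ?_)
    rw [← Algebra.smul_def, ← Algebra.commutes, ← Algebra.smul_def]
    simp
  | ha x y _ _ hx hy =>
    intro β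
    have e1 : (fun a b => β ((x + y) * a) b) = fun a b => β (x * a) b + β (y * a) b := by
      funext a b; rw [add_mul, map_add, LinearMap.add_apply]
    have e2 : (fun a b => β a (b * (x + y))) = fun a b => β a (b * x) + β a (b * y) := by
      funext a b; rw [mul_add, map_add]
    rw [e1, e2, Wf_add, Wf_add, hx, hy]
  | hm x y _ _ hx hy =>
    intro β
    have h1 := hy (β.compl₁₂ (LinearMap.mulLeft B x) LinearMap.id)
    have h2 := hx (β.compl₁₂ LinearMap.id (LinearMap.mulRight B y))
    simp only [LinearMap.compl₁₂_apply, LinearMap.mulLeft_apply, LinearMap.mulRight_apply,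
      LinearMap.id_apply] at h1 h2
    simp only [← mul_assoc] at h1 h2 ⊢
    rw [h1, h2]

lemma Wf_right {n : ℕ} {u : Hk z} (hu : u ∈ Hn z n) : ∀ (β : Hk z →ₗ[B] Hk z →ₗ[B] M),
    Wf z n (fun a b => β (a * u) b) = Wf z n (fun a b => β a (u * b)) := by
  induction hu using Hn_induction with
  | hs i hi => exact fun β => Wf_right_gs hi β
  | hc r =>
    intro β
    refine Wf_congr (fun a _ b _ => ?_)
    rw [← Algebra.commutes, ← Algebra.smul_def, ← Algebra.smul_def]
    simp
  | ha x y _ _ hx hy =>
    intro β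
    have e1 : (fun a b => β (a * (x + y)) b) = fun a b => β (a * x) b + β (a * y) b := by
      funext a b; rw [mul_add, map_add, LinearMap.add_apply]
    have e2 : (fun a b => β a ((x + y) * b)) = fun a b => β a (x * b) + β a (y * b) := by
      funext a b; rw [add_mul, map_add]
    rw [e1, e2, Wf_add, Wf_add, hx, hy]
  | hm x y _ _ hx hy =>
    intro β
    have k1 := hx (β.compl₁₂ (LinearMap.mulRight B y) LinearMap.id)
    have k2 := hy (β.compl₁₂ LinearMap.id (LinearMap.mulLeft B x))
    simp only [LinearMap.compl₁₂_apply, LinearMap.mulLeft_apply, LinearMap.mulRight_apply,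
      LinearMap.id_apply] at k1 k2
    simp only [← mul_assoc] at k1 k2 ⊢
    rw [k1, k2]

end Pool.Agent.W5h66
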